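import Mathlib

/-!
# The triangular argument with cyclotomic denominators
-/

set_option autoImplicit false

namespace Pool.Agent.TH10.RP

open Polynomial Finset

/-- the indices of the cyclotomic polynomials prime to both denominators -/
def NE (l d μ : ℕ) : Finset ℕ := (Icc 2 l).filter (fun e => ¬ e ∣ d ∧ ¬ e ∣ μ)

/-- the polynomial of a combination of the products of two cotangents -/
noncomputable def PC {F : Type*} [CommRing F] (a : ℕ → ℕ → F) (M : ℕ → Finset ℕ) (l : ℕ) : F[X] :=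
  ∑ d ∈ Icc 3 l, ∑ μ ∈ M d, C (a d μ) * ((X ^ d + 1) * (X ^ μ + 1)) *
    ∏ e ∈ NE l d μ, cyclotomic e F

/-- divisors at least two -/
lemma prod_div2 {F : Type*} [CommRing F] [IsDomain F] (d : ℕ) (hd : 1 ≤ d) :
    (X - 1) * ∏ e ∈ d.divisors.erase 1, cyclotomic e F = X ^ d - 1 := by
  rw [← prod_cyclotomic_eq_X_pow_sub_one hd F, ← mul_prod_erase d.divisors (fun e => cyclotomic e F)
    (Nat.one_mem_divisors.2 (by omega)), cyclotomic_one]

lemma split_Icc (l d μ : ℕ) (hd : 1 ≤ d) (hdl : d ≤ l) (hμ : 1 ≤ μ) (hμl : μ ≤ l)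
    (hc : μ.Coprime d) :
    Icc 2 l = (d.divisors.erase 1 ∪ μ.divisors.erase 1) ∪ NE l d μ ∧
      Disjoint (d.divisors.erase 1) (μ.divisors.erase 1) ∧
      Disjoint (d.divisors.erase 1 ∪ μ.divisors.erase 1) (NE l d μ) := by
  have key : ∀ e : ℕ, 2 ≤ e → e ∣ d → e ∣ μ → False := by
    intro e h1 h2 h3
    have := Nat.eq_one_of_dvd_coprimes hc h3 h2
    omega
  refine ⟨?_, ?_, ?_⟩
  · ext e
    simp only [mem_Icc, mem_union, mem_erase, Nat.mem_divisors, NE, mem_filter]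
    constructor
    · rintro ⟨h1, h2⟩
      by_cases h3 : e ∣ d
      · exact Or.inl (Or.inl ⟨by omega, h3, by omega⟩)
      · by_cases h4 : e ∣ μ
        · exact Or.inl (Or.inr ⟨by omega, h4, by omega⟩)
        · exact Or.inr ⟨⟨h1, h2⟩, h3, h4⟩
    · rintro ((⟨h1, h2, h3⟩ | ⟨h1, h2, h3⟩) | ⟨h1, h2⟩)
      · have h4 := Nat.le_of_dvd (by omega) h2
        have h5 := Nat.pos_of_dvd_of_pos h2 (by omega)
        omega
      · have h4 := Nat.le_of_dvd (by omega) h2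
        have h5 := Nat.pos_of_dvd_of_pos h2 (by omega)
        omega
      · exact h1
  · rw [disjoint_left]
    intro e h1 h2
    rw [mem_erase, Nat.mem_divisors] at h1 h2
    have h5 := Nat.pos_of_dvd_of_pos h1.2.1 (by omega)
    exact key e (by omega) h1.2.1 h2.2.1
  · rw [disjoint_left]
    intro e h1 h2
    rw [NE, mem_filter] at h2
    rw [mem_union, mem_erase, mem_erase, Nat.mem_divisors, Nat.mem_divisors] at h1
    rcases h1 with h1 | h1
    · exact h2.2.1 h1.2.1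
    · exact h2.2.2 h1.2.1

lemma denom {F : Type*} [CommRing F] [IsDomain F] (l d μ : ℕ) (hd : 1 ≤ d) (hdl : d ≤ l) (hμ : 1 ≤ μ)
    (hμl : μ ≤ l) (hc : μ.Coprime d) :
    (X ^ d - 1) * (X ^ μ - 1) * ∏ e ∈ NE l d μ, cyclotomic e F =
      (X - 1) ^ 2 * ∏ e ∈ Icc 2 l, cyclotomic e F := by
  obtain ⟨h1, h2, h3⟩ := split_Icc l d μ hd hdl hμ hμl hc
  rw [h1, prod_union h3, prod_union h2, ← prod_div2 (F := F) d hd, ← prod_div2 (F := F) μ hμ]
  ring

lemma sum_tot (d : ℕ) (hd : 1 ≤ d) : 1 + ∑ e ∈ d.divisors.erase 1, e.totient = d := by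
  have h1 := Nat.sum_totient d
  rw [← add_sum_erase d.divisors (fun e => e.totient) (Nat.one_mem_divisors.2 (by omega))] at h1
  simpa using h1

lemma denom_deg (l d μ : ℕ) (hd : 1 ≤ d) (hdl : d ≤ l) (hμ : 1 ≤ μ) (hμl : μ ≤ l)
    (hc : μ.Coprime d) :
    d + μ + ∑ e ∈ NE l d μ, e.totient = 2 + ∑ e ∈ Icc 2 l, e.totient := by
  obtain ⟨h1, h2, h3⟩ := split_Icc l d μ hd hdl hμ hμl hc
  rw [h1, sum_union h3, sum_union h2]
  have h4 := sum_tot d hd
  have h5 := sum_tot μ hμ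
  omega

theorem PC_natDegree {F : Type*} [CommRing F] [Nontrivial F] (a : ℕ → ℕ → F) (M : ℕ → Finset ℕ)
    (l : ℕ) (hM : ∀ d ∈ Icc 3 l, ∀ μ ∈ M d, 1 ≤ μ ∧ μ < d ∧ μ.Coprime d) :
    (PC a M l).natDegree ≤ 2 + ∑ e ∈ Icc 2 l, e.totient := by
  classical
  unfold PC
  refine natDegree_sum_le_of_forall_le _ _ (fun d hd => natDegree_sum_le_of_forall_le _ _ (fun μ hμ => ?_))
  have h1 := hM d hd μ hμ
  rw [mem_Icc] at hd
  rw [← denom_deg l d μ (by omega) hd.2 h1.1 (by omega) h1.2.2]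
  have e1 : ∀ n : ℕ, (X ^ n + 1 : F[X]).natDegree ≤ n := fun n => by compute_degree
  have e3 : (∏ e ∈ NE l d μ, cyclotomic e F).natDegree ≤ ∑ e ∈ NE l d μ, e.totient :=
    (natDegree_prod_le _ _).trans (sum_le_sum fun e _ => (natDegree_cyclotomic e F).le)
  have e4 := natDegree_mul_le (p := C (a d μ) * ((X ^ d + 1) * (X ^ μ + 1)))
    (q := ∏ e ∈ NE l d μ, cyclotomic e F)
  have e5 := natDegree_C_mul_le (a d μ) ((X ^ d + 1) * (X ^ μ + 1))
  have e6 := natDegree_mul_le (p := (X ^ d + 1 : F[X])) (q := X ^ μ + 1)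
  have e7 := e1 d
  have e8 := e1 μ
  omega

theorem PC_succ {F : Type*} [CommRing F] (a : ℕ → ℕ → F) (M : ℕ → Finset ℕ) (l : ℕ) (hl : 3 ≤ l + 1)
    (hM : ∀ d ∈ Icc 3 (l + 1), ∀ μ ∈ M d, 1 ≤ μ ∧ μ < d ∧ μ.Coprime d) :
    PC a M (l + 1) = cyclotomic (l + 1) F * PC a M l +
      ∑ μ ∈ M (l + 1), C (a (l + 1) μ) * ((X ^ (l + 1) + 1) * (X ^ μ + 1)) *
        ∏ e ∈ NE l (l + 1) μ, cyclotomic e F := by
  classical
  unfold PC
  rw [sum_Icc_succ_top hl, mul_sum]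
  refine congrArg₂ (· + ·) ?_ ?_
  · refine sum_congr rfl fun d hd => ?_
    rw [mul_sum]
    refine sum_congr rfl fun μ hμ => ?_
    rw [mem_Icc] at hd
    have h1 := hM d (mem_Icc.2 ⟨hd.1, by omega⟩) μ hμ
    have h2 : ¬ (l + 1) ∣ d := fun h => by have := Nat.le_of_dvd (by omega) h; omega
    have h3 : ¬ (l + 1) ∣ μ := fun h => by have := Nat.le_of_dvd (by omega) h; omega
    have e1 : NE (l + 1) d μ = insert (l + 1) (NE l d μ) := by
      ext x
      simp only [NE, mem_filter, mem_Icc, mem_insert]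
      constructor
      · rintro ⟨h4, h5⟩
        rcases Nat.lt_or_ge x (l + 1) with h6 | h6
        · exact Or.inr ⟨⟨h4.1, by omega⟩, h5⟩
        · exact Or.inl (by omega)
      · rintro (rfl | ⟨h4, h5⟩)
        · exact ⟨⟨by omega, le_rfl⟩, h2, h3⟩
        · exact ⟨⟨h4.1, by omega⟩, h5⟩
    have e2 : l + 1 ∉ NE l d μ := by
      simp only [NE, mem_filter, mem_Icc]
      omega
    rw [e1, prod_insert e2]
    ring
  · refine sum_congr rfl fun μ hμ => ?_
    have e1 : NE (l + 1) (l + 1) μ = NE l (l + 1) μ := by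
      ext x
      simp only [NE, mem_filter, mem_Icc]
      constructor
      · rintro ⟨h4, h5⟩
        refine ⟨⟨h4.1, ?_⟩, h5⟩
        rcases Nat.lt_or_ge x (l + 1) with h6 | h6
        · omega
        · exfalso
          have : x = l + 1 := by omega
          exact h5.1 (this ▸ dvd_refl _)
      · rintro ⟨h4, h5⟩
        exact ⟨⟨h4.1, by omega⟩, h5⟩
    rw [e1]

lemma top_relation {F K : Type} [Field F] [Field K] [Algebra F K] (h2 : (2 : K) ≠ 0) (l : ℕ)
    (hl : 3 ≤ l + 1) (T : Finset ℕ) (hM : ∀ μ ∈ T, 1 ≤ μ ∧ μ < l + 1 ∧ μ.Coprime (l + 1))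
    (a : ℕ → F) (ζ : K) (hζ : IsPrimitiveRoot ζ (l + 1))
    (h1 : ∑ μ ∈ T, aeval ζ (C (a μ) * ((X ^ (l + 1) + 1) * (X ^ μ + 1)) *
      ∏ e ∈ NE l (l + 1) μ, cyclotomic e F) = 0) :
    ∑ μ ∈ T, algebraMap F K (a μ) * ((ζ ^ μ + 1) / (ζ ^ μ - 1)) = 0 := by
  classical
  have hcyc : ∀ e ∈ Icc 2 l, aeval ζ (cyclotomic e F) ≠ 0 := by
    intro e he h0
    rw [mem_Icc] at he
    have h1 : ζ ^ e = 1 := by
      have h2 := congrArg (aeval ζ) (prod_cyclotomic_eq_X_pow_sub_one (show 0 < e by omega) F)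
      rw [map_prod, prod_eq_zero (Nat.mem_divisors_self e (by omega)) h0, map_sub, map_pow,
        aeval_X, map_one] at h2
      exact (sub_eq_zero.1 h2.symm)
    have := (hζ.pow_eq_one_iff_dvd e).1 h1
    have := Nat.le_of_dvd (by omega) this
    omega
  set c : K := ∏ e ∈ (Icc 2 l).filter (fun e => ¬ e ∣ (l + 1)), aeval ζ (cyclotomic e F) with hc
  have hc0 : c ≠ 0 := prod_ne_zero_iff.2 fun e he => hcyc e (mem_filter.1 he).1
  have hζ1 : ζ - 1 ≠ 0 := sub_ne_zero.2 (hζ.ne_one (by omega))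
  have h3 : (2 * c * (ζ - 1)) *
      ∑ μ ∈ T, algebraMap F K (a μ) * ((ζ ^ μ + 1) / (ζ ^ μ - 1)) = 0 := by
    rw [mul_sum, ← h1]
    refine sum_congr rfl fun μ hμ => ?_
    have hμ' := hM μ hμ
    have hμne : ζ ^ μ - 1 ≠ 0 := by
      intro h0
      have := (hζ.pow_eq_one_iff_dvd μ).1 (sub_eq_zero.1 h0)
      have := Nat.le_of_dvd (by omega) this
      omega
    have hsplit : (Icc 2 l).filter (fun e => ¬ e ∣ (l + 1)) = μ.divisors.erase 1 ∪ NE l (l + 1) μ := by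
      ext e
      simp only [NE, mem_filter, mem_union, mem_erase, Nat.mem_divisors, mem_Icc]
      constructor
      · rintro ⟨h4, h5⟩
        by_cases h6 : e ∣ μ
        · exact Or.inl ⟨by omega, h6, by omega⟩
        · exact Or.inr ⟨h4, h5, h6⟩
      · rintro (⟨h4, h5, h6⟩ | ⟨h4, h5, h6⟩)
        · have h7 := Nat.le_of_dvd (by omega) h5
          have h8 := Nat.pos_of_dvd_of_pos h5 (by omega)
          refine ⟨by omega, fun h9 => ?_⟩
          have := Nat.eq_one_of_dvd_coprimes hμ'.2.2 h5 h9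
          exact h4 this
        · exact ⟨h4, h5⟩
    have hdis : Disjoint (μ.divisors.erase 1) (NE l (l + 1) μ) := by
      rw [disjoint_left]
      intro e h4 h5
      rw [mem_erase, Nat.mem_divisors] at h4
      rw [NE, mem_filter] at h5
      exact h5.2.2 h4.2.1
    have hcs : c = (∏ e ∈ μ.divisors.erase 1, aeval ζ (cyclotomic e F)) *
        ∏ e ∈ NE l (l + 1) μ, aeval ζ (cyclotomic e F) := by
      rw [hc, hsplit, prod_union hdis]
    have hdv : (ζ - 1) * ∏ e ∈ μ.divisors.erase 1, aeval ζ (cyclotomic e F) = ζ ^ μ - 1 := by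
      have h4 := congrArg (aeval ζ) (prod_div2 (F := F) μ hμ'.1)
      simpa [map_prod] using h4
    simp only [map_mul, map_add, map_pow, aeval_X, map_one, aeval_C, map_prod, hζ.pow_eq_one]
    rw [hcs]
    field_simp
    linear_combination ((algebraMap F K (a μ)) * (∏ e ∈ NE l (l + 1) μ, aeval ζ (cyclotomic e F)) * 2 *
      (ζ ^ μ + 1)) * hdv
  rcases mul_eq_zero.1 h3 with h4 | h4
  · exact absurd h4 (mul_ne_zero (mul_ne_zero h2 hc0) hζ1)
  · exact h4

theorem PC_zero (p : ℕ) [Fact p.Prime] (hp2 : p ≠ 2) (a : ℕ → ℕ → ZMod p) (M : ℕ → Finset ℕ) (l : ℕ)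
    (hM : ∀ d ∈ Icc 3 l, ∀ μ ∈ M d, 1 ≤ μ ∧ μ < d ∧ μ.Coprime d)
    (hind : ∀ d ∈ Icc 3 l, ∀ f : ℕ → ZMod p,
      (∀ ζ : AlgebraicClosure (ZMod p), IsPrimitiveRoot ζ d →
        ∑ μ ∈ M d, algebraMap (ZMod p) (AlgebraicClosure (ZMod p)) (f μ) * ((ζ ^ μ + 1) / (ζ ^ μ - 1)) = 0) →
      ∀ μ ∈ M d, f μ = 0) (h : PC a M l = 0) : ∀ d ∈ Icc 3 l, ∀ μ ∈ M d, a d μ = 0 := by
  classical
  induction l with
  | zero => intro d hd; rw [mem_Icc] at hd; omega
  | succ l ih =>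
    rcases Nat.lt_or_ge (l + 1) 3 with hl | hl
    · intro d hd; rw [mem_Icc] at hd; omega
    rw [PC_succ a M l hl hM] at h
    have htop : ∀ μ ∈ M (l + 1), a (l + 1) μ = 0 := by
      refine hind (l + 1) (mem_Icc.2 ⟨hl, le_rfl⟩) (a (l + 1)) fun ζ hζ => ?_
      have hcyc0 : aeval ζ (cyclotomic (l + 1) (ZMod p)) = 0 := by
        rw [aeval_def, ← eval_map, map_cyclotomic]
        exact (hζ.isRoot_cyclotomic (by omega))
      have h2 : (2 : AlgebraicClosure (ZMod p)) ≠ 0 := by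
        intro h0
        have h3 : ((2 : ℕ) : AlgebraicClosure (ZMod p)) = 0 := by exact_mod_cast h0
        rw [CharP.cast_eq_zero_iff (AlgebraicClosure (ZMod p)) p] at h3
        exact hp2 ((Nat.prime_dvd_prime_iff_eq (Fact.out : p.Prime) Nat.prime_two).1 h3)
      have h1 := congrArg (aeval ζ) h
      rw [map_zero, map_add, map_mul, hcyc0, zero_mul, zero_add, map_sum] at h1
      exact top_relation h2 l hl (M (l + 1)) (hM (l + 1) (mem_Icc.2 ⟨hl, le_rfl⟩)) (a (l + 1)) ζ hζ h1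
    have hrest : PC a M l = 0 := by
      have h1 : ∑ μ ∈ M (l + 1), C (a (l + 1) μ) * ((X ^ (l + 1) + 1) * (X ^ μ + 1)) *
        ∏ e ∈ NE l (l + 1) μ, cyclotomic e (ZMod p) = (0 : (ZMod p)[X]) := by
        refine sum_eq_zero fun μ hμ => ?_
        rw [htop μ hμ]
        simp
      rw [h1, add_zero] at h
      rcases mul_eq_zero.1 h with h2 | h2
      · exact absurd h2 (cyclotomic_ne_zero (l + 1) (ZMod p))
      · exact h2
    have hIH := ih (fun d hd => hM d (mem_Icc.2 ⟨(mem_Icc.1 hd).1, by have := (mem_Icc.1 hd).2; omega⟩))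
      (fun d hd => hind d (mem_Icc.2 ⟨(mem_Icc.1 hd).1, by have := (mem_Icc.1 hd).2; omega⟩)) hrest
    intro d hd μ hμ
    rw [mem_Icc] at hd
    rcases Nat.lt_or_ge d (l + 1) with hd1 | hd1
    · exact hIH d (mem_Icc.2 ⟨hd.1, by omega⟩) μ hμ
    · have : d = l + 1 := by omega
      subst this
      exact htop μ hμ

end Pool.Agent.TH10.RP
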