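import Mathlib

/-!
# The triangular argument: products of cotangents with different denominators
-/

set_option autoImplicit false

namespace Pool.Agent.TH10.RP

open Polynomial Finset

/-- the polynomial of a combination of the products of two cotangents -/
noncomputable def PL {F : Type*} [CommRing F] (a : ℕ → ℕ → F) (M : ℕ → Finset ℕ) (l : ℕ) : F[X] :=
  ∑ d ∈ Icc 3 l, ∑ μ ∈ M d, C (a d μ) * ((X ^ d + 1) * (X ^ μ + 1)) *
    ∏ e ∈ ((Icc 1 l).erase d).erase μ, (X ^ e - 1)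

theorem PL_succ {F : Type*} [CommRing F] (a : ℕ → ℕ → F) (M : ℕ → Finset ℕ) (l : ℕ) (hl : 3 ≤ l + 1)
    (hM : ∀ d ∈ Icc 3 (l + 1), ∀ μ ∈ M d, 1 ≤ μ ∧ μ < d) :
    PL a M (l + 1) = (X ^ (l + 1) - 1) * PL a M l +
      ∑ μ ∈ M (l + 1), C (a (l + 1) μ) * ((X ^ (l + 1) + 1) * (X ^ μ + 1)) *
        ∏ e ∈ (Icc 1 l).erase μ, (X ^ e - 1) := by
  classical
  unfold PL
  rw [sum_Icc_succ_top hl, mul_sum]
  refine congrArg₂ (· + ·) ?_ ?_
  · refine sum_congr rfl fun d hd => ?_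
    rw [mul_sum]
    refine sum_congr rfl fun μ hμ => ?_
    rw [mem_Icc] at hd
    have h1 := hM d (mem_Icc.2 ⟨hd.1, by omega⟩) μ hμ
    have e1 : ((Icc 1 (l + 1)).erase d).erase μ = insert (l + 1) (((Icc 1 l).erase d).erase μ) := by
      ext x
      simp only [mem_erase, mem_Icc, mem_insert]
      omega
    have e2 : l + 1 ∉ ((Icc 1 l).erase d).erase μ := by
      simp only [mem_erase, mem_Icc]
      omega
    rw [e1, prod_insert e2]
    ring
  · refine sum_congr rfl fun μ hμ => ?_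
    have e1 : (Icc 1 (l + 1)).erase (l + 1) = Icc 1 l := by
      ext x
      simp only [mem_erase, mem_Icc]
      omega
    rw [e1]

theorem PL_zero (p : ℕ) [Fact p.Prime] (hp2 : p ≠ 2) (a : ℕ → ℕ → ZMod p) (M : ℕ → Finset ℕ) (l : ℕ)
    (hM : ∀ d ∈ Icc 3 l, ∀ μ ∈ M d, 1 ≤ μ ∧ μ < d)
    (hind : ∀ d ∈ Icc 3 l, ∀ f : ℕ → ZMod p,
      (∀ ζ : AlgebraicClosure (ZMod p), IsPrimitiveRoot ζ d →
        ∑ μ ∈ M d, algebraMap (ZMod p) (AlgebraicClosure (ZMod p)) (f μ) * ((ζ ^ μ + 1) / (ζ ^ μ - 1)) = 0) →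
      ∀ μ ∈ M d, f μ = 0) (h : PL a M l = 0) : ∀ d ∈ Icc 3 l, ∀ μ ∈ M d, a d μ = 0 := by
  classical
  induction l with
  | zero => intro d hd; rw [mem_Icc] at hd; omega
  | succ l ih =>
    rcases Nat.lt_or_ge (l + 1) 3 with hl | hl
    · intro d hd; rw [mem_Icc] at hd; omega
    rw [PL_succ a M l hl hM] at h
    have htop : ∀ μ ∈ M (l + 1), a (l + 1) μ = 0 := by
      refine hind (l + 1) (mem_Icc.2 ⟨hl, le_rfl⟩) (a (l + 1)) fun ζ hζ => ?_
      have h1 := congrArg (aeval ζ) h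
      rw [map_zero, map_add, map_mul, map_sub, map_pow, aeval_X, map_one, hζ.pow_eq_one, sub_self,
        zero_mul, zero_add, map_sum] at h1
      have hne : ∀ e ∈ Icc 1 l, ζ ^ e - 1 ≠ 0 := by
        intro e he h0
        rw [mem_Icc] at he
        have := (hζ.pow_eq_one_iff_dvd e).1 (sub_eq_zero.1 h0)
        have := Nat.le_of_dvd (by omega) this
        omega
      have h2 : (2 : AlgebraicClosure (ZMod p)) ≠ 0 := by
        intro h0
        have h3 : ((2 : ℕ) : AlgebraicClosure (ZMod p)) = 0 := by exact_mod_cast h0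
        rw [CharP.cast_eq_zero_iff (AlgebraicClosure (ZMod p)) p] at h3
        exact hp2 ((Nat.prime_dvd_prime_iff_eq (Fact.out : p.Prime) Nat.prime_two).1 h3)
      have hprod : ∏ e ∈ Icc 1 l, (ζ ^ e - 1) ≠ 0 := prod_ne_zero_iff.2 hne
      have h3 : (2 * ∏ e ∈ Icc 1 l, (ζ ^ e - 1)) *
          ∑ μ ∈ M (l + 1), algebraMap (ZMod p) (AlgebraicClosure (ZMod p)) (a (l + 1) μ) *
            ((ζ ^ μ + 1) / (ζ ^ μ - 1)) = 0 := by
        rw [mul_sum, ← h1]
        refine sum_congr rfl fun μ hμ => ?_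
        have hμ' := hM (l + 1) (mem_Icc.2 ⟨hl, le_rfl⟩) μ hμ
        have hmem : μ ∈ Icc 1 l := mem_Icc.2 ⟨hμ'.1, by omega⟩
        rw [← mul_prod_erase _ _ hmem]
        simp only [map_mul, map_add, map_pow, aeval_X, map_one, aeval_C, map_prod, map_sub,
          hζ.pow_eq_one]
        have := hne μ hmem
        field_simp
        ring
      rcases mul_eq_zero.1 h3 with h4 | h4
      · exact absurd h4 (mul_ne_zero h2 hprod)
      · exact h4
    have hrest : PL a M l = 0 := by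
      have h1 : ∑ μ ∈ M (l + 1), C (a (l + 1) μ) * ((X ^ (l + 1) + 1) * (X ^ μ + 1)) *
        ∏ e ∈ (Icc 1 l).erase μ, (X ^ e - 1) = (0 : (ZMod p)[X]) := by
        refine sum_eq_zero fun μ hμ => ?_
        rw [htop μ hμ]
        simp
      rw [h1, add_zero] at h
      rcases mul_eq_zero.1 h with h2 | h2
      · exfalso
        have := X_pow_sub_C_ne_zero (R := ZMod p) (n := l + 1) (by omega) 1
        rw [C_1] at this
        exact this h2
      · exact h2
    have hIH := ih (fun d hd => hM d (mem_Icc.2 ⟨(mem_Icc.1 hd).1, by have := (mem_Icc.1 hd).2; omega⟩))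
      (fun d hd => hind d (mem_Icc.2 ⟨(mem_Icc.1 hd).1, by have := (mem_Icc.1 hd).2; omega⟩)) hrest
    intro d hd μ hμ
    rw [mem_Icc] at hd
    rcases Nat.lt_or_ge d (l + 1) with hd1 | hd1
    · exact hIH d (mem_Icc.2 ⟨hd.1, by omega⟩) μ hμ
    · have : d = l + 1 := by omega
      subst this
      exact htop μ hμ

theorem PL_natDegree {F : Type*} [CommRing F] [Nontrivial F] (a : ℕ → ℕ → F) (M : ℕ → Finset ℕ) (l : ℕ)
    (hM : ∀ d ∈ Icc 3 l, ∀ μ ∈ M d, 1 ≤ μ ∧ μ < d) : 2 * (PL a M l).natDegree ≤ l * (l + 1) := by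
  classical
  have hsum : 2 * ∑ e ∈ Icc 1 l, e = l * (l + 1) := by
    clear hM
    induction l with
    | zero => simp
    | succ l ih =>
      rw [sum_Icc_succ_top (by omega), mul_add, ih]
      ring
  have : (PL a M l).natDegree ≤ ∑ e ∈ Icc 1 l, e := by
    unfold PL
    refine natDegree_sum_le_of_forall_le _ _ (fun d hd => natDegree_sum_le_of_forall_le _ _ (fun μ hμ => ?_))
    have h1 := hM d hd μ hμ
    rw [mem_Icc] at hd
    have hd1 : d ∈ Icc 1 l := mem_Icc.2 ⟨by omega, hd.2⟩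
    have hμ1 : μ ∈ (Icc 1 l).erase d := mem_erase.2 ⟨by omega, mem_Icc.2 ⟨h1.1, by omega⟩⟩
    rw [← add_sum_erase _ _ hd1, ← add_sum_erase _ _ hμ1]
    have e1 : ∀ n : ℕ, (X ^ n + 1 : F[X]).natDegree ≤ n := fun n => by compute_degree
    have e2 : ∀ n : ℕ, (X ^ n - 1 : F[X]).natDegree ≤ n := fun n => by compute_degree
    have e3 : (∏ e ∈ ((Icc 1 l).erase d).erase μ, (X ^ e - 1) : F[X]).natDegree ≤
        ∑ e ∈ ((Icc 1 l).erase d).erase μ, e :=
      (natDegree_prod_le _ _).trans (sum_le_sum fun e _ => e2 e)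
    have e4 := natDegree_mul_le (p := C (a d μ) * ((X ^ d + 1) * (X ^ μ + 1)))
      (q := ∏ e ∈ ((Icc 1 l).erase d).erase μ, (X ^ e - 1))
    have e5 := natDegree_C_mul_le (a d μ) ((X ^ d + 1) * (X ^ μ + 1))
    have e6 := natDegree_mul_le (p := (X ^ d + 1 : F[X])) (q := X ^ μ + 1)
    have e7 := e1 d
    have e8 := e1 μ
    omega
  omega

end Pool.Agent.TH10.RP
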