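import Mathlib
import Pool.Agent.TH10.RP.Tri
import Pool.Agent.H582R5.RP.Core2
import Pool.Agent.TH350.RC.SumReg

/-!
# Many integers are sums of two regular indices: the dimension argument
-/

set_option autoImplicit false

namespace Pool.Agent.TH10.RP

open Finset PowerSeries Pool.Agent.H582R5.RP Pool.Agent.H332R2 Pool.Agent.TH350.SumReg

variable {p : ℕ} [Fact p.Prime]

/-- the series `(a t / 2) coth (a t / 2)` modulo `p` -/
noncomputable def YS (p : ℕ) [Fact p.Prime] (a : ZMod p) : PowerSeries (ZMod p) :=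
  rescale a (bb p) + C (a / 2) * X

lemma YS_rel (N : ℕ) (hN : N ≤ p) (h2 : p ≠ 2) (a : ZMod p) :
    (qm (ZMod p) N (ee a) - 1) * qm (ZMod p) N (YS p a) =
      qm (ZMod p) N (C (a / 2) * X) * (qm (ZMod p) N (ee a) + 1) := by
  have h := bb_rec' (K := ZMod p) p N hN a
  have h20 : (2 : ZMod p) ≠ 0 := by
    intro h0
    have h3 : ((2 : ℕ) : ZMod p) = 0 := by exact_mod_cast h0
    rw [ZMod.natCast_eq_zero_iff] at h3
    exact h2 ((Nat.prime_dvd_prime_iff_eq (Fact.out : p.Prime) Nat.prime_two).1 h3)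
  have e : (C a * X : PowerSeries (ZMod p)) = C (a / 2) * X + C (a / 2) * X := by
    rw [← add_mul, ← map_add]
    congr 2
    field_simp
    ring
  rw [YS, map_add, mul_add, h, e, map_add]
  ring

lemma YS_odd (h3 : 3 ≤ p) (a : ZMod p) (m : ℕ) : coeff (2 * m + 1) (YS p a) = 0 := by
  rw [YS, map_add, coeff_rescale, bb, coeff_mk, coeff_C_mul, coeff_X]
  rcases Nat.eq_zero_or_pos m with rfl | hm
  · rw [Nat.mul_zero, Nat.zero_add, if_pos rfl, cc_one p h3]
    simp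
    ring
  · rw [if_neg (by omega)]
    have hb : _root_.bernoulli (2 * m + 1) = 0 := bernoulli_eq_zero_of_odd ⟨m, rfl⟩ (by omega)
    unfold Pool.Agent.H332R2.cc
    rw [hb]
    simp

lemma YS_even (a : ZMod p) (m : ℕ) : coeff (2 * m) (YS p a) = a ^ (2 * m) * cc p (2 * m) := by
  rw [YS, map_add, coeff_rescale, bb, coeff_mk, coeff_C_mul, coeff_X, if_neg (by omega)]
  simp

lemma prod_coeff_zero (h3 : 3 ≤ p) (a b : ZMod p) (n : ℕ)
    (h : ∀ M, n = 2 * M → ∀ i, i ≤ M → ww p M i = 0) : coeff n (YS p a * YS p b) = 0 := by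
  rw [coeff_mul]
  refine sum_eq_zero fun x hx => ?_
  rw [HasAntidiagonal.mem_antidiagonal] at hx
  rcases Nat.even_or_odd' x.1 with ⟨i, hi | hi⟩
  · rcases Nat.even_or_odd' x.2 with ⟨j, hj | hj⟩
    · have h4 := h (i + j) (by omega) i (by omega)
      unfold ww at h4
      have e : i + j - i = j := by omega
      rw [e] at h4
      rw [hi, hj, YS_even, YS_even]
      calc a ^ (2 * i) * cc p (2 * i) * (b ^ (2 * j) * cc p (2 * j)) =
          a ^ (2 * i) * b ^ (2 * j) * (cc p (2 * i) * cc p (2 * j)) := by ring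
        _ = 0 := by rw [h4, mul_zero]
    · rw [hj, YS_odd h3, mul_zero]
  · rw [hi, YS_odd h3, zero_mul]

lemma qm_ee_nat (N : ℕ) (hN : N ≤ p) (e : ℕ) :
    qm (ZMod p) N (ee (e : ZMod p)) = (qm (ZMod p) N (ee 1)) ^ e := by
  induction e with
  | zero => rw [Nat.cast_zero, ee_zero, map_one, pow_zero]
  | succ e ih => rw [Nat.cast_succ, qm_ee_add p N hN, ih, pow_succ]

/-- zero estimate for polynomials in `e^t` -/
lemma exp_zero_est (P : Polynomial (ZMod p)) (hP : P ≠ 0) (M : ℕ)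
    (h : (X : PowerSeries (ZMod p)) ^ M ∣ Polynomial.aeval (ee (1 : ZMod p)) P) : M ≤ P.natDegree := by
  obtain ⟨Q, hQ, hQ1⟩ := Polynomial.exists_eq_pow_rootMultiplicity_mul_and_not_dvd P hP 1
  set r := P.rootMultiplicity 1 with hr
  have hr1 : r ≤ P.natDegree := by
    rw [hr, ← Polynomial.count_roots]
    exact (Multiset.count_le_card _ _).trans (Polynomial.card_roots' P)
  refine le_trans ?_ hr1
  have hQe : Q.eval 1 ≠ 0 := by
    intro h0
    exact hQ1 (Polynomial.dvd_iff_isRoot.2 h0)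
  have hce : constantCoeff (ee (1 : ZMod p)) = 1 := by
    rw [← coeff_zero_eq_constantCoeff_apply, ee, coeff_mk]
    simp
  have hQu : IsUnit (Polynomial.aeval (ee (1 : ZMod p)) Q) := by
    rw [PowerSeries.isUnit_iff_constantCoeff, isUnit_iff_ne_zero]
    have : constantCoeff (Polynomial.aeval (ee (1 : ZMod p)) Q) = Q.eval 1 := by
      rw [Polynomial.aeval_def, Polynomial.hom_eval₂, hce]
      have e : (constantCoeff (R := ZMod p)).comp (algebraMap (ZMod p) (PowerSeries (ZMod p))) =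
          RingHom.id _ := Subsingleton.elim _ _
      rw [e, Polynomial.eval₂_id]
    rw [this]
    exact hQe
  have hd : (X : PowerSeries (ZMod p)) ∣ ee (1 : ZMod p) - 1 := by
    rw [PowerSeries.X_dvd_iff, map_sub, hce, map_one, sub_self]
  obtain ⟨u, hu⟩ := hd
  have huu : IsUnit u := by
    rw [PowerSeries.isUnit_iff_constantCoeff, isUnit_iff_ne_zero]
    have h1 := congrArg (coeff 1) hu
    rw [map_sub, ee, coeff_mk, coeff_one, if_neg (by norm_num), coeff_succ_X_mul] at h1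
    rw [← coeff_zero_eq_constantCoeff_apply, ← h1]
    simp
  have h5 : Polynomial.aeval (ee (1 : ZMod p)) P = X ^ r * (u ^ r * Polynomial.aeval (ee (1 : ZMod p)) Q) := by
    rw [hQ, map_mul, map_pow, map_sub, Polynomial.aeval_X, Polynomial.aeval_C, map_one, hu, mul_pow]
    ring
  rw [h5] at h
  have h6 : IsUnit (u ^ r * Polynomial.aeval (ee (1 : ZMod p)) Q) := (huu.pow r).mul hQu
  have h7 := (h6.dvd_mul_right).1 h
  rw [PowerSeries.X_pow_dvd_iff] at h7
  by_contra hcon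
  have h8 := h7 r (by omega)
  rw [coeff_X_pow_self] at h8
  exact one_ne_zero h8

theorem dim_bound (K l : ℕ) (hK : 2 * K + 3 ≤ p) (hl : l * (l + 1) < 4 * K) (M : ℕ → Finset ℕ)
    (hM : ∀ d ∈ Icc 3 l, ∀ μ ∈ M d, 1 ≤ μ ∧ μ < d)
    (hind : ∀ d ∈ Icc 3 l, ∀ f : ℕ → ZMod p,
      (∀ ζ : AlgebraicClosure (ZMod p), IsPrimitiveRoot ζ d →
        ∑ μ ∈ M d, algebraMap (ZMod p) (AlgebraicClosure (ZMod p)) (f μ) * ((ζ ^ μ + 1) / (ζ ^ μ - 1)) = 0) →
      ∀ μ ∈ M d, f μ = 0) :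
    ∑ d ∈ Icc 3 l, (M d).card ≤
      ((range (K + 1)).filter (fun N => ∃ i, i ≤ N ∧ ww p N i ≠ 0)).card := by
  classical
  have hp2 : p ≠ 2 := by omega
  set S := (range (K + 1)).filter (fun N => ∃ i, i ≤ N ∧ ww p N i ≠ 0) with hS
  by_contra hcon
  push Not at hcon
  set J : Finset (Σ _ : ℕ, ℕ) := (Icc 3 l).sigma M with hJ
  have hJcard : S.card < J.card := by
    rw [hJ, card_sigma]; exact hcon
  let A : Matrix S J (ZMod p) := fun N j =>
    coeff (2 * (N : ℕ)) (YS p ((j : Σ _ : ℕ, ℕ).1 : ZMod p) * YS p ((j : Σ _ : ℕ, ℕ).2 : ZMod p))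
  have hker : LinearMap.ker A.mulVecLin ≠ ⊥ := by
    apply LinearMap.ker_ne_bot_of_finrank_lt
    rw [Module.finrank_fintype_fun_eq_card, Module.finrank_fintype_fun_eq_card, Fintype.card_coe,
      Fintype.card_coe]
    exact hJcard
  obtain ⟨v, hv, hv0⟩ := (Submodule.ne_bot_iff _).1 hker
  rw [LinearMap.mem_ker, Matrix.mulVecLin_apply] at hv
  let a : ℕ → ℕ → ZMod p := fun d μ => if h : (⟨d, μ⟩ : Σ _ : ℕ, ℕ) ∈ J then v ⟨⟨d, μ⟩, h⟩ else 0
  have ha : ∀ j : J, a (j : Σ _ : ℕ, ℕ).1 (j : Σ _ : ℕ, ℕ).2 = v j := by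
    rintro ⟨⟨d, μ⟩, h⟩
    exact dif_pos h
  have hsum : ∀ φ : ℕ → ℕ → ZMod p, ∑ d ∈ Icc 3 l, ∑ μ ∈ M d, φ d μ * a d μ =
      ∑ j : J, φ (j : Σ _ : ℕ, ℕ).1 (j : Σ _ : ℕ, ℕ).2 * v j := by
    intro φ
    have h1 : ∑ d ∈ Icc 3 l, ∑ μ ∈ M d, φ d μ * a d μ = ∑ j ∈ J, φ j.1 j.2 * a j.1 j.2 := by
      rw [hJ, sum_sigma]
    rw [h1, ← Finset.sum_coe_sort]
    refine sum_congr rfl fun j _ => ?_
    rw [ha j]
  set G : PowerSeries (ZMod p) := ∑ d ∈ Icc 3 l, ∑ μ ∈ M d,
    C (a d μ) * (YS p (d : ZMod p) * YS p (μ : ZMod p)) with hG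
  have hGc : ∀ n, n < 2 * K + 2 → coeff n G = 0 := by
    intro n hn
    have h1 : coeff n G = ∑ d ∈ Icc 3 l, ∑ μ ∈ M d,
        coeff n (YS p (d : ZMod p) * YS p (μ : ZMod p)) * a d μ := by
      rw [hG, map_sum]
      refine sum_congr rfl fun d _ => ?_
      rw [map_sum]
      refine sum_congr rfl fun μ _ => ?_
      rw [coeff_C_mul, mul_comm]
    by_cases hbad : ∀ N, n = 2 * N → ∀ i, i ≤ N → ww p N i = 0
    · rw [h1]
      refine sum_eq_zero fun d _ => sum_eq_zero fun μ _ => ?_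
      rw [prod_coeff_zero (by omega) _ _ n hbad, zero_mul]
    · push Not at hbad
      obtain ⟨N, hnN, i, hiN, hi⟩ := hbad
      have hNS : N ∈ S := mem_filter.2 ⟨mem_range.2 (by omega), i, hiN, hi⟩
      have h2 := congrFun hv ⟨N, hNS⟩
      rw [h1, hsum (fun d μ => coeff n (YS p (d : ZMod p) * YS p (μ : ZMod p))), hnN]
      exact h2
  have hqG : qm (ZMod p) (2 * K + 2) G = 0 := by
    rw [← map_zero (qm (ZMod p) (2 * K + 2)), qm_eq_iff]
    intro n hn
    rw [hGc n hn, map_zero]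
  set q := qm (ZMod p) (2 * K + 2) with hq
  set x := q (ee 1) with hx
  have hNp : 2 * K + 2 ≤ p := by omega
  set a' : ℕ → ℕ → ZMod p := fun d μ => a d μ * ((d : ZMod p) / 2 * ((μ : ZMod p) / 2)) with ha'
  set Q : PowerSeries (ZMod p) := Polynomial.aeval (ee (1 : ZMod p)) (PL a' M l) with hQ
  have hrel : q (X ^ 2 * Q) = 0 := by
    have h1 : q (X ^ 2 * Q) = (∏ e ∈ Icc 1 l, (x ^ e - 1)) * q G := by
      rw [hQ, hG, map_sum, mul_sum]
      unfold PL
      rw [map_sum, mul_sum, map_sum]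
      refine sum_congr rfl fun d hd => ?_
      rw [map_sum, mul_sum, map_sum, map_sum, mul_sum]
      refine sum_congr rfl fun μ hμ => ?_
      have h2 := hM d hd μ hμ
      rw [mem_Icc] at hd
      have hd1 : d ∈ Icc 1 l := mem_Icc.2 ⟨by omega, hd.2⟩
      have hμ1 : μ ∈ (Icc 1 l).erase d := mem_erase.2 ⟨by omega, mem_Icc.2 ⟨h2.1, by omega⟩⟩
      rw [← mul_prod_erase _ _ hd1, ← mul_prod_erase _ _ hμ1]
      have r1 := YS_rel (p := p) (2 * K + 2) hNp hp2 (d : ZMod p)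
      have r2 := YS_rel (p := p) (2 * K + 2) hNp hp2 (μ : ZMod p)
      rw [qm_ee_nat (2 * K + 2) hNp] at r1 r2
      rw [← hq, ← hx] at r1 r2
      have hC : ∀ c : ZMod p, algebraMap (ZMod p) (PowerSeries (ZMod p)) c = C c := fun c => rfl
      simp only [map_mul, map_add, map_sub, map_pow, map_one, map_prod, Polynomial.aeval_X,
        Polynomial.aeval_C, hC, ha'] at r1 r2 ⊢
      rw [← hx]
      set R := ∏ e ∈ ((Icc 1 l).erase d).erase μ, (x ^ e - 1)
      linear_combination (-(q (C (a d μ)) * R * (x ^ μ - 1) * q (YS p (μ : ZMod p)))) * r1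
        - (q (C (a d μ)) * R * (q (C ((d : ZMod p) / 2)) * q X * (x ^ d + 1))) * r2
    rw [h1, hqG, mul_zero]
  have hdvd : (X : PowerSeries (ZMod p)) ^ (2 * K) ∣ Q := by
    rw [X_pow_dvd_iff]
    intro m hm
    have h1 : q (X ^ 2 * Q) = q 0 := by rw [hrel, map_zero]
    rw [hq, qm_eq_iff] at h1
    have h2 := h1 (m + 2) (by omega)
    rw [coeff_X_pow_mul, map_zero] at h2
    exact h2
  have hPL : PL a' M l = 0 := by
    by_contra hne
    have h1 := exp_zero_est (PL a' M l) hne (2 * K) hdvd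
    have h2 := PL_natDegree a' M l hM
    omega
  have hzero := PL_zero p hp2 a' M l hM hind hPL
  apply hv0
  funext j
  rw [← ha j, Pi.zero_apply]
  obtain ⟨⟨d, μ⟩, hj⟩ := j
  simp only
  have hj' := hj
  rw [hJ, mem_sigma] at hj'
  simp only at hj'
  have h1 := hzero d hj'.1 μ hj'.2
  have h2 := hM d hj'.1 μ hj'.2
  have h3 := mem_Icc.1 hj'.1
  have hlp : l < p := by
    by_contra hc
    push Not at hc
    nlinarith
  have hcast : ∀ n : ℕ, 1 ≤ n → n < p → (n : ZMod p) ≠ 0 := by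
    intro n hn1 hn2 h0
    rw [ZMod.natCast_eq_zero_iff] at h0
    have := Nat.le_of_dvd hn1 h0
    omega
  have h20 : (2 : ZMod p) ≠ 0 := by
    have := hcast 2 (by norm_num) (by omega)
    exact_mod_cast this
  rw [ha'] at h1
  simp only at h1
  rcases mul_eq_zero.1 h1 with h4 | h4
  · exact h4
  · exfalso
    exact mul_ne_zero (div_ne_zero (hcast d (by omega) (by omega)) h20)
      (div_ne_zero (hcast μ h2.1 (by omega)) h20) h4

end Pool.Agent.TH10.RP
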