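import Mathlib
import Pool.Agent.TH10.RP.Cyc
import Pool.Agent.TH10.RP.Dim

/-!
# The dimension argument with cyclotomic denominators
-/

set_option autoImplicit false

namespace Pool.Agent.TH10.RP

open Finset PowerSeries Pool.Agent.H582R5.RP Pool.Agent.H332R2 Pool.Agent.TH350.SumReg

variable {p : ℕ} [Fact p.Prime]

lemma denom_aeval {S : Type} [CommRing S] [Algebra (ZMod p) S] (x : S) (l d μ : ℕ) (hd : 1 ≤ d)
    (hdl : d ≤ l) (hμ : 1 ≤ μ) (hμl : μ ≤ l) (hc : μ.Coprime d) :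
    (x ^ d - 1) * (x ^ μ - 1) * ∏ e ∈ NE l d μ, Polynomial.aeval x (Polynomial.cyclotomic e (ZMod p)) =
      (x - 1) ^ 2 * ∏ e ∈ Icc 2 l, Polynomial.aeval x (Polynomial.cyclotomic e (ZMod p)) := by
  have h := congrArg (Polynomial.aeval x) (denom (F := ZMod p) l d μ hd hdl hμ hμl hc)
  simpa only [map_mul, map_sub, map_pow, Polynomial.aeval_X, map_one, map_prod] using h

theorem dim_bound2 (K l : ℕ) (hK : 2 * K + 3 ≤ p) (hl : 2 + ∑ e ∈ Icc 2 l, e.totient < 2 * K)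
    (M : ℕ → Finset ℕ)
    (hM : ∀ d ∈ Icc 3 l, ∀ μ ∈ M d, 1 ≤ μ ∧ μ < d ∧ μ.Coprime d)
    (hind : ∀ d ∈ Icc 3 l, ∀ f : ℕ → ZMod p,
      (∀ ζ : AlgebraicClosure (ZMod p), IsPrimitiveRoot ζ d →
        ∑ μ ∈ M d, algebraMap (ZMod p) (AlgebraicClosure (ZMod p)) (f μ) * ((ζ ^ μ + 1) / (ζ ^ μ - 1)) = 0) →
      ∀ μ ∈ M d, f μ = 0) :
    ∑ d ∈ Icc 3 l, (M d).card ≤
      ((range (K + 1)).filter (fun N => ∃ i, i ≤ N ∧ ww p N i ≠ 0)).card := by
  classical
  have hp2 : p ≠ 2 := by omega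
  have hlK : l ≤ 2 * K := by
    rcases Nat.lt_or_ge l 2 with h | h
    · omega
    · have h1 : ∑ e ∈ Icc 2 l, 1 ≤ ∑ e ∈ Icc 2 l, e.totient :=
        sum_le_sum fun e he => Nat.totient_pos.2 (by rw [mem_Icc] at he; omega)
      rw [sum_const, Nat.card_Icc, smul_eq_mul, mul_one] at h1
      omega
  set S := (range (K + 1)).filter (fun N => ∃ i, i ≤ N ∧ ww p N i ≠ 0) with hS
  by_contra hcon
  push Not at hcon
  set J : Finset (Σ _ : ℕ, ℕ) := (Icc 3 l).sigma M with hJ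
  have hJcard : S.card < J.card := by
    rw [hJ, card_sigma]; exact hcon
  let A : Matrix S J (ZMod p) := fun N j =>
    coeff (2 * (N : ℕ)) (YS p ((j : Σ _ : ℕ, ℕ).1 : ZMod p) * YS p ((j : Σ _ : ℕ, ℕ).2 : ZMod p))
  have hker : LinearMap.ker A.mulVecLin ≠ ⊥ := by
    apply LinearMap.ker_ne_bot_of_finrank_lt
    rw [Module.finrank_fintype_fun_eq_card, Module.finrank_fintype_fun_eq_card, Fintype.card_coe,
      Fintype.card_coe]
    exact hJcard
  obtain ⟨v, hv, hv0⟩ := (Submodule.ne_bot_iff _).1 hker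
  rw [LinearMap.mem_ker, Matrix.mulVecLin_apply] at hv
  let a : ℕ → ℕ → ZMod p := fun d μ => if h : (⟨d, μ⟩ : Σ _ : ℕ, ℕ) ∈ J then v ⟨⟨d, μ⟩, h⟩ else 0
  have ha : ∀ j : J, a (j : Σ _ : ℕ, ℕ).1 (j : Σ _ : ℕ, ℕ).2 = v j := by
    rintro ⟨⟨d, μ⟩, h⟩
    exact dif_pos h
  have hsum : ∀ φ : ℕ → ℕ → ZMod p, ∑ d ∈ Icc 3 l, ∑ μ ∈ M d, φ d μ * a d μ =
      ∑ j : J, φ (j : Σ _ : ℕ, ℕ).1 (j : Σ _ : ℕ, ℕ).2 * v j := by
    intro φ
    have h1 : ∑ d ∈ Icc 3 l, ∑ μ ∈ M d, φ d μ * a d μ = ∑ j ∈ J, φ j.1 j.2 * a j.1 j.2 := by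
      rw [hJ, sum_sigma]
    rw [h1, ← Finset.sum_coe_sort]
    refine sum_congr rfl fun j _ => ?_
    rw [ha j]
  set G : PowerSeries (ZMod p) := ∑ d ∈ Icc 3 l, ∑ μ ∈ M d,
    C (a d μ) * (YS p (d : ZMod p) * YS p (μ : ZMod p)) with hG
  have hGc : ∀ n, n < 2 * K + 2 → coeff n G = 0 := by
    intro n hn
    have h1 : coeff n G = ∑ d ∈ Icc 3 l, ∑ μ ∈ M d,
        coeff n (YS p (d : ZMod p) * YS p (μ : ZMod p)) * a d μ := by
      rw [hG, map_sum]
      refine sum_congr rfl fun d _ => ?_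
      rw [map_sum]
      refine sum_congr rfl fun μ _ => ?_
      rw [coeff_C_mul, mul_comm]
    by_cases hbad : ∀ N, n = 2 * N → ∀ i, i ≤ N → ww p N i = 0
    · rw [h1]
      refine sum_eq_zero fun d _ => sum_eq_zero fun μ _ => ?_
      rw [prod_coeff_zero (by omega) _ _ n hbad, zero_mul]
    · push Not at hbad
      obtain ⟨N, hnN, i, hiN, hi⟩ := hbad
      have hNS : N ∈ S := mem_filter.2 ⟨mem_range.2 (by omega), i, hiN, hi⟩
      have h2 := congrFun hv ⟨N, hNS⟩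
      rw [h1, hsum (fun d μ => coeff n (YS p (d : ZMod p) * YS p (μ : ZMod p))), hnN]
      exact h2
  have hqG : qm (ZMod p) (2 * K + 2) G = 0 := by
    rw [← map_zero (qm (ZMod p) (2 * K + 2)), qm_eq_iff]
    intro n hn
    rw [hGc n hn, map_zero]
  set q := qm (ZMod p) (2 * K + 2) with hq
  have hNp : 2 * K + 2 ≤ p := by omega
  set a' : ℕ → ℕ → ZMod p := fun d μ => a d μ * ((d : ZMod p) / 2 * ((μ : ZMod p) / 2)) with ha'
  set Q : PowerSeries (ZMod p) := Polynomial.aeval (ee (1 : ZMod p)) (PC a' M l) with hQ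
  set x := q (ee 1) with hx
  have hrel : q (X ^ 2 * Q) = 0 := by
    have h1 : q (X ^ 2 * Q) = q ((ee (1 : ZMod p) - 1) ^ 2 * ∏ e ∈ Icc 2 l,
        Polynomial.aeval (ee (1 : ZMod p)) (Polynomial.cyclotomic e (ZMod p))) * q G := by
      rw [hQ, hG, map_sum, mul_sum]
      unfold PC
      rw [map_sum, mul_sum, map_sum]
      refine sum_congr rfl fun d hd => ?_
      rw [map_sum, mul_sum, map_sum, map_sum, mul_sum]
      refine sum_congr rfl fun μ hμ => ?_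
      have h2 := hM d hd μ hμ
      rw [mem_Icc] at hd
      rw [← denom_aeval (p := p) (ee (1 : ZMod p)) l d μ (by omega) hd.2 h2.1 (by omega) h2.2.2]
      have r1 := YS_rel (p := p) (2 * K + 2) hNp hp2 (d : ZMod p)
      have r2 := YS_rel (p := p) (2 * K + 2) hNp hp2 (μ : ZMod p)
      rw [qm_ee_nat (2 * K + 2) hNp] at r1 r2
      rw [← hq, ← hx] at r1 r2
      have hC : ∀ c : ZMod p, algebraMap (ZMod p) (PowerSeries (ZMod p)) c = C c := fun c => rfl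
      simp only [map_mul, map_add, map_sub, map_pow, map_one, map_prod, Polynomial.aeval_X,
        Polynomial.aeval_C, hC, ha'] at r1 r2 ⊢
      rw [← hx]
      set R := ∏ e ∈ NE l d μ, q (Polynomial.aeval (ee (1 : ZMod p)) (Polynomial.cyclotomic e (ZMod p)))
      linear_combination (-(q (C (a d μ)) * R * (x ^ μ - 1) * q (YS p (μ : ZMod p)))) * r1
        - (q (C (a d μ)) * R * (q (C ((d : ZMod p) / 2)) * q X * (x ^ d + 1))) * r2
    rw [h1, hqG, mul_zero]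
  have hdvd : (X : PowerSeries (ZMod p)) ^ (2 * K) ∣ Q := by
    rw [X_pow_dvd_iff]
    intro m hm
    have h1 : q (X ^ 2 * Q) = q 0 := by rw [hrel, map_zero]
    rw [hq, qm_eq_iff] at h1
    have h2 := h1 (m + 2) (by omega)
    rw [coeff_X_pow_mul, map_zero] at h2
    exact h2
  have hPL : PC a' M l = 0 := by
    by_contra hne
    have h1 := exp_zero_est (PC a' M l) hne (2 * K) hdvd
    have h2 := PC_natDegree a' M l hM
    omega
  have hzero := PC_zero p hp2 a' M l hM hind hPL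
  apply hv0
  funext j
  rw [← ha j, Pi.zero_apply]
  obtain ⟨⟨d, μ⟩, hj⟩ := j
  simp only
  have hj' := hj
  rw [hJ, mem_sigma] at hj'
  simp only at hj'
  have h1 := hzero d hj'.1 μ hj'.2
  have h2 := hM d hj'.1 μ hj'.2
  have h3 := mem_Icc.1 hj'.1
  have hcast : ∀ n : ℕ, 1 ≤ n → n < p → (n : ZMod p) ≠ 0 := by
    intro n hn1 hn2 h0
    rw [ZMod.natCast_eq_zero_iff] at h0
    have := Nat.le_of_dvd hn1 h0
    omega
  have h20 : (2 : ZMod p) ≠ 0 := by
    have := hcast 2 (by norm_num) (by omega)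
    exact_mod_cast this
  rw [ha'] at h1
  simp only at h1
  rcases mul_eq_zero.1 h1 with h4 | h4
  · exact h4
  · exfalso
    exact mul_ne_zero (div_ne_zero (hcast d (by omega) (by omega)) h20)
      (div_ne_zero (hcast μ h2.1 (by omega)) h20) h4

end Pool.Agent.TH10.RP
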