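import Mathlib

/-!
# A lower bound for the summatory function of the totient function
-/

set_option autoImplicit false

namespace Pool.Agent.TH10.RP

open Finset

namespace JBaux

lemma coprime_count (l : ℕ) :
    #{p ∈ Ioc 0 l ×ˢ Ioc 0 l | Nat.Coprime p.1 p.2} ≤ 2 * ∑ d ∈ Ioc 0 l, d.totient := by
  have hsub : {p ∈ Ioc 0 l ×ˢ Ioc 0 l | Nat.Coprime p.1 p.2} ⊆
      {p ∈ Ioc 0 l ×ˢ Ioc 0 l | Nat.Coprime p.1 p.2 ∧ p.2 ≤ p.1} ∪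
        {p ∈ Ioc 0 l ×ˢ Ioc 0 l | Nat.Coprime p.1 p.2 ∧ p.1 ≤ p.2} := by
    intro p hp
    rw [mem_filter] at hp
    rw [mem_union, mem_filter, mem_filter]
    rcases le_total p.1 p.2 with h | h
    · exact Or.inr ⟨hp.1, hp.2, h⟩
    · exact Or.inl ⟨hp.1, hp.2, h⟩
  have hone : ∀ a : ℕ, #{b ∈ Ioc 0 l | Nat.Coprime a b ∧ b ≤ a} ≤ a.totient := by
    intro a
    rw [← Nat.filter_coprime_Ico_eq_totient a 1]
    apply card_le_card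
    intro b hb
    rw [mem_filter, mem_Ioc] at hb
    rw [mem_filter, mem_Ico]
    exact ⟨⟨by omega, by omega⟩, hb.2.1⟩
  have h1 : #{p ∈ Ioc 0 l ×ˢ Ioc 0 l | Nat.Coprime p.1 p.2 ∧ p.2 ≤ p.1} ≤
      ∑ d ∈ Ioc 0 l, d.totient := by
    rw [card_filter, sum_product]
    refine sum_le_sum fun a _ => ?_
    rw [← card_filter]
    exact hone a
  have h2 : #{p ∈ Ioc 0 l ×ˢ Ioc 0 l | Nat.Coprime p.1 p.2 ∧ p.1 ≤ p.2} ≤
      ∑ d ∈ Ioc 0 l, d.totient := by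
    rw [card_filter, sum_product_right]
    refine sum_le_sum fun b _ => ?_
    rw [← card_filter]
    refine le_trans (le_of_eq ?_) (hone b)
    congr 1
    refine filter_congr fun a _ => ?_
    rw [Nat.coprime_comm]
  calc _ ≤ _ := card_le_card hsub
    _ ≤ _ := card_union_le _ _
    _ ≤ _ := by linarith

lemma mult_card (l q : ℕ) :
    #({x ∈ Ioc 0 l | q ∣ x} ×ˢ {x ∈ Ioc 0 l | q ∣ x}) = (l / q) ^ 2 := by
  rw [card_product, Nat.Ioc_filter_dvd_card_eq_div, sq]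

lemma non_coprime_count (l : ℕ) :
    #{p ∈ Ioc 0 l ×ˢ Ioc 0 l | ¬ Nat.Coprime p.1 p.2} ≤
      (l / 2) ^ 2 + ∑ j ∈ Ioc 0 l, (l / (2 * j + 1)) ^ 2 := by
  have hsub : {p ∈ Ioc 0 l ×ˢ Ioc 0 l | ¬ Nat.Coprime p.1 p.2} ⊆
      ({x ∈ Ioc 0 l | 2 ∣ x} ×ˢ {x ∈ Ioc 0 l | 2 ∣ x}) ∪
        (Ioc 0 l).biUnion fun j =>
          ({x ∈ Ioc 0 l | (2 * j + 1) ∣ x} ×ˢ {x ∈ Ioc 0 l | (2 * j + 1) ∣ x}) := by
    rintro ⟨a, b⟩ hp
    rw [mem_filter, mem_product] at hp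
    obtain ⟨⟨ha, hb⟩, hc⟩ := hp
    simp only at ha hb hc
    obtain ⟨p, hp, hpa, hpb⟩ := Nat.Prime.not_coprime_iff_dvd.1 hc
    rcases hp.eq_two_or_odd' with rfl | hodd
    · rw [mem_union]
      left
      rw [mem_product, mem_filter, mem_filter]
      exact ⟨⟨ha, hpa⟩, ⟨hb, hpb⟩⟩
    · obtain ⟨j, hj⟩ := hodd
      rw [mem_union]
      right
      rw [mem_biUnion]
      have hp2 := hp.two_le
      have hpl : p ≤ a := Nat.le_of_dvd (mem_Ioc.1 ha).1 hpa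
      have hal := (mem_Ioc.1 ha).2
      refine ⟨j, mem_Ioc.2 ⟨by omega, by omega⟩, ?_⟩
      rw [mem_product, mem_filter, mem_filter, ← hj]
      exact ⟨⟨ha, hpa⟩, ⟨hb, hpb⟩⟩
  refine (card_le_card hsub).trans ((card_union_le _ _).trans ?_)
  rw [mult_card]
  refine Nat.add_le_add_left (card_biUnion_le.trans ?_) _
  exact sum_le_sum fun j _ => (mult_card l (2 * j + 1)).le

lemma tele (l n : ℕ) :
    ∑ j ∈ Ioc 0 n, (((l / (2 * j + 1) : ℕ) : ℚ)) ^ 2 ≤ (l : ℚ) ^ 2 / 4 * (1 - 1 / (n + 1)) := by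
  induction n with
  | zero => simp
  | succ n ih =>
    rw [sum_Ioc_succ_top (by omega)]
    have h1 : (((l / (2 * (n + 1) + 1) : ℕ) : ℚ)) ≤ (l : ℚ) / (2 * (n + 1) + 1) := by
      have := Nat.cast_div_le (α := ℚ) (m := l) (n := 2 * (n + 1) + 1)
      push_cast at this ⊢
      exact this
    have h2 : (((l / (2 * (n + 1) + 1) : ℕ) : ℚ)) ^ 2 ≤ ((l : ℚ) / (2 * (n + 1) + 1)) ^ 2 := by
      gcongr
    have h3 : ((l : ℚ) / (2 * (n + 1) + 1)) ^ 2 ≤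
        (l : ℚ) ^ 2 / 4 * (1 / ((n : ℚ) + 1) - 1 / (n + 1 + 1)) := by
      have e : (l : ℚ) ^ 2 / 4 * (1 / ((n : ℚ) + 1) - 1 / (n + 1 + 1)) =
          (l : ℚ) ^ 2 / (4 * ((n + 1) * (n + 1 + 1))) := by
        field_simp
        ring
      rw [e, div_pow]
      apply div_le_div_of_nonneg_left (by positivity) (by positivity)
      nlinarith
    push_cast
    have h4 : (l : ℚ) ^ 2 / 4 * (1 - 1 / (n + 1 + 1)) = (l : ℚ) ^ 2 / 4 * (1 - 1 / (n + 1)) +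
        (l : ℚ) ^ 2 / 4 * (1 / ((n : ℚ) + 1) - 1 / (n + 1 + 1)) := by ring
    rw [h4]
    linarith

end JBaux

theorem totient_sum (l : ℕ) : l ^ 2 ≤ 4 * ∑ d ∈ range (l + 1), d.totient := by
  have h0 : ∑ d ∈ range (l + 1), d.totient = ∑ d ∈ Ioc 0 l, d.totient := by
    rw [range_eq_Ico, sum_eq_sum_Ico_succ_bot (by omega)]
    simp only [Nat.totient_zero, zero_add]
    refine sum_congr ?_ fun _ _ => rfl
    ext x
    simp only [mem_Ico, mem_Ioc]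
    omega
  have h1 := JBaux.coprime_count l
  have h2 := JBaux.non_coprime_count l
  have h3 : #{p ∈ Ioc 0 l ×ˢ Ioc 0 l | Nat.Coprime p.1 p.2} +
      #{p ∈ Ioc 0 l ×ˢ Ioc 0 l | ¬ Nat.Coprime p.1 p.2} = l ^ 2 := by
    rw [card_filter_add_card_filter_not, card_product, Nat.card_Ioc, sq]
    simp
  have h4 := JBaux.tele l l
  have h5 : (((l / 2 : ℕ) : ℚ)) ^ 2 ≤ (l : ℚ) ^ 2 / 4 := by
    have h6 : (((l / 2 : ℕ) : ℚ)) ≤ (l : ℚ) / 2 := by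
      have := Nat.cast_div_le (α := ℚ) (m := l) (n := 2)
      exact_mod_cast this
    calc (((l / 2 : ℕ) : ℚ)) ^ 2 ≤ ((l : ℚ) / 2) ^ 2 := by gcongr
      _ = _ := by ring
  have h6 : (l : ℚ) ^ 2 / 4 * (1 - 1 / (l + 1)) ≤ (l : ℚ) ^ 2 / 4 := by
    have : (0 : ℚ) ≤ 1 / (l + 1) := by positivity
    have h7 : (0 : ℚ) ≤ (l : ℚ) ^ 2 / 4 := by positivity
    nlinarith
  have h7 : ((#{p ∈ Ioc 0 l ×ˢ Ioc 0 l | ¬ Nat.Coprime p.1 p.2} : ℕ) : ℚ) ≤ (l : ℚ) ^ 2 / 2 := by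
    have h8 : ((#{p ∈ Ioc 0 l ×ˢ Ioc 0 l | ¬ Nat.Coprime p.1 p.2} : ℕ) : ℚ) ≤
        (((l / 2) ^ 2 + ∑ j ∈ Ioc 0 l, (l / (2 * j + 1)) ^ 2 : ℕ) : ℚ) := by exact_mod_cast h2
    push_cast at h8
    refine h8.trans ?_
    have h9 : ∑ j ∈ Ioc 0 l, (((l / (2 * j + 1) : ℕ) : ℚ)) ^ 2 ≤ (l : ℚ) ^ 2 / 4 := h4.trans h6
    linarith
  have h8 : 2 * #{p ∈ Ioc 0 l ×ˢ Ioc 0 l | ¬ Nat.Coprime p.1 p.2} ≤ l ^ 2 := by
    have : (2 : ℚ) * ((#{p ∈ Ioc 0 l ×ˢ Ioc 0 l | ¬ Nat.Coprime p.1 p.2} : ℕ) : ℚ) ≤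
        (l : ℚ) ^ 2 := by linarith
    exact_mod_cast this
  rw [h0]
  omega

end Pool.Agent.TH10.RP
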