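import Mathlib
import Pool.Agent.TH350.RC.WZ

/-!
# Minimal relations between the polynomials `X^e (X+1)^a` in characteristic `p`
-/

set_option autoImplicit false

namespace Pool.Agent.TH10.RP

open Polynomial Finset Pool.Agent.TH350.WZ

variable {F : Type*} [Field F]

/-- A nontrivial relation contains a minimal one. -/
theorem exists_circuit (T : Finset (ℕ × ℕ)) (g : ℕ × ℕ → F)
    (hg : ∑ t ∈ T, C (g t) * (ph t : F[X]) = 0) (hne : ∃ t ∈ T, g t ≠ 0) :
    ∃ U ⊆ T, ∃ g' : ℕ × ℕ → F, U.Nonempty ∧ (∀ t ∈ U, g' t ≠ 0) ∧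
      ∑ t ∈ U, C (g' t) * (ph t : F[X]) = 0 ∧
      ∀ t₀ ∈ U, ∀ f : ℕ × ℕ → F, ∑ t ∈ U.erase t₀, C (f t) * (ph t : F[X]) = 0 →
        ∀ t ∈ U.erase t₀, f t = 0 := by
  classical
  have hex : ∃ n : ℕ, ∃ U ⊆ T, ∃ g' : ℕ × ℕ → F, U.Nonempty ∧ (∀ t ∈ U, g' t ≠ 0) ∧
      ∑ t ∈ U, C (g' t) * (ph t : F[X]) = 0 ∧ U.card = n := by
    refine ⟨_, T.filter (fun t => g t ≠ 0), filter_subset _ _, g, ?_, ?_, ?_, rfl⟩
    · obtain ⟨t, ht, h⟩ := hne
      exact ⟨t, mem_filter.2 ⟨ht, h⟩⟩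
    · intro t ht
      exact (mem_filter.1 ht).2
    · rw [← hg, sum_filter]
      refine sum_congr rfl fun t _ => ?_
      by_cases h : g t = 0
      · simp [h]
      · simp [h]
  obtain ⟨U, hUT, g', hUne, hg0, hsum, hcard⟩ := Nat.find_spec hex
  refine ⟨U, hUT, g', hUne, hg0, hsum, ?_⟩
  intro t₀ ht₀ f hf t ht
  by_contra hft
  have hlt : ((U.erase t₀).filter (fun t => f t ≠ 0)).card < Nat.find hex := by
    rw [← hcard]
    refine lt_of_le_of_lt (card_le_card (filter_subset _ _)) ?_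
    exact card_erase_lt_of_mem ht₀
  refine Nat.find_min hex hlt ⟨(U.erase t₀).filter (fun t => f t ≠ 0), ?_, f, ⟨t, mem_filter.2 ⟨ht, hft⟩⟩,
    fun t ht => (mem_filter.1 ht).2, ?_, rfl⟩
  · exact (filter_subset _ _).trans ((erase_subset _ _).trans hUT)
  · rw [← hf, sum_filter]
    refine sum_congr rfl fun t _ => ?_
    by_cases h : f t = 0
    · simp [h]
    · simp [h]

/-- In a minimal relation any two elements are proportional up to polynomials of small degree. -/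
theorem circuit_wronsk (p : ℕ) [Fact p.Prime] [CharP F p] (U : Finset (ℕ × ℕ))
    (hU : ∀ t ∈ U, t.1 + t.2 < p) (g : ℕ × ℕ → F) (hg0 : ∀ t ∈ U, g t ≠ 0)
    (hg : ∑ t ∈ U, C (g t) * (ph t : F[X]) = 0)
    (hind : ∀ t₀ ∈ U, ∀ f : ℕ × ℕ → F, ∑ t ∈ U.erase t₀, C (f t) * (ph t : F[X]) = 0 →
        ∀ t ∈ U.erase t₀, f t = 0) (t₀ t₁ : ℕ × ℕ) (h₀ : t₀ ∈ U) (h₁ : t₁ ∈ U) (hne : t₁ ≠ t₀) :
    ∃ D D' : F[X], D ≠ 0 ∧ D * ph t₁ = D' * ph t₀ ∧
      2 * D.natDegree ≤ (U.card - 1) * (U.card - 2) ∧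
      2 * D'.natDegree ≤ (U.card - 1) * (U.card - 2) := by
  classical
  obtain ⟨N, hN⟩ : ∃ N, N = (U.erase t₀).card := ⟨_, rfl⟩
  have hN' : N = U.card - 1 := by rw [hN, card_erase_of_mem h₀]
  let en : Fin N ≃ (U.erase t₀) := ((U.erase t₀).equivFinOfCardEq hN.symm).symm
  let s : Fin N → ℕ × ℕ := fun j => ((en j : (U.erase t₀)) : ℕ × ℕ)
  have hs : ∀ j, s j ∈ U.erase t₀ := fun j => (en j).2
  have hsum : ∀ φ : ℕ × ℕ → F[X], ∑ t ∈ U.erase t₀, φ t = ∑ j, φ (s j) := by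
    intro φ
    rw [← Finset.sum_coe_sort]
    exact (Equiv.sum_comp en (fun x : (U.erase t₀) => φ x)).symm
  obtain ⟨j₁, hj₁⟩ : ∃ j₁, s j₁ = t₁ := by
    refine ⟨en.symm ⟨t₁, mem_erase.2 ⟨hne, h₁⟩⟩, ?_⟩
    simp [s]
  have hli : LinearIndependent F (fun j => (ph (s j) : F[X])) := by
    rw [Fintype.linearIndependent_iff]
    intro c hc j
    let f : ℕ × ℕ → F := fun t => if h : t ∈ U.erase t₀ then c (en.symm ⟨t, h⟩) else 0
    have hf : ∀ j, f (s j) = c j := by
      intro j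
      have : f (s j) = c (en.symm ⟨s j, hs j⟩) := dif_pos (hs j)
      rw [this]
      congr 1
      exact en.symm_apply_apply j
    rw [← hf j]
    refine hind t₀ h₀ f ?_ _ (hs j)
    rw [hsum, ← hc]
    refine sum_congr rfl fun j _ => ?_
    rw [hf, Polynomial.smul_eq_C_mul]
  set G : Matrix (Fin N) (Fin N) F[X] := Matrix.of fun i j : Fin N => (Gs (s j) (i : ℕ) : F[X]) with hG
  have hphd : ∀ j, (ph (s j) : F[X]).natDegree < p := by
    intro j
    unfold ph
    have h1 := natDegree_mul_le (p := (X ^ (s j).1 : F[X])) (q := (X + 1) ^ (s j).2)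
    have h2 : (X ^ (s j).1 : F[X]).natDegree ≤ (s j).1 := natDegree_X_pow_le _
    have h3 : ((X + 1) ^ (s j).2 : F[X]).natDegree ≤ (s j).2 := by
      refine natDegree_pow_le.trans ?_
      have : (X + 1 : F[X]).natDegree ≤ 1 := by compute_degree
      nlinarith
    have := hU _ (mem_of_mem_erase (hs j))
    omega
  have hdet : G.det ≠ 0 := by
    intro h0
    obtain ⟨u, hu0, hu⟩ := Matrix.exists_vecMul_eq_zero_iff.2 h0
    apply hu0
    refine nonvanish p N _ hli hphd u (fun j => ?_)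
    have h1 := congrFun hu j
    simp only [Matrix.vecMul, dotProduct, Pi.zero_apply, hG, Matrix.of_apply] at h1
    have h2 : ∑ i : Fin N, u i * dl^[(i : ℕ)] (ph (s j) : F[X]) =
        ph (s j) * ∑ i : Fin N, u i * Gs (s j) (i : ℕ) := by
      rw [Finset.mul_sum]
      refine Finset.sum_congr rfl (fun i _ => ?_)
      rw [dl_iter_ph]; ring
    rw [h2, h1, mul_zero]
  set f : F[X] := ∑ j, C (g (s j)) * (ph (s j) : F[X]) with hf
  have hf0 : f = C (- g t₀) * ph t₀ := by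
    have h2 := Finset.add_sum_erase U (fun t => C (g t) * (ph t : F[X])) h₀
    rw [hg, hsum] at h2
    rw [hf, C_neg]
    linear_combination h2
  have hGm : G.mulVec (fun j => C (g (s j)) * ph (s j)) = fun i : Fin N => dl^[(i : ℕ)] f := by
    funext i
    rw [hf, dl_iter_sum]
    simp only [Matrix.mulVec, dotProduct, hG, Matrix.of_apply]
    refine Finset.sum_congr rfl (fun j _ => ?_)
    rw [dl_iter_C_mul, dl_iter_ph]; ring
  have hb : (fun i : Fin N => dl^[(i : ℕ)] f) = (C (- g t₀) * ph t₀) • (fun i : Fin N => Gs t₀ (i : ℕ)) := by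
    funext i
    rw [hf0, dl_iter_C_mul, dl_iter_ph]
    simp only [Pi.smul_apply, smul_eq_mul]
    ring
  have hcr : G.det • (fun j => C (g (s j)) * ph (s j)) = G.cramer (fun i : Fin N => dl^[(i : ℕ)] f) := by
    rw [Matrix.cramer_eq_adjugate_mulVec, ← hGm, Matrix.mulVec_mulVec, Matrix.adjugate_mul,
      Matrix.smul_mulVec, Matrix.one_mulVec]
  have h1 := congrFun hcr j₁
  rw [hb, Matrix.cramer_apply, Matrix.det_updateCol_smul] at h1
  have hup : G.updateCol j₁ (fun i : Fin N => Gs t₀ (i : ℕ)) =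
      Matrix.of fun i j : Fin N => (Gs (Function.update s j₁ t₀ j) (i : ℕ) : F[X]) := by
    ext i j
    rw [Matrix.updateCol_apply, Matrix.of_apply, Function.update_apply, hG, Matrix.of_apply]
    split_ifs <;> rfl
  rw [hup] at h1
  set D'' := (Matrix.of fun i j : Fin N => (Gs (Function.update s j₁ t₀ j) (i : ℕ) : F[X])).det with hD''
  have hd1 := natDegree_detG (F := F) N s
  have hd2 := natDegree_detG (F := F) N (Function.update s j₁ t₀)
  rw [← hG] at hd1
  rw [← hD''] at hd2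
  have hNN : N * (N - 1) = (U.card - 1) * (U.card - 2) := by
    rw [hN']; congr 1
  rw [hNN] at hd1 hd2
  simp only [Pi.smul_apply, smul_eq_mul, hj₁] at h1
  refine ⟨G.det * C (g t₁), C (- g t₀) * D'', ?_, ?_, ?_, ?_⟩
  · exact mul_ne_zero hdet (C_ne_zero.2 (hg0 t₁ h₁))
  · linear_combination h1
  · have := natDegree_mul_C_le G.det (g t₁)
    omega
  · have := natDegree_C_mul_le (- g t₀) D''
    omega

end Pool.Agent.TH10.RP
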