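import Mathlib

set_option autoImplicit false

namespace Pool.Agent.TH10.RP

open Finset

namespace JA

open Polynomial

variable {p : ℕ} [Fact p.Prime]

lemma poly_zero_of (P : (ZMod p)[X]) (s : Finset (ZMod p)) (hs : ∀ x ∈ s, P.eval x = 0)
    (hd : P.natDegree < s.card) : P = 0 :=
  Polynomial.eq_zero_of_natDegree_lt_card_of_eval_eq_zero' P s hs hd

lemma even_zero (N : ℕ) (hN : 2 * N < p) (c : ℕ → ZMod p)
    (h : ∀ x : ZMod p, ∑ i ∈ range (N + 1), c i * x ^ (2 * i) = 0) :
    ∀ i ∈ range (N + 1), c i = 0 := by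
  set P : (ZMod p)[X] := ∑ i ∈ range (N + 1), C (c i) * X ^ (2 * i) with hP
  have hP0 : P = 0 := by
    apply poly_zero_of P Finset.univ
    · intro x _
      rw [hP, eval_finsetSum]
      simpa using h x
    · rw [Finset.card_univ, ZMod.card]
      refine lt_of_le_of_lt ?_ hN
      rw [hP]
      apply natDegree_sum_le_of_forall_le
      intro i hi
      refine (natDegree_C_mul_X_pow_le _ _).trans ?_
      have := Finset.mem_range.1 hi
      omega
  intro i hi
  have h1 : P.coeff (2 * i) = c i := by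
    rw [hP, finsetSum_coeff]
    rw [Finset.sum_eq_single i]
    · simp
    · intro j _ hj
      rw [coeff_C_mul_X_pow, if_neg]
      omega
    · intro h
      exact absurd hi h
  rw [← h1, hP0, coeff_zero]

lemma case1 (N : ℕ) (hN : 2 * N + 3 ≤ p) (α β : ℕ → ZMod p)
    (h : ∀ x : ZMod p, ∑ i ∈ range (N + 1), (α i * (x ^ (2 * i) * (x + 1))
      + β i * (x * (x + 1) ^ (2 * i))) = 0) :
    ∀ i ∈ range (N + 1), α i = 0 ∧ β i = 0 := by
  have hp2 : (2 : ZMod p) ≠ 0 := by
    intro h2
    have : ((2 : ℕ) : ZMod p) = 0 := by exact_mod_cast h2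
    rw [ZMod.natCast_eq_zero_iff] at this
    have := Nat.le_of_dvd (by norm_num) this
    omega
  set A : (ZMod p)[X] := ∑ i ∈ range N, C (α (i + 1)) * X ^ (2 * i + 1) with hA
  set B : (ZMod p)[X] := ∑ i ∈ range N, C (β (i + 1)) * X ^ (2 * i + 1) with hB
  have hAe : ∀ x : ZMod p, ∑ i ∈ range (N + 1), α i * x ^ (2 * i) = α 0 + x * A.eval x := by
    intro x
    rw [Finset.sum_range_succ', hA, eval_finsetSum, Finset.mul_sum, add_comm]
    congr 1
    · simp
    · apply Finset.sum_congr rfl
      intro i _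
      simp only [eval_mul, eval_C, eval_pow, eval_X]
      ring
  have hBe : ∀ x : ZMod p, ∑ i ∈ range (N + 1), β i * x ^ (2 * i) = β 0 + x * B.eval x := by
    intro x
    rw [Finset.sum_range_succ', hB, eval_finsetSum, Finset.mul_sum, add_comm]
    congr 1
    · simp
    · apply Finset.sum_congr rfl
      intro i _
      simp only [eval_mul, eval_C, eval_pow, eval_X]
      ring
  have hodd : ∀ (c : ℕ → ZMod p) (x : ZMod p),
      (∑ i ∈ range N, C (c (i + 1)) * X ^ (2 * i + 1) : (ZMod p)[X]).eval (-x)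
        = -((∑ i ∈ range N, C (c (i + 1)) * X ^ (2 * i + 1) : (ZMod p)[X]).eval x) := by
    intro c x
    rw [eval_finsetSum, eval_finsetSum, ← Finset.sum_neg_distrib]
    apply Finset.sum_congr rfl
    intro i _
    simp only [eval_mul, eval_C, eval_pow, eval_X]
    rw [Odd.neg_pow ⟨i, rfl⟩]
    ring
  have key : ∀ x : ZMod p, (α 0 + x * A.eval x) * (x + 1)
      + x * (β 0 + (x + 1) * B.eval (x + 1)) = 0 := by
    intro x
    rw [← hAe, ← hBe, Finset.sum_mul, Finset.mul_sum, ← Finset.sum_add_distrib, ← h x]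
    apply Finset.sum_congr rfl
    intro i _
    ring
  have hα0 : α 0 = 0 := by
    have := key 0
    simpa using this
  have hβ0 : β 0 = 0 := by
    have := key (-1)
    simpa using this
  have hQ0 : A + B.comp (X + 1) = 0 := by
    apply poly_zero_of _ ((Finset.univ.erase (0 : ZMod p)).erase (-1))
    · intro x hx
      have hx1 : x ≠ -1 := (Finset.mem_erase.1 hx).1
      have hx0 : x ≠ 0 := (Finset.mem_erase.1 (Finset.mem_erase.1 hx).2).1
      have hx1' : x + 1 ≠ 0 := fun h0 => hx1 (eq_neg_of_add_eq_zero_left h0)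
      have hk := key x
      rw [hα0, hβ0] at hk
      have hk2 : (x * (x + 1)) * (A.eval x + B.eval (x + 1)) = 0 := by
        rw [← hk]; ring
      have hk3 := (mul_eq_zero.1 hk2).resolve_left (mul_ne_zero hx0 hx1')
      simpa [eval_comp] using hk3
    · have hcard : ((Finset.univ.erase (0 : ZMod p)).erase (-1)).card = p - 2 := by
        rw [Finset.card_erase_of_mem, Finset.card_erase_of_mem (Finset.mem_univ _),
          Finset.card_univ, ZMod.card]
        · omega
        · rw [Finset.mem_erase]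
          exact ⟨neg_ne_zero.2 one_ne_zero, Finset.mem_univ _⟩
      rw [hcard]
      have hdeg : ∀ c : ℕ → ZMod p,
          (∑ i ∈ range N, C (c (i + 1)) * X ^ (2 * i + 1) : (ZMod p)[X]).natDegree ≤ 2 * N := by
        intro c
        apply natDegree_sum_le_of_forall_le
        intro i hi
        refine (natDegree_C_mul_X_pow_le _ _).trans ?_
        have := Finset.mem_range.1 hi
        omega
      have h1 : (A + B.comp (X + 1)).natDegree ≤ 2 * N := by
        refine (natDegree_add_le _ _).trans (max_le (hdeg α) ?_)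
        rw [natDegree_comp]
        have h2 : (X + 1 : (ZMod p)[X]).natDegree = 1 := by
          have := natDegree_X_add_C (1 : ZMod p)
          simpa using this
        rw [h2, mul_one]
        exact hdeg β
      omega
  have hAB : ∀ x : ZMod p, A.eval x + B.eval (x + 1) = 0 := by
    intro x
    have := congrArg (Polynomial.eval x) hQ0
    simpa [eval_comp] using this
  have hper : ∀ x : ZMod p, B.eval (x + 2) = B.eval x := by
    intro x
    have h1 := hAB (x + 1)
    have h2 := hAB (-(x + 1))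
    have h3 : -(x + 1) + 1 = -x := by ring
    have h4 : x + 1 + 1 = x + 2 := by ring
    rw [h3] at h2
    rw [h4] at h1
    have h5 := hodd α (x + 1)
    have h6 := hodd β x
    rw [← hA] at h5
    rw [← hB] at h6
    rw [h5, h6] at h2
    linear_combination h1 + h2
  have hB0 : B.eval 0 = 0 := by
    have h6 := hodd β 0
    rw [← hB, neg_zero] at h6
    have : (2 : ZMod p) * B.eval 0 = 0 := by linear_combination h6
    exact (mul_eq_zero.1 this).resolve_left hp2
  have hBn : ∀ k : ℕ, B.eval ((2 : ZMod p) * k) = 0 := by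
    intro k
    induction k with
    | zero => simpa using hB0
    | succ k ih =>
      have : (2 : ZMod p) * ((k + 1 : ℕ) : ZMod p) = 2 * k + 2 := by push_cast; ring
      rw [this, hper, ih]
  have hBz : ∀ x : ZMod p, B.eval x = 0 := by
    intro x
    have h1 := hBn ((x / 2).val)
    rw [ZMod.natCast_zmod_val, mul_div_cancel₀ _ hp2] at h1
    exact h1
  have hAz : ∀ x : ZMod p, A.eval x = 0 := by
    intro x
    have := hAB x
    rw [hBz, add_zero] at this
    exact this
  have h1 := even_zero N (by omega) α (by intro x; rw [hAe, hα0, hAz]; ring)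
  have h2 := even_zero N (by omega) β (by intro x; rw [hBe, hβ0, hBz]; ring)
  intro i hi
  exact ⟨h1 i hi, h2 i hi⟩

lemma case2 (N : ℕ) (hN : 2 * N + 3 ≤ p) (α γ : ℕ → ZMod p)
    (h : ∀ x : ZMod p, ∑ i ∈ range (N + 1), (α i * (x ^ (2 * i) * (x + 1))
      + γ i * (x ^ (2 * (N - i)) * (x + 1) ^ (2 * i))) = 0) :
    ∀ i ∈ range (N + 1), α i = 0 ∧ γ i = 0 := by
  -- the transformed identity
  have h1 : ∀ v : ZMod p, v ≠ 0 → ∑ i ∈ range (N + 1), (α i * (v ^ (2 * (N - i)) * (v + 1))
      + γ i * (v * (v + 1) ^ (2 * i))) = 0 := by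
    intro v hv
    have h2 := congrArg (fun z => v ^ (2 * N + 1) * z) (h v⁻¹)
    simp only [mul_zero, Finset.mul_sum] at h2
    rw [← h2]
    apply Finset.sum_congr rfl
    intro i hi
    have hi' : i ≤ N := by have := Finset.mem_range.1 hi; omega
    obtain ⟨j, rfl⟩ := Nat.exists_eq_add_of_le hi'
    have e1 : i + j - i = j := by omega
    rw [e1]
    have e2 : v ^ (2 * (i + j) + 1) = v ^ (2 * i) * v ^ (2 * j) * v := by
      rw [← pow_add, ← pow_succ]; congr 1; ring
    rw [e2]
    have e3 : v ^ (2 * i) * v⁻¹ ^ (2 * i) = 1 := by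
      rw [← mul_pow, mul_inv_cancel₀ hv, one_pow]
    have e4 : v ^ (2 * j) * v⁻¹ ^ (2 * j) = 1 := by
      rw [← mul_pow, mul_inv_cancel₀ hv, one_pow]
    have e5 : v ^ (2 * i) * (v⁻¹ + 1) ^ (2 * i) = (v + 1) ^ (2 * i) := by
      rw [← mul_pow]; congr 1
      rw [mul_add, mul_inv_cancel₀ hv]; ring
    have e6 : v * (v⁻¹ + 1) = v + 1 := by
      rw [mul_add, mul_inv_cancel₀ hv]; ring
    calc α i * (v ^ (2 * j) * (v + 1)) + γ i * (v * (v + 1) ^ (2 * i))
        = α i * (v ^ (2 * j) * (v * (v⁻¹ + 1))) * (v ^ (2 * i) * v⁻¹ ^ (2 * i))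
          + γ i * (v * (v ^ (2 * i) * (v⁻¹ + 1) ^ (2 * i))) * (v ^ (2 * j) * v⁻¹ ^ (2 * j)) := by
          rw [e3, e4, e5, e6]; ring
      _ = _ := by ring
  -- the polynomial
  have h3 : (∑ i ∈ range (N + 1), (C (α i) * (X ^ (2 * (N - i)) * (X + 1))
      + C (γ i) * (X * (X + 1) ^ (2 * i))) : (ZMod p)[X]) = 0 := by
    apply poly_zero_of _ (Finset.univ.erase (0 : ZMod p))
    · intro v hv
      have hv0 : v ≠ 0 := (Finset.mem_erase.1 hv).1
      rw [eval_finsetSum]
      simpa using h1 v hv0
    · rw [Finset.card_erase_of_mem (Finset.mem_univ _), Finset.card_univ, ZMod.card]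
      have h2 : (X + 1 : (ZMod p)[X]).natDegree ≤ 1 := by
        have := natDegree_X_add_C (1 : ZMod p)
        have h3 : (X + 1 : (ZMod p)[X]).natDegree = 1 := by simpa using this
        rw [h3]
      refine lt_of_le_of_lt (b := 2 * N + 1) ?_ (by omega)
      apply natDegree_sum_le_of_forall_le
      intro i hi
      have hi' : i ≤ N := by have := Finset.mem_range.1 hi; omega
      refine (natDegree_add_le _ _).trans (max_le ?_ ?_)
      · refine (natDegree_C_mul_le _ _).trans (natDegree_mul_le.trans ?_)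
        have := natDegree_X_pow_le (R := ZMod p) (2 * (N - i))
        omega
      · refine (natDegree_C_mul_le _ _).trans (natDegree_mul_le.trans ?_)
        have h4 := natDegree_X_le (R := ZMod p)
        have h5 : ((X + 1 : (ZMod p)[X]) ^ (2 * i)).natDegree ≤ 2 * i * 1 :=
          natDegree_pow_le.trans (Nat.mul_le_mul_left _ h2)
        omega
  have h4 : ∀ v : ZMod p, ∑ i ∈ range (N + 1), (α i * (v ^ (2 * (N - i)) * (v + 1))
      + γ i * (v * (v + 1) ^ (2 * i))) = 0 := by
    intro v
    have := congrArg (Polynomial.eval v) h3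
    rw [eval_finsetSum] at this
    simpa using this
  have h5 : ∀ x : ZMod p, ∑ i ∈ range (N + 1), (α (N - i) * (x ^ (2 * i) * (x + 1))
      + γ i * (x * (x + 1) ^ (2 * i))) = 0 := by
    intro v
    rw [← h4 v, Finset.sum_add_distrib, Finset.sum_add_distrib]
    congr 1
    rw [← Finset.sum_range_reflect (fun i => α i * (v ^ (2 * (N - i)) * (v + 1))) (N + 1)]
    apply Finset.sum_congr rfl
    intro i hi
    have hi' : i ≤ N := by have := Finset.mem_range.1 hi; omega
    have e1 : N + 1 - 1 - i = N - i := by omega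
    have e2 : N - (N - i) = i := by omega
    simp only [e1, e2]
  have h6 := case1 N hN (fun i => α (N - i)) γ h5
  intro i hi
  refine ⟨?_, (h6 i hi).2⟩
  have hi' : i ≤ N := by have := Finset.mem_range.1 hi; omega
  have h7 := (h6 (N - i) (Finset.mem_range.2 (by omega))).1
  have e2 : N - (N - i) = i := by omega
  simp only [e2] at h7
  exact h7

lemma case3 (N : ℕ) (hN : 2 * N + 3 ≤ p) (β γ : ℕ → ZMod p)
    (h : ∀ x : ZMod p, ∑ i ∈ range (N + 1), (β i * (x * (x + 1) ^ (2 * i))
      + γ i * (x ^ (2 * (N - i)) * (x + 1) ^ (2 * i))) = 0) :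
    ∀ i ∈ range (N + 1), β i = 0 ∧ γ i = 0 := by
  have h1 : ∀ x : ZMod p, ∑ i ∈ range (N + 1), ((-β i) * (x ^ (2 * i) * (x + 1))
      + γ (N - i) * (x ^ (2 * (N - i)) * (x + 1) ^ (2 * i))) = 0 := by
    intro x
    rw [← h (-1 - x), Finset.sum_add_distrib, Finset.sum_add_distrib]
    congr 1
    · apply Finset.sum_congr rfl
      intro i _
      have e : (-1 - x + 1 : ZMod p) = -x := by ring
      rw [e, Even.neg_pow ⟨i, by ring⟩]
      ring
    · rw [← Finset.sum_range_reflect
        (fun i => γ i * ((-1 - x) ^ (2 * (N - i)) * (-1 - x + 1) ^ (2 * i))) (N + 1)]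
      apply Finset.sum_congr rfl
      intro i hi
      have hi' : i ≤ N := by have := Finset.mem_range.1 hi; omega
      have e1 : N + 1 - 1 - i = N - i := by omega
      have e2 : N - (N - i) = i := by omega
      simp only [e1, e2]
      have e : (-1 - x + 1 : ZMod p) = -x := by ring
      have e3 : (-1 - x : ZMod p) = -(x + 1) := by ring
      rw [e, e3, Even.neg_pow (even_two_mul (N - i)), Even.neg_pow (even_two_mul i)]
      ring
  have h2 := case2 N hN (fun i => -β i) (fun i => γ (N - i)) h1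
  intro i hi
  have hi' : i ≤ N := by have := Finset.mem_range.1 hi; omega
  refine ⟨neg_eq_zero.1 (h2 i hi).1, ?_⟩
  have h7 := (h2 (N - i) (Finset.mem_range.2 (by omega))).2
  have e2 : N - (N - i) = i := by omega
  simp only [e2] at h7
  exact h7

end JA

theorem two_types (p N : ℕ) [Fact p.Prime] (hN : 2 * N + 3 ≤ p) (α β γ : ℕ → ZMod p)
    (h : ∀ x : ZMod p, ∑ i ∈ range (N + 1), (α i * (x ^ (2 * i) * (x + 1))
      + β i * (x * (x + 1) ^ (2 * i)) + γ i * (x ^ (2 * (N - i)) * (x + 1) ^ (2 * i))) = 0)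
    (h0 : (∀ i ∈ range (N + 1), α i = 0) ∨ (∀ i ∈ range (N + 1), β i = 0) ∨
      (∀ i ∈ range (N + 1), γ i = 0)) :
    ∀ i ∈ range (N + 1), α i = 0 ∧ β i = 0 ∧ γ i = 0 := by
  rcases h0 with h0 | h0 | h0
  · have h1 := JA.case3 N hN β γ (by
      intro x
      rw [← h x]
      apply Finset.sum_congr rfl
      intro i hi
      rw [h0 i hi]; ring)
    intro i hi
    exact ⟨h0 i hi, h1 i hi⟩
  · have h1 := JA.case2 N hN α γ (by
      intro x
      rw [← h x]
      apply Finset.sum_congr rfl
      intro i hi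
      rw [h0 i hi]; ring)
    intro i hi
    exact ⟨(h1 i hi).1, h0 i hi, (h1 i hi).2⟩
  · have h1 := JA.case1 N hN α β (by
      intro x
      rw [← h x]
      apply Finset.sum_congr rfl
      intro i hi
      rw [h0 i hi]; ring)
    intro i hi
    exact ⟨(h1 i hi).1, (h1 i hi).2, h0 i hi⟩

end Pool.Agent.TH10.RP
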