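import Mathlib
import Pool.Agent.TH10.RP.Circuit
import Pool.Agent.TH10.RP.JA
import Pool.Agent.TH350.RC.SumReg

/-!
# Every sum of two regular indices is one in many ways
-/

set_option autoImplicit false

namespace Pool.Agent.TH10.RP

open Polynomial Finset Pool.Agent.TH350.WZ Pool.Agent.TH350.SumReg Pool.Agent.H332R2

theorem sum_three (N : ℕ) {R : Type*} [AddCommMonoid R] (U : Finset (ℕ × ℕ))
    (hU : ∀ t ∈ U, ∃ i ∈ range (N + 1), t = (2 * i, 1) ∨ t = (1, 2 * i) ∨ t = (2 * (N - i), 2 * i))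
    (Φ : ℕ × ℕ → R) :
    ∑ t ∈ U, Φ t = ∑ i ∈ range (N + 1), ((if (2 * i, 1) ∈ U then Φ (2 * i, 1) else 0) +
      (if (1, 2 * i) ∈ U then Φ (1, 2 * i) else 0) +
      (if (2 * (N - i), 2 * i) ∈ U then Φ (2 * (N - i), 2 * i) else 0)) := by
  classical
  set TA := (range (N + 1)).image (fun i => (2 * i, 1)) with hTA
  set TB := (range (N + 1)).image (fun i => (1, 2 * i)) with hTB
  set TC := (range (N + 1)).image (fun i => (2 * (N - i), 2 * i)) with hTC
  have hsub : U ⊆ (TA ∪ TB) ∪ TC := by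
    intro t ht
    obtain ⟨i, hi, h⟩ := hU t ht
    rw [mem_union, mem_union]
    rcases h with rfl | rfl | rfl
    · exact Or.inl (Or.inl (mem_image_of_mem (fun i => (2 * i, 1)) hi))
    · exact Or.inl (Or.inr (mem_image_of_mem (fun i => (1, 2 * i)) hi))
    · exact Or.inr (mem_image_of_mem (fun i => (2 * (N - i), 2 * i)) hi)
  have h1 : ∑ t ∈ U, Φ t = ∑ t ∈ (TA ∪ TB) ∪ TC, if t ∈ U then Φ t else 0 := by
    rw [← sum_filter]
    congr 1
    ext t
    rw [mem_filter]
    exact ⟨fun h => ⟨hsub h, h⟩, fun h => h.2⟩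
  have hd1 : Disjoint TA TB := by
    rw [disjoint_left]
    intro t h1 h2
    rw [hTA, mem_image] at h1
    rw [hTB, mem_image] at h2
    obtain ⟨i, _, rfl⟩ := h1
    obtain ⟨j, _, h⟩ := h2
    rw [Prod.mk.injEq] at h
    omega
  have hd2 : Disjoint (TA ∪ TB) TC := by
    rw [disjoint_left]
    intro t h1 h2
    rw [hTC, mem_image] at h2
    obtain ⟨j, _, h⟩ := h2
    rw [mem_union, hTA, hTB, mem_image, mem_image] at h1
    rcases h1 with ⟨i, _, rfl⟩ | ⟨i, _, rfl⟩
    all_goals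
      rw [Prod.mk.injEq] at h
      omega
  rw [h1, sum_union hd2, sum_union hd1, hTA, hTB, hTC, sum_image, sum_image, sum_image,
    sum_add_distrib, sum_add_distrib]
  · intro a _ b _ h
    simp only [Prod.mk.injEq] at h
    omega
  · intro a _ b _ h
    simp only [Prod.mk.injEq] at h
    omega
  · intro a _ b _ h
    simp only [Prod.mk.injEq] at h
    omega

/-- If `N` is a sum of two regular indices (zero allowed), then it is so in more than
`√(2N)/3` ways. -/
theorem rep_bound (p : ℕ) [Fact p.Prime] (N : ℕ) (hNp : 2 * N + 3 ≤ p)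
    (hrep : ∃ i, i ≤ N ∧ ww p N i ≠ 0) :
    2 * N < 9 * ((range (N + 1)).filter (fun i => ww p N i ≠ 0)).card ^ 2 := by
  classical
  set I := (range (N + 1)).filter (fun i => ww p N i ≠ 0) with hI
  have hImem : ∀ i, i ∈ I ↔ i < N + 1 ∧ ww p N i ≠ 0 := by
    intro i; rw [hI, mem_filter, mem_range]
  have hIpos : 1 ≤ I.card := by
    obtain ⟨i, h1, h2⟩ := hrep
    exact card_pos.2 ⟨i, (hImem i).2 ⟨by omega, h2⟩⟩
  rcases Nat.lt_or_ge N 2 with hN2 | hN2
  · nlinarith
  set T : Finset (ℕ × ℕ) := (I.image (fun i => (2 * i, 1)) ∪ I.image (fun i => (1, 2 * i))) ∪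
    I.image (fun i => (2 * (N - i), 2 * i)) with hT
  have hTcard : T.card ≤ 3 * I.card := by
    have e1 := card_union_le (I.image (fun i => (2 * i, 1)) ∪ I.image (fun i => (1, 2 * i)))
      (I.image (fun i => (2 * (N - i), 2 * i)))
    have e2 := card_union_le (I.image (fun i => (2 * i, 1))) (I.image (fun i => (1, 2 * i)))
    have e4 := card_image_le (s := I) (f := fun i => (2 * i, 1))
    have e5 := card_image_le (s := I) (f := fun i => (1, 2 * i))
    have e6 := card_image_le (s := I) (f := fun i => (2 * (N - i), 2 * i))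
    rw [hT]
    omega
  have hTform : ∀ t ∈ T, ∃ i ∈ I, t = (2 * i, 1) ∨ t = (1, 2 * i) ∨ t = (2 * (N - i), 2 * i) := by
    intro t ht
    rw [hT, mem_union, mem_union, mem_image, mem_image, mem_image] at ht
    rcases ht with (⟨i, hi, rfl⟩ | ⟨i, hi, rfl⟩) | ⟨i, hi, rfl⟩
    · exact ⟨i, hi, Or.inl rfl⟩
    · exact ⟨i, hi, Or.inr (Or.inl rfl)⟩
    · exact ⟨i, hi, Or.inr (Or.inr rfl)⟩
  have hTr : ∀ t ∈ T, ∃ i ∈ range (N + 1), t = (2 * i, 1) ∨ t = (1, 2 * i) ∨ t = (2 * (N - i), 2 * i) := by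
    intro t ht
    obtain ⟨i, hi, h⟩ := hTform t ht
    exact ⟨i, mem_range.2 ((hImem i).1 hi).1, h⟩
  -- the relation
  let g : ℕ × ℕ → ZMod p := fun t =>
    if t.2 = 1 then - ww p N (t.1 / 2) else ww p N (t.2 / 2)
  have hgA : ∀ i, g (2 * i, 1) = - ww p N i := by
    intro i
    simp [g]
  have hgB : ∀ i, g (1, 2 * i) = ww p N i := by
    intro i
    have : 2 * i ≠ 1 := by omega
    simp [g, this]
  have hgC : ∀ i, g (2 * (N - i), 2 * i) = ww p N i := by
    intro i
    have : 2 * i ≠ 1 := by omega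
    simp [g, this]
  have hid := identity_poly (p := p) N hN2 hNp
  have hgsum : ∑ t ∈ T, C (g t) * (ph t : (ZMod p)[X]) = 0 := by
    rw [sum_three N T hTr]
    refine Eq.trans ?_ hid
    refine sum_congr rfl fun i hi => ?_
    rw [mem_range] at hi
    by_cases hz : ww p N i = 0
    · have z1 : (if (2 * i, 1) ∈ T then C (g (2 * i, 1)) * (ph (2 * i, 1) : (ZMod p)[X]) else 0) = 0 := by
        rw [hgA, hz]; simp
      have z2 : (if (1, 2 * i) ∈ T then C (g (1, 2 * i)) * (ph (1, 2 * i) : (ZMod p)[X]) else 0) = 0 := by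
        rw [hgB, hz]; simp
      have z3 : (if (2 * (N - i), 2 * i) ∈ T then
          C (g (2 * (N - i), 2 * i)) * (ph (2 * (N - i), 2 * i) : (ZMod p)[X]) else 0) = 0 := by
        rw [hgC, hz]; simp
      rw [z1, z2, z3, hz]
      simp
    · have hiI : i ∈ I := (hImem i).2 ⟨hi, hz⟩
      have m1 : (2 * i, 1) ∈ T := by
        rw [hT, mem_union, mem_union]
        exact Or.inl (Or.inl (mem_image_of_mem (fun i => (2 * i, 1)) hiI))
      have m2 : (1, 2 * i) ∈ T := by
        rw [hT, mem_union, mem_union]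
        exact Or.inl (Or.inr (mem_image_of_mem (fun i => (1, 2 * i)) hiI))
      have m3 : (2 * (N - i), 2 * i) ∈ T := by
        rw [hT, mem_union, mem_union]
        exact Or.inr (mem_image_of_mem (fun i => (2 * (N - i), 2 * i)) hiI)
      rw [if_pos m1, if_pos m2, if_pos m3, hgA, hgB, hgC]
      unfold ph
      simp only [pow_one, C_neg]
      ring
  obtain ⟨i₀, hi₀⟩ := card_pos.1 hIpos
  have hgne : ∃ t ∈ T, g t ≠ 0 := by
    refine ⟨(1, 2 * i₀), ?_, ?_⟩
    · rw [hT, mem_union, mem_union]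
      exact Or.inl (Or.inr (mem_image_of_mem (fun i => (1, 2 * i)) hi₀))
    · rw [hgB]
      exact ((hImem i₀).1 hi₀).2
  obtain ⟨U, hUT, g', hUne, hg0, hsum, hind⟩ := exists_circuit T g hgsum hgne
  have hUp : ∀ t ∈ U, t.1 + t.2 < p := by
    intro t ht
    obtain ⟨i, hi, h⟩ := hTr t (hUT ht)
    rw [mem_range] at hi
    rcases h with rfl | rfl | rfl
    all_goals
      simp only
      omega
  have hUr := fun t ht => hTr t (hUT ht)
  -- the three types occur
  have hfun : ∀ x : ZMod p, ∑ i ∈ range (N + 1),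
      ((if (2 * i, 1) ∈ U then g' (2 * i, 1) else 0) * (x ^ (2 * i) * (x + 1))
      + (if (1, 2 * i) ∈ U then g' (1, 2 * i) else 0) * (x * (x + 1) ^ (2 * i))
      + (if (2 * (N - i), 2 * i) ∈ U then g' (2 * (N - i), 2 * i) else 0) *
        (x ^ (2 * (N - i)) * (x + 1) ^ (2 * i))) = 0 := by
    intro x
    have h1 := congrArg (eval x) hsum
    rw [eval_finsetSum, sum_three N U hUr, eval_zero] at h1
    refine Eq.trans ?_ h1
    refine sum_congr rfl fun i _ => ?_
    unfold ph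
    congr 1
    · congr 1
      · split_ifs <;> simp
      · split_ifs <;> simp
    · split_ifs <;> simp
  have key : ∀ q : Prop, (q → ∀ i ∈ range (N + 1), (if (2 * i, 1) ∈ U then g' (2 * i, 1) else 0) = 0 ∧
      (if (1, 2 * i) ∈ U then g' (1, 2 * i) else 0) = 0 ∧
      (if (2 * (N - i), 2 * i) ∈ U then g' (2 * (N - i), 2 * i) else 0) = 0) → ¬ q := by
    intro q hq h
    have h2 := hq h
    obtain ⟨t, ht⟩ := hUne
    obtain ⟨i, hi, hti⟩ := hUr t ht
    obtain ⟨a1, a2, a3⟩ := h2 i hi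
    rcases hti with rfl | rfl | rfl
    · rw [if_pos ht] at a1; exact hg0 _ ht a1
    · rw [if_pos ht] at a2; exact hg0 _ ht a2
    · rw [if_pos ht] at a3; exact hg0 _ ht a3
  have hA : ∃ i ∈ range (N + 1), (2 * i, 1) ∈ U := by
    by_contra hcon
    push Not at hcon
    refine key (∀ i ∈ range (N + 1), (2 * i, 1) ∉ U) (fun h => two_types p N hNp _ _ _ hfun
      (Or.inl fun i hi => if_neg (h i hi))) hcon
  have hB : ∃ i ∈ range (N + 1), (1, 2 * i) ∈ U := by
    by_contra hcon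
    push Not at hcon
    refine key (∀ i ∈ range (N + 1), (1, 2 * i) ∉ U) (fun h => two_types p N hNp _ _ _ hfun
      (Or.inr (Or.inl fun i hi => if_neg (h i hi)))) hcon
  have hC : ∃ i ∈ range (N + 1), (2 * (N - i), 2 * i) ∈ U := by
    by_contra hcon
    push Not at hcon
    refine key (∀ i ∈ range (N + 1), (2 * (N - i), 2 * i) ∉ U) (fun h => two_types p N hNp _ _ _ hfun
      (Or.inr (Or.inr fun i hi => if_neg (h i hi)))) hcon
  obtain ⟨i, hi, hiU⟩ := hA
  obtain ⟨j, hj, hjU⟩ := hB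
  obtain ⟨l, hl, hlU⟩ := hC
  rw [mem_range] at hi hj hl
  obtain ⟨D1, D1', hD1, hD1e, hD1d, hD1d'⟩ := circuit_wronsk p U hUp g' hg0 hsum hind (2 * i, 1)
    (1, 2 * j) hiU hjU (by rw [Ne, Prod.mk.injEq]; omega)
  obtain ⟨D2, D2', hD2, hD2e, hD2d, hD2d'⟩ := circuit_wronsk p U hUp g' hg0 hsum hind (2 * i, 1)
    (2 * (N - l), 2 * l) hiU hlU (by rw [Ne, Prod.mk.injEq]; omega)
  have hX1 : ((X : (ZMod p)[X]) + 1) ≠ 0 := by
    have := X_add_C_ne_zero (1 : ZMod p)
    rwa [C_1] at this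
  have hX1d : ((X : (ZMod p)[X]) + 1).natDegree = 1 := by
    have := natDegree_X_add_C (1 : ZMod p)
    rwa [C_1] at this
  have e1 : 2 * i ≤ D1.natDegree + 1 := by
    have hcop : IsCoprime ((X : (ZMod p)[X]) ^ (2 * i)) ((X + 1) ^ (2 * j)) := by
      refine IsCoprime.pow ?_
      refine ⟨-1, 1, ?_⟩
      ring
    have hdv : (X : (ZMod p)[X]) ^ (2 * i) ∣ (D1 * X) * (X + 1) ^ (2 * j) := by
      refine ⟨D1' * (X + 1), ?_⟩
      unfold ph at hD1e
      simp only [pow_one] at hD1e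
      linear_combination hD1e
    have hdv2 := hcop.dvd_of_dvd_mul_right hdv
    have h3 := natDegree_le_of_dvd hdv2 (mul_ne_zero hD1 X_ne_zero)
    rw [natDegree_X_pow, natDegree_mul hD1 X_ne_zero, natDegree_X] at h3
    exact h3
  have e2 : 2 * N ≤ D2'.natDegree + (2 * i + 1) := by
    have h3 := congrArg natDegree hD2e
    have hD2' : D2' ≠ 0 := by
      rintro rfl
      rw [zero_mul] at hD2e
      rcases mul_eq_zero.1 hD2e with h | h
      · exact hD2 h
      · unfold ph at h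
        exact mul_ne_zero (pow_ne_zero _ X_ne_zero) (pow_ne_zero _ hX1) h
    have hn1 : (ph (2 * (N - l), 2 * l) : (ZMod p)[X]).natDegree = 2 * N := by
      unfold ph
      simp only
      rw [natDegree_mul (pow_ne_zero _ X_ne_zero) (pow_ne_zero _ hX1), natDegree_X_pow,
        natDegree_pow, hX1d]
      omega
    have hn2 : (ph (2 * i, 1) : (ZMod p)[X]).natDegree = 2 * i + 1 := by
      unfold ph
      simp only
      rw [natDegree_mul (pow_ne_zero _ X_ne_zero) (pow_ne_zero _ hX1), natDegree_X_pow,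
        natDegree_pow, hX1d]
    have hp1 : (ph (2 * (N - l), 2 * l) : (ZMod p)[X]) ≠ 0 := by
      unfold ph
      exact mul_ne_zero (pow_ne_zero _ X_ne_zero) (pow_ne_zero _ hX1)
    have hp2 : (ph (2 * i, 1) : (ZMod p)[X]) ≠ 0 := by
      unfold ph
      exact mul_ne_zero (pow_ne_zero _ X_ne_zero) (pow_ne_zero _ hX1)
    rw [natDegree_mul hD2 hp1, natDegree_mul hD2' hp2, hn1, hn2] at h3
    omega
  have hM : U.card ≤ 3 * I.card := (card_le_card hUT).trans hTcard
  have hMM : (U.card - 1) * (U.card - 2) ≤ (3 * I.card - 1) * (3 * I.card - 2) :=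
    Nat.mul_le_mul (by omega) (by omega)
  obtain ⟨r, hr⟩ : ∃ r, I.card = r + 1 := ⟨I.card - 1, by omega⟩
  have h9 : (3 * I.card - 1) * (3 * I.card - 2) = (3 * r + 2) * (3 * r + 1) := by
    rw [hr]
    congr 1
  rw [h9] at hMM
  rw [hr]
  nlinarith

end Pool.Agent.TH10.RP
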