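import Mathlib
import Pool.Agent.H916R2.OddChar

set_option autoImplicit false

/-!
Chowla - Okada: linear independence over the rationals of the numbers `cot (π μ / d)`,
`(μ, d) = 1`, `0 < μ < d / 2`.
-/

namespace Pool.Agent.TH10.RP

open Finset

namespace JC

open Complex HurwitzZeta ZMod Pool.Agent.H916R2 Polynomial

/-- the sum of the Fourier transform of an odd character against the sawtooth does not vanish -/
lemma dft_saw_ne_zero {m : ℕ} [NeZero m] (ψ : DirichletCharacter ℂ m) (hψodd : ψ.Odd) :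
    ∑ j : ZMod m, ZMod.dft (fun j => ψ j) j * (saw j : ℂ) ≠ 0 := by
  intro hsaw
  have hψ1 : ψ ≠ 1 := by
    intro h
    unfold DirichletCharacter.Odd at hψodd
    rw [h] at hψodd
    rw [MulChar.one_apply (by simp : IsUnit (-1 : ZMod m))] at hψodd
    norm_num at hψodd
  have hL := DirichletCharacter.LFunction_apply_one_ne_zero (χ := ψ) hψ1
  apply hL
  have hm : (m : ℂ) ≠ 0 := Nat.cast_ne_zero.mpr (NeZero.ne m)
  set F : ZMod m → ℂ := ZMod.dft (fun j => ψ j) with hF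
  have hF0 : F 0 = 0 := by
    rw [hF, ZMod.dft_apply_zero]
    exact MulChar.sum_eq_zero_of_ne_one hψ1
  have hfun : Function.Odd (fun j : ZMod m => ψ j) := hψodd.to_fun
  have hFodd : ∀ j, F (-j) = - F j := by
    have := ZMod.dft_odd_iff.mpr hfun
    exact this
  have hFF : ZMod.dft F = fun j => (m : ℂ) * (- ψ j) := by
    rw [hF, ZMod.dft_dft]
    funext j
    simp only [smul_eq_mul]
    rw [DirichletCharacter.Odd.eval_neg (ψ := ψ) j hψodd]
  have hLF := ZMod.LFunction_dft F (s := 1) (Or.inl hF0)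
  rw [hFF] at hLF
  have hlhs : ZMod.LFunction (fun j => (m : ℂ) * (- ψ j)) 1 =
      - (m : ℂ) * DirichletCharacter.LFunction ψ 1 := by
    unfold DirichletCharacter.LFunction ZMod.LFunction
    simp only [mul_sum]
    refine sum_congr rfl fun j _ => ?_
    ring
  have hrhs : ∑ j : ZMod m, F j * expZeta (toAddCircle (-j)) 1 =
      (-I) * ∑ j : ZMod m, F j * sinZeta (toAddCircle j) 1 := by
    have h1 : ∑ j : ZMod m, F j * expZeta (toAddCircle (-j)) 1 =
        ∑ j : ZMod m, (- F j) * expZeta (toAddCircle j) 1 := by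
      rw [← Equiv.sum_comp (Equiv.neg (ZMod m))]
      refine sum_congr rfl fun j _ => ?_
      simp only [Equiv.neg_apply, neg_neg, hFodd]
    have h2 : 2 * ∑ j : ZMod m, F j * expZeta (toAddCircle (-j)) 1 =
        2 * ((-I) * ∑ j : ZMod m, F j * sinZeta (toAddCircle j) 1) := by
      rw [two_mul]
      nth_rewrite 2 [h1]
      rw [← sum_add_distrib, mul_sum, mul_sum]
      refine sum_congr rfl fun j _ => ?_
      rw [sinZeta_eq, map_neg]
      have hI : (2 : ℂ) * I ≠ 0 := by simp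
      field_simp
      ring
    exact mul_left_cancel₀ two_ne_zero h2
  have hfinal : ∑ j : ZMod m, F j * sinZeta (toAddCircle j) 1 = 0 := by
    have : ∑ j : ZMod m, F j * sinZeta (toAddCircle j) 1 =
        - (Real.pi / (2 * m)) * ∑ j : ZMod m, F j * (saw j : ℂ) := by
      rw [mul_sum]
      refine sum_congr rfl fun j _ => ?_
      rw [sinZeta_toAddCircle]
      ring
    rw [this, hsaw, mul_zero]
  rw [hlhs, hrhs, hfinal, mul_zero] at hLF
  exact (mul_eq_zero.mp hLF).resolve_left (neg_ne_zero.mpr hm)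

/-- twisting by a unit -/
lemma dft_unit {m : ℕ} [NeZero m] (ψ : DirichletCharacter ℂ m) (u : (ZMod m)ˣ) (j : ZMod m) :
    ZMod.dft (fun j => ψ j) ((u : ZMod m) * j) = ψ⁻¹ u * ZMod.dft (fun j => ψ j) j := by
  have h := ZMod.dft_comp_unitMul (fun j => ψ j) u⁻¹ j
  rw [inv_inv] at h
  rw [← h]
  have : (fun j : ZMod m => ψ ((u⁻¹ : (ZMod m)ˣ) * j)) = fun j => ψ⁻¹ u * ψ j := by
    funext k
    rw [map_mul]
    congr 1
    rw [MulChar.inv_apply_eq_inv']
    have : ψ (u : ZMod m) * ψ ((u⁻¹ : (ZMod m)ˣ) : ZMod m) = 1 := by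
      rw [← map_mul]; simp
    exact eq_inv_of_mul_eq_one_right this
  rw [this, ZMod.dft_const_mul]

/-- `d (η + 1) / (η - 1)` as a sum -/
lemma saw_sum (d : ℕ) (hd : 0 < d) (η : ℂ) (h1 : η ^ d = 1) (h2 : η ≠ 1) :
    ∑ j ∈ range d, (saw (j : ZMod d) : ℂ) * η ^ j = d * ((η + 1) / (η - 1)) := by
  have hne : η - 1 ≠ 0 := sub_ne_zero.mpr h2
  have g0 : ∑ j ∈ range d, η ^ j = 0 := by
    have := geom_sum_mul η d
    rw [h1, sub_self] at this
    exact (mul_eq_zero.mp this).resolve_right hne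
  have g1 : ∀ n : ℕ, (∑ j ∈ range n, (j : ℂ) * η ^ j) * (η - 1) =
      n * η ^ n - η * ∑ j ∈ range n, η ^ j := by
    intro n
    induction n with
    | zero => simp
    | succ n ih =>
      rw [sum_range_succ, sum_range_succ, add_mul, ih]
      push_cast
      ring
  have g2 := g1 d
  rw [g0, h1, mul_zero, sub_zero, mul_one] at g2
  have hs : ∀ j ∈ range d, (saw (j : ZMod d) : ℂ) * η ^ j =
      2 * ((j : ℂ) * η ^ j) - d * η ^ j + (if j = 0 then (d : ℂ) else 0) := by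
    intro j hj
    have hjd := mem_range.mp hj
    unfold saw
    by_cases h0 : j = 0
    · subst h0; simp
    · have hjz : (j : ZMod d) ≠ 0 := by
        intro h
        rw [ZMod.natCast_eq_zero_iff] at h
        exact h0 (Nat.eq_zero_of_dvd_of_lt h hjd)
      rw [if_neg hjz, if_neg h0, ZMod.val_natCast, Nat.mod_eq_of_lt hjd]
      push_cast
      ring
  rw [sum_congr rfl hs, sum_add_distrib, sum_sub_distrib, ← mul_sum, ← mul_sum, g0, mul_zero,
    sub_zero, sum_ite_eq' (range d) 0 (fun _ => (d : ℂ)), if_pos (mem_range.mpr hd)]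
  have g3 : ∑ j ∈ range d, (j : ℂ) * η ^ j = d / (η - 1) := by
    rw [eq_div_iff hne, g2]
  rw [g3]
  field_simp
  ring

lemma range_sum (d : ℕ) [NeZero d] (f : ZMod d → ℂ) :
    ∑ j ∈ range d, f (j : ZMod d) = ∑ x : ZMod d, f x := by
  refine Finset.sum_nbij' (fun j => (j : ZMod d)) (fun x => x.val) ?_ ?_ ?_ ?_ ?_
  · intro j _; exact mem_univ _
  · intro x _; exact mem_range.mpr (ZMod.val_lt x)
  · intro j hj
    rw [ZMod.val_natCast, Nat.mod_eq_of_lt (mem_range.mp hj)]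
  · intro x _; exact ZMod.natCast_zmod_val x
  · intro j _; rfl

/-- a relation for one primitive root holds for all primitive roots -/
lemma all_roots (d : ℕ) (hd : 0 < d) (ζ ζ' : ℂ) (hζ : IsPrimitiveRoot ζ d)
    (hζ' : IsPrimitiveRoot ζ' d) (S : Finset ℕ) (b : ℕ → ℤ)
    (h : ∑ μ ∈ S, (b μ : ℂ) * ∑ j ∈ range d, (saw (j : ZMod d) : ℂ) * (ζ ^ μ) ^ j = 0) :
    ∑ μ ∈ S, (b μ : ℂ) * ∑ j ∈ range d, (saw (j : ZMod d) : ℂ) * (ζ' ^ μ) ^ j = 0 := by
  set R : ℤ[X] := ∑ μ ∈ S, C (b μ) * ∑ j ∈ range d, C (saw (j : ZMod d)) * (X ^ μ) ^ j with hR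
  have hev : ∀ z : ℂ, aeval z R =
      ∑ μ ∈ S, (b μ : ℂ) * ∑ j ∈ range d, (saw (j : ZMod d) : ℂ) * (z ^ μ) ^ j := by
    intro z
    rw [hR]
    simp [map_sum]
  have h0 : aeval ζ R = 0 := by rw [hev, h]
  have hint : IsIntegral ℤ ζ := hζ.isIntegral hd
  have hdvd : minpoly ℤ ζ ∣ R := minpoly.isIntegrallyClosed_dvd hint h0
  have hmin : minpoly ℤ ζ = minpoly ℤ ζ' := by
    rw [← Polynomial.cyclotomic_eq_minpoly hζ hd, ← Polynomial.cyclotomic_eq_minpoly hζ' hd]
  rw [hmin] at hdvd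
  obtain ⟨Q, hQ⟩ := hdvd
  rw [← hev, hQ, map_mul, minpoly.aeval, zero_mul]

end JC

open JC Pool.Agent.H916R2 in
/-- Chowla - Okada: the numbers `cot (π μ / d)`, `(μ, d) = 1`, `0 < μ < d / 2`, are linearly
independent over the rationals. -/
theorem cot_indep (d : ℕ) (hd : 3 ≤ d) (ζ : ℂ) (hζ : IsPrimitiveRoot ζ d) (b : ℕ → ℤ)
    (h : ∑ μ ∈ (range d).filter (fun μ => μ.Coprime d ∧ 2 * μ < d),
      (b μ : ℂ) * ((ζ ^ μ + 1) / (ζ ^ μ - 1)) = 0) :
    ∀ μ ∈ (range d).filter (fun μ => μ.Coprime d ∧ 2 * μ < d), b μ = 0 := by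
  classical
  have hd0 : 0 < d := by omega
  have : NeZero d := ⟨hd0.ne'⟩
  set S := (range d).filter (fun μ => μ.Coprime d ∧ 2 * μ < d) with hS
  have hdC : (d : ℂ) ≠ 0 := Nat.cast_ne_zero.mpr hd0.ne'
  -- the relation as a sum
  have hrel : ∑ μ ∈ S, (b μ : ℂ) * ∑ j ∈ range d, (saw (j : ZMod d) : ℂ) * (ζ ^ μ) ^ j = 0 := by
    have : ∑ μ ∈ S, (b μ : ℂ) * ∑ j ∈ range d, (saw (j : ZMod d) : ℂ) * (ζ ^ μ) ^ j =
        d * ∑ μ ∈ S, (b μ : ℂ) * ((ζ ^ μ + 1) / (ζ ^ μ - 1)) := by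
      rw [mul_sum]
      refine sum_congr rfl fun μ hμ => ?_
      rw [hS, mem_filter, mem_range] at hμ
      rw [saw_sum d hd0 (ζ ^ μ)]
      · ring
      · rw [← pow_mul, mul_comm, pow_mul, hζ.pow_eq_one, one_pow]
      · intro h1
        have h2 := hζ.dvd_of_pow_eq_one μ h1
        have h3 : μ = 0 := Nat.eq_zero_of_dvd_of_lt h2 hμ.1
        rw [h3] at hμ
        have := hμ.2.1
        rw [Nat.coprime_zero_left] at this
        omega
    rw [this, h, mul_zero]
  -- for the standard characters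
  have hstd : ∀ k : (ZMod d)ˣ, ∑ μ ∈ S, (b μ : ℂ) *
      ∑ j : ZMod d, (saw j : ℂ) * ZMod.stdAddChar (-((k : ZMod d) * ((μ : ZMod d) * j))) = 0 := by
    intro k
    set ζ' : ℂ := ZMod.stdAddChar (-(k : ZMod d)) with hζ'
    have hpow : ∀ n : ℕ, ζ' ^ n = ZMod.stdAddChar (-((k : ZMod d) * (n : ZMod d))) := by
      intro n
      rw [hζ', ← AddChar.map_nsmul_eq_pow]
      congr 1
      rw [nsmul_eq_mul]
      ring
    have hprim : IsPrimitiveRoot ζ' d := by
      rw [IsPrimitiveRoot.iff_def]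
      constructor
      · rw [hpow]
        simp
      · intro l hl
        rw [hpow] at hl
        have h1 : -((k : ZMod d) * (l : ZMod d)) = 0 := by
          have := ZMod.injective_stdAddChar (N := d)
          apply this
          rw [hl, AddChar.map_zero_eq_one]
        rw [neg_eq_zero] at h1
        have h2 : (l : ZMod d) = 0 := by
          have := congrArg (fun x => ((k⁻¹ : (ZMod d)ˣ) : ZMod d) * x) h1
          simpa [← mul_assoc] using this
        exact (ZMod.natCast_eq_zero_iff l d).mp h2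
    have := all_roots d hd0 ζ ζ' hζ hprim S b hrel
    rw [← this]
    refine sum_congr rfl fun μ _ => ?_
    congr 1
    have hj : ∀ j ∈ range d, (saw (j : ZMod d) : ℂ) * (ζ' ^ μ) ^ j =
        (fun x : ZMod d => (saw x : ℂ) *
          ZMod.stdAddChar (-((k : ZMod d) * ((μ : ZMod d) * x)))) (j : ZMod d) := by
      intro j _
      simp only
      rw [← pow_mul, hpow]
      push_cast
      rfl
    rw [sum_congr rfl hj]
    exact (range_sum d (fun x : ZMod d => (saw x : ℂ) *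
      ZMod.stdAddChar (-((k : ZMod d) * ((μ : ZMod d) * x))))).symm
  -- multiply by an odd character
  have hodd : ∀ ψ : DirichletCharacter ℂ d, ψ.Odd → ∑ μ ∈ S, (b μ : ℂ) * ψ⁻¹ (μ : ZMod d) = 0 := by
    intro ψ hψ
    have h1 : (∑ μ ∈ S, (b μ : ℂ) * ψ⁻¹ (μ : ZMod d)) *
        ∑ j : ZMod d, ZMod.dft (fun j => ψ j) j * (saw j : ℂ) = 0 := by
      have h2 : ∑ k : (ZMod d)ˣ, ψ (k : ZMod d) * ∑ μ ∈ S, (b μ : ℂ) *
          ∑ j : ZMod d, (saw j : ℂ) *
            ZMod.stdAddChar (-((k : ZMod d) * ((μ : ZMod d) * j))) = 0 := by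
        apply sum_eq_zero
        intro k _
        rw [hstd k, mul_zero]
      rw [← h2, sum_mul]
      simp only [mul_sum]
      rw [sum_comm (s := (univ : Finset (ZMod d)ˣ))]
      refine sum_congr rfl fun μ hμ => ?_
      rw [sum_comm (s := (univ : Finset (ZMod d)ˣ))]
      refine sum_congr rfl fun j _ => ?_
      rw [hS, mem_filter, mem_range] at hμ
      set u : (ZMod d)ˣ := ZMod.unitOfCoprime μ hμ.2.1 with hu
      have hu' : ((u : (ZMod d)ˣ) : ZMod d) = (μ : ZMod d) := by simp [hu]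
      have h3 := dft_unit ψ u j
      rw [hu'] at h3
      have h4 : ZMod.dft (fun j => ψ j) ((μ : ZMod d) * j) =
          ∑ k : (ZMod d)ˣ, ψ (k : ZMod d) *
            ZMod.stdAddChar (-((k : ZMod d) * ((μ : ZMod d) * j))) := by
        rw [ZMod.dft_apply]
        have h5 : ∀ x : ZMod d, x ∉ Set.range (fun k : (ZMod d)ˣ => (k : ZMod d)) →
            ZMod.stdAddChar (-(x * ((μ : ZMod d) * j))) • ψ x = (0 : ℂ) := by
          intro x hx
          have : ¬ IsUnit x := by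
            rintro ⟨v, hv⟩
            exact hx ⟨v, hv⟩
          rw [ψ.map_nonunit this, smul_zero]
        rw [← Fintype.sum_of_injective (fun k : (ZMod d)ˣ => (k : ZMod d)) Units.val_injective
          (fun k => ψ (k : ZMod d) * ZMod.stdAddChar (-((k : ZMod d) * ((μ : ZMod d) * j))))
          _ h5]
        intro k
        rw [smul_eq_mul, mul_comm]
      calc (b μ : ℂ) * ψ⁻¹ (μ : ZMod d) * (ZMod.dft (fun j => ψ j) j * (saw j : ℂ))
          = (b μ : ℂ) * (saw j : ℂ) * (ψ⁻¹ (μ : ZMod d) * ZMod.dft (fun j => ψ j) j) := by ring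
        _ = (b μ : ℂ) * (saw j : ℂ) * ZMod.dft (fun j => ψ j) ((μ : ZMod d) * j) := by rw [h3]
        _ = _ := by
          rw [h4, mul_sum]
          refine sum_congr rfl fun k _ => ?_
          ring
    exact (mul_eq_zero.mp h1).resolve_right (dft_saw_ne_zero ψ hψ)
  -- orthogonality
  have hall : ∀ χ : DirichletCharacter ℂ d, (1 - χ (-1)) * ∑ μ ∈ S, (b μ : ℂ) * χ (μ : ZMod d) = 0 := by
    intro χ
    rcases χ.even_or_odd with he | ho
    · rw [DirichletCharacter.Even] at he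
      rw [he, sub_self, zero_mul]
    · have := hodd χ⁻¹ (by
        unfold DirichletCharacter.Odd at ho ⊢
        rw [MulChar.inv_apply_eq_inv', ho]
        norm_num)
      rw [inv_inv] at this
      rw [this, mul_zero]
  intro μ₀ hμ₀
  have hμ₀' := hμ₀
  rw [hS, mem_filter, mem_range] at hμ₀'
  have hunit : IsUnit (μ₀ : ZMod d) := (ZMod.isUnit_iff_coprime μ₀ d).mpr hμ₀'.2.1
  have hsum : ∑ χ : DirichletCharacter ℂ d, χ ((μ₀ : ZMod d)⁻¹) *
      ((1 - χ (-1)) * ∑ μ ∈ S, (b μ : ℂ) * χ (μ : ZMod d)) = 0 :=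
    sum_eq_zero fun χ _ => by rw [hall χ, mul_zero]
  have hexp : ∑ χ : DirichletCharacter ℂ d, χ ((μ₀ : ZMod d)⁻¹) *
      ((1 - χ (-1)) * ∑ μ ∈ S, (b μ : ℂ) * χ (μ : ZMod d)) =
      ∑ μ ∈ S, (b μ : ℂ) * ((if (μ₀ : ZMod d) = μ then (d.totient : ℂ) else 0) -
        (if (μ₀ : ZMod d) = -μ then (d.totient : ℂ) else 0)) := by
    have h1 : ∀ μ : ℕ, (if (μ₀ : ZMod d) = μ then (d.totient : ℂ) else 0) =
        ∑ χ : DirichletCharacter ℂ d, χ ((μ₀ : ZMod d)⁻¹) * χ (μ : ZMod d) := fun μ =>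
      (DirichletCharacter.sum_char_inv_mul_char_eq ℂ hunit (μ : ZMod d)).symm
    have h2 : ∀ μ : ℕ, (if (μ₀ : ZMod d) = -(μ : ZMod d) then (d.totient : ℂ) else 0) =
        ∑ χ : DirichletCharacter ℂ d, χ ((μ₀ : ZMod d)⁻¹) * χ (-(μ : ZMod d)) := fun μ =>
      (DirichletCharacter.sum_char_inv_mul_char_eq ℂ hunit (-(μ : ZMod d))).symm
    simp only [h1, h2]
    simp only [mul_sum, ← sum_sub_distrib]
    rw [sum_comm]
    refine sum_congr rfl fun μ _ => ?_
    refine sum_congr rfl fun χ _ => ?_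
    have : χ (-(μ : ZMod d)) = χ (-1) * χ (μ : ZMod d) := by
      rw [← map_mul]; congr 1; ring
    rw [this]
    ring
  rw [hexp] at hsum
  have hval : ∀ μ ∈ S, (b μ : ℂ) * ((if (μ₀ : ZMod d) = μ then (d.totient : ℂ) else 0) -
        (if (μ₀ : ZMod d) = -μ then (d.totient : ℂ) else 0)) =
        if μ = μ₀ then (b μ₀ : ℂ) * d.totient else 0 := by
    intro μ hμ
    rw [hS, mem_filter, mem_range] at hμ
    have h2 : ¬ (μ₀ : ZMod d) = -(μ : ZMod d) := by
      intro h3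
      have h4 : ((μ₀ + μ : ℕ) : ZMod d) = 0 := by
        push_cast
        rw [h3]; ring
      rw [ZMod.natCast_eq_zero_iff] at h4
      have h5 : μ₀ + μ = 0 := Nat.eq_zero_of_dvd_of_lt h4 (by omega)
      have h6 : μ₀ = 0 := by omega
      have := hμ₀'.2.1
      rw [h6, Nat.coprime_zero_left] at this
      omega
    rw [if_neg h2, sub_zero]
    by_cases h3 : μ = μ₀
    · subst h3
      simp
    · rw [if_neg h3, if_neg, mul_zero]
      intro h4
      apply h3
      have h5 := (ZMod.natCast_eq_natCast_iff' μ₀ μ d).mp h4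
      rw [Nat.mod_eq_of_lt hμ.1, Nat.mod_eq_of_lt hμ₀'.1] at h5
      exact h5.symm
  rw [sum_congr rfl hval, sum_ite_eq' S μ₀ (fun _ => (b μ₀ : ℂ) * d.totient), if_pos hμ₀] at hsum
  have htot : (d.totient : ℂ) ≠ 0 := by
    have := Nat.totient_pos.mpr hd0
    exact_mod_cast this.ne'
  have := (mul_eq_zero.mp hsum).resolve_right htot
  exact_mod_cast this

end Pool.Agent.TH10.RP
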