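import Mathlib
import Pool.Agent.TH487.RP.Alg

set_option autoImplicit false

namespace Pool.Agent.TH10.RP

open Finset Polynomial Pool.Agent.TH487.RP

namespace JD

theorem dvd_map (p d : ℕ) [Fact p.Prime] (hd : 0 < d) (hpd : ¬ p ∣ d) (G : ℤ[X])
    (hG : ∀ ζ : AlgebraicClosure (ZMod p), IsPrimitiveRoot ζ d →
      G.eval₂ (Int.castRingHom (AlgebraicClosure (ZMod p))) ζ = 0) :
    (cyclotomic d ℤ).map (Int.castRingHom (AlgebraicClosure (ZMod p))) ∣
      G.map (Int.castRingHom (AlgebraicClosure (ZMod p))) := by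
  classical
  rw [map_cyclotomic]
  set K := AlgebraicClosure (ZMod p) with hK
  have hchar : CharP K p := inferInstance
  have hne : NeZero (d : K) := by
    refine ⟨?_⟩
    rw [Ne, CharP.cast_eq_zero_iff K p]
    exact hpd
  obtain ⟨ζ, hζ⟩ : ∃ ζ : K, IsRoot (cyclotomic d K) ζ := by
    apply IsAlgClosed.exists_root
    rw [degree_cyclotomic]
    have := Nat.totient_pos.2 hd
    exact_mod_cast this.ne'
  have hprim : IsPrimitiveRoot ζ d := isRoot_cyclotomic_iff.mp hζ
  rw [cyclotomic_eq_prod_X_sub_primitiveRoots hprim]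
  apply Finset.prod_dvd_of_coprime
  · intro a _ b _ hab
    exact pairwise_coprime_X_sub_C (fun x y h => h) hab
  · intro μ hμ
    rw [dvd_iff_isRoot, IsRoot, eval_map]
    exact hG μ ((mem_primitiveRoots hd).mp hμ)

theorem entry (p d : ℕ) [Fact p.Prime] (hd : 0 < d) (hpd : ¬ p ∣ d) (G : ℤ[X])
    (hG : ∀ ζ : AlgebraicClosure (ZMod p), IsPrimitiveRoot ζ d →
      G.eval₂ (Int.castRingHom (AlgebraicClosure (ZMod p))) ζ = 0) (i j : Fin d.totient) :
    (p : ℤ) ∣ MM d G i j := by
  have h1 := dvd_map p d hd hpd G hG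
  set K := AlgebraicClosure (ZMod p) with hK
  have hchar : CharP K p := inferInstance
  have hmon := cyclotomic.monic d ℤ
  have h2 : ((G * X ^ (j : ℕ)) %ₘ cyclotomic d ℤ).map (Int.castRingHom K) = 0 := by
    rw [map_modByMonic _ hmon, modByMonic_eq_zero_iff_dvd (hmon.map _), Polynomial.map_mul]
    exact h1.mul_right _
  have h3 : ((MM d G i j : ℤ) : K) = 0 := by
    have := congrArg (fun q => q.coeff i) h2
    simp only [coeff_map, coeff_zero] at this
    exact this
  exact (CharP.intCast_eq_zero_iff K p _).mp h3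

end JD

/-- If `G` vanishes at all primitive `d`-th roots of unity in characteristic `p`, its norm is
divisible by `p ^ φ(d)`. -/
theorem pow_dvd_norm (p d : ℕ) [Fact p.Prime] (hd : 0 < d) (hpd : ¬ p ∣ d) (G : ℤ[X])
    (hG : ∀ ζ : AlgebraicClosure (ZMod p), IsPrimitiveRoot ζ d →
      G.eval₂ (Int.castRingHom (AlgebraicClosure (ZMod p))) ζ = 0) :
    (p : ℤ) ^ d.totient ∣ (MM d G).det := by
  choose M' hM' using fun i j => JD.entry p d hd hpd G hG i j
  have h1 : MM d G = (p : ℤ) • (Matrix.of fun i j => M' i j) := by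
    ext i j
    rw [Matrix.smul_apply, Matrix.of_apply, smul_eq_mul]
    exact hM' i j
  rw [h1, Matrix.det_smul, Fintype.card_fin]
  exact Dvd.intro _ rfl

end Pool.Agent.TH10.RP
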