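import Mathlib
import Pool.Agent.TH487.RP.PV

set_option autoImplicit false

namespace Pool.Agent.TH10.RP

open Finset

namespace JE

theorem image_eq (d : ℕ) (hd : 2 ≤ d) (ζ : ℂ) (hζ : IsPrimitiveRoot ζ d) (f : ℂ → ℝ) :
    ∑ j ∈ Ico 1 d, f (ζ ^ j) = ∑ x ∈ (Polynomial.nthRootsFinset d (1 : ℂ)).erase 1, f x := by
  have hd0 : 0 < d := by omega
  refine sum_bij (fun j _ => ζ ^ j) ?_ ?_ ?_ ?_
  · intro j hj
    rw [mem_Ico] at hj
    rw [mem_erase, Polynomial.mem_nthRootsFinset hd0]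
    refine ⟨?_, ?_⟩
    · exact hζ.pow_ne_one_of_pos_of_lt (by omega) hj.2
    · rw [← pow_mul, mul_comm, pow_mul, hζ.pow_eq_one, one_pow]
  · intro i hi j hj h
    rw [mem_Ico] at hi hj
    exact hζ.pow_inj hi.2 hj.2 h
  · intro x hx
    rw [mem_erase, Polynomial.mem_nthRootsFinset hd0] at hx
    have : NeZero d := ⟨hd0.ne'⟩
    obtain ⟨i, hi, hix⟩ := hζ.eq_pow_of_pow_eq_one hx.2
    refine ⟨i, ?_, hix⟩
    rw [mem_Ico]
    refine ⟨?_, hi⟩
    rcases Nat.eq_zero_or_pos i with h | h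
    · subst h
      exact absurd (by simpa using hix.symm) hx.1
    · exact h
  · intro j _
    rfl

theorem norm_ge (d j : ℕ) (hd : 2 ≤ d) (_hj : 1 ≤ j) (hjd : j < d) :
    4 * (min j (d - j) : ℕ) / (d : ℝ) ≤ ‖Complex.exp (2 * Real.pi * Complex.I / d) ^ j - 1‖ := by
  have hd0 : (0 : ℝ) < d := by exact_mod_cast (by omega : 0 < d)
  have h1 : Complex.exp (2 * Real.pi * Complex.I / d) ^ j =
      Complex.exp (Complex.I * ((2 * Real.pi * j / d : ℝ) : ℂ)) := by
    rw [← Complex.exp_nat_mul]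
    congr 1
    push_cast
    ring
  have hx : (2 * Real.pi * (j : ℝ) / d) / 2 = Real.pi * j / d := by ring
  rw [h1, Complex.norm_exp_I_mul_ofReal_sub_one, hx, Real.norm_eq_abs]
  refine le_trans ?_ (le_abs_self _)
  have key : ∀ i : ℕ, 2 * i ≤ d → 2 * (i : ℝ) / d ≤ Real.sin (Real.pi * i / d) := by
    intro i hi
    have hi' : 2 * (i : ℝ) ≤ d := by exact_mod_cast hi
    have h3 := Real.mul_le_sin (x := Real.pi * i / d) (by positivity) (by
      rw [div_le_div_iff₀ hd0 (by norm_num)]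
      nlinarith [Real.pi_pos])
    have h4 : 2 / Real.pi * (Real.pi * i / d) = 2 * (i : ℝ) / d := by
      have := Real.pi_pos.ne'
      field_simp
    rwa [h4] at h3
  rcases le_total (2 * j) d with h | h
  · rw [min_eq_left (by omega : j ≤ d - j)]
    have := key j h
    have e : 4 * (j : ℝ) / d = 2 * (2 * (j : ℝ) / d) := by ring
    rw [e]
    linarith
  · rw [min_eq_right (by omega : d - j ≤ j)]
    have h5 := key (d - j) (by omega)
    have e : 4 * ((d - j : ℕ) : ℝ) / d = 2 * (2 * ((d - j : ℕ) : ℝ) / d) := by ring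
    have h6 : Real.pi * ((d - j : ℕ) : ℝ) / d = Real.pi - Real.pi * j / d := by
      rw [Nat.cast_sub hjd.le]
      field_simp
    rw [h6, Real.sin_pi_sub] at h5
    rw [e]
    linarith

/-- truncated reciprocals -/
noncomputable def g (m j : ℕ) : ℝ := if 1 ≤ j ∧ j ≤ m then 1 / (j : ℝ) else 0

theorem g_nonneg (m j : ℕ) : 0 ≤ g m j := by
  unfold g; split_ifs <;> positivity

theorem sum_g (m d : ℕ) : ∑ j ∈ Ico 1 d, g m j ≤ ∑ v ∈ range m, (1 : ℝ) / ((v : ℝ) + 1) := by
  calc ∑ j ∈ Ico 1 d, g m j ≤ ∑ j ∈ Ico 1 (max d (m + 1)), g m j :=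
        sum_le_sum_of_subset_of_nonneg (Ico_subset_Ico_right (le_max_left _ _))
          (fun j _ _ => g_nonneg m j)
    _ = ∑ j ∈ Ico 1 (m + 1), g m j := by
        symm
        apply sum_subset (Ico_subset_Ico_right (le_max_right _ _))
        intro j hj hj'
        rw [mem_Ico] at hj hj'
        unfold g
        rw [if_neg (by omega)]
    _ = ∑ v ∈ range m, (1 : ℝ) / ((v : ℝ) + 1) := by
        rw [sum_Ico_eq_sum_range]
        apply sum_congr (by simp)
        intro v hv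
        rw [mem_range] at hv
        unfold g
        rw [if_pos (by omega)]
        push_cast
        rw [add_comm]

theorem sum_g' (m d : ℕ) : ∑ j ∈ Ico 1 d, g m (d - j) = ∑ j ∈ Ico 1 d, g m j := by
  refine sum_bij' (fun j _ => d - j) (fun j _ => d - j) ?_ ?_ ?_ ?_ ?_
  · intro j hj; rw [mem_Ico] at hj ⊢; omega
  · intro j hj; rw [mem_Ico] at hj ⊢; omega
  · intro j hj; rw [mem_Ico] at hj; omega
  · intro j hj; rw [mem_Ico] at hj; omega
  · intro j _; rfl

end JE

open JE in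
/-- `∑ 1 / |ζ^j - 1| ≤ (d / 2) log (d + 1)` over `0 < j < d` for a primitive `d`-th root of unity. -/
theorem inv_sum_le (d : ℕ) (hd : 2 ≤ d) (ζ : ℂ) (hζ : IsPrimitiveRoot ζ d) :
    ∑ j ∈ Ico 1 d, 1 / ‖ζ ^ j - 1‖ ≤ (d : ℝ) / 2 * Real.log (d + 1) := by
  have hd0 : (0 : ℝ) < d := by exact_mod_cast (by omega : 0 < d)
  have hω := Complex.isPrimitiveRoot_exp d (by omega : d ≠ 0)
  rw [image_eq d hd ζ hζ (fun x => 1 / ‖x - 1‖), ← image_eq d hd _ hω (fun x => 1 / ‖x - 1‖)]
  set m := d / 2 with hm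
  have h1 : ∀ j ∈ Ico 1 d, 1 / ‖Complex.exp (2 * Real.pi * Complex.I / d) ^ j - 1‖ ≤
      (d : ℝ) / 4 * (g m j + g m (d - j)) := by
    intro j hj
    rw [mem_Ico] at hj
    have h2 := norm_ge d j hd hj.1 hj.2
    rcases le_total (2 * j) d with h | h
    · rw [min_eq_left (by omega : j ≤ d - j)] at h2
      have hj0 : (0 : ℝ) < j := by exact_mod_cast hj.1
      have h3 : g m j = 1 / (j : ℝ) := by
        unfold g; rw [if_pos (by omega)]
      have h4 := g_nonneg m (d - j)
      have h5 : 0 < 4 * (j : ℝ) / d := by positivity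
      calc 1 / ‖Complex.exp (2 * Real.pi * Complex.I / d) ^ j - 1‖ ≤ 1 / (4 * (j : ℝ) / d) :=
            one_div_le_one_div_of_le h5 h2
        _ = (d : ℝ) / 4 * (1 / (j : ℝ)) := by field_simp
        _ ≤ (d : ℝ) / 4 * (g m j + g m (d - j)) := by
            rw [h3]
            apply mul_le_mul_of_nonneg_left _ (by positivity)
            linarith
    · rw [min_eq_right (by omega : d - j ≤ j)] at h2
      have hj0 : (0 : ℝ) < ((d - j : ℕ) : ℝ) := by exact_mod_cast (by omega : 0 < d - j)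
      have h3 : g m (d - j) = 1 / ((d - j : ℕ) : ℝ) := by
        unfold g; rw [if_pos (by omega)]
      have h4 := g_nonneg m j
      have h5 : 0 < 4 * ((d - j : ℕ) : ℝ) / d := by positivity
      calc 1 / ‖Complex.exp (2 * Real.pi * Complex.I / d) ^ j - 1‖ ≤ 1 / (4 * ((d - j : ℕ) : ℝ) / d) :=
            one_div_le_one_div_of_le h5 h2
        _ = (d : ℝ) / 4 * (1 / ((d - j : ℕ) : ℝ)) := by field_simp
        _ ≤ (d : ℝ) / 4 * (g m j + g m (d - j)) := by
            rw [h3]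
            apply mul_le_mul_of_nonneg_left _ (by positivity)
            linarith
  refine (sum_le_sum h1).trans ?_
  rw [← mul_sum, sum_add_distrib, sum_g' m d]
  have h2 := sum_g m d
  have h3 := Pool.Agent.TH487.RP.harm m
  have h4 : Real.log (2 * (m : ℝ) + 1) ≤ Real.log (d + 1) := by
    apply Real.log_le_log (by positivity)
    have : 2 * m ≤ d := by omega
    have : 2 * (m : ℝ) ≤ d := by exact_mod_cast this
    linarith
  have h5 : ∑ j ∈ Ico 1 d, g m j ≤ Real.log (d + 1) := h2.trans (h3.trans h4)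
  nlinarith

end Pool.Agent.TH10.RP
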