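import Mathlib
import Pool.Agent.TH10.RP.JC
import Pool.Agent.TH10.RP.JD
import Pool.Agent.TH10.RP.JE

/-!
# The rank of the cotangents modulo `p`
-/

set_option autoImplicit false

namespace Pool.Agent.TH10.RP

open Polynomial Finset Pool.Agent.TH487.RP

/-- the units below `d / 2` -/
def II (d : ℕ) : Finset ℕ := (range d).filter (fun μ => μ.Coprime d ∧ 2 * μ < d)

lemma mem_II {d μ : ℕ} (hd : 3 ≤ d) : μ ∈ II d ↔ 1 ≤ μ ∧ μ.Coprime d ∧ 2 * μ < d := by
  unfold II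
  rw [mem_filter, mem_range]
  constructor
  · rintro ⟨h1, h2, h3⟩
    refine ⟨?_, h2, h3⟩
    rcases Nat.eq_zero_or_pos μ with rfl | h
    · rw [Nat.coprime_zero_left] at h2
      omega
    · exact h
  · rintro ⟨h1, h2, h3⟩
    exact ⟨by omega, h2, h3⟩

lemma card_II {d : ℕ} (hd : 3 ≤ d) : 2 * (II d).card = d.totient := by
  classical
  rw [Nat.totient_eq_card_coprime]
  have hinj : Set.InjOn (fun μ => d - μ) (II d : Set ℕ) := by
    intro a ha b hb h
    rw [mem_coe, mem_II hd] at ha hb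
    simp only at h
    omega
  have h1 : ((II d).image (fun μ => d - μ)).card = (II d).card := card_image_of_injOn hinj
  have hdis : Disjoint (II d) ((II d).image (fun μ => d - μ)) := by
    rw [disjoint_left]
    intro x hx hx'
    rw [mem_image] at hx'
    obtain ⟨y, hy, rfl⟩ := hx'
    rw [mem_II hd] at hx hy
    omega
  have h2 : (range d).filter (fun a => d.Coprime a) = II d ∪ (II d).image (fun μ => d - μ) := by
    ext x
    rw [mem_filter, mem_range, mem_union, mem_II hd, mem_image]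
    constructor
    · rintro ⟨h3, h4⟩
      have hx1 : 1 ≤ x := by
        rcases Nat.eq_zero_or_pos x with rfl | h
        · rw [Nat.coprime_zero_right] at h4
          omega
        · exact h
      rcases Nat.lt_trichotomy (2 * x) d with h5 | h5 | h5
      · exact Or.inl ⟨hx1, h4.symm, h5⟩
      · exfalso
        have : x ∣ d := ⟨2, by omega⟩
        have h6 := Nat.eq_one_of_dvd_coprimes h4.symm (dvd_refl x) this
        omega
      · right
        refine ⟨d - x, (mem_II hd).2 ⟨by omega, ?_, by omega⟩, by omega⟩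
        exact (Nat.coprime_self_sub_left h3.le).2 h4.symm
    · rintro (⟨h3, h4, h5⟩ | ⟨y, hy, rfl⟩)
      · exact ⟨by omega, h4.symm⟩
      · rw [mem_II hd] at hy
        refine ⟨by omega, ?_⟩
        exact ((Nat.coprime_self_sub_left (by omega)).2 hy.2.1).symm
  rw [h2, card_union_of_disjoint hdis, h1]
  ring

lemma geo_eval {L : Type*} [Field L] (d : ℕ) (hd : 3 ≤ d) (ζ : L) (hζ : IsPrimitiveRoot ζ d) (μ m : ℕ)
    (hμ : μ ∈ II d) (hm : μ * m % d = 1) :
    (ζ ^ μ + 1) * ∑ i ∈ range m, ζ ^ (μ * i) = (ζ - 1) * ((ζ ^ μ + 1) / (ζ ^ μ - 1)) := by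
  rw [mem_II hd] at hμ
  have h1 : ζ ^ μ - 1 ≠ 0 := by
    intro h0
    have := (hζ.pow_eq_one_iff_dvd μ).1 (sub_eq_zero.1 h0)
    have := Nat.le_of_dvd (by omega) this
    omega
  have h2 : (∑ i ∈ range m, ζ ^ (μ * i)) * (ζ ^ μ - 1) = ζ - 1 := by
    simp_rw [pow_mul]
    rw [geom_sum_mul, ← pow_mul]
    congr 1
    conv_rhs => rw [← pow_one ζ]
    conv_lhs => rw [← Nat.mod_add_div (μ * m) d, pow_add, pow_mul, hζ.pow_eq_one, one_pow, mul_one, hm]
  rw [← h2]
  field_simp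

theorem half_inv_sum (d : ℕ) (hd : 3 ≤ d) (ζ : ℂ) (hζ : IsPrimitiveRoot ζ d) :
    2 * ∑ μ ∈ II d, 1 / ‖ζ ^ μ - 1‖ ≤ ∑ j ∈ Ico 1 d, 1 / ‖ζ ^ j - 1‖ := by
  classical
  have hinj : Set.InjOn (fun μ => d - μ) (II d : Set ℕ) := by
    intro a ha b hb h
    rw [mem_coe, mem_II hd] at ha hb
    simp only at h
    omega
  have hdis : Disjoint (II d) ((II d).image (fun μ => d - μ)) := by
    rw [disjoint_left]
    intro x hx hx'
    rw [mem_image] at hx'
    obtain ⟨y, hy, rfl⟩ := hx'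
    rw [mem_II hd] at hx hy
    omega
  have hn : ‖ζ‖ = 1 := hζ.norm'_eq_one (by omega)
  have h1 : ∑ μ ∈ II d, 1 / ‖ζ ^ μ - 1‖ = ∑ j ∈ (II d).image (fun μ => d - μ), 1 / ‖ζ ^ j - 1‖ := by
    rw [sum_image hinj]
    refine sum_congr rfl fun μ hμ => ?_
    rw [mem_II hd] at hμ
    congr 1
    have h2 : ζ ^ (d - μ) * ζ ^ μ = 1 := by
      rw [← pow_add]
      have : d - μ + μ = d := by omega
      rw [this, hζ.pow_eq_one]
    have h3 : ‖ζ ^ (d - μ) - 1‖ * ‖ζ ^ μ‖ = ‖ζ ^ μ - 1‖ := by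
      rw [← norm_mul, sub_mul, h2, one_mul, norm_sub_rev]
    rw [← h3, norm_pow, hn, one_pow, mul_one]
  rw [two_mul]
  nth_rewrite 2 [h1]
  rw [← sum_union hdis]
  refine sum_le_sum_of_subset_of_nonneg ?_ (fun _ _ _ => by positivity)
  intro x hx
  rw [mem_union, mem_image] at hx
  rw [mem_Ico]
  rcases hx with hx | ⟨y, hy, rfl⟩
  · rw [mem_II hd] at hx
    omega
  · rw [mem_II hd] at hy
    omega

/-- A small relation between cotangents modulo `p` forces `p` to be small. -/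
theorem cot_relation (p d : ℕ) [Fact p.Prime] (hd : 3 ≤ d) (hpd : ¬ p ∣ d) (b : ℕ → ℤ) (B : ℕ)
    (hB : ∀ μ ∈ II d, |b μ| ≤ B) (hne : ∃ μ ∈ II d, b μ ≠ 0)
    (hrel : ∀ ζ : AlgebraicClosure (ZMod p), IsPrimitiveRoot ζ d →
      ∑ μ ∈ II d, (b μ : AlgebraicClosure (ZMod p)) * ((ζ ^ μ + 1) / (ζ ^ μ - 1)) = 0) :
    (p : ℝ) ≤ B * d * Real.log (d + 1) := by
  classical
  have hinv : ∀ μ : ℕ, ∃ m : ℕ, μ ∈ II d → μ * m % d = 1 := by
    intro μ
    by_cases hμ : μ ∈ II d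
    · rw [mem_II hd] at hμ
      obtain ⟨m, hm⟩ := Nat.exists_mul_mod_eq_one_of_coprime hμ.2.1 (by omega : 1 < d)
      exact ⟨m, fun _ => hm.2⟩
    · exact ⟨0, fun h => absurd h hμ⟩
  choose inv hinv using hinv
  set G : ℤ[X] := ∑ μ ∈ II d, C (b μ) * ((X ^ μ + 1) * ∑ i ∈ range (inv μ), X ^ (μ * i)) with hG
  have hev : ∀ (L : Type) [Field L] (ζ : L), IsPrimitiveRoot ζ d → G.eval₂ (Int.castRingHom L) ζ =
      (ζ - 1) * ∑ μ ∈ II d, (b μ : L) * ((ζ ^ μ + 1) / (ζ ^ μ - 1)) := by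
    intro L _ ζ hζ
    rw [hG, eval₂_finsetSum, mul_sum]
    refine sum_congr rfl fun μ hμ => ?_
    rw [eval₂_mul, eval₂_mul, eval₂_add, eval₂_C, eval₂_X_pow, eval₂_one, eval₂_finsetSum]
    simp only [eval₂_X_pow]
    rw [geo_eval d hd ζ hζ μ (inv μ) hμ (hinv μ hμ)]
    simp only [eq_intCast]
    ring
  have hdiv := pow_dvd_norm p d (by omega) hpd G (fun ζ hζ => by
    rw [hev _ ζ hζ, hrel ζ hζ, mul_zero])
  have hdet := det_MM d (by omega) G
  -- nonvanishing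
  have hval : ∀ ζ ∈ primitiveRoots d ℂ, G.eval₂ (Int.castRingHom ℂ) ζ ≠ 0 := by
    intro ζ hζ h0
    have hζ' := isPrimitiveRoot_of_mem_primitiveRoots hζ
    rw [hev ℂ ζ hζ'] at h0
    rcases mul_eq_zero.1 h0 with h1 | h1
    · have := hζ'.ne_one (by omega)
      exact this (sub_eq_zero.1 h1)
    · obtain ⟨μ, hμ, hbμ⟩ := hne
      exact hbμ (cot_indep d hd ζ hζ' b h1 μ hμ)
  have hdet0 : (MM d G).det ≠ 0 := by
    intro h0
    rw [h0, Int.cast_zero] at hdet
    exact prod_ne_zero_iff.2 hval hdet.symm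
  have hle : (p : ℝ) ^ d.totient ≤ ‖(((MM d G).det : ℤ) : ℂ)‖ := by
    have h1 : p ^ d.totient ≤ ((MM d G).det).natAbs := by
      have h2 := Int.natAbs_dvd_natAbs.2 hdiv
      rw [Int.natAbs_pow, Int.natAbs_natCast] at h2
      exact Nat.le_of_dvd (Int.natAbs_pos.2 hdet0) h2
    have h3 : ‖(((MM d G).det : ℤ) : ℂ)‖ = (((MM d G).det).natAbs : ℝ) := by
      rw [Complex.norm_intCast, ← Int.cast_abs, Int.abs_eq_natAbs]
      simp
    rw [h3]
    exact_mod_cast h1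
  have hup : ‖(((MM d G).det : ℤ) : ℂ)‖ ≤ (B * d * Real.log (d + 1)) ^ d.totient := by
    rw [hdet, norm_prod]
    calc ∏ ζ ∈ primitiveRoots d ℂ, ‖G.eval₂ (Int.castRingHom ℂ) ζ‖ ≤
        ∏ ζ ∈ primitiveRoots d ℂ, ((B * d * Real.log (d + 1) : ℝ)) := by
          refine prod_le_prod (fun _ _ => norm_nonneg _) (fun ζ hζ => ?_)
          have hζ' := isPrimitiveRoot_of_mem_primitiveRoots hζ
          have hn : ‖ζ‖ = 1 := hζ'.norm'_eq_one (by omega)
          rw [hev ℂ ζ hζ', norm_mul]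
          have h1 : ‖ζ - 1‖ ≤ 2 := by
            refine (norm_sub_le _ _).trans ?_
            rw [hn, norm_one]; norm_num
          have h2 : ‖∑ μ ∈ II d, (b μ : ℂ) * ((ζ ^ μ + 1) / (ζ ^ μ - 1))‖ ≤
              2 * B * ∑ μ ∈ II d, 1 / ‖ζ ^ μ - 1‖ := by
            refine (norm_sum_le _ _).trans ?_
            rw [mul_sum]
            refine sum_le_sum fun μ hμ => ?_
            rw [norm_mul, norm_div]
            have h3 : ‖(b μ : ℂ)‖ ≤ B := by
              rw [Complex.norm_intCast]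
              exact_mod_cast hB μ hμ
            have h4 : ‖ζ ^ μ + 1‖ ≤ 2 := by
              refine (norm_add_le _ _).trans ?_
              rw [norm_pow, hn, one_pow, norm_one]; norm_num
            have h5 : ‖ζ ^ μ + 1‖ / ‖ζ ^ μ - 1‖ ≤ 2 * (1 / ‖ζ ^ μ - 1‖) := by
              rw [div_eq_mul_one_div]
              exact mul_le_mul_of_nonneg_right h4 (by positivity)
            calc ‖(b μ : ℂ)‖ * (‖ζ ^ μ + 1‖ / ‖ζ ^ μ - 1‖) ≤ B * (2 * (1 / ‖ζ ^ μ - 1‖)) :=
                  mul_le_mul h3 h5 (by positivity) (by positivity)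
              _ = 2 * B * (1 / ‖ζ ^ μ - 1‖) := by ring
          have h6 := half_inv_sum d hd ζ hζ'
          have h7 := inv_sum_le d (by omega) ζ hζ'
          have h8 : (0 : ℝ) ≤ B := by positivity
          calc ‖ζ - 1‖ * ‖∑ μ ∈ II d, (b μ : ℂ) * ((ζ ^ μ + 1) / (ζ ^ μ - 1))‖ ≤
              2 * (2 * B * ∑ μ ∈ II d, 1 / ‖ζ ^ μ - 1‖) :=
                mul_le_mul h1 h2 (norm_nonneg _) (by norm_num)
            _ = 2 * B * (2 * ∑ μ ∈ II d, 1 / ‖ζ ^ μ - 1‖) := by ring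
            _ ≤ 2 * B * (d / 2 * Real.log (d + 1)) :=
                mul_le_mul_of_nonneg_left (h6.trans h7) (by positivity)
            _ = B * d * Real.log (d + 1) := by ring
      _ = (B * d * Real.log (d + 1)) ^ d.totient := by
          rw [prod_const, Complex.card_primitiveRoots]
  have hlog : 0 ≤ Real.log ((d : ℝ) + 1) := Real.log_nonneg (by
    have : (0 : ℝ) ≤ d := by positivity
    linarith)
  exact le_of_pow_le_pow_left₀ (Nat.totient_pos.2 (by omega)).ne' (by positivity) (hle.trans hup)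

end Pool.Agent.TH10.RP
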