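import Mathlib
import Pool.Agent.TH10.RP.Rank

/-!
# The rank of the cotangents modulo `p`, II
-/

set_option autoImplicit false

namespace Pool.Agent.TH10.RP

open Finset

/-- the numerical estimate -/
theorem num_est (p d B : ℕ) (hp : 1200 < p) (hd : 3 ≤ d) (hdp : d ^ 2 ≤ 2 * p) (hB : B ^ 4 ≤ p) :
    (B : ℝ) * d * Real.log (d + 1) < p := by
  by_contra hcon
  push Not at hcon
  set L := Real.log ((d : ℝ) + 1) with hL
  have hd0 : (0 : ℝ) < d := by exact_mod_cast (by omega : 0 < d)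
  have hp0 : (0 : ℝ) < p := by exact_mod_cast (by omega : 0 < p)
  have hL0 : 0 ≤ L := Real.log_nonneg (by linarith)
  have hBR : (B : ℝ) ^ 4 ≤ p := by exact_mod_cast hB
  have hdR : (d : ℝ) ^ 2 ≤ 2 * p := by exact_mod_cast hdp
  have h1 : (p : ℝ) ^ 4 ≤ (B : ℝ) ^ 4 * ((d : ℝ) ^ 2) ^ 2 * L ^ 4 := by
    calc (p : ℝ) ^ 4 ≤ (B * d * L) ^ 4 := pow_le_pow_left₀ hp0.le hcon 4
      _ = _ := by ring
  have h2 : (B : ℝ) ^ 4 * ((d : ℝ) ^ 2) ^ 2 * L ^ 4 ≤ p * (2 * p) ^ 2 * L ^ 4 := by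
    refine mul_le_mul_of_nonneg_right ?_ (by positivity)
    refine mul_le_mul hBR (pow_le_pow_left₀ (by positivity) hdR 2) (by positivity) hp0.le
  have h3 : (p : ℝ) ≤ 4 * L ^ 4 := by
    have h4 : (p : ℝ) ^ 3 * p ≤ (p : ℝ) ^ 3 * (4 * L ^ 4) := by nlinarith
    exact le_of_mul_le_mul_left h4 (by positivity)
  -- r = sqrt (2p), u = sqrt (r+1)
  set r := Real.sqrt (2 * p) with hr
  have hr0 : 0 ≤ r := Real.sqrt_nonneg _
  have hr2 : r ^ 2 = 2 * p := Real.sq_sqrt (by positivity)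
  have hdr : (d : ℝ) ≤ r := by
    rw [hr]; exact Real.le_sqrt_of_sq_le hdR
  set u := Real.sqrt (r + 1) with hu
  have hu0 : 0 ≤ u := Real.sqrt_nonneg _
  have hu2 : u ^ 2 = r + 1 := Real.sq_sqrt (by linarith)
  have hupos : 0 < u := by
    rw [hu]; exact Real.sqrt_pos.2 (by linarith)
  have hLu : L ≤ 3 + 0.1643 * u := by
    have h5 : L ≤ Real.log (r + 1) := Real.log_le_log (by linarith) (by linarith)
    have h6 : Real.log (r + 1) = 2 * Real.log u := by
      rw [← hu2, Real.log_pow]; norm_num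
    have h7 : Real.log u = 5 / 2 + Real.log (u * Real.exp (-(5 / 2))) := by
      rw [Real.log_mul hupos.ne' (Real.exp_pos _).ne', Real.log_exp]; ring
    have h8 : Real.log (u * Real.exp (-(5 / 2))) ≤ u * Real.exp (-(5 / 2)) - 1 :=
      Real.log_le_sub_one_of_pos (mul_pos hupos (Real.exp_pos _))
    have h9 : Real.exp (-(5 / 2)) ≤ 0.08215 := by
      have e1 : (2.7182818283 : ℝ) < Real.exp 1 := Real.exp_one_gt_d9
      have e2 : Real.exp (-(5 / 2)) ^ 2 = (Real.exp 1 ^ 5)⁻¹ := by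
        rw [← Real.exp_nat_mul, ← Real.exp_nat_mul, ← Real.exp_neg]
        congr 1
        push_cast
        ring
      have e3 : (148.2 : ℝ) ≤ Real.exp 1 ^ 5 := by
        calc (148.2 : ℝ) ≤ 2.7182818283 ^ 5 := by norm_num
          _ ≤ Real.exp 1 ^ 5 := pow_le_pow_left₀ (by norm_num) e1.le 5
      have e4 : Real.exp (-(5 / 2)) ^ 2 ≤ 0.08215 ^ 2 := by
        rw [e2]
        calc (Real.exp 1 ^ 5)⁻¹ ≤ (148.2)⁻¹ := inv_anti₀ (by norm_num) e3
          _ ≤ 0.08215 ^ 2 := by norm_num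
      exact le_of_sq_le_sq e4 (by norm_num)
    nlinarith
  have h10 : r ≤ 2.8285 * L ^ 2 := by
    have h11 : r ^ 2 ≤ (2.8285 * L ^ 2) ^ 2 := by
      rw [hr2]
      nlinarith [sq_nonneg (L ^ 2)]
    exact le_of_sq_le_sq h11 (by positivity)
  have h12 : L ^ 2 ≤ (3 + 0.1643 * u) ^ 2 := pow_le_pow_left₀ hL0 hLu 2
  have h13 : u ^ 2 - 1 ≤ 2.8285 * (3 + 0.1643 * u) ^ 2 := by nlinarith
  have h14 : u ≤ 7.08 := by
    by_contra hc
    push Not at hc
    nlinarith
  have h15 : r ≤ 49.2 := by nlinarith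
  have h16 : (1200 : ℝ) < p := by exact_mod_cast hp
  nlinarith

/-- the cotangents as functions on the primitive roots of unity modulo `p` -/
noncomputable def vc (p d : ℕ) [Fact p.Prime] (μ : ℕ) :
    {ζ : AlgebraicClosure (ZMod p) // IsPrimitiveRoot ζ d} → AlgebraicClosure (ZMod p) :=
  fun ζ => ((ζ : AlgebraicClosure (ZMod p)) ^ μ + 1) / ((ζ : AlgebraicClosure (ZMod p)) ^ μ - 1)

/-- The rank of the cotangents modulo `p` is at least a quarter of their number. -/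
theorem rank_bound (p d : ℕ) [Fact p.Prime] (hp : 1200 < p) (hd : 3 ≤ d) (hdp : d ^ 2 ≤ 2 * p)
    (M : Finset ℕ) (hM : ∀ μ ∈ II d, vc p d μ ∈ Submodule.span (ZMod p) (vc p d '' (M : Set ℕ))) :
    (II d).card ≤ 4 * M.card := by
  classical
  by_contra hcon
  push Not at hcon
  have hpd : ¬ p ∣ d := by
    intro h
    have := Nat.le_of_dvd (by omega) h
    nlinarith
  -- B = floor (p ^ (1/4))
  obtain ⟨B, hB1, hB2⟩ : ∃ B : ℕ, B ^ 4 ≤ p ∧ p < (B + 1) ^ 4 := by
    have hex : ∃ n : ℕ, p < (n + 1) ^ 4 := by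
      refine ⟨p, ?_⟩
      calc p < p + 1 := Nat.lt_succ_self p
        _ ≤ (p + 1) ^ 4 := Nat.le_self_pow (by norm_num) _
    refine ⟨Nat.find hex, ?_, Nat.find_spec hex⟩
    rcases Nat.eq_zero_or_pos (Nat.find hex) with h0 | h0
    · rw [h0]; simp
    · have h1 := Nat.find_min hex (m := Nat.find hex - 1) (by omega)
      push Not at h1
      have h2 : Nat.find hex - 1 + 1 = Nat.find hex := by omega
      rwa [h2] at h1
  set W := Submodule.span (ZMod p) (vc p d '' (M : Set ℕ)) with hW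
  have hfin : Module.Finite (ZMod p) W := by
    rw [hW]
    exact FiniteDimensional.span_of_finite _ ((Finset.finite_toSet M).image _)
  have hWf : Finite W := Module.finite_of_finite (ZMod p)
  have hWt : Fintype W := Fintype.ofFinite W
  have hWcard : Fintype.card W ≤ p ^ M.card := by
    rw [Module.card_eq_pow_finrank (K := ZMod p) (V := W), ZMod.card]
    refine Nat.pow_le_pow_right (by omega) ?_
    rw [hW]
    refine (finrank_span_le_card (R := ZMod p) _).trans ?_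
    rw [Set.toFinset_image]
    refine card_image_le.trans ?_
    simp
  let Φ : (II d → Fin (B + 1)) → W := fun f =>
    ⟨∑ μ : II d, ((f μ : ℕ) : ZMod p) • vc p d μ, Submodule.sum_mem _ fun μ _ =>
      Submodule.smul_mem _ _ (hM μ μ.2)⟩
  have hcard : Fintype.card W < Fintype.card (II d → Fin (B + 1)) := by
    rw [Fintype.card_fun, Fintype.card_fin, Fintype.card_coe]
    refine lt_of_le_of_lt hWcard ?_
    have h1 : p ^ M.card ≤ (B + 1) ^ (4 * M.card) := by
      rw [pow_mul]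
      exact Nat.pow_le_pow_left hB2.le _
    have h2 : (B + 1) ^ (4 * M.card) < (B + 1) ^ (II d).card := by
      refine Nat.pow_lt_pow_right ?_ hcon
      rcases Nat.eq_zero_or_pos B with h0 | h0
      · subst h0
        norm_num at hB2
        omega
      · omega
    omega
  obtain ⟨f, g, hfg, hΦ⟩ := Fintype.exists_ne_map_eq_of_card_lt Φ hcard
  let b : ℕ → ℤ := fun μ => if h : μ ∈ II d then ((f ⟨μ, h⟩ : ℕ) : ℤ) - ((g ⟨μ, h⟩ : ℕ) : ℤ) else 0
  have hb : ∀ μ : II d, b μ = ((f μ : ℕ) : ℤ) - ((g μ : ℕ) : ℤ) := fun μ => dif_pos μ.2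
  have hbB : ∀ μ ∈ II d, |b μ| ≤ B := by
    intro μ hμ
    have h1 := hb ⟨μ, hμ⟩
    simp only at h1
    rw [h1, abs_le]
    have h2 := (f ⟨μ, hμ⟩).2
    have h3 := (g ⟨μ, hμ⟩).2
    omega
  have hbne : ∃ μ ∈ II d, b μ ≠ 0 := by
    by_contra hc
    push Not at hc
    apply hfg
    funext μ
    have h1 := hc μ μ.2
    rw [hb] at h1
    exact Fin.ext (by omega)
  have hrel : ∀ ζ : AlgebraicClosure (ZMod p), IsPrimitiveRoot ζ d →
      ∑ μ ∈ II d, (b μ : AlgebraicClosure (ZMod p)) * ((ζ ^ μ + 1) / (ζ ^ μ - 1)) = 0 := by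
    intro ζ hζ
    have h1 := congrArg (fun w : W => (w : {ζ : AlgebraicClosure (ZMod p) // IsPrimitiveRoot ζ d} →
      AlgebraicClosure (ZMod p)) ⟨ζ, hζ⟩) hΦ
    simp only [Φ, Finset.sum_apply, Pi.smul_apply, vc] at h1
    rw [← Finset.sum_coe_sort]
    have h2 : ∑ μ : II d, (b μ : AlgebraicClosure (ZMod p)) * ((ζ ^ (μ : ℕ) + 1) / (ζ ^ (μ : ℕ) - 1)) =
        ∑ μ : II d, ((f μ : ℕ) : ZMod p) • ((ζ ^ (μ : ℕ) + 1) / (ζ ^ (μ : ℕ) - 1)) -
        ∑ μ : II d, ((g μ : ℕ) : ZMod p) • ((ζ ^ (μ : ℕ) + 1) / (ζ ^ (μ : ℕ) - 1)) := by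
      rw [← Finset.sum_sub_distrib]
      refine sum_congr rfl fun μ _ => ?_
      rw [hb, Algebra.smul_def, Algebra.smul_def, map_natCast, map_natCast]
      push_cast
      ring
    rw [h2, sub_eq_zero]
    exact h1
  have h1 := cot_relation p d hd hpd b B hbB hbne hrel
  have h2 := num_est p d B hp hd hdp hB1
  linarith

/-- a set of independent cotangents modulo `p` -/
theorem exists_indep (p d : ℕ) [Fact p.Prime] (hp : 1200 < p) (hd : 3 ≤ d) (hdp : d ^ 2 ≤ 2 * p) :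
    ∃ M : Finset ℕ, M ⊆ II d ∧ d.totient ≤ 8 * M.card ∧ ∀ f : ℕ → ZMod p,
      (∀ ζ : AlgebraicClosure (ZMod p), IsPrimitiveRoot ζ d →
        ∑ μ ∈ M, algebraMap (ZMod p) (AlgebraicClosure (ZMod p)) (f μ) * ((ζ ^ μ + 1) / (ζ ^ μ - 1)) = 0) →
      ∀ μ ∈ M, f μ = 0 := by
  classical
  obtain ⟨s, hs1, -, hs2, hs3⟩ := exists_linearIndepOn_extension (K := ZMod p) (v := vc p d)
    (s := ∅) (t := (II d : Set ℕ)) (linearIndepOn_empty _ _) (Set.empty_subset _)
  have hsf : s.Finite := (Finset.finite_toSet _).subset hs1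
  refine ⟨hsf.toFinset, ?_, ?_, ?_⟩
  · intro x hx
    exact hs1 ((Set.Finite.mem_toFinset hsf).1 hx)
  · have h1 := rank_bound p d hp hd hdp hsf.toFinset (fun μ hμ => by
      rw [Set.Finite.coe_toFinset]
      exact hs2 (Set.mem_image_of_mem _ hμ))
    have h2 := card_II hd
    omega
  · intro f hf
    have h1 : LinearIndepOn (ZMod p) (vc p d) (hsf.toFinset : Set ℕ) := by
      rw [Set.Finite.coe_toFinset]; exact hs3
    rw [linearIndepOn_finset_iff] at h1
    refine h1 f ?_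
    funext ζ
    have h2 := hf ζ ζ.2
    rw [Pi.zero_apply, ← h2, Finset.sum_apply]
    refine sum_congr rfl fun μ _ => ?_
    rw [Pi.smul_apply, Algebra.smul_def]
    rfl

end Pool.Agent.TH10.RP
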