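import Mathlib
import Pool.Agent.TH10.RP.PPlus
import Pool.Agent.TH10.RP.Dim
import Pool.Agent.TH10.RP.Rank2
import Pool.Agent.TH10.RP.JB
import Pool.Agent.TH350.RC.Main

/-!
# Counting regular indices
-/

set_option autoImplicit false

namespace Pool.Agent.TH10.RP

open Finset Pool.Agent.H332R2 Pool.Agent.TH350.SumReg

/-- the representable integers up to `K` -/
noncomputable def SG (p : ℕ) [Fact p.Prime] (K : ℕ) : Finset ℕ :=
  (range (K + 1)).filter (fun N => ∃ i, i ≤ N ∧ ww p N i ≠ 0)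

theorem SG_large (p : ℕ) [Fact p.Prime] (hp : 1200 < p) (K : ℕ) (hK : 2 * K + 3 ≤ p)
    (hK1 : 100 ≤ K) : K ≤ 10 * (SG p K).card := by
  classical
  obtain ⟨l, hl1, hl2⟩ : ∃ l : ℕ, l * (l + 1) < 4 * K ∧ 4 * K ≤ (l + 1) * (l + 2) := by
    have hex : ∃ n : ℕ, 4 * K ≤ (n + 1) * (n + 2) := ⟨4 * K, by nlinarith⟩
    refine ⟨Nat.find hex, ?_, Nat.find_spec hex⟩
    rcases Nat.eq_zero_or_pos (Nat.find hex) with h0 | h0
    · rw [h0]; omega
    · have h1 := Nat.find_min hex (m := Nat.find hex - 1) (by omega)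
      push Not at h1
      obtain ⟨n, hn⟩ : ∃ n, Nat.find hex = n + 1 := ⟨Nat.find hex - 1, by omega⟩
      rw [hn] at h1 ⊢
      have h2 : n + 1 - 1 = n := by omega
      rw [h2] at h1
      linarith
  have hl16 : 16 ≤ l := by
    by_contra hc
    push Not at hc
    have : (l + 1) * (l + 2) ≤ 16 * 17 := Nat.mul_le_mul (by omega) (by omega)
    omega
  have hex : ∀ d : ℕ, ∃ M : Finset ℕ, d ∈ Icc 3 l → M ⊆ II d ∧ d.totient ≤ 8 * M.card ∧
      ∀ f : ℕ → ZMod p, (∀ ζ : AlgebraicClosure (ZMod p), IsPrimitiveRoot ζ d →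
        ∑ μ ∈ M, algebraMap (ZMod p) (AlgebraicClosure (ZMod p)) (f μ) * ((ζ ^ μ + 1) / (ζ ^ μ - 1)) = 0) →
      ∀ μ ∈ M, f μ = 0 := by
    intro d
    by_cases hd : d ∈ Icc 3 l
    · have hd' := mem_Icc.1 hd
      have hdp : d ^ 2 ≤ 2 * p := by
        have : d ^ 2 ≤ l ^ 2 := Nat.pow_le_pow_left hd'.2 2
        nlinarith
      obtain ⟨M, h1, h2, h3⟩ := exists_indep p d hp hd'.1 hdp
      exact ⟨M, fun _ => ⟨h1, h2, h3⟩⟩
    · exact ⟨∅, fun h => absurd h hd⟩
  choose M hM using hex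
  have h1 := dim_bound (p := p) K l hK hl1 M (fun d hd μ hμ => by
      have h3 := (mem_Icc.1 hd).1
      have h4 := (mem_II h3).1 ((hM d hd).1 hμ)
      omega) (fun d hd => (hM d hd).2.2)
  have h2 : ∑ d ∈ Icc 3 l, d.totient ≤ 8 * ∑ d ∈ Icc 3 l, (M d).card := by
    rw [mul_sum]
    exact sum_le_sum fun d hd => (hM d hd).2.1
  have h3 := totient_sum l
  have h4 : ∑ d ∈ range (l + 1), d.totient = 2 + ∑ d ∈ Icc 3 l, d.totient := by
    have e1 : range (l + 1) = range 3 ∪ Icc 3 l := by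
      ext x
      rw [mem_union, mem_range, mem_range, mem_Icc]
      omega
    have e2 : Disjoint (range 3) (Icc 3 l) := by
      rw [disjoint_left]
      intro x h5 h6
      rw [mem_range] at h5
      rw [mem_Icc] at h6
      omega
    rw [e1, sum_union e2]
    congr 1
  have h5 : (SG p K).card = ((range (K + 1)).filter (fun N => ∃ i, i ≤ N ∧ ww p N i ≠ 0)).card := rfl
  rw [← h5] at h1
  have h6 : l ^ 2 ≤ 8 + 32 * (SG p K).card := by omega
  nlinarith

/-- counting pairs -/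
theorem pairs_count (p : ℕ) [Fact p.Prime] (K : ℕ) :
    ∑ N ∈ SG p K, ((range (N + 1)).filter (fun i => ww p N i ≠ 0)).card ≤
      ((range (K + 1)).filter (fun i => cc p (2 * i) ≠ 0)).card ^ 2 := by
  classical
  rw [← card_sigma, pow_two, ← card_product]
  refine card_le_card_of_injOn (fun x => (x.2, x.1 - x.2)) ?_ ?_
  · rintro ⟨N, i⟩ h
    rw [mem_coe, mem_sigma, mem_filter, mem_range] at h
    simp only at h
    have hN := (mem_filter.1 h.1).1
    rw [mem_range] at hN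
    rw [mem_coe, mem_product, mem_filter, mem_filter, mem_range, mem_range]
    simp only
    have h2 := h.2.2
    unfold ww at h2
    exact ⟨⟨by omega, left_ne_zero_of_mul h2⟩, ⟨by omega, right_ne_zero_of_mul h2⟩⟩
  · rintro ⟨N, i⟩ h ⟨N', i'⟩ h' he
    rw [mem_coe, mem_sigma, mem_filter, mem_range] at h h'
    simp only at h h'
    simp only [Prod.mk.injEq] at he
    have e1 : i = i' := he.1
    have e2 : N = N' := by omega
    subst e1
    subst e2
    rfl

theorem count_lower (p : ℕ) [Fact p.Prime] (K : ℕ) (hK : 2 * K + 3 ≤ p) :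
    (((SG p K).card : ℝ) - 1) ^ 2 * (SG p K).card ≤
      36 * (((range (K + 1)).filter (fun i => cc p (2 * i) ≠ 0)).card : ℝ) ^ 4 := by
  classical
  set A := (SG p K).card with hA
  set t := ((range (K + 1)).filter (fun i => cc p (2 * i) ≠ 0)).card with ht
  rcases Nat.eq_zero_or_pos A with h0 | h0
  · rw [h0]
    simp only [Nat.cast_zero, mul_zero]
    positivity
  have h1 := pairs_count p K
  rw [← ht] at h1
  set T := (SG p K).filter (fun N => A ≤ 2 * N) with hT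
  have hTc : A ≤ 2 * T.card + 1 := by
    have h2 := card_filter_add_card_filter_not (s := SG p K) (fun N => A ≤ 2 * N)
    have h3 : ((SG p K).filter (fun N => ¬ A ≤ 2 * N)).card ≤ (A + 1) / 2 := by
      calc ((SG p K).filter (fun N => ¬ A ≤ 2 * N)).card ≤ (range ((A + 1) / 2)).card := by
            refine card_le_card fun N hN => ?_
            rw [mem_filter] at hN
            rw [mem_range]
            omega
        _ = (A + 1) / 2 := card_range _
    rw [← hA, ← hT] at h2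
    omega
  have h4 : ∀ N ∈ T, Real.sqrt A / 3 ≤ (((range (N + 1)).filter (fun i => ww p N i ≠ 0)).card : ℝ) := by
    intro N hN
    rw [hT, mem_filter] at hN
    have hN2 := mem_filter.1 hN.1
    rw [mem_range] at hN2
    have h5 := rep_bound p N (by omega) hN2.2
    have h6 : (A : ℝ) ≤ (3 * (((range (N + 1)).filter (fun i => ww p N i ≠ 0)).card : ℝ)) ^ 2 := by
      have : A ≤ (3 * ((range (N + 1)).filter (fun i => ww p N i ≠ 0)).card) ^ 2 := by
        rw [mul_pow]; omega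
      exact_mod_cast this
    have h7 := Real.sqrt_le_sqrt h6
    rw [Real.sqrt_sq (by positivity)] at h7
    linarith
  have h8 : (T.card : ℝ) * (Real.sqrt A / 3) ≤ (t : ℝ) ^ 2 := by
    calc (T.card : ℝ) * (Real.sqrt A / 3) = ∑ N ∈ T, Real.sqrt A / 3 := by
          rw [sum_const, nsmul_eq_mul]
      _ ≤ ∑ N ∈ T, (((range (N + 1)).filter (fun i => ww p N i ≠ 0)).card : ℝ) := sum_le_sum h4
      _ ≤ ∑ N ∈ SG p K, (((range (N + 1)).filter (fun i => ww p N i ≠ 0)).card : ℝ) :=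
          sum_le_sum_of_subset_of_nonneg (filter_subset _ _) (fun _ _ _ => by positivity)
      _ ≤ (t : ℝ) ^ 2 := by exact_mod_cast h1
  have h9 : ((A : ℝ) - 1) / 2 ≤ T.card := by
    have : (A : ℝ) ≤ 2 * T.card + 1 := by exact_mod_cast hTc
    linarith
  have hA1 : (1 : ℝ) ≤ A := by exact_mod_cast h0
  have h10 : ((A : ℝ) - 1) / 2 * (Real.sqrt A / 3) ≤ (t : ℝ) ^ 2 :=
    (mul_le_mul_of_nonneg_right h9 (by positivity)).trans h8
  have h11 : (((A : ℝ) - 1) / 2 * (Real.sqrt A / 3)) ^ 2 ≤ ((t : ℝ) ^ 2) ^ 2 :=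
    pow_le_pow_left₀ (mul_nonneg (by linarith) (by positivity)) h10 2
  have h12 : Real.sqrt A ^ 2 = A := Real.sq_sqrt (by positivity)
  have h13 : (((A : ℝ) - 1) / 2 * (Real.sqrt A / 3)) ^ 2 = ((A : ℝ) - 1) ^ 2 * A / 36 := by
    rw [mul_pow, div_pow, div_pow, h12]
    ring
  rw [h13] at h11
  have h14 : ((t : ℝ) ^ 2) ^ 2 = (t : ℝ) ^ 4 := by ring
  rw [h14] at h11
  linarith

theorem num_two : (_root_.bernoulli 2).num = 1 := by
  rw [_root_.bernoulli_two]
  norm_num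

/-- The number of regular indices up to `K` is at least `K^(3/4) / 32`. -/
theorem count_main (p : ℕ) (hp : p.Prime) (K : ℕ) (hK : 2 * K + 3 ≤ p) :
    K ^ 3 ≤ 10 ^ 6 * ((Icc 1 K).filter (fun m : ℕ => ¬ ((p : ℤ) ∣ (_root_.bernoulli (2 * m)).num))).card ^ 4 := by
  classical
  have : Fact p.Prime := ⟨hp⟩
  set s := ((Icc 1 K).filter (fun m : ℕ => ¬ ((p : ℤ) ∣ (_root_.bernoulli (2 * m)).num))).card with hs
  rcases Nat.eq_zero_or_pos K with h0 | h0
  · subst h0
    simp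
  have hs1 : 1 ≤ s := by
    rw [hs, Nat.succ_le_iff, card_pos]
    refine ⟨1, mem_filter.2 ⟨mem_Icc.2 ⟨le_rfl, h0⟩, ?_⟩⟩
    rw [mul_one, num_two]
    intro h
    have := Int.le_of_dvd (by norm_num) h
    have : (5 : ℤ) ≤ p := by exact_mod_cast (by omega : 5 ≤ p)
    omega
  rcases Nat.lt_or_ge K 100 with hK1 | hK1
  · have h1 : K ^ 3 ≤ 100 ^ 3 := Nat.pow_le_pow_left hK1.le 3
    have h2 : 1 ≤ s ^ 4 := Nat.one_le_pow _ _ hs1
    omega
  rcases Nat.lt_or_ge 1200 p with hp1 | hp1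
  · have h1 := SG_large p hp1 K hK hK1
    have h2 := count_lower p K hK
    have h3 : ((range (K + 1)).filter (fun i => cc p (2 * i) ≠ 0)).card = s + 1 := by
      have e1 : (range (K + 1)).filter (fun i => cc p (2 * i) ≠ 0) =
          insert 0 ((Icc 1 K).filter (fun m : ℕ => ¬ ((p : ℤ) ∣ (_root_.bernoulli (2 * m)).num))) := by
        ext x
        rw [mem_filter, mem_range, mem_insert, mem_filter, mem_Icc]
        constructor
        · rintro ⟨h4, h5⟩
          rcases Nat.eq_zero_or_pos x with rfl | hx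
          · exact Or.inl rfl
          · right
            refine ⟨by omega, fun h6 => h5 ((cc_eq_zero_iff (by omega) (by omega)).2 h6)⟩
        · rintro (rfl | ⟨h4, h5⟩)
          · refine ⟨by omega, ?_⟩
            rw [mul_zero, cc_zero]
            exact one_ne_zero
          · exact ⟨by omega, fun h6 => h5 ((cc_eq_zero_iff (by omega) (by omega)).1 h6)⟩
      rw [e1, card_insert_of_notMem]
      simp
    rw [h3] at h2
    set A := (SG p K).card with hA
    have hAR : (K : ℝ) ≤ 10 * A := by exact_mod_cast h1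
    have hKR : (100 : ℝ) ≤ K := by exact_mod_cast hK1
    have hsR : (1 : ℝ) ≤ s := by exact_mod_cast hs1
    have h4 : (((s + 1 : ℕ) : ℝ)) ^ 4 ≤ 16 * (s : ℝ) ^ 4 := by
      have : (((s + 1 : ℕ) : ℝ)) ≤ 2 * s := by push_cast; linarith
      calc (((s + 1 : ℕ) : ℝ)) ^ 4 ≤ (2 * s) ^ 4 := pow_le_pow_left₀ (by positivity) this 4
        _ = 16 * (s : ℝ) ^ 4 := by ring
    have h5 : (0.081 : ℝ) * (K / 10) ^ 2 * K ≤ ((A : ℝ) - 1) ^ 2 * A := by
      have h6 : (0.9 : ℝ) * (K / 10) ≤ (A : ℝ) - 1 := by linarith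
      have h7 : ((0.9 : ℝ) * (K / 10)) ^ 2 ≤ ((A : ℝ) - 1) ^ 2 :=
        pow_le_pow_left₀ (by positivity) h6 2
      have h8 : (K : ℝ) / 10 ≤ A := by linarith
      calc (0.081 : ℝ) * (K / 10) ^ 2 * K = ((0.9 : ℝ) * (K / 10)) ^ 2 * (K / 10) := by ring
        _ ≤ ((A : ℝ) - 1) ^ 2 * A := mul_le_mul h7 h8 (by positivity) (by positivity)
    have h9 : (K : ℝ) ^ 3 ≤ 10 ^ 6 * (s : ℝ) ^ 4 := by nlinarith
    exact_mod_cast h9
  · have h1 := Pool.Agent.TH350.RC.main p 1 hp le_rfl (by simp; exact hp.one_lt) 0 K hK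
    have h2 : ((Icc 1 K).filter (fun m : ℕ => (m : ℤ) ≡ 0 [ZMOD ((1 : ℕ) : ℤ)] ∧
      ¬ ((p : ℤ) ∣ (_root_.bernoulli (2 * m)).num))).card = s := by
      rw [hs]
      congr 1
      refine filter_congr fun m _ => ?_
      constructor
      · exact fun h => h.2
      · intro h
        refine ⟨?_, h⟩
        rw [Nat.cast_one]
        exact Int.modEq_one
    rw [h2] at h1
    simp only [Nat.sub_self, pow_zero, one_mul] at h1
    have h3 : K ≤ 598 := by omega
    have h4 : s + 2 ≤ 3 * s := by omega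
    have h5 : K ≤ 9 * s ^ 2 := by
      have : (s + 2) ^ 2 ≤ (3 * s) ^ 2 := Nat.pow_le_pow_left h4 2
      nlinarith
    calc K ^ 3 = K * (K * K) := by ring
      _ ≤ 598 * (9 * s ^ 2 * (9 * s ^ 2)) := Nat.mul_le_mul h3 (Nat.mul_le_mul h5 h5)
      _ = 48438 * s ^ 4 := by ring
      _ ≤ 10 ^ 6 * s ^ 4 := Nat.mul_le_mul_right _ (by norm_num)

theorem ww_iff (p : ℕ) [Fact p.Prime] (N i : ℕ) (hi : i ≤ N) (hN : 2 * N + 3 ≤ p) :
    ww p N i ≠ 0 ↔ ¬ ((p : ℤ) ∣ (_root_.bernoulli (2 * i)).num) ∧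
      ¬ ((p : ℤ) ∣ (_root_.bernoulli (2 * (N - i))).num) := by
  unfold ww
  rw [mul_ne_zero_iff, Ne, Ne, cc_eq_zero_iff (by omega) (by omega),
    cc_eq_zero_iff (by omega) (by omega)]

theorem all_parts (p : ℕ) (hp : p.Prime) (K : ℕ) (hK : 2 * K + 3 ≤ p) :
    (K ^ 3 ≤ 10 ^ 6 *
      ((Icc 1 K).filter (fun m : ℕ => ¬ ((p : ℤ) ∣ (_root_.bernoulli (2 * m)).num))).card ^ 4) ∧
    (1200 < p → 100 ≤ K → K ≤ 10 * ((Icc 0 K).filter (fun N : ℕ => ∃ i ∈ Icc 0 N,
      ¬ ((p : ℤ) ∣ (_root_.bernoulli (2 * i)).num) ∧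
      ¬ ((p : ℤ) ∣ (_root_.bernoulli (2 * (N - i))).num))).card) ∧
    (∀ N ≤ K, ∀ j ≤ N, ¬ ((p : ℤ) ∣ (_root_.bernoulli (2 * j)).num) →
      ¬ ((p : ℤ) ∣ (_root_.bernoulli (2 * (N - j))).num) →
      2 * N < 9 * ((Icc 0 N).filter (fun i : ℕ => ¬ ((p : ℤ) ∣ (_root_.bernoulli (2 * i)).num) ∧
        ¬ ((p : ℤ) ∣ (_root_.bernoulli (2 * (N - i))).num))).card ^ 2) := by
  classical
  have : Fact p.Prime := ⟨hp⟩
  refine ⟨count_main p hp K hK, ?_, ?_⟩
  · intro hp1 hK1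
    refine (SG_large p hp1 K hK hK1).trans (Nat.mul_le_mul_left _ (card_le_card ?_))
    intro N hN
    unfold SG at hN
    rw [mem_filter, mem_range] at hN
    obtain ⟨hN1, i, hi, hw⟩ := hN
    rw [mem_filter, mem_Icc]
    have h1 := (ww_iff p N i hi (by omega)).1 hw
    exact ⟨⟨Nat.zero_le _, by omega⟩, i, mem_Icc.2 ⟨Nat.zero_le _, hi⟩, h1.1, h1.2⟩
  · intro N hN j hj h1 h2
    have h2 := rep_bound p N (by omega) ⟨j, hj, (ww_iff p N j hj (by omega)).2 ⟨h1, h2⟩⟩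
    have h3 : (range (N + 1)).filter (fun i => ww p N i ≠ 0) =
        (Icc 0 N).filter (fun i : ℕ => ¬ ((p : ℤ) ∣ (_root_.bernoulli (2 * i)).num) ∧
        ¬ ((p : ℤ) ∣ (_root_.bernoulli (2 * (N - i))).num)) := by
      ext x
      rw [mem_filter, mem_filter, mem_range, mem_Icc]
      constructor
      · rintro ⟨h4, h5⟩
        exact ⟨⟨Nat.zero_le _, by omega⟩, (ww_iff p N x (by omega) (by omega)).1 h5⟩
      · rintro ⟨h4, h5⟩
        exact ⟨by omega, (ww_iff p N x h4.2 (by omega)).2 h5⟩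
    rw [h3] at h2
    exact h2

end Pool.Agent.TH10.RP
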