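import Mathlib

set_option autoImplicit false

namespace Pool.Agent.TH10.RP

open Finset

namespace GramAux

open Matrix

variable {ι κ : Type} [Fintype ι] [DecidableEq ι] [Fintype κ]

lemma amgm (z : ι → ℝ) (hz : ∀ i, 0 ≤ z i) (R : ℝ) (hR : ∑ i, z i ≤ Fintype.card ι * R) :
    ∏ i, z i ≤ R ^ Fintype.card ι := by
  rcases Nat.eq_zero_or_pos (Fintype.card ι) with h0 | h0
  · have : IsEmpty ι := Fintype.card_eq_zero_iff.1 h0
    simp
  · have hn : (0 : ℝ) < Fintype.card ι := by exact_mod_cast h0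
    have h1 := Real.geom_mean_le_arith_mean_weighted univ (fun _ => 1 / (Fintype.card ι : ℝ)) z
      (fun _ _ => by positivity) (by
        rw [sum_const, card_univ, nsmul_eq_mul]; field_simp) (fun i _ => hz i)
    rw [← mul_sum] at h1
    have h2 : 1 / (Fintype.card ι : ℝ) * ∑ i, z i ≤ R := by
      rw [one_div, inv_mul_le_iff₀ hn]
      exact hR
    have h3 := h1.trans h2
    rw [Real.finsetProd_rpow _ _ (fun i _ => hz i)] at h3
    have h4 : 0 ≤ ∏ i, z i := prod_nonneg fun i _ => hz i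
    have h5 : ∏ i, z i = ((∏ i, z i) ^ (1 / (Fintype.card ι : ℝ))) ^ Fintype.card ι := by
      rw [← Real.rpow_natCast, ← Real.rpow_mul h4, one_div, inv_mul_cancel₀ hn.ne', Real.rpow_one]
    rw [h5]
    exact pow_le_pow_left₀ (Real.rpow_nonneg h4 _) h3 _

lemma det_le (A : Matrix ι κ ℝ) (R : ℝ) (hR : ∀ i, ∑ k, (A i k) ^ 2 ≤ R) :
    (A * Aᵀ).det ≤ R ^ Fintype.card ι := by
  have hG : (A * Aᵀ).PosSemidef := by
    have := Matrix.posSemidef_self_mul_conjTranspose A
    rwa [conjTranspose_eq_transpose_of_trivial] at this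
  have h1 := hG.1.det_eq_prod_eigenvalues
  have h2 := hG.1.trace_eq_sum_eigenvalues
  rw [h1]
  refine amgm _ (fun i => hG.eigenvalues_nonneg i) R ?_
  have h3 : (A * Aᵀ).trace ≤ Fintype.card ι * R := by
    rw [Matrix.trace]
    calc ∑ i, (A * Aᵀ).diag i ≤ ∑ _i : ι, R := by
          refine sum_le_sum fun i _ => ?_
          rw [Matrix.diag_apply, Matrix.mul_apply]
          simp only [transpose_apply]
          simpa only [sq] using hR i
      _ = _ := by rw [sum_const, card_univ, nsmul_eq_mul]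
  rw [h2] at h3
  exact h3

lemma det_ne_zero (M : Matrix ι κ ℤ) (hli : ∀ b : ι → ℤ, (∀ k, ∑ i, b i * M i k = 0) → b = 0) :
    (M * Mᵀ).det ≠ 0 := by
  intro h
  obtain ⟨v, hv, h1⟩ := Matrix.exists_vecMul_eq_zero_iff.2 h
  apply hv
  apply hli
  have h2 : v ᵥ* M ⬝ᵥ v ᵥ* M = 0 := by
    have : v ᵥ* M ⬝ᵥ v ᵥ* M = (v ᵥ* (M * Mᵀ)) ⬝ᵥ v := by
      rw [← Matrix.vecMul_vecMul, ← Matrix.dotProduct_mulVec, Matrix.vecMul_transpose, dotProduct_comm]
    rw [this, h1, zero_dotProduct]
  have h3 := dotProduct_self_eq_zero.1 h2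
  intro k
  have := congrFun h3 k
  simpa [Matrix.vecMul, dotProduct] using this

lemma dvd_det (M : Matrix ι κ ℤ) (p : ℤ) (T : Finset ι)
    (hT : ∀ i, i ∉ T → ∃ a : ι → ℤ, ∀ k, p ∣ M i k - ∑ j ∈ T, a j * M j k) :
    p ^ (2 * (Fintype.card ι - T.card)) ∣ (M * Mᵀ).det := by
  choose! a ha using hT
  let N : Matrix ι ι ℤ := fun i j => if i ∉ T ∧ j ∈ T then a i j else 0
  have hNN : N * N = 0 := by
    ext i j
    rw [Matrix.mul_apply, Matrix.zero_apply]
    refine sum_eq_zero fun k _ => ?_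
    by_cases hk : k ∈ T
    · have : N k j = 0 := by simp [N, hk]
      rw [this, mul_zero]
    · have : N i k = 0 := by simp [N, hk]
      rw [this, zero_mul]
  have hU : (1 - N) * (1 + N) = 1 := by
    rw [sub_mul, mul_add, mul_add, one_mul, one_mul, mul_one, hNN]
    simp
  have hdet : IsUnit (1 - N).det := by
    have := congrArg Matrix.det hU
    rw [Matrix.det_mul, Matrix.det_one] at this
    exact IsUnit.of_mul_eq_one _ this
  have hsq : (1 - N).det * (1 - N).det = 1 := by
    rcases Int.isUnit_iff.1 hdet with h | h <;> rw [h] <;> norm_num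
  have hrow : ∀ i k, ((1 - N) * M : Matrix ι κ ℤ) i k =
      if i ∈ T then M i k else M i k - ∑ j ∈ T, a i j * M j k := by
    intro i k
    rw [Matrix.sub_mul, Matrix.one_mul, Matrix.sub_apply, Matrix.mul_apply]
    split_ifs with h
    · rw [sum_eq_zero fun j _ => ?_, sub_zero]
      simp [N, h]
    · congr 1
      rw [← sum_subset (subset_univ T) fun j _ hj => ?_]
      · exact sum_congr rfl fun j hj => by simp [N, h, hj]
      · simp [N, hj]
  let c : ι → ℤ := fun i => if i ∈ T then 1 else p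
  have hB : ∀ i k, ∃ b : ℤ, ((1 - N) * M : Matrix ι κ ℤ) i k = c i * b := by
    intro i k
    rw [hrow]
    by_cases h : i ∈ T
    · exact ⟨M i k, by simp [c, h]⟩
    · obtain ⟨b, hb⟩ := ha i h k
      exact ⟨b, by simp [c, h, hb]⟩
  choose B hB using hB
  have h1 : (1 - N) * M = Matrix.diagonal c * Matrix.of B := by
    ext i k
    rw [hB, Matrix.diagonal_mul, Matrix.of_apply]
  have h2 : (1 - N) * (M * Mᵀ) * (1 - N)ᵀ =
      Matrix.diagonal c * (Matrix.of B * (Matrix.of B)ᵀ) * Matrix.diagonal c := by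
    have : (1 - N) * (M * Mᵀ) * (1 - N)ᵀ = ((1 - N) * M) * ((1 - N) * M)ᵀ := by
      rw [Matrix.transpose_mul]
      simp only [Matrix.mul_assoc]
    rw [this, h1, Matrix.transpose_mul, Matrix.diagonal_transpose]
    simp only [Matrix.mul_assoc]
  have h3 := congrArg Matrix.det h2
  rw [Matrix.det_mul, Matrix.det_mul, Matrix.det_mul, Matrix.det_mul, Matrix.det_transpose,
    Matrix.det_diagonal] at h3
  have hc : ∏ i, c i = p ^ (Fintype.card ι - T.card) := by
    rw [show (∏ i, c i) = ∏ i, (if i ∈ T then (1 : ℤ) else p) from rfl, prod_ite, prod_const_one,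
      one_mul, prod_const]
    congr 1
    have : (univ.filter fun i => i ∉ T) = univ \ T := by
      ext i; simp
    rw [this, card_sdiff_of_subset (subset_univ T), card_univ]
  rw [hc] at h3
  refine ⟨(Matrix.of B * (Matrix.of B)ᵀ).det, ?_⟩
  calc (M * Mᵀ).det = ((1 - N).det * (1 - N).det) * (M * Mᵀ).det := by rw [hsq, one_mul]
    _ = (1 - N).det * (M * Mᵀ).det * (1 - N).det := by ring
    _ = _ := by rw [h3]; ring

end GramAux

/-- Integer vectors with short rows whose rank modulo `p` is small. -/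
theorem gram_bound {ι κ : Type} [Fintype ι] [DecidableEq ι] [Fintype κ] (M : ι → κ → ℤ) (R : ℕ)
    (hR : ∀ i, ∑ k, (M i k) ^ 2 ≤ R)
    (hli : ∀ b : ι → ℤ, (∀ k, ∑ i, b i * M i k = 0) → b = 0)
    (p : ℕ) [Fact p.Prime] (T : Finset ι)
    (hT : ∀ i, i ∉ T → ∃ a : ι → ℤ, ∀ k, (p : ℤ) ∣ M i k - ∑ j ∈ T, a j * M j k) :
    p ^ (2 * (Fintype.card ι - T.card)) ≤ R ^ Fintype.card ι := by
  have h1 := GramAux.det_ne_zero (Matrix.of M) hli
  have h2 := GramAux.dvd_det (Matrix.of M) (p : ℤ) T hT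
  have h3 := GramAux.det_le ((Matrix.of M).map (Int.castRingHom ℝ)) R (by
    intro i
    simp only [Matrix.map_apply, Matrix.of_apply, eq_intCast]
    exact_mod_cast hR i)
  rw [← Matrix.transpose_map, ← Matrix.map_mul] at h3
  have h4 : ((Matrix.of M * (Matrix.of M).transpose).map (Int.castRingHom ℝ)).det =
      (((Matrix.of M * (Matrix.of M).transpose).det : ℤ) : ℝ) := by
    have := RingHom.map_det (Int.castRingHom ℝ) (Matrix.of M * (Matrix.of M).transpose)
    rw [eq_intCast] at this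
    rw [this]
    rfl
  rw [h4] at h3
  have h5 : (Matrix.of M * (Matrix.of M).transpose).det ≤ (R : ℤ) ^ Fintype.card ι := by
    exact_mod_cast h3
  have h6 : 0 ≤ (Matrix.of M * (Matrix.of M).transpose).det := by
    have hG := (Matrix.posSemidef_self_mul_conjTranspose
      ((Matrix.of M).map (Int.castRingHom ℝ))).det_nonneg
    rw [Matrix.conjTranspose_eq_transpose_of_trivial, ← Matrix.transpose_map, ← Matrix.map_mul,
      h4] at hG
    exact_mod_cast hG
  have h7 : 0 < (Matrix.of M * (Matrix.of M).transpose).det := lt_of_le_of_ne h6 (Ne.symm h1)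
  have h8 := (Int.le_of_dvd h7 h2).trans h5
  exact_mod_cast h8

end Pool.Agent.TH10.RP
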