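import Mathlib
import Pool.Agent.TH10.RP.GramB
import Pool.Agent.TH10.RP.Rank2

/-!
# A sharper bound for the rank of the cotangents modulo `p`
-/

set_option autoImplicit false

namespace Pool.Agent.TH10.RP

open Finset

section

variable {d : ℕ} [NeZero d]

/-- evaluation of a function on `ℤ/d` at a `d`-th root of unity -/
noncomputable def evz {L : Type} [Field L] (ζ : L) (f : ZMod d → ℤ) : L :=
  ∑ k : ZMod d, (f k : L) * ζ ^ k.val

/-- translation -/
def shf (a : ZMod d) (f : ZMod d → ℤ) : ZMod d → ℤ := fun k => f (k - a)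

lemma pow_val_nat {L : Type} [Field L] (ζ : L) (hζ : ζ ^ d = 1) (n : ℕ) :
    ζ ^ ((n : ZMod d)).val = ζ ^ n := by
  rw [ZMod.val_natCast]
  conv_rhs => rw [← Nat.mod_add_div n d, pow_add, pow_mul, hζ, one_pow, mul_one]

lemma pow_val_add {L : Type} [Field L] (ζ : L) (hζ : ζ ^ d = 1) (a b : ZMod d) :
    ζ ^ (a + b).val = ζ ^ a.val * ζ ^ b.val := by
  have h1 : a + b = ((a.val + b.val : ℕ) : ZMod d) := by
    push_cast
    rw [ZMod.natCast_zmod_val, ZMod.natCast_zmod_val]
  rw [h1, pow_val_nat ζ hζ, pow_add]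

lemma evz_shf {L : Type} [Field L] (ζ : L) (hζ : ζ ^ d = 1) (a : ZMod d) (f : ZMod d → ℤ) :
    evz ζ (shf a f) = ζ ^ a.val * evz ζ f := by
  unfold evz shf
  rw [← Equiv.sum_comp (Equiv.addRight a), mul_sum]
  refine sum_congr rfl fun k _ => ?_
  simp only [Equiv.coe_addRight, add_sub_cancel_right]
  rw [pow_val_add ζ hζ]
  ring

lemma evz_add {L : Type} [Field L] (ζ : L) (f g : ZMod d → ℤ) :
    evz ζ (fun k => f k + g k) = evz ζ f + evz ζ g := by
  unfold evz
  rw [← sum_add_distrib]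
  refine sum_congr rfl fun k _ => ?_
  push_cast
  ring

lemma evz_sub {L : Type} [Field L] (ζ : L) (f g : ZMod d → ℤ) :
    evz ζ (fun k => f k - g k) = evz ζ f - evz ζ g := by
  unfold evz
  rw [← sum_sub_distrib]
  refine sum_congr rfl fun k _ => ?_
  push_cast
  ring

lemma evz_lin {L : Type} [Field L] (ζ : L) {ι : Type} (s : Finset ι) (b : ι → ℤ)
    (f : ι → ZMod d → ℤ) :
    evz ζ (fun k => ∑ i ∈ s, b i * f i k) = ∑ i ∈ s, (b i : L) * evz ζ (f i) := by
  unfold evz
  simp only [Int.cast_sum, Int.cast_mul, sum_mul, mul_sum]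
  rw [sum_comm]
  refine sum_congr rfl fun i _ => sum_congr rfl fun k _ => ?_
  ring

/-- squared norm -/
def nm (f : ZMod d → ℤ) : ℤ := ∑ k : ZMod d, f k ^ 2

lemma nm_shf (a : ZMod d) (f : ZMod d → ℤ) : nm (shf a f) = nm f := by
  unfold nm shf
  rw [← Equiv.sum_comp (Equiv.addRight a)]
  refine sum_congr rfl fun k _ => ?_
  simp

lemma nm_sub_le (a : ZMod d) (f : ZMod d → ℤ) : nm (fun k => f k - shf a f k) ≤ 4 * nm f := by
  have h1 := nm_shf a f
  have h2 : nm (fun k => f k - shf a f k) ≤ 2 * nm f + 2 * nm (shf a f) := by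
    unfold nm
    rw [mul_sum, mul_sum, ← sum_add_distrib]
    refine sum_le_sum fun k _ => ?_
    nlinarith [sq_nonneg (f k + shf a f k)]
  linarith

lemma nm_add_le (a : ZMod d) (f : ZMod d → ℤ) : nm (fun k => f k + shf a f k) ≤ 4 * nm f := by
  have h1 := nm_shf a f
  have h2 : nm (fun k => f k + shf a f k) ≤ 2 * nm f + 2 * nm (shf a f) := by
    unfold nm
    rw [mul_sum, mul_sum, ← sum_add_distrib]
    refine sum_le_sum fun k _ => ?_
    nlinarith [sq_nonneg (f k - shf a f k)]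
  linarith

/-- the operators killing the imprimitive roots of unity -/
def opL (L : List ℕ) (f : ZMod d → ℤ) : ZMod d → ℤ :=
  L.foldr (fun q g k => g k - shf ((d / q : ℕ) : ZMod d) g k) f

lemma evz_opL {L : Type} [Field L] (ζ : L) (hζ : ζ ^ d = 1) (l : List ℕ) (f : ZMod d → ℤ) :
    evz ζ (opL l f) = (l.map (fun q => 1 - ζ ^ (d / q))).prod * evz ζ f := by
  induction l with
  | nil => simp [opL]
  | cons q l ih =>
    have h1 : opL (q :: l) f = fun k => opL l f k - shf ((d / q : ℕ) : ZMod d) (opL l f) k := rfl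
    rw [h1, evz_sub, evz_shf ζ hζ, pow_val_nat ζ hζ, ih, List.map_cons, List.prod_cons]
    ring

lemma nm_opL (l : List ℕ) (f : ZMod d → ℤ) : nm (opL l f) ≤ 4 ^ l.length * nm f := by
  induction l with
  | nil => simp [opL]
  | cons q l ih =>
    have h1 : opL (q :: l) f = fun k => opL l f k - shf ((d / q : ℕ) : ZMod d) (opL l f) k := rfl
    rw [h1, List.length_cons, pow_succ]
    have h2 := nm_sub_le ((d / q : ℕ) : ZMod d) (opL l f)
    linarith

/-- the geometric sum as a function -/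
def bas (μ m : ℕ) : ZMod d → ℤ := fun k => ∑ i ∈ range m, if ((μ * i : ℕ) : ZMod d) = k then 1 else 0

lemma evz_bas {L : Type} [Field L] (ζ : L) (hζ : ζ ^ d = 1) (μ m : ℕ) :
    evz ζ (bas (d := d) μ m) = ∑ i ∈ range m, ζ ^ (μ * i) := by
  unfold evz bas
  simp only [Int.cast_sum, Int.cast_ite, Int.cast_one, Int.cast_zero, sum_mul]
  rw [sum_comm]
  refine sum_congr rfl fun i _ => ?_
  simp only [ite_mul, one_mul, zero_mul]
  rw [sum_ite_eq univ ((μ * i : ℕ) : ZMod d), if_pos (mem_univ _), pow_val_nat ζ hζ]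

lemma nm_bas (μ m : ℕ) (hμ : μ.Coprime d) (hm : m ≤ d) : nm (bas (d := d) μ m) ≤ d := by
  classical
  have hinj : ∀ i < m, ∀ j < m, ((μ * i : ℕ) : ZMod d) = ((μ * j : ℕ) : ZMod d) → i = j := by
    intro i hi j hj h
    rw [ZMod.natCast_eq_natCast_iff] at h
    have h2 : i ≡ j [MOD d] := Nat.ModEq.cancel_left_of_coprime (by rwa [Nat.gcd_comm]) h
    exact Nat.ModEq.eq_of_lt_of_lt h2 (by omega) (by omega)
  have h01 : ∀ k, bas (d := d) μ m k ^ 2 ≤ 1 := by
    intro k
    unfold bas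
    rw [← sum_filter, sum_const, nsmul_eq_mul, mul_one]
    have h1 : ((range m).filter (fun i => ((μ * i : ℕ) : ZMod d) = k)).card ≤ 1 := by
      rw [card_le_one]
      intro a ha b hb
      rw [mem_filter, mem_range] at ha hb
      exact hinj a ha.1 b hb.1 (ha.2.trans hb.2.symm)
    have h2 : ((((range m).filter (fun i => ((μ * i : ℕ) : ZMod d) = k)).card : ℤ)) ≤ 1 := by
      exact_mod_cast h1
    have h3 : (0 : ℤ) ≤ (((range m).filter (fun i => ((μ * i : ℕ) : ZMod d) = k)).card : ℤ) := by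
      positivity
    nlinarith
  unfold nm
  refine (sum_le_sum fun k _ => h01 k).trans ?_
  rw [sum_const, card_univ, ZMod.card]
  simp

end

/-- an imprimitive root of unity is killed by one of the operators -/
lemma imprim {L : Type} [Field L] (d : ℕ) (hd : 0 < d) (ζ : L) (hζ : ζ ^ d = 1)
    (hn : ¬ IsPrimitiveRoot ζ d) : ∃ q ∈ d.primeFactors.toList, ζ ^ (d / q) = 1 := by
  have h1 : orderOf ζ ∣ d := orderOf_dvd_of_pow_eq_one hζ
  have h2 : orderOf ζ ≠ d := by
    intro h
    apply hn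
    rw [← h]
    exact IsPrimitiveRoot.orderOf ζ
  obtain ⟨k, hk⟩ := h1
  have hk1 : k ≠ 1 := by
    rintro rfl
    rw [mul_one] at hk
    exact h2 hk.symm
  obtain ⟨q, hq, hqk⟩ := Nat.exists_prime_and_dvd hk1
  refine ⟨q, ?_, ?_⟩
  · rw [mem_toList, Nat.mem_primeFactors]
    exact ⟨hq, hk ▸ Dvd.dvd.mul_left hqk _, by omega⟩
  · obtain ⟨j, hj⟩ := hqk
    have h3 : d / q = orderOf ζ * j := by
      rw [hk, hj]
      have : orderOf ζ * (q * j) = (orderOf ζ * j) * q := by ring
      rw [this, Nat.mul_div_cancel _ hq.pos]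
    rw [h3, pow_mul, pow_orderOf_eq_one, one_pow]

lemma exists_prim (p d : ℕ) [Fact p.Prime] (hd : 0 < d) (hpd : ¬ p ∣ d) :
    ∃ ζ : AlgebraicClosure (ZMod p), IsPrimitiveRoot ζ d := by
  have hne : NeZero (d : AlgebraicClosure (ZMod p)) := by
    refine ⟨?_⟩
    rw [Ne, CharP.cast_eq_zero_iff (AlgebraicClosure (ZMod p)) p]
    exact hpd
  obtain ⟨ζ, hζ⟩ : ∃ ζ : AlgebraicClosure (ZMod p),
      Polynomial.IsRoot (Polynomial.cyclotomic d (AlgebraicClosure (ZMod p))) ζ := by
    apply IsAlgClosed.exists_root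
    rw [Polynomial.degree_cyclotomic]
    have := Nat.totient_pos.2 hd
    exact_mod_cast this.ne'
  exact ⟨ζ, Polynomial.isRoot_cyclotomic_iff.mp hζ⟩

/-- a function all of whose evaluations vanish modulo `p` is divisible by `p` -/
lemma dvd_of_evz (p d : ℕ) [Fact p.Prime] [NeZero d] (hpd : ¬ p ∣ d) (f : ZMod d → ℤ)
    (hf : ∀ ζ : AlgebraicClosure (ZMod p), ζ ^ d = 1 → evz ζ f = 0) (k : ZMod d) :
    (p : ℤ) ∣ f k := by
  classical
  have hd : 0 < d := Nat.pos_of_ne_zero (NeZero.ne d)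
  obtain ⟨ζ, hζ⟩ := exists_prim p d hd hpd
  set P : Polynomial (AlgebraicClosure (ZMod p)) :=
    ∑ k : ZMod d, Polynomial.C ((f k : AlgebraicClosure (ZMod p))) * Polynomial.X ^ k.val with hP
  have hdeg : P.natDegree < d := by
    have : P.natDegree ≤ d - 1 := by
      rw [hP]
      refine Polynomial.natDegree_sum_le_of_forall_le _ _ fun k _ => ?_
      refine (Polynomial.natDegree_C_mul_X_pow_le _ _).trans ?_
      have := ZMod.val_lt k
      omega
    omega
  have hP0 : P = 0 := by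
    refine Polynomial.eq_zero_of_natDegree_lt_card_of_eval_eq_zero' P
      (Polynomial.nthRootsFinset d (1 : AlgebraicClosure (ZMod p))) ?_ ?_
    · intro z hz
      rw [Polynomial.mem_nthRootsFinset hd] at hz
      have h1 := hf z hz
      unfold evz at h1
      rw [← h1, hP, Polynomial.eval_finsetSum]
      refine sum_congr rfl fun k _ => ?_
      simp
    · rw [hζ.card_nthRootsFinset]
      exact hdeg
  have h1 : P.coeff k.val = (f k : AlgebraicClosure (ZMod p)) := by
    rw [hP, Polynomial.finsetSum_coeff, sum_eq_single k]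
    · rw [Polynomial.coeff_C_mul, Polynomial.coeff_X_pow, if_pos rfl, mul_one]
    · intro j _ hj
      rw [Polynomial.coeff_C_mul, Polynomial.coeff_X_pow, if_neg, mul_zero]
      intro h
      exact hj (ZMod.val_injective d h.symm)
    · intro h
      exact absurd (mem_univ _) h
  rw [hP0, Polynomial.coeff_zero] at h1
  exact (CharP.intCast_eq_zero_iff (AlgebraicClosure (ZMod p)) p (f k)).1 h1.symm

/-- The rank of the cotangents modulo `p`. -/
theorem rank_gram (p d : ℕ) [Fact p.Prime] (hd : 3 ≤ d) (hpd : ¬ p ∣ d) (M : Finset ℕ)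
    (hMI : M ⊆ II d)
    (hM : ∀ μ ∈ II d, vc p d μ ∈ Submodule.span (ZMod p) (vc p d '' (M : Set ℕ))) :
    p ^ (2 * ((II d).card - M.card)) ≤ (4 ^ (d.primeFactors.card + 1) * d) ^ (II d).card := by
  classical
  have hd0 : 0 < d := by omega
  have : NeZero d := ⟨hd0.ne'⟩
  have hinv : ∀ μ : ℕ, ∃ m : ℕ, m ≤ d ∧ (μ ∈ II d → μ * m % d = 1) := by
    intro μ
    by_cases hμ : μ ∈ II d
    · rw [mem_II hd] at hμ
      obtain ⟨m, hm⟩ := Nat.exists_mul_mod_eq_one_of_coprime hμ.2.1 (by omega : 1 < d)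
      exact ⟨m, by omega, fun _ => hm.2⟩
    · exact ⟨0, by omega, fun h => absurd h hμ⟩
  choose inv hinv1 hinv2 using hinv
  set ql := d.primeFactors.toList with hql
  set Fv : ℕ → ZMod d → ℤ := fun μ => opL ql (fun k => bas μ (inv μ) k +
    shf ((μ : ℕ) : ZMod d) (bas μ (inv μ)) k) with hFv
  have hev : ∀ (L : Type) [Field L] (ζ : L), ζ ^ d = 1 → ∀ μ, evz ζ (Fv μ) =
      (ql.map (fun q => 1 - ζ ^ (d / q))).prod * ((ζ ^ μ + 1) * ∑ i ∈ range (inv μ), ζ ^ (μ * i)) := by
    intro L _ ζ hζ μ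
    rw [hFv]
    simp only
    rw [evz_opL ζ hζ, evz_add, evz_shf ζ hζ, evz_bas ζ hζ, pow_val_nat ζ hζ]
    ring
  have hprod : ∀ (L : Type) [Field L] (ζ : L), IsPrimitiveRoot ζ d →
      (ql.map (fun q => 1 - ζ ^ (d / q))).prod ≠ 0 := by
    intro L _ ζ hζ h0
    rw [List.prod_eq_zero_iff, List.mem_map] at h0
    obtain ⟨q, hq, h1⟩ := h0
    rw [hql, mem_toList, Nat.mem_primeFactors] at hq
    have h2 := (hζ.pow_eq_one_iff_dvd (d / q)).1 (sub_eq_zero.1 h1).symm
    have h3 : 0 < d / q := Nat.div_pos (Nat.le_of_dvd hd0 hq.2.1) hq.1.pos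
    have h4 := Nat.le_of_dvd h3 h2
    have h5 := Nat.div_lt_self hd0 hq.1.one_lt
    omega
  have hzero : ∀ (L : Type) [Field L] (ζ : L), ζ ^ d = 1 → ¬ IsPrimitiveRoot ζ d →
      (ql.map (fun q => 1 - ζ ^ (d / q))).prod = 0 := by
    intro L _ ζ hζ hn
    obtain ⟨q, hq, h1⟩ := imprim d hd0 ζ hζ hn
    rw [List.prod_eq_zero_iff, List.mem_map]
    exact ⟨q, hq, by rw [h1, sub_self]⟩
  have key := gram_bound (ι := II d) (κ := ZMod d) (fun i k => Fv i k)
    (4 ^ (d.primeFactors.card + 1) * d) ?_ ?_ p (univ.filter (fun i : II d => (i : ℕ) ∈ M)) ?_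
  · rw [Fintype.card_coe] at key
    have hT : (univ.filter (fun i : II d => (i : ℕ) ∈ M)).card = M.card := by
      rw [← card_map (Function.Embedding.subtype _)]
      congr 1
      ext x
      rw [mem_map]
      constructor
      · rintro ⟨y, hy, rfl⟩
        exact (mem_filter.1 hy).2
      · intro hx
        exact ⟨⟨x, hMI hx⟩, mem_filter.2 ⟨mem_univ _, hx⟩, rfl⟩
    rwa [hT] at key
  · intro i
    have h1 := nm_bas (d := d) (i : ℕ) (inv i) ((mem_II hd).1 i.2).2.1 (hinv1 i)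
    have h2 := nm_add_le ((i : ℕ) : ZMod d) (bas (d := d) (i : ℕ) (inv i))
    have h3 := nm_opL ql (fun k => bas (i : ℕ) (inv i) k + shf (((i : ℕ) : ℕ) : ZMod d) (bas (i : ℕ) (inv i)) k)
    have h4 : ql.length = d.primeFactors.card := by rw [hql, length_toList]
    rw [h4] at h3
    have h5 : (0 : ℤ) < 4 ^ d.primeFactors.card := by positivity
    have h6 : nm (Fv i) ≤ 4 ^ d.primeFactors.card * (4 * d) :=
      h3.trans (mul_le_mul_of_nonneg_left (h2.trans (by linarith)) h5.le)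
    push_cast
    rw [pow_succ]
    unfold nm at h6
    linarith
  · intro b hb
    let b' : ℕ → ℤ := fun μ => if h : μ ∈ II d then b ⟨μ, h⟩ else 0
    have hb' : ∀ i : II d, b' i = b i := fun i => dif_pos i.2
    have hζ := Complex.isPrimitiveRoot_exp d hd0.ne'
    set ζ := Complex.exp (2 * Real.pi * Complex.I / d) with hζd
    have h1 : evz ζ (fun k => ∑ i : II d, b i * Fv i k) = 0 := by
      unfold evz
      refine sum_eq_zero fun k _ => ?_
      have h2 : (((∑ i : II d, b i * Fv i k : ℤ)) : ℂ) * ζ ^ k.val = 0 := by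
        rw [hb k]; simp
      exact h2
    rw [evz_lin ζ univ b (fun i : II d => Fv i)] at h1
    have h2 : (ql.map (fun q => 1 - ζ ^ (d / q))).prod * ((ζ - 1) *
        ∑ μ ∈ II d, (b' μ : ℂ) * ((ζ ^ μ + 1) / (ζ ^ μ - 1))) = 0 := by
      rw [← h1, ← sum_coe_sort, mul_sum, mul_sum]
      refine sum_congr rfl fun i _ => ?_
      rw [hev ℂ ζ hζ.pow_eq_one, geo_eval d hd ζ hζ i (inv i) i.2 (hinv2 i i.2), hb']
      ring
    rcases mul_eq_zero.1 h2 with h3 | h3
    · exact absurd h3 (hprod ℂ ζ hζ)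
    · rcases mul_eq_zero.1 h3 with h4 | h4
      · exact absurd (sub_eq_zero.1 h4) (hζ.ne_one (by omega))
      · have h5 := cot_indep d hd ζ hζ b' h4
        funext i
        rw [← hb' i]
        exact h5 i i.2
  · intro i hi
    have hiM : (i : ℕ) ∉ M := by
      intro h
      exact hi (mem_filter.2 ⟨mem_univ _, h⟩)
    obtain ⟨c0, hc0⟩ := (Submodule.mem_span_image_finset_iff_exists_fun (ZMod p)).1 (hM i i.2)
    let c : ℕ → ZMod p := fun μ => if h : μ ∈ M then c0 ⟨μ, h⟩ else 0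
    have hc : ∑ μ ∈ M, c μ • vc p d μ = vc p d i := by
      rw [← hc0, ← sum_coe_sort]
      refine sum_congr rfl fun j _ => ?_
      have : c j = c0 j := dif_pos j.2
      rw [this]
    refine ⟨fun j => ((c j).val : ℤ), fun k => ?_⟩
    set T := univ.filter (fun i : II d => (i : ℕ) ∈ M) with hT
    have hfun := dvd_of_evz p d hpd (fun k => Fv i k - ∑ j ∈ T, ((c j).val : ℤ) * Fv j k) ?_ k
    · exact hfun
    · intro ζ hζ
      rw [evz_sub ζ (Fv i) (fun k => ∑ j ∈ T, ((c j).val : ℤ) * Fv j k),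
        evz_lin ζ T (fun j : II d => ((c j).val : ℤ)) (fun j : II d => Fv j)]
      by_cases hprim : IsPrimitiveRoot ζ d
      · have h1 : ∀ j : II d, evz ζ (Fv j) = (ql.map (fun q => 1 - ζ ^ (d / q))).prod *
            ((ζ - 1) * ((ζ ^ (j : ℕ) + 1) / (ζ ^ (j : ℕ) - 1))) := by
          intro j
          rw [hev _ ζ hζ, geo_eval d hd ζ hprim j (inv j) j.2 (hinv2 j j.2)]
        have h2 := congrFun hc ⟨ζ, hprim⟩
        rw [Finset.sum_apply] at h2
        simp only [Pi.smul_apply, vc] at h2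
        have h3 : ∑ j ∈ T, (((c j).val : ℤ) : AlgebraicClosure (ZMod p)) *
            ((ζ ^ (j : ℕ) + 1) / (ζ ^ (j : ℕ) - 1)) = (ζ ^ (i : ℕ) + 1) / (ζ ^ (i : ℕ) - 1) := by
          rw [← h2]
          refine sum_bij (fun j _ => (j : ℕ)) ?_ ?_ ?_ ?_
          · intro j hj; exact (mem_filter.1 hj).2
          · intro j _ j' _ h; exact Subtype.ext h
          · intro x hx; exact ⟨⟨x, hMI hx⟩, mem_filter.2 ⟨mem_univ _, hx⟩, rfl⟩
          · intro j _
            rw [Algebra.smul_def]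
            congr 1
            have h4 : algebraMap (ZMod p) (AlgebraicClosure (ZMod p)) (((c j).val : ℕ) : ZMod p) =
              (((c j).val : ℕ) : AlgebraicClosure (ZMod p)) := map_natCast _ _
            rw [ZMod.natCast_zmod_val] at h4
            rw [h4]
            push_cast
            rfl
        have h5 : ∑ j ∈ T, (((c j).val : ℤ) : AlgebraicClosure (ZMod p)) * evz ζ (Fv j) =
            (ql.map (fun q => 1 - ζ ^ (d / q))).prod * ((ζ - 1) *
            ((ζ ^ (i : ℕ) + 1) / (ζ ^ (i : ℕ) - 1))) := by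
          rw [← h3, mul_sum, mul_sum]
          refine sum_congr rfl fun j _ => ?_
          rw [h1 j]
          ring
        rw [h5, h1 i, sub_self]
      · have h1 : ∀ j : II d, evz ζ (Fv j) = 0 := by
          intro j
          rw [hev _ ζ hζ, hzero _ ζ hζ hprim, zero_mul]
        rw [h1 i, zero_sub, neg_eq_zero]
        refine sum_eq_zero fun j _ => ?_
        rw [h1 j, mul_zero]

end Pool.Agent.TH10.RP
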