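import Mathlib

set_option autoImplicit false

namespace Pool.Agent.TH10.RP

theorem two_pow_omega (ε : ℝ) (hε : 0 < ε) :
    ∃ C : ℝ, 1 ≤ C ∧ ∀ d : ℕ, d ≠ 0 → (2 : ℝ) ^ d.primeFactors.card ≤ C * (d : ℝ) ^ ε := by
  set Q : ℕ := ⌈(2 : ℝ) ^ (1 / ε)⌉₊ with hQ
  have hQ2 : ∀ q : ℕ, Q ≤ q → (2 : ℝ) ≤ (q : ℝ) ^ ε := by
    intro q hq
    have h1 : (2 : ℝ) ^ (1 / ε) ≤ q := (Nat.le_ceil _).trans (by exact_mod_cast hq)
    have h2 : ((2 : ℝ) ^ (1 / ε)) ^ ε ≤ (q : ℝ) ^ ε :=
      Real.rpow_le_rpow (by positivity) h1 hε.le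
    rwa [← Real.rpow_mul (by norm_num), one_div_mul_cancel hε.ne', Real.rpow_one] at h2
  refine ⟨2 ^ Q, one_le_pow₀ (by norm_num), fun d hd => ?_⟩
  rw [← Finset.card_filter_add_card_filter_not (s := d.primeFactors) (fun q => q < Q), pow_add]
  refine mul_le_mul ?_ ?_ (by positivity) (by positivity)
  · refine pow_le_pow_right₀ (by norm_num) ?_
    calc (d.primeFactors.filter (fun q => q < Q)).card ≤ (Finset.range Q).card := by
          refine Finset.card_le_card fun q hq => ?_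
          exact Finset.mem_range.2 (Finset.mem_filter.1 hq).2
      _ = Q := Finset.card_range Q
  · rw [← Finset.prod_const]
    calc ∏ _q ∈ d.primeFactors.filter (fun q => ¬ q < Q), (2 : ℝ)
        ≤ ∏ q ∈ d.primeFactors.filter (fun q => ¬ q < Q), (q : ℝ) ^ ε := by
          refine Finset.prod_le_prod (fun _ _ => by norm_num) fun q hq => ?_
          exact hQ2 q (not_lt.1 (Finset.mem_filter.1 hq).2)
      _ = (∏ q ∈ d.primeFactors.filter (fun q => ¬ q < Q), (q : ℝ)) ^ ε :=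
          Real.finsetProd_rpow _ _ (fun q _ => by positivity) ε
      _ ≤ (d : ℝ) ^ ε := by
          refine Real.rpow_le_rpow (Finset.prod_nonneg fun q _ => by positivity) ?_ hε.le
          have h1 : ∏ q ∈ d.primeFactors.filter (fun q => ¬ q < Q), q ≤ d := by
            refine Nat.le_of_dvd (Nat.pos_of_ne_zero hd) ?_
            exact (Finset.prod_dvd_prod_of_subset _ _ _ (Finset.filter_subset _ _)).trans
              (Nat.prod_primeFactors_dvd d)
          have h2 : ((∏ q ∈ d.primeFactors.filter (fun q => ¬ q < Q), q : ℕ) : ℝ) ≤ (d : ℝ) :=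
            Nat.cast_le.2 h1
          rwa [Nat.cast_prod] at h2

end Pool.Agent.TH10.RP
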