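import Mathlib
import Pool.Agent.TH10.RP.Gram
import Pool.Agent.TH10.RP.Dim2
import Pool.Agent.TH10.RP.JB
import Pool.Agent.TH10.RP.JG
import Pool.Agent.TH10.RP.Final

/-!
# Three quarters of the integers are sums of two regular indices
-/

set_option autoImplicit false

namespace Pool.Agent.TH10.RP

open Finset Pool.Agent.H332R2 Pool.Agent.TH350.SumReg

/-- a large set of independent cotangents modulo `p` -/
theorem exists_indep2 (ε : ℝ) (hε : 0 < ε) : ∃ C : ℝ, 0 ≤ C ∧ ∀ (p d : ℕ) [Fact p.Prime], 3 ≤ d →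
    ¬ p ∣ d → ∃ M : Finset ℕ, M ⊆ II d ∧
      ((II d).card : ℝ) * (1 - (C + (1 + ε) * Real.log d) / (2 * Real.log p)) ≤ M.card ∧
      ∀ f : ℕ → ZMod p, (∀ ζ : AlgebraicClosure (ZMod p), IsPrimitiveRoot ζ d →
        ∑ μ ∈ M, algebraMap (ZMod p) (AlgebraicClosure (ZMod p)) (f μ) * ((ζ ^ μ + 1) / (ζ ^ μ - 1)) = 0) →
      ∀ μ ∈ M, f μ = 0 := by
  classical
  obtain ⟨C, hC1, hC⟩ := two_pow_omega (ε / 2) (by linarith)
  have hC0 : 0 ≤ Real.log (4 * C ^ 2) := Real.log_nonneg (by nlinarith)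
  refine ⟨Real.log (4 * C ^ 2), hC0, ?_⟩
  intro p d _ hd hpd
  obtain ⟨s, hs1, -, hs2, hs3⟩ := exists_linearIndepOn_extension (K := ZMod p) (v := vc p d)
    (s := ∅) (t := (II d : Set ℕ)) (linearIndepOn_empty _ _) (Set.empty_subset _)
  have hsf : s.Finite := (Finset.finite_toSet _).subset hs1
  have hsub : hsf.toFinset ⊆ II d := fun x hx => hs1 ((Set.Finite.mem_toFinset hsf).1 hx)
  refine ⟨hsf.toFinset, hsub, ?_, ?_⟩
  · have h1 := rank_gram p d hd hpd hsf.toFinset hsub (fun μ hμ => by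
      rw [Set.Finite.coe_toFinset]
      exact hs2 (Set.mem_image_of_mem _ hμ))
    set r := hsf.toFinset.card with hr
    set n := (II d).card with hn
    have hrn : r ≤ n := card_le_card hsub
    have hp : 1 < p := (Fact.out : p.Prime).one_lt
    have hlp : 0 < Real.log p := Real.log_pos (by exact_mod_cast hp)
    have hd0 : (0 : ℝ) < d := by exact_mod_cast (by omega : 0 < d)
    have h2 : ((p : ℝ)) ^ (2 * (n - r)) ≤ ((4 : ℝ) ^ (d.primeFactors.card + 1) * d) ^ n := by
      exact_mod_cast h1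
    have h3 := Real.log_le_log (by positivity) h2
    rw [Real.log_pow, Real.log_pow] at h3
    have h4 : ((4 : ℝ) ^ (d.primeFactors.card + 1) * d) ≤ 4 * C ^ 2 * (d : ℝ) ^ (1 + ε) := by
      have h5 := hC d (by omega)
      have h6 : (4 : ℝ) ^ (d.primeFactors.card + 1) = 4 * ((2 : ℝ) ^ d.primeFactors.card) ^ 2 := by
        rw [pow_succ, ← pow_mul, mul_comm (d.primeFactors.card) 2, pow_mul]
        norm_num
        ring
      have h7 : ((2 : ℝ) ^ d.primeFactors.card) ^ 2 ≤ (C * (d : ℝ) ^ (ε / 2)) ^ 2 :=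
        pow_le_pow_left₀ (by positivity) h5 2
      have h8 : ((d : ℝ) ^ (ε / 2)) ^ 2 = (d : ℝ) ^ ε := by
        rw [← Real.rpow_natCast, ← Real.rpow_mul hd0.le]
        congr 1
        push_cast
        ring
      rw [h6, Real.rpow_add hd0, Real.rpow_one]
      calc 4 * ((2 : ℝ) ^ d.primeFactors.card) ^ 2 * d ≤ 4 * (C * (d : ℝ) ^ (ε / 2)) ^ 2 * d := by
            nlinarith
        _ = 4 * C ^ 2 * (d * (d : ℝ) ^ ε) := by rw [mul_pow, h8]; ring
    have h5 : Real.log ((4 : ℝ) ^ (d.primeFactors.card + 1) * d) ≤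
        Real.log (4 * C ^ 2) + (1 + ε) * Real.log d := by
      refine (Real.log_le_log (by positivity) h4).trans (le_of_eq ?_)
      rw [Real.log_mul (by nlinarith) (Real.rpow_pos_of_pos hd0 _).ne', Real.log_rpow hd0]
    have h6 : ((2 * (n - r) : ℕ) : ℝ) = 2 * ((n : ℝ) - r) := by
      rw [Nat.cast_mul, Nat.cast_sub hrn]; norm_num
    rw [h6] at h3
    have h7 : 2 * ((n : ℝ) - r) * Real.log p ≤ n * (Real.log (4 * C ^ 2) + (1 + ε) * Real.log d) :=
      h3.trans (mul_le_mul_of_nonneg_left h5 (by positivity))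
    have h8 : (n : ℝ) * (1 - (Real.log (4 * C ^ 2) + (1 + ε) * Real.log d) / (2 * Real.log p)) =
        n - n * (Real.log (4 * C ^ 2) + (1 + ε) * Real.log d) / (2 * Real.log p) := by ring
    rw [h8]
    have h9 : (n : ℝ) - r ≤ n * (Real.log (4 * C ^ 2) + (1 + ε) * Real.log d) / (2 * Real.log p) := by
      rw [le_div_iff₀ (by positivity)]
      linarith
    linarith
  · intro f hf
    have h1 : LinearIndepOn (ZMod p) (vc p d) (hsf.toFinset : Set ℕ) := by
      rw [Set.Finite.coe_toFinset]; exact hs3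
    rw [linearIndepOn_finset_iff] at h1
    refine h1 f ?_
    funext ζ
    have h2 := hf ζ ζ.2
    rw [Pi.zero_apply, ← h2, Finset.sum_apply]
    refine sum_congr rfl fun μ _ => ?_
    rw [Pi.smul_apply, Algebra.smul_def]
    rfl

/-- the bound before simplification -/
theorem SG_lower (ε : ℝ) (hε : 0 < ε) : ∃ C : ℝ, 0 ≤ C ∧ ∀ (p K : ℕ) [Fact p.Prime],
    2 ≤ K → 2 * K + 3 ≤ p →
    (C + (1 + ε) * (Real.log (8 * K) / 2)) / (2 * Real.log p) ≤ 1 →
    (1 - (C + (1 + ε) * (Real.log (8 * K) / 2)) / (2 * Real.log p)) *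
      ((K : ℝ) - (3 + Real.sqrt (8 * K)) / 2) ≤ (SG p K).card := by
  classical
  obtain ⟨C, hC0, hC⟩ := exists_indep2 ε hε
  refine ⟨C, hC0, ?_⟩
  intro p K _ hK2 hK hθ
  obtain ⟨l, hl1, hl2⟩ : ∃ l : ℕ, 2 + ∑ e ∈ Icc 2 l, e.totient < 2 * K ∧
      2 * K ≤ 2 + ∑ e ∈ Icc 2 (l + 1), e.totient := by
    have hex : ∃ n : ℕ, 2 * K ≤ 2 + ∑ e ∈ Icc 2 (n + 1), e.totient := by
      refine ⟨2 * K, ?_⟩
      have h1 : ∑ e ∈ Icc 2 (2 * K + 1), 1 ≤ ∑ e ∈ Icc 2 (2 * K + 1), e.totient :=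
        sum_le_sum fun e he => Nat.totient_pos.2 (by rw [mem_Icc] at he; omega)
      rw [sum_const, Nat.card_Icc, smul_eq_mul, mul_one] at h1
      omega
    refine ⟨Nat.find hex, ?_, Nat.find_spec hex⟩
    rcases Nat.eq_zero_or_pos (Nat.find hex) with h0 | h0
    · rw [h0]
      simp
      omega
    · have h1 := Nat.find_min hex (m := Nat.find hex - 1) (by omega)
      push Not at h1
      have h2 : Nat.find hex - 1 + 1 = Nat.find hex := by omega
      rwa [h2] at h1
  have hl : 1 ≤ l := by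
    by_contra hc
    have : l = 0 := by omega
    subst this
    simp at hl2
    omega
  -- the sums of totients
  have hs1 : ∑ e ∈ range (l + 1), e.totient = 1 + ∑ e ∈ Icc 2 l, e.totient := by
    have e1 : range (l + 1) = range 2 ∪ Icc 2 l := by
      ext x
      rw [mem_union, mem_range, mem_range, mem_Icc]
      omega
    have e2 : Disjoint (range 2) (Icc 2 l) := by
      rw [disjoint_left]
      intro x h5 h6
      rw [mem_range] at h5
      rw [mem_Icc] at h6
      omega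
    rw [e1, sum_union e2]
    congr 1
  have hs2 := totient_sum l
  have hlK : l ^ 2 ≤ 8 * K := by omega
  have hs3 : ∑ e ∈ Icc 2 (l + 1), e.totient = ∑ e ∈ Icc 2 l, e.totient + (l + 1).totient :=
    sum_Icc_succ_top (by omega) _
  have hs4 : (l + 1).totient ≤ l := by
    have := Nat.totient_lt (l + 1) (by omega)
    omega
  have hs5 : ∑ e ∈ Icc 2 l, e.totient ≤ 1 + ∑ d ∈ Icc 3 l, d.totient := by
    have e1 : Icc 2 l ⊆ insert 2 (Icc 3 l) := by
      intro x hx
      rw [mem_Icc] at hx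
      rw [mem_insert, mem_Icc]
      omega
    refine (sum_le_sum_of_subset e1).trans ?_
    rw [sum_insert (by rw [mem_Icc]; omega)]
    simp
  have hs6 : ∑ d ∈ Icc 3 l, d.totient = 2 * ∑ d ∈ Icc 3 l, (II d).card := by
    rw [mul_sum]
    refine sum_congr rfl fun d hd => ?_
    rw [card_II (mem_Icc.1 hd).1]
  have hlp : l < p := by
    by_contra hc
    push Not at hc
    nlinarith
  have hex : ∀ d : ℕ, ∃ M : Finset ℕ, d ∈ Icc 3 l → M ⊆ II d ∧
      ((II d).card : ℝ) * (1 - (C + (1 + ε) * Real.log d) / (2 * Real.log p)) ≤ M.card ∧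
      ∀ f : ℕ → ZMod p, (∀ ζ : AlgebraicClosure (ZMod p), IsPrimitiveRoot ζ d →
        ∑ μ ∈ M, algebraMap (ZMod p) (AlgebraicClosure (ZMod p)) (f μ) * ((ζ ^ μ + 1) / (ζ ^ μ - 1)) = 0) →
      ∀ μ ∈ M, f μ = 0 := by
    intro d
    by_cases hd : d ∈ Icc 3 l
    · have hd' := mem_Icc.1 hd
      obtain ⟨M, h1, h2, h3⟩ := hC p d hd'.1 (fun h => by
        have := Nat.le_of_dvd (by omega) h
        omega)
      exact ⟨M, fun _ => ⟨h1, h2, h3⟩⟩
    · exact ⟨∅, fun h => absurd h hd⟩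
  choose M hM using hex
  have h1 := dim_bound2 (p := p) K l hK hl1 M (fun d hd μ hμ => by
      have h3 := (mem_Icc.1 hd).1
      have h4 := (mem_II h3).1 ((hM d hd).1 hμ)
      exact ⟨h4.1, by omega, h4.2.1⟩) (fun d hd => (hM d hd).2.2)
  have h5 : (SG p K).card = ((range (K + 1)).filter (fun N => ∃ i, i ≤ N ∧ ww p N i ≠ 0)).card := rfl
  rw [← h5] at h1
  have hlogp : 0 < Real.log p := Real.log_pos (by exact_mod_cast (Fact.out : p.Prime).one_lt)
  set θ := (C + (1 + ε) * (Real.log (8 * K) / 2)) / (2 * Real.log p) with hθd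
  have hKR : (2 : ℝ) ≤ K := by exact_mod_cast hK2
  have h6 : ∀ d ∈ Icc 3 l, ((II d).card : ℝ) * (1 - θ) ≤ (M d).card := by
    intro d hd
    refine le_trans ?_ (hM d hd).2.1
    refine mul_le_mul_of_nonneg_left ?_ (by positivity)
    have hd' := mem_Icc.1 hd
    have hdR : (3 : ℝ) ≤ d := by exact_mod_cast hd'.1
    have h7 : Real.log d ≤ Real.log (8 * K) / 2 := by
      have h8 : (d : ℝ) ^ 2 ≤ 8 * K := by
        have : d ^ 2 ≤ 8 * K := (Nat.pow_le_pow_left hd'.2 2).trans hlK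
        exact_mod_cast this
      have h9 := Real.log_le_log (by positivity) h8
      rw [Real.log_pow] at h9
      push_cast at h9
      linarith
    have h8 : (C + (1 + ε) * Real.log d) / (2 * Real.log p) ≤ θ := by
      rw [hθd]
      refine div_le_div_of_nonneg_right ?_ (by positivity)
      nlinarith
    linarith
  have h7 : (∑ d ∈ Icc 3 l, ((II d).card : ℝ)) * (1 - θ) ≤ (SG p K).card := by
    rw [sum_mul]
    refine (sum_le_sum h6).trans ?_
    exact_mod_cast h1
  refine le_trans ?_ h7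
  rw [mul_comm]
  refine mul_le_mul_of_nonneg_right ?_ (by linarith)
  have h8 : (l : ℝ) ≤ Real.sqrt (8 * K) := by
    apply Real.le_sqrt_of_sq_le
    exact_mod_cast hlK
  have h9 : 2 * K ≤ 3 + l + 2 * ∑ d ∈ Icc 3 l, (II d).card := by omega
  have h10 : (2 : ℝ) * K ≤ 3 + l + 2 * ∑ d ∈ Icc 3 l, ((II d).card : ℝ) := by exact_mod_cast h9
  linarith

end Pool.Agent.TH10.RP
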