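import Mathlib
import Pool.Agent.TH10.RP.Asym

/-!
# Three quarters of the integers are sums of two regular indices, II
-/

set_option autoImplicit false

namespace Pool.Agent.TH10.RP

open Finset Pool.Agent.H332R2 Pool.Agent.TH350.SumReg

/-- small indices are regular for large primes -/
theorem small_regular (K0 : ℕ) : ∃ P : ℕ, ∀ p : ℕ, P ≤ p → ∀ m ≤ K0,
    ¬ ((p : ℤ) ∣ (_root_.bernoulli (2 * m)).num) := by
  refine ⟨∑ m ∈ range (K0 + 1), (_root_.bernoulli (2 * m)).num.natAbs + 1, ?_⟩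
  intro p hp m hm h
  have h1 : (_root_.bernoulli (2 * m)).num.natAbs ≤ ∑ m ∈ range (K0 + 1), (_root_.bernoulli (2 * m)).num.natAbs :=
    single_le_sum (f := fun m => (_root_.bernoulli (2 * m)).num.natAbs) (fun _ _ => Nat.zero_le _)
      (mem_range.2 (by omega))
  have h2 : (_root_.bernoulli (2 * m)).num ≠ 0 := by
    intro h0
    exact bern_ne_zero m (Rat.num_eq_zero.1 h0)
  have h3 := Int.natAbs_dvd_natAbs.2 h
  rw [Int.natAbs_natCast] at h3
  have h4 := Nat.le_of_dvd (Int.natAbs_pos.2 h2) h3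
  omega

theorem SG_full (p : ℕ) [Fact p.Prime] (K : ℕ) (hK : 2 * K + 3 ≤ p)
    (h : ∀ m ≤ K, ¬ ((p : ℤ) ∣ (_root_.bernoulli (2 * m)).num)) : SG p K = range (K + 1) := by
  unfold SG
  rw [filter_eq_self]
  intro N hN
  rw [mem_range] at hN
  exact ⟨0, Nat.zero_le _, (ww_iff p N 0 (Nat.zero_le _) (by omega)).2 ⟨h 0 (Nat.zero_le _), h _ (by omega)⟩⟩

/-- Almost all integers up to `p ^ x`, up to the proportion `x / 4`, are sums of two regular
indices. -/
theorem SG_asym (ε : ℝ) (hε : 0 < ε) : ∃ P : ℕ, ∀ (p K : ℕ) [Fact p.Prime], P ≤ p →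
    2 * K + 3 ≤ p → (1 - Real.log K / (4 * Real.log p) - ε) * K ≤ (SG p K).card := by
  classical
  rcases lt_or_ge 1 ε with h1ε | h1ε
  · refine ⟨0, fun p K _ _ hK => ?_⟩
    have h1 : 0 ≤ Real.log K := Real.log_natCast_nonneg K
    have h2 : 0 ≤ Real.log p := Real.log_natCast_nonneg p
    have h3 : 0 ≤ Real.log K / (4 * Real.log p) := by positivity
    have h4 : (1 - Real.log K / (4 * Real.log p) - ε) * K ≤ 0 :=
      mul_nonpos_of_nonpos_of_nonneg (by linarith) (by positivity)
    exact h4.trans (by positivity)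
  obtain ⟨C, hC0, hC⟩ := SG_lower (ε / 2) (by linarith)
  set C' := C / 2 + (1 + ε / 2) * Real.log 8 / 4 with hC'
  have hlog8 : 0 ≤ Real.log 8 := Real.log_nonneg (by norm_num)
  have hC'0 : 0 ≤ C' := by positivity
  obtain ⟨K0, hK0⟩ : ∃ K0 : ℕ, 12 / ε + 128 / ε ^ 2 + 2 ≤ K0 := ⟨_, Nat.le_ceil _⟩
  obtain ⟨P1, hP1⟩ := small_regular K0
  obtain ⟨P2, hP2⟩ : ∃ P2 : ℕ, Real.exp (4 * C' / ε) ≤ P2 := ⟨_, Nat.le_ceil _⟩
  refine ⟨P1 + P2 + 2, fun p K _ hp hK => ?_⟩
  have hp1 : 1 < p := (Fact.out : p.Prime).one_lt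
  have hlogp : 0 < Real.log p := Real.log_pos (by exact_mod_cast hp1)
  have hlogK : 0 ≤ Real.log K := Real.log_natCast_nonneg K
  rcases Nat.lt_or_ge K K0 with hKK | hKK
  · have h1 := SG_full p K hK (fun m hm => hP1 p (by omega) m (by omega))
    rw [h1, card_range]
    have h3 : 0 ≤ Real.log K / (4 * Real.log p) := by positivity
    have h4 : (0 : ℝ) ≤ K := by positivity
    push_cast
    nlinarith
  · have hKR : (K0 : ℝ) ≤ K := by exact_mod_cast hKK
    have hε2 : 0 < ε ^ 2 := by positivity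
    have h12 : 0 < 12 / ε := by positivity
    have h128 : 0 < 128 / ε ^ 2 := by positivity
    have hK1 : 12 / ε ≤ K := by linarith
    have hK2 : 128 / ε ^ 2 ≤ K := by linarith
    have hK3 : (2 : ℝ) ≤ K := by linarith
    have hK4 : 2 ≤ K := by exact_mod_cast hK3
    have hKpos : (0 : ℝ) < K := by linarith
    -- the logarithm
    have hl8 : Real.log (8 * K) = Real.log 8 + Real.log K := Real.log_mul (by norm_num) hKpos.ne'
    have hPlog : 4 * C' / ε ≤ Real.log p := by
      rw [Real.le_log_iff_exp_le (by exact_mod_cast (by omega : 0 < p))]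
      refine hP2.trans ?_
      exact_mod_cast (by omega : P2 ≤ p)
    have hCp : C' / Real.log p ≤ ε / 4 := by
      rw [div_le_iff₀ hlogp]
      rw [div_le_iff₀ hε] at hPlog
      linarith
    have hlam : Real.log K / Real.log p ≤ 1 := by
      rw [div_le_one hlogp]
      exact Real.log_le_log hKpos (by exact_mod_cast (by omega : K ≤ p))
    have hlam0 : 0 ≤ Real.log K / Real.log p := by positivity
    have hθ : (C + (1 + ε / 2) * (Real.log (8 * K) / 2)) / (2 * Real.log p) =
        Real.log K / (4 * Real.log p) + (ε / 8) * (Real.log K / Real.log p) + C' / Real.log p := by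
      rw [hl8, hC']
      field_simp
      ring
    have hlam4 : Real.log K / (4 * Real.log p) = (Real.log K / Real.log p) / 4 := by
      field_simp
    have hθ1 : (C + (1 + ε / 2) * (Real.log (8 * K) / 2)) / (2 * Real.log p) ≤ 1 := by
      rw [hθ, hlam4]
      nlinarith
    have h1 := hC p K hK4 hK hθ1
    rw [hθ] at h1
    refine le_trans ?_ h1
    set L := Real.log K / Real.log p with hL
    rw [hlam4]
    set θ := L / 4 + ε / 8 * L + C' / Real.log p with hθd
    have hθ0 : 0 ≤ θ := by positivity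
    have hθ2 : θ ≤ L / 4 + ε / 8 + ε / 4 := by
      rw [hθd]
      nlinarith
    -- the error term
    have hr1 : (3 : ℝ) / 2 ≤ ε / 8 * K := by
      rw [div_le_iff₀ hε] at hK1
      linarith
    have hr2 : Real.sqrt (8 * K) / 2 ≤ ε / 8 * K := by
      have h2 : Real.sqrt (8 * K) ≤ ε / 4 * K := by
        rw [Real.sqrt_le_left (by positivity)]
        rw [div_le_iff₀ hε2] at hK2
        nlinarith
      linarith
    have hr3 : 0 ≤ Real.sqrt (8 * K) := Real.sqrt_nonneg _
    have h3 : (3 + Real.sqrt (8 * K)) / 2 ≤ ε / 4 * K := by linarith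
    have h4 : 0 ≤ (3 + Real.sqrt (8 * K)) / 2 := by positivity
    nlinarith

end Pool.Agent.TH10.RP
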