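import Mathlib
import Pool.Agent.TH10.RP.Asym2

/-!
# Sums of four regular indices
-/

set_option autoImplicit false

namespace Pool.Agent.TH10.RP

open Finset Pool.Agent.H332R2 Pool.Agent.TH350.SumReg

/-- the representations of `n` as a sum of two regular indices -/
noncomputable def rep (p : ℕ) [Fact p.Prime] (n : ℕ) : Finset ℕ :=
  (range (n + 1)).filter (fun i => ww p n i ≠ 0)

/-- the representations of `N` as a sum of four regular indices -/
def four (p N : ℕ) : Finset (Fin 4 → ℕ) :=
  (Finset.Nat.antidiagonalTuple 4 N).filter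
    (fun x => ∀ i, ¬ ((p : ℤ) ∣ (_root_.bernoulli (2 * x i)).num))

theorem four_lower (p : ℕ) [Fact p.Prime] (N : ℕ) (hN : 2 * N + 3 ≤ p) (B : Finset ℕ)
    (hB : ∀ n ∈ B, n ≤ N) : ∑ n ∈ B, (rep p n).card * (rep p (N - n)).card ≤ (four p N).card := by
  classical
  have h1 : ∑ n ∈ B, (rep p n).card * (rep p (N - n)).card =
      (B.sigma (fun n => rep p n ×ˢ rep p (N - n))).card := by
    rw [card_sigma]
    refine sum_congr rfl fun n _ => ?_
    rw [card_product]
  rw [h1]
  refine card_le_card_of_injOn (fun x => ![x.2.1, x.1 - x.2.1, x.2.2, N - x.1 - x.2.2]) ?_ ?_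
  · rintro ⟨n, i, j⟩ h
    rw [mem_coe, mem_sigma, mem_product] at h
    obtain ⟨h1, h2, h3⟩ := h
    simp only at h1 h2 h3
    have h4 := hB n h1
    rw [rep, mem_filter, mem_range] at h2 h3
    have h5 := (ww_iff p n i (by omega) (by omega)).1 h2.2
    have h6 := (ww_iff p (N - n) j (by omega) (by omega)).1 h3.2
    rw [mem_coe, four, mem_filter, Finset.Nat.mem_antidiagonalTuple, Fin.sum_univ_four]
    simp only [Matrix.cons_val_zero, Matrix.cons_val_one, Matrix.cons_val]
    refine ⟨by omega, ?_⟩
    intro k
    fin_cases k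
    · exact h5.1
    · exact h5.2
    · exact h6.1
    · exact h6.2
  · rintro ⟨n, i, j⟩ h ⟨n', i', j'⟩ h' he
    rw [mem_coe, mem_sigma, mem_product] at h h'
    obtain ⟨h1, h2, h3⟩ := h
    obtain ⟨h1', h2', h3'⟩ := h'
    simp only at h1 h2 h3 h1' h2' h3'
    rw [rep, mem_filter, mem_range] at h2 h2'
    have e0 := congrFun he 0
    have e1 := congrFun he 1
    have e2 := congrFun he 2
    simp only [Matrix.cons_val_zero, Matrix.cons_val_one, Matrix.cons_val] at e0 e1 e2
    have en : n = n' := by omega
    subst en
    subst e0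
    subst e2
    rfl

theorem rep_prod (p : ℕ) [Fact p.Prime] (N n : ℕ) (hN : 2 * N + 3 ≤ p) (hn : n ∈ SG p N)
    (hn' : N - n ∈ SG p N) (h1 : N ≤ 10 * n) (h2 : 10 * n ≤ 9 * N) :
    N ≤ 15 * ((rep p n).card * (rep p (N - n)).card) := by
  unfold SG at hn hn'
  rw [mem_filter, mem_range] at hn hn'
  have h3 := rep_bound p n (by omega) hn.2
  have h4 := rep_bound p (N - n) (by omega) hn'.2
  have h5 : (rep p n).card = ((range (n + 1)).filter (fun i => ww p n i ≠ 0)).card := rfl
  have h6 : (rep p (N - n)).card = ((range (N - n + 1)).filter (fun i => ww p (N - n) i ≠ 0)).card := rfl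
  rw [← h5] at h3
  rw [← h6] at h4
  obtain ⟨m, hm⟩ : ∃ m, N = n + m := ⟨N - n, by omega⟩
  have hm' : N - n = m := by omega
  rw [hm'] at h4 ⊢
  set R := (rep p n).card
  set R' := (rep p m).card
  have h7 : (2 * n) * (2 * m) ≤ (9 * R ^ 2) * (9 * R' ^ 2) := Nat.mul_le_mul h3.le h4.le
  have h8 : 9 * N ^ 2 ≤ 100 * (n * m) := by
    subst hm
    have h9 : m ≤ 9 * n := by omega
    have h10 : n ≤ 9 * m := by omega
    nlinarith [Nat.mul_le_mul h9 h10]
  have h9 : N ^ 2 ≤ (15 * (R * R')) ^ 2 := by nlinarith
  exact (Nat.pow_le_pow_iff_left (by norm_num)).1 h9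

theorem four_sums : ∃ P : ℕ, ∀ p : ℕ, p.Prime → P ≤ p → ∀ N : ℕ, 2 * N + 3 ≤ p →
    N ^ 2 ≤ 60 * (four p N).card := by
  classical
  obtain ⟨P1, hP1⟩ := SG_asym (1 / 100) (by norm_num)
  obtain ⟨P2, hP2⟩ := small_regular 100
  refine ⟨P1 + P2, fun p hp hpP N hN => ?_⟩
  have : Fact p.Prime := ⟨hp⟩
  rcases Nat.lt_or_ge N 100 with hN1 | hN1
  · have hreg : ∀ m ≤ N, ¬ ((p : ℤ) ∣ (_root_.bernoulli (2 * m)).num) :=
      fun m hm => hP2 p (by omega) m (by omega)
    have hcard : ∀ n ≤ N, (rep p n).card = n + 1 := by
      intro n hn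
      have : rep p n = range (n + 1) := by
        unfold rep
        rw [filter_eq_self]
        intro i hi
        rw [mem_range] at hi
        exact (ww_iff p n i (by omega) (by omega)).2 ⟨hreg i (by omega), hreg _ (by omega)⟩
      rw [this, card_range]
    have h1 := four_lower p N hN (range (N + 1)) (fun n hn => by rw [mem_range] at hn; omega)
    have h2 : ∑ n ∈ range (N + 1), (N + 1) ≤
        ∑ n ∈ range (N + 1), (rep p n).card * (rep p (N - n)).card := by
      refine sum_le_sum fun n hn => ?_
      rw [mem_range] at hn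
      rw [hcard n (by omega), hcard (N - n) (by omega)]
      obtain ⟨m, hm⟩ : ∃ m, N = n + m := ⟨N - n, by omega⟩
      have hm' : N - n = m := by omega
      rw [hm', hm]
      nlinarith
    rw [sum_const, card_range, smul_eq_mul] at h2
    nlinarith
  · set A := SG p N with hA
    have hAcard : (74 : ℝ) / 100 * N ≤ A.card := by
      have h1 := hP1 p N (by omega) hN
      have hN0 : (0 : ℝ) < N := by exact_mod_cast (by omega : 0 < N)
      have hlogp : 0 < Real.log p := Real.log_pos (by exact_mod_cast hp.one_lt)
      have h2 : Real.log N / (4 * Real.log p) ≤ 1 / 4 := by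
        rw [div_le_iff₀ (by positivity)]
        have : Real.log N ≤ Real.log p := Real.log_le_log hN0 (by exact_mod_cast (by omega : N ≤ p))
        linarith
      refine le_trans ?_ h1
      refine mul_le_mul_of_nonneg_right ?_ hN0.le
      linarith
    have hA100 : 74 * N ≤ 100 * A.card := by
      have : (74 : ℝ) * N ≤ 100 * A.card := by linarith
      exact_mod_cast this
    have hAsub : A ⊆ range (N + 1) := by
      rw [hA]; unfold SG; exact filter_subset _ _
    set B := A.filter (fun n => N - n ∈ A ∧ N ≤ 10 * n ∧ 10 * n ≤ 9 * N) with hB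
    have hBcard : 28 * N ≤ 100 * B.card + 300 := by
      -- the complement
      have h1 : range (N + 1) ⊆ B ∪ ((range (N + 1) \ A) ∪ ((range (N + 1) \ A).image (fun n => N - n) ∪
          (range (N / 10 + 1) ∪ (range (N / 10 + 1)).image (fun n => N - n)))) := by
        intro n hn
        rw [mem_range] at hn
        by_cases h2 : n ∈ A
        · by_cases h3 : N - n ∈ A
          · by_cases h4 : N ≤ 10 * n
            · by_cases h5 : 10 * n ≤ 9 * N
              · exact mem_union_left _ (mem_filter.2 ⟨h2, h3, h4, h5⟩)
              · refine mem_union_right _ (mem_union_right _ (mem_union_right _ (mem_union_right _ ?_)))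
                rw [mem_image]
                exact ⟨N - n, mem_range.2 (by omega), by omega⟩
            · refine mem_union_right _ (mem_union_right _ (mem_union_right _ (mem_union_left _ ?_)))
              rw [mem_range]; omega
          · refine mem_union_right _ (mem_union_right _ (mem_union_left _ ?_))
            rw [mem_image]
            exact ⟨N - n, mem_sdiff.2 ⟨mem_range.2 (by omega), h3⟩, by omega⟩
        · exact mem_union_right _ (mem_union_left _ (mem_sdiff.2 ⟨mem_range.2 hn, h2⟩))
      have h2 := card_le_card h1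
      rw [card_range] at h2
      have h3 := card_union_le B ((range (N + 1) \ A) ∪ ((range (N + 1) \ A).image (fun n => N - n) ∪
          (range (N / 10 + 1) ∪ (range (N / 10 + 1)).image (fun n => N - n))))
      have h4 := card_union_le (range (N + 1) \ A) ((range (N + 1) \ A).image (fun n => N - n) ∪
          (range (N / 10 + 1) ∪ (range (N / 10 + 1)).image (fun n => N - n)))
      have h5 := card_union_le ((range (N + 1) \ A).image (fun n => N - n))
          (range (N / 10 + 1) ∪ (range (N / 10 + 1)).image (fun n => N - n))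
      have h6 := card_union_le (range (N / 10 + 1)) ((range (N / 10 + 1)).image (fun n => N - n))
      have h7 := card_image_le (s := range (N + 1) \ A) (f := fun n => N - n)
      have h8 := card_image_le (s := range (N / 10 + 1)) (f := fun n => N - n)
      have h9 : (range (N + 1) \ A).card = N + 1 - A.card := by
        rw [card_sdiff_of_subset hAsub, card_range]
      have h10 := card_le_card hAsub
      rw [card_range] at h8 h6 h10
      omega
    have h1 := four_lower p N hN B (fun n hn => by
      have := hAsub (mem_filter.1 hn).1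
      rw [mem_range] at this
      omega)
    have h2 : B.card * N ≤ 15 * ∑ n ∈ B, (rep p n).card * (rep p (N - n)).card := by
      rw [mul_sum, ← smul_eq_mul, ← sum_const]
      refine sum_le_sum fun n hn => ?_
      rw [hB, mem_filter] at hn
      exact rep_prod p N n hN hn.1 hn.2.1 hn.2.2.1 hn.2.2.2
    nlinarith

end Pool.Agent.TH10.RP
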