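import Mathlib
import Pool.Agent.TH10.RP.Gram

/-!
# The Gram determinant of the cotangents and all primes at the same time
-/

set_option autoImplicit false

namespace Pool.Agent.TH10.RP

open Finset

/-- The Gram determinant of integer vectors with short rows is divisible by high powers of the primes
modulo which the rank is small. -/
theorem gram_multi {ι κ : Type} [Fintype ι] [DecidableEq ι] [Fintype κ] (M : ι → κ → ℤ) (R : ℕ)
    (hR : ∀ i, ∑ k, (M i k) ^ 2 ≤ R)
    (hli : ∀ b : ι → ℤ, (∀ k, ∑ i, b i * M i k = 0) → b = 0) :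
    ∃ G : ℕ, 0 < G ∧ G ≤ R ^ Fintype.card ι ∧ ∀ (p : ℕ) (T : Finset ι),
      (∀ i, i ∉ T → ∃ a : ι → ℤ, ∀ k, (p : ℤ) ∣ M i k - ∑ j ∈ T, a j * M j k) →
      p ^ (2 * (Fintype.card ι - T.card)) ∣ G := by
  have h1 := GramAux.det_ne_zero (Matrix.of M) hli
  have h3 := GramAux.det_le ((Matrix.of M).map (Int.castRingHom ℝ)) R (by
    intro i
    simp only [Matrix.map_apply, Matrix.of_apply, eq_intCast]
    exact_mod_cast hR i)
  rw [← Matrix.transpose_map, ← Matrix.map_mul] at h3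
  have h4 : ((Matrix.of M * (Matrix.of M).transpose).map (Int.castRingHom ℝ)).det =
      (((Matrix.of M * (Matrix.of M).transpose).det : ℤ) : ℝ) := by
    have := RingHom.map_det (Int.castRingHom ℝ) (Matrix.of M * (Matrix.of M).transpose)
    rw [eq_intCast] at this
    rw [this]
    rfl
  rw [h4] at h3
  have h5 : (Matrix.of M * (Matrix.of M).transpose).det ≤ (R : ℤ) ^ Fintype.card ι := by
    exact_mod_cast h3
  have h6 : 0 ≤ (Matrix.of M * (Matrix.of M).transpose).det := by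
    have hG := (Matrix.posSemidef_self_mul_conjTranspose
      ((Matrix.of M).map (Int.castRingHom ℝ))).det_nonneg
    rw [Matrix.conjTranspose_eq_transpose_of_trivial, ← Matrix.transpose_map, ← Matrix.map_mul,
      h4] at hG
    exact_mod_cast hG
  have h7 : 0 < (Matrix.of M * (Matrix.of M).transpose).det := lt_of_le_of_ne h6 (Ne.symm h1)
  obtain ⟨G, hG⟩ := Int.eq_ofNat_of_zero_le h6
  refine ⟨G, ?_, ?_, ?_⟩
  · rw [hG] at h7
    exact_mod_cast h7
  · rw [hG] at h5
    exact_mod_cast h5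
  · intro p T hT
    have h2 := GramAux.dvd_det (Matrix.of M) (p : ℤ) T hT
    rw [hG] at h2
    exact_mod_cast h2

/-- The rank of the cotangents modulo all primes `p`. -/
theorem rank_multi (d : ℕ) (hd : 3 ≤ d) : ∃ G : ℕ, 0 < G ∧
    G ≤ (4 ^ (d.primeFactors.card + 1) * d) ^ (II d).card ∧
    ∀ (p : ℕ) [Fact p.Prime], ¬ p ∣ d → ∀ M : Finset ℕ, M ⊆ II d →
      (∀ μ ∈ II d, vc p d μ ∈ Submodule.span (ZMod p) (vc p d '' (M : Set ℕ))) →
      p ^ (2 * ((II d).card - M.card)) ∣ G := by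
  classical
  have hd0 : 0 < d := by omega
  have : NeZero d := ⟨hd0.ne'⟩
  have hinv : ∀ μ : ℕ, ∃ m : ℕ, m ≤ d ∧ (μ ∈ II d → μ * m % d = 1) := by
    intro μ
    by_cases hμ : μ ∈ II d
    · rw [mem_II hd] at hμ
      obtain ⟨m, hm⟩ := Nat.exists_mul_mod_eq_one_of_coprime hμ.2.1 (by omega : 1 < d)
      exact ⟨m, by omega, fun _ => hm.2⟩
    · exact ⟨0, by omega, fun h => absurd h hμ⟩
  choose inv hinv1 hinv2 using hinv
  set ql := d.primeFactors.toList with hql
  set Fv : ℕ → ZMod d → ℤ := fun μ => opL ql (fun k => bas μ (inv μ) k +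
    shf ((μ : ℕ) : ZMod d) (bas μ (inv μ)) k) with hFv
  have hev : ∀ (L : Type) [Field L] (ζ : L), ζ ^ d = 1 → ∀ μ, evz ζ (Fv μ) =
      (ql.map (fun q => 1 - ζ ^ (d / q))).prod * ((ζ ^ μ + 1) * ∑ i ∈ range (inv μ), ζ ^ (μ * i)) := by
    intro L _ ζ hζ μ
    rw [hFv]
    simp only
    rw [evz_opL ζ hζ, evz_add, evz_shf ζ hζ, evz_bas ζ hζ, pow_val_nat ζ hζ]
    ring
  have hprod : ∀ (L : Type) [Field L] (ζ : L), IsPrimitiveRoot ζ d →
      (ql.map (fun q => 1 - ζ ^ (d / q))).prod ≠ 0 := by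
    intro L _ ζ hζ h0
    rw [List.prod_eq_zero_iff, List.mem_map] at h0
    obtain ⟨q, hq, h1⟩ := h0
    rw [hql, mem_toList, Nat.mem_primeFactors] at hq
    have h2 := (hζ.pow_eq_one_iff_dvd (d / q)).1 (sub_eq_zero.1 h1).symm
    have h3 : 0 < d / q := Nat.div_pos (Nat.le_of_dvd hd0 hq.2.1) hq.1.pos
    have h4 := Nat.le_of_dvd h3 h2
    have h5 := Nat.div_lt_self hd0 hq.1.one_lt
    omega
  have hzero : ∀ (L : Type) [Field L] (ζ : L), ζ ^ d = 1 → ¬ IsPrimitiveRoot ζ d →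
      (ql.map (fun q => 1 - ζ ^ (d / q))).prod = 0 := by
    intro L _ ζ hζ hn
    obtain ⟨q, hq, h1⟩ := imprim d hd0 ζ hζ hn
    rw [List.prod_eq_zero_iff, List.mem_map]
    exact ⟨q, hq, by rw [h1, sub_self]⟩
  have hAA : ∀ i : II d, ∑ k, (Fv i k) ^ 2 ≤ (((4 ^ (d.primeFactors.card + 1) * d : ℕ)) : ℤ) := by
    intro i
    have h1 := nm_bas (d := d) (i : ℕ) (inv i) ((mem_II hd).1 i.2).2.1 (hinv1 i)
    have h2 := nm_add_le ((i : ℕ) : ZMod d) (bas (d := d) (i : ℕ) (inv i))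
    have h3 := nm_opL ql (fun k => bas (i : ℕ) (inv i) k + shf (((i : ℕ) : ℕ) : ZMod d) (bas (i : ℕ) (inv i)) k)
    have h4 : ql.length = d.primeFactors.card := by rw [hql, length_toList]
    rw [h4] at h3
    have h5 : (0 : ℤ) < 4 ^ d.primeFactors.card := by positivity
    have h6 : nm (Fv i) ≤ 4 ^ d.primeFactors.card * (4 * d) :=
      h3.trans (mul_le_mul_of_nonneg_left (h2.trans (by linarith)) h5.le)
    push_cast
    rw [pow_succ]
    unfold nm at h6
    linarith
  have hBB : ∀ b : II d → ℤ, (∀ k, ∑ i, b i * Fv i k = 0) → b = 0 := by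
    intro b hb
    let b' : ℕ → ℤ := fun μ => if h : μ ∈ II d then b ⟨μ, h⟩ else 0
    have hb' : ∀ i : II d, b' i = b i := fun i => dif_pos i.2
    have hζ := Complex.isPrimitiveRoot_exp d hd0.ne'
    set ζ := Complex.exp (2 * Real.pi * Complex.I / d) with hζd
    have h1 : evz ζ (fun k => ∑ i : II d, b i * Fv i k) = 0 := by
      unfold evz
      refine sum_eq_zero fun k _ => ?_
      have h2 : (((∑ i : II d, b i * Fv i k : ℤ)) : ℂ) * ζ ^ k.val = 0 := by
        rw [hb k]; simp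
      exact h2
    rw [evz_lin ζ univ b (fun i : II d => Fv i)] at h1
    have h2 : (ql.map (fun q => 1 - ζ ^ (d / q))).prod * ((ζ - 1) *
        ∑ μ ∈ II d, (b' μ : ℂ) * ((ζ ^ μ + 1) / (ζ ^ μ - 1))) = 0 := by
      rw [← h1, ← sum_coe_sort, mul_sum, mul_sum]
      refine sum_congr rfl fun i _ => ?_
      rw [hev ℂ ζ hζ.pow_eq_one, geo_eval d hd ζ hζ i (inv i) i.2 (hinv2 i i.2), hb']
      ring
    rcases mul_eq_zero.1 h2 with h3 | h3
    · exact absurd h3 (hprod ℂ ζ hζ)
    · rcases mul_eq_zero.1 h3 with h4 | h4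
      · exact absurd (sub_eq_zero.1 h4) (hζ.ne_one (by omega))
      · have h5 := cot_indep d hd ζ hζ b' h4
        funext i
        rw [← hb' i]
        exact h5 i i.2
  obtain ⟨G, hG0, hG1, hG2⟩ := gram_multi (ι := II d) (κ := ZMod d) (fun i k => Fv i k)
    (4 ^ (d.primeFactors.card + 1) * d) hAA hBB
  rw [Fintype.card_coe] at hG1 hG2
  refine ⟨G, hG0, hG1, ?_⟩
  intro p _ hpd M hMI hM
  have hT : (univ.filter (fun i : II d => (i : ℕ) ∈ M)).card = M.card := by
    rw [← card_map (Function.Embedding.subtype _)]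
    congr 1
    ext x
    rw [mem_map]
    constructor
    · rintro ⟨y, hy, rfl⟩
      exact (mem_filter.1 hy).2
    · intro hx
      exact ⟨⟨x, hMI hx⟩, mem_filter.2 ⟨mem_univ _, hx⟩, rfl⟩
  have key := hG2 p (univ.filter (fun i : II d => (i : ℕ) ∈ M)) ?_
  · rwa [hT] at key
  · intro i hi
    have hiM : (i : ℕ) ∉ M := by
      intro h
      exact hi (mem_filter.2 ⟨mem_univ _, h⟩)
    obtain ⟨c0, hc0⟩ := (Submodule.mem_span_image_finset_iff_exists_fun (ZMod p)).1 (hM i i.2)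
    let c : ℕ → ZMod p := fun μ => if h : μ ∈ M then c0 ⟨μ, h⟩ else 0
    have hc : ∑ μ ∈ M, c μ • vc p d μ = vc p d i := by
      rw [← hc0, ← sum_coe_sort]
      refine sum_congr rfl fun j _ => ?_
      have : c j = c0 j := dif_pos j.2
      rw [this]
    refine ⟨fun j => ((c j).val : ℤ), fun k => ?_⟩
    set T := univ.filter (fun i : II d => (i : ℕ) ∈ M) with hT
    have hfun := dvd_of_evz p d hpd (fun k => Fv i k - ∑ j ∈ T, ((c j).val : ℤ) * Fv j k) ?_ k
    · exact hfun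
    · intro ζ hζ
      rw [evz_sub ζ (Fv i) (fun k => ∑ j ∈ T, ((c j).val : ℤ) * Fv j k),
        evz_lin ζ T (fun j : II d => ((c j).val : ℤ)) (fun j : II d => Fv j)]
      by_cases hprim : IsPrimitiveRoot ζ d
      · have h1 : ∀ j : II d, evz ζ (Fv j) = (ql.map (fun q => 1 - ζ ^ (d / q))).prod *
            ((ζ - 1) * ((ζ ^ (j : ℕ) + 1) / (ζ ^ (j : ℕ) - 1))) := by
          intro j
          rw [hev _ ζ hζ, geo_eval d hd ζ hprim j (inv j) j.2 (hinv2 j j.2)]
        have h2 := congrFun hc ⟨ζ, hprim⟩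
        rw [Finset.sum_apply] at h2
        simp only [Pi.smul_apply, vc] at h2
        have h3 : ∑ j ∈ T, (((c j).val : ℤ) : AlgebraicClosure (ZMod p)) *
            ((ζ ^ (j : ℕ) + 1) / (ζ ^ (j : ℕ) - 1)) = (ζ ^ (i : ℕ) + 1) / (ζ ^ (i : ℕ) - 1) := by
          rw [← h2]
          refine sum_bij (fun j _ => (j : ℕ)) ?_ ?_ ?_ ?_
          · intro j hj; exact (mem_filter.1 hj).2
          · intro j _ j' _ h; exact Subtype.ext h
          · intro x hx; exact ⟨⟨x, hMI hx⟩, mem_filter.2 ⟨mem_univ _, hx⟩, rfl⟩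
          · intro j _
            rw [Algebra.smul_def]
            congr 1
            have h4 : algebraMap (ZMod p) (AlgebraicClosure (ZMod p)) (((c j).val : ℕ) : ZMod p) =
              (((c j).val : ℕ) : AlgebraicClosure (ZMod p)) := map_natCast _ _
            rw [ZMod.natCast_zmod_val] at h4
            rw [h4]
            push_cast
            rfl
        have h5 : ∑ j ∈ T, (((c j).val : ℤ) : AlgebraicClosure (ZMod p)) * evz ζ (Fv j) =
            (ql.map (fun q => 1 - ζ ^ (d / q))).prod * ((ζ - 1) *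
            ((ζ ^ (i : ℕ) + 1) / (ζ ^ (i : ℕ) - 1))) := by
          rw [← h3, mul_sum, mul_sum]
          refine sum_congr rfl fun j _ => ?_
          rw [h1 j]
          ring
        rw [h5, h1 i, sub_self]
      · have h1 : ∀ j : II d, evz ζ (Fv j) = 0 := by
          intro j
          rw [hev _ ζ hζ, hzero _ ζ hζ hprim, zero_mul]
        rw [h1 i, zero_sub, neg_eq_zero]
        refine sum_eq_zero fun j _ => ?_
        rw [h1 j, mul_zero]

end Pool.Agent.TH10.RP
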