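import Mathlib
import Pool.Agent.TH10.RP.Multi
import Pool.Agent.TH10.RP.Four

/-!
# The defect of the rank modulo `p`, summed over primes
-/

set_option autoImplicit false

namespace Pool.Agent.TH10.RP

open Finset Pool.Agent.H332R2 Pool.Agent.TH350.SumReg

theorem exists_MS (p d : ℕ) [Fact p.Prime] : ∃ M : Finset ℕ, M ⊆ II d ∧
    (∀ μ ∈ II d, vc p d μ ∈ Submodule.span (ZMod p) (vc p d '' (M : Set ℕ))) ∧
    LinearIndepOn (ZMod p) (vc p d) (M : Set ℕ) := by
  classical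
  obtain ⟨s, hs1, -, hs2, hs3⟩ := exists_linearIndepOn_extension (K := ZMod p) (v := vc p d)
    (s := ∅) (t := (II d : Set ℕ)) (linearIndepOn_empty _ _) (Set.empty_subset _)
  have hsf : s.Finite := (Finset.finite_toSet _).subset hs1
  have hsub : hsf.toFinset ⊆ II d := fun x hx => hs1 ((Set.Finite.mem_toFinset hsf).1 hx)
  refine ⟨hsf.toFinset, hsub, ?_, ?_⟩
  · intro μ hμ
    rw [Set.Finite.coe_toFinset]
    exact hs2 (Set.mem_image_of_mem _ hμ)
  · rw [Set.Finite.coe_toFinset]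
    exact hs3

/-- a basis among the cotangents -/
noncomputable def MS (p d : ℕ) [Fact p.Prime] : Finset ℕ := Classical.choose (exists_MS p d)

lemma MS_sub (p d : ℕ) [Fact p.Prime] : MS p d ⊆ II d := (Classical.choose_spec (exists_MS p d)).1

lemma MS_span (p d : ℕ) [Fact p.Prime] (μ : ℕ) (hμ : μ ∈ II d) :
    vc p d μ ∈ Submodule.span (ZMod p) (vc p d '' (MS p d : Set ℕ)) :=
  (Classical.choose_spec (exists_MS p d)).2.1 μ hμ

lemma MS_indep (p d : ℕ) [Fact p.Prime] (f : ℕ → ZMod p)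
    (hf : ∀ ζ : AlgebraicClosure (ZMod p), IsPrimitiveRoot ζ d →
      ∑ μ ∈ MS p d, algebraMap (ZMod p) (AlgebraicClosure (ZMod p)) (f μ) *
        ((ζ ^ μ + 1) / (ζ ^ μ - 1)) = 0) : ∀ μ ∈ MS p d, f μ = 0 := by
  have h1 := (Classical.choose_spec (exists_MS p d)).2.2
  have h1' : LinearIndepOn (ZMod p) (vc p d) (MS p d : Set ℕ) := h1
  rw [linearIndepOn_finset_iff] at h1'
  refine h1' f ?_
  funext ζ
  have h2 := hf ζ ζ.2
  rw [Pi.zero_apply, ← h2, Finset.sum_apply]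
  refine sum_congr rfl fun μ _ => ?_
  rw [Pi.smul_apply, Algebra.smul_def]
  rfl

/-- the defect at `d` -/
noncomputable def dn (p d : ℕ) : ℕ :=
  if h : p.Prime then (II d).card - (@MS p d ⟨h⟩).card else 0

lemma dn_eq (p d : ℕ) [hp : Fact p.Prime] : dn p d = (II d).card - (MS p d).card := by
  unfold dn
  rw [dif_pos hp.out]

/-- the defect up to `l` -/
noncomputable def df (p l : ℕ) : ℕ := ∑ d ∈ Icc 3 l, dn p d

lemma df_mono (p : ℕ) {l l' : ℕ} (h : l ≤ l') : df p l ≤ df p l' := by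
  unfold df
  exact sum_le_sum_of_subset (Icc_subset_Icc_right h)

lemma two_pow_omega_le (d : ℕ) (hd : 0 < d) : 2 ^ d.primeFactors.card ≤ d := by
  calc 2 ^ d.primeFactors.card = ∏ _q ∈ d.primeFactors, 2 := by rw [prod_const]
    _ ≤ ∏ q ∈ d.primeFactors, q := prod_le_prod' fun q hq => (Nat.prime_of_mem_primeFactors hq).two_le
    _ ≤ d := Nat.le_of_dvd hd (Nat.prod_primeFactors_dvd d)

theorem sum_dn (d B : ℕ) (hd : 3 ≤ d) (hB : 2 ≤ B) (hR : 4 * d ^ 3 ≤ B ^ 4) (S : Finset ℕ)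
    (hS : ∀ p ∈ S, p.Prime ∧ d < p ∧ B ≤ p) : ∑ p ∈ S, dn p d ≤ 2 * (II d).card := by
  classical
  obtain ⟨G, hG0, hG1, hG2⟩ := rank_multi d hd
  have h1 : ∏ p ∈ S, p ^ (2 * dn p d) ∣ G := by
    refine Finset.prod_dvd_of_isRelPrime ?_ ?_
    · intro p hp q hq hpq
      have hp' := (hS p hp).1
      have hq' := (hS q hq).1
      show IsRelPrime (p ^ (2 * dn p d)) (q ^ (2 * dn q d))
      rw [← Nat.coprime_iff_isRelPrime]
      exact Nat.Coprime.pow _ _ ((Nat.coprime_primes hp' hq').2 hpq)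
    · intro p hp
      obtain ⟨hp1, hp2, -⟩ := hS p hp
      have : Fact p.Prime := ⟨hp1⟩
      rw [dn_eq]
      exact hG2 p (fun h => by
        have := Nat.le_of_dvd (by omega) h
        omega) (MS p d) (MS_sub p d) (MS_span p d)
  have h2 : B ^ (∑ p ∈ S, 2 * dn p d) ≤ ∏ p ∈ S, p ^ (2 * dn p d) := by
    rw [← prod_pow_eq_pow_sum]
    exact prod_le_prod' fun p hp => Nat.pow_le_pow_left (hS p hp).2.2 _
  have h3 := Nat.le_of_dvd hG0 h1
  have h4 : 4 ^ (d.primeFactors.card + 1) * d ≤ B ^ 4 := by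
    refine le_trans ?_ hR
    have h5 := two_pow_omega_le d (by omega)
    have h6 : 4 ^ (d.primeFactors.card + 1) = 4 * (2 ^ d.primeFactors.card) ^ 2 := by
      rw [pow_succ, ← pow_mul, mul_comm (d.primeFactors.card) 2, pow_mul]
      norm_num
      ring
    rw [h6]
    have h7 := Nat.pow_le_pow_left h5 2
    calc 4 * (2 ^ d.primeFactors.card) ^ 2 * d ≤ 4 * d ^ 2 * d :=
          Nat.mul_le_mul_right _ (Nat.mul_le_mul_left _ h7)
      _ = 4 * d ^ 3 := by ring
  have h5 : B ^ (∑ p ∈ S, 2 * dn p d) ≤ B ^ (4 * (II d).card) := by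
    calc B ^ (∑ p ∈ S, 2 * dn p d) ≤ G := h2.trans h3
      _ ≤ (4 ^ (d.primeFactors.card + 1) * d) ^ (II d).card := hG1
      _ ≤ (B ^ 4) ^ (II d).card := Nat.pow_le_pow_left h4 _
      _ = B ^ (4 * (II d).card) := by rw [← pow_mul]
  have h6 := (Nat.pow_le_pow_iff_right (by omega : 1 < B)).1 h5
  rw [← mul_sum] at h6
  omega

theorem sum_df (j : ℕ) (hj : 2 ≤ j) (S : Finset ℕ)
    (hS : ∀ p ∈ S, p.Prime ∧ 2 * 16 ^ j ≤ p) : ∑ p ∈ S, df p (12 * 4 ^ j) ≤ 144 * 16 ^ j := by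
  classical
  have h16 : (16 : ℕ) ^ j = 4 ^ j * 4 ^ j := by rw [← mul_pow]; norm_num
  have h4 : 16 ≤ 4 ^ j := by
    calc 16 = 4 ^ 2 := by norm_num
      _ ≤ 4 ^ j := Nat.pow_le_pow_right (by norm_num) hj
  set a := 4 ^ j with ha
  unfold df
  rw [sum_comm]
  have h1 : ∀ d ∈ Icc 3 (12 * a), ∑ p ∈ S, dn p d ≤ 12 * a := by
    intro d hd
    rw [mem_Icc] at hd
    have h2 := sum_dn d (2 * 16 ^ j) hd.1 (by rw [h16]; nlinarith) (by
        have h3 : d ^ 3 ≤ (12 * a) ^ 3 := Nat.pow_le_pow_left hd.2 3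
        rw [h16]
        have h5 : 16 ^ 5 * a ^ 3 ≤ a ^ 5 * a ^ 3 := Nat.mul_le_mul_right _ (Nat.pow_le_pow_left h4 5)
        calc 4 * d ^ 3 ≤ 4 * (12 * a) ^ 3 := Nat.mul_le_mul_left _ h3
          _ = 6912 * a ^ 3 := by ring
          _ ≤ 16 * (16 ^ 5 * a ^ 3) := by nlinarith [Nat.zero_le (a ^ 3)]
          _ ≤ 16 * (a ^ 5 * a ^ 3) := Nat.mul_le_mul_left _ h5
          _ = (2 * (a * a)) ^ 4 := by ring) S (fun p hp => by
        have := hS p hp
        rw [h16] at this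
        refine ⟨this.1, ?_, ?_⟩
        · nlinarith [this.2]
        · rw [h16]; exact this.2)
    have h3 := card_II hd.1
    have h4 := Nat.totient_le d
    omega
  refine (sum_le_sum h1).trans ?_
  rw [sum_const, Nat.card_Icc, smul_eq_mul, h16]
  have : 12 * a + 1 - 3 ≤ 12 * a := by omega
  nlinarith [Nat.mul_le_mul_right (12 * a) this]

/-- the sums of two regular indices and the defect -/
theorem SG_df (p K : ℕ) [Fact p.Prime] (hK2 : 2 ≤ K) (hK : 2 * K + 3 ≤ p) : ∃ l : ℕ,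
    l ^ 2 ≤ 8 * K ∧ 2 * K ≤ 3 + l + 2 * (SG p K).card + 2 * df p l := by
  classical
  obtain ⟨l, hl1, hl2⟩ : ∃ l : ℕ, 2 + ∑ e ∈ Icc 2 l, e.totient < 2 * K ∧
      2 * K ≤ 2 + ∑ e ∈ Icc 2 (l + 1), e.totient := by
    have hex : ∃ n : ℕ, 2 * K ≤ 2 + ∑ e ∈ Icc 2 (n + 1), e.totient := by
      refine ⟨2 * K, ?_⟩
      have h1 : ∑ e ∈ Icc 2 (2 * K + 1), 1 ≤ ∑ e ∈ Icc 2 (2 * K + 1), e.totient :=
        sum_le_sum fun e he => Nat.totient_pos.2 (by rw [mem_Icc] at he; omega)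
      rw [sum_const, Nat.card_Icc, smul_eq_mul, mul_one] at h1
      omega
    refine ⟨Nat.find hex, ?_, Nat.find_spec hex⟩
    rcases Nat.eq_zero_or_pos (Nat.find hex) with h0 | h0
    · rw [h0]
      simp
      omega
    · have h1 := Nat.find_min hex (m := Nat.find hex - 1) (by omega)
      push Not at h1
      have h2 : Nat.find hex - 1 + 1 = Nat.find hex := by omega
      rwa [h2] at h1
  have hl : 1 ≤ l := by
    by_contra hc
    have : l = 0 := by omega
    subst this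
    simp at hl2
    omega
  have hs1 : ∑ e ∈ range (l + 1), e.totient = 1 + ∑ e ∈ Icc 2 l, e.totient := by
    have e1 : range (l + 1) = range 2 ∪ Icc 2 l := by
      ext x
      rw [mem_union, mem_range, mem_range, mem_Icc]
      omega
    have e2 : Disjoint (range 2) (Icc 2 l) := by
      rw [disjoint_left]
      intro x h5 h6
      rw [mem_range] at h5
      rw [mem_Icc] at h6
      omega
    rw [e1, sum_union e2]
    congr 1
  have hs2 := totient_sum l
  have hlK : l ^ 2 ≤ 8 * K := by omega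
  have hs3 : ∑ e ∈ Icc 2 (l + 1), e.totient = ∑ e ∈ Icc 2 l, e.totient + (l + 1).totient :=
    sum_Icc_succ_top (by omega) _
  have hs4 : (l + 1).totient ≤ l := by
    have := Nat.totient_lt (l + 1) (by omega)
    omega
  have hs5 : ∑ e ∈ Icc 2 l, e.totient ≤ 1 + ∑ d ∈ Icc 3 l, d.totient := by
    have e1 : Icc 2 l ⊆ insert 2 (Icc 3 l) := by
      intro x hx
      rw [mem_Icc] at hx
      rw [mem_insert, mem_Icc]
      omega
    refine (sum_le_sum_of_subset e1).trans ?_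
    rw [sum_insert (by rw [mem_Icc]; omega)]
    simp
  have hs6 : ∑ d ∈ Icc 3 l, d.totient = 2 * ∑ d ∈ Icc 3 l, (II d).card := by
    rw [mul_sum]
    refine sum_congr rfl fun d hd => ?_
    rw [card_II (mem_Icc.1 hd).1]
  have h1 := dim_bound2 (p := p) K l hK hl1 (fun d => MS p d) (fun d hd μ hμ => by
      have h3 := (mem_Icc.1 hd).1
      have h4 := (mem_II h3).1 (MS_sub p d hμ)
      exact ⟨h4.1, by omega, h4.2.1⟩) (fun d _ => MS_indep p d)
  have h5 : (SG p K).card = ((range (K + 1)).filter (fun N => ∃ i, i ≤ N ∧ ww p N i ≠ 0)).card := rfl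
  rw [← h5] at h1
  have h6 : ∑ d ∈ Icc 3 l, (II d).card ≤ (SG p K).card + df p l := by
    have h7 : ∑ d ∈ Icc 3 l, (II d).card ≤ ∑ d ∈ Icc 3 l, ((MS p d).card + dn p d) := by
      refine sum_le_sum fun d _ => ?_
      rw [dn_eq]
      omega
    rw [sum_add_distrib] at h7
    unfold df
    omega
  exact ⟨l, hlK, by omega⟩

end Pool.Agent.TH10.RP
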