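import Mathlib
import Pool.Agent.TH10.RP.Defect

/-!
# Sums of three regular indices, for almost all primes
-/

set_option autoImplicit false

namespace Pool.Agent.TH10.RP

open Finset Pool.Agent.H332R2 Pool.Agent.TH350.SumReg

/-- the representations of `N` as a sum of three regular indices -/
def three (p N : ℕ) : Finset (Fin 3 → ℕ) :=
  (Finset.Nat.antidiagonalTuple 3 N).filter
    (fun x => ∀ i, ¬ ((p : ℤ) ∣ (_root_.bernoulli (2 * x i)).num))

theorem cc_iff (p : ℕ) [Fact p.Prime] (i : ℕ) (hi : 2 * i + 3 ≤ p) :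
    cc p (2 * i) ≠ 0 ↔ ¬ ((p : ℤ) ∣ (_root_.bernoulli (2 * i)).num) := by
  rw [Ne, cc_eq_zero_iff (by omega) (by omega)]

theorem three_lower (p : ℕ) [Fact p.Prime] (N : ℕ) (hN : 2 * N + 3 ≤ p) (B : Finset ℕ)
    (hB : ∀ n ∈ B, n ≤ N ∧ cc p (2 * n) ≠ 0) :
    ∑ n ∈ B, (rep p (N - n)).card ≤ (three p N).card := by
  classical
  rw [← card_sigma]
  refine card_le_card_of_injOn (fun x => ![x.1, x.2, N - x.1 - x.2]) ?_ ?_
  · rintro ⟨n, i⟩ h
    rw [mem_coe, mem_sigma] at h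
    obtain ⟨h1, h2⟩ := h
    simp only at h1 h2
    obtain ⟨hn, hcc⟩ := hB n h1
    unfold rep at h2
    rw [mem_filter, mem_range] at h2
    obtain ⟨hi, hw⟩ := h2
    have hw' := (ww_iff p (N - n) i (by omega) (by omega)).1 hw
    rw [mem_coe]
    unfold three
    rw [mem_filter]
    refine ⟨?_, ?_⟩
    · rw [Finset.Nat.mem_antidiagonalTuple, Fin.sum_univ_three]
      simp
      omega
    · intro k
      fin_cases k
      · simpa using (cc_iff p n (by omega)).1 hcc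
      · simpa using hw'.1
      · simpa using hw'.2
  · rintro ⟨n, i⟩ h ⟨n', i'⟩ h' he
    have e0 := congrFun he 0
    have e1 := congrFun he 1
    simp at e0 e1
    subst e0
    subst e1
    rfl

/-- the complement of the set of sums of two regular indices -/
theorem compl_SG (p K : ℕ) [Fact p.Prime] :
    (range (K + 1) \ SG p K).card + (SG p K).card = K + 1 := by
  have h1 : SG p K ⊆ range (K + 1) := filter_subset _ _
  rw [card_sdiff_of_subset h1, card_range]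
  have := card_le_card h1
  rw [card_range] at this
  omega

/-- The numerical part of `three_big`. -/
theorem num_three (u t l D Z s : ℝ) (hu : 128 ≤ u) (ht0 : 0 ≤ t)
    (hl : l ^ 2 ≤ 8 * u ^ 4) (hD : 31 * D ≤ u ^ 3) (ht : u ^ 12 ≤ 2500 * t ^ 4)
    (hZ : 2 * Z ≤ 5 + l + 2 * D) (hs : (t - Z) * (u ^ 2 / 3) ≤ s) :
    u ^ 20 ≤ (4 * 10 ^ 6) * s ^ 4 := by
  have hu0 : 0 < u := by linarith
  have h1 : l ≤ 3 * u ^ 2 := by
    apply le_of_sq_le_sq _ (by positivity)
    nlinarith [pow_pos hu0 4]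
  have h2 : 128 * u ^ 2 ≤ u ^ 3 := by nlinarith [pow_pos hu0 2]
  have h2' : 128 * 128 ≤ u ^ 2 := by nlinarith
  have h3 : u ^ 3 ≤ 71 / 10 * t := by
    by_contra hc
    push Not at hc
    have h4 : (71 / 10 * t) ^ 4 < (u ^ 3) ^ 4 := by
      apply pow_lt_pow_left₀ hc (by positivity) (by norm_num)
    nlinarith [pow_nonneg ht0 4]
  have h4 : Z ≤ 1 / 20 * u ^ 3 := by
    nlinarith [pow_pos hu0 3]
  have h5 : 9 / 100 * u ^ 3 ≤ t - Z := by linarith
  have h6 : 3 / 100 * u ^ 5 ≤ s := by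
    calc 3 / 100 * u ^ 5 = 9 / 100 * u ^ 3 * (u ^ 2 / 3) := by ring
      _ ≤ (t - Z) * (u ^ 2 / 3) := mul_le_mul_of_nonneg_right h5 (by positivity)
      _ ≤ s := hs
  have h7 : (3 / 100 * u ^ 5) ^ 4 ≤ s ^ 4 := pow_le_pow_left₀ (by positivity) h6 4
  have h8 : (3 / 100 * u ^ 5) ^ 4 = 81 / 10 ^ 8 * u ^ 20 := by ring
  rw [h8] at h7
  nlinarith [pow_pos hu0 20]

/-- the number of regular indices up to `M` -/
noncomputable def tt (p M : ℕ) [Fact p.Prime] : ℕ :=
  ((range (M + 1)).filter (fun i => cc p (2 * i) ≠ 0)).card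

theorem tt_lower (p N : ℕ) [Fact p.Prime] (hN : 2 * N + 3 ≤ p) (hN2 : 1000 ≤ N)
    (hA : N / 2 ≤ 2 * (SG p (N / 2)).card) :
    (N : ℝ) ^ 3 ≤ 2500 * (tt p (N / 2) : ℝ) ^ 4 := by
  have h1 := count_lower p (N / 2) (by omega)
  have h2 : ((range (N / 2 + 1)).filter (fun i => cc p (2 * i) ≠ 0)).card = tt p (N / 2) := rfl
  rw [h2] at h1
  set A := (SG p (N / 2)).card with hAd
  have h3 : (N : ℝ) ≤ 4 * A + 1 := by
    have : N ≤ 4 * A + 1 := by omega
    exact_mod_cast this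
  have h4 : (1000 : ℝ) ≤ N := by exact_mod_cast hN2
  have h5 : ((N : ℝ) - 5) / 4 ≤ (A : ℝ) - 1 := by linarith
  have h6 : (((N : ℝ) - 5) / 4) ^ 2 ≤ ((A : ℝ) - 1) ^ 2 := pow_le_pow_left₀ (by linarith) h5 2
  have h7 : (((N : ℝ) - 5) / 4) ^ 2 * (((N : ℝ) - 1) / 4) ≤ ((A : ℝ) - 1) ^ 2 * A :=
    mul_le_mul h6 (by linarith) (by linarith) (by positivity)
  have h8 : 36 / 2500 * (N : ℝ) ^ 3 ≤ (((N : ℝ) - 5) / 4) ^ 2 * (((N : ℝ) - 1) / 4) := by
    have h9 : 0 ≤ (N : ℝ) ^ 2 := by positivity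
    nlinarith
  linarith

theorem three_big (p N j : ℕ) [Fact p.Prime] (hj : 7 ≤ j) (h1 : 16 ^ j ≤ N) (h2 : N < 16 ^ (j + 1))
    (hN : 2 * N + 3 ≤ p) (hA : N / 2 ≤ 2 * (SG p (N / 2)).card)
    (hdf : 31 * df p (12 * 4 ^ j) ≤ 8 ^ j) : N ^ 5 ≤ (4 * 10 ^ 6) * (three p N).card ^ 4 := by
  classical
  have hN7 : 16 ^ 7 ≤ N := (Nat.pow_le_pow_right (by norm_num) hj).trans h1
  have hNR : (16 : ℝ) ^ 7 ≤ N := by exact_mod_cast hN7
  have hN0 : (0 : ℝ) ≤ N := by positivity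
  obtain ⟨u, hu0, hu4⟩ : ∃ u : ℝ, 0 ≤ u ∧ u ^ 4 = N := by
    refine ⟨(N : ℝ) ^ ((1 : ℝ) / 4), by positivity, ?_⟩
    rw [← Real.rpow_natCast, ← Real.rpow_mul hN0]
    norm_num
  have hu : 128 ≤ u := by
    by_contra hc
    push Not at hc
    have : u ^ 4 < 128 ^ 4 := pow_lt_pow_left₀ hc hu0 (by norm_num)
    rw [hu4] at this
    norm_num at this hNR
    linarith
  obtain ⟨l, hl1, hl2⟩ := SG_df p N (by omega) hN
  have hll : l ≤ 12 * 4 ^ j := by
    have h3 : l ^ 2 ≤ (12 * 4 ^ j) ^ 2 := by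
      have h4 : (12 * 4 ^ j) ^ 2 = 144 * 16 ^ j := by
        rw [mul_pow, ← pow_mul, mul_comm j 2, pow_mul]
        norm_num
      rw [h4]
      rw [pow_succ] at h2
      omega
    exact (Nat.pow_le_pow_iff_left (by norm_num)).1 h3
  have hD := df_mono p hll
  have h8u : ((8 : ℝ)) ^ j ≤ u ^ 3 := by
    have h3 : ((8 : ℝ) ^ j) ^ 4 ≤ (u ^ 3) ^ 4 := by
      have e1 : ((8 : ℝ) ^ j) ^ 4 = ((16 : ℝ) ^ j) ^ 3 := by
        rw [← pow_mul, mul_comm j 4, pow_mul, ← pow_mul (16 : ℝ), mul_comm j 3, pow_mul (16 : ℝ)]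
        norm_num
      have e2 : (u ^ 3) ^ 4 = (N : ℝ) ^ 3 := by rw [← hu4]; ring
      rw [e1, e2]
      exact pow_le_pow_left₀ (by positivity) (by exact_mod_cast h1) 3
    exact (pow_le_pow_iff_left₀ (by positivity) (by positivity) (by norm_num)).1 h3
  set t := tt p (N / 2) with ht
  set Z := (range (N + 1) \ SG p N).card with hZ
  have hZ1 := compl_SG p N
  rw [← hZ] at hZ1
  set A' := (range (N / 2 + 1)).filter (fun i => cc p (2 * i) ≠ 0 ∧ N - i ∈ SG p N) with hA'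
  have htA : t ≤ A'.card + Z := by
    have h3 : (range (N / 2 + 1)).filter (fun i => cc p (2 * i) ≠ 0) ⊆
        A' ∪ (range (N + 1) \ SG p N).image (fun n => N - n) := by
      intro i hi
      rw [mem_filter, mem_range] at hi
      rw [mem_union]
      by_cases hc : N - i ∈ SG p N
      · left
        exact mem_filter.2 ⟨mem_range.2 hi.1, hi.2, hc⟩
      · right
        rw [mem_image]
        exact ⟨N - i, mem_sdiff.2 ⟨mem_range.2 (by omega), hc⟩, by omega⟩
    have h4 := card_le_card h3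
    have h5 := card_union_le A' ((range (N + 1) \ SG p N).image (fun n => N - n))
    have h6 := card_image_le (s := range (N + 1) \ SG p N) (f := fun n => N - n)
    have h7 : t = ((range (N / 2 + 1)).filter (fun i => cc p (2 * i) ≠ 0)).card := rfl
    omega
  have hlow := three_lower p N hN A' (fun n hn => by
    rw [hA', mem_filter, mem_range] at hn
    exact ⟨by omega, hn.2.1⟩)
  have hrep : ∀ n ∈ A', u ^ 2 / 3 ≤ ((rep p (N - n)).card : ℝ) := by
    intro n hn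
    rw [hA', mem_filter, mem_range] at hn
    have h3 := hn.2.2
    unfold SG at h3
    rw [mem_filter] at h3
    have h4 := rep_bound p (N - n) (by omega) h3.2
    have h5 : (rep p (N - n)).card = ((range (N - n + 1)).filter (fun i => ww p (N - n) i ≠ 0)).card := rfl
    rw [← h5] at h4
    have h6 : N ≤ 9 * (rep p (N - n)).card ^ 2 := by omega
    have h7 : (N : ℝ) ≤ 9 * ((rep p (N - n)).card : ℝ) ^ 2 := by exact_mod_cast h6
    rw [← hu4] at h7
    have h8 : u ^ 2 ≤ 3 * ((rep p (N - n)).card : ℝ) := by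
      apply le_of_sq_le_sq _ (by positivity)
      nlinarith
    linarith
  have hs : ((t : ℝ) - Z) * (u ^ 2 / 3) ≤ ((three p N).card : ℝ) := by
    calc ((t : ℝ) - Z) * (u ^ 2 / 3) ≤ (A'.card : ℝ) * (u ^ 2 / 3) := by
          refine mul_le_mul_of_nonneg_right ?_ (by positivity)
          have : (t : ℝ) ≤ A'.card + Z := by exact_mod_cast htA
          linarith
      _ = ∑ _n ∈ A', u ^ 2 / 3 := by rw [sum_const, nsmul_eq_mul]
      _ ≤ ∑ n ∈ A', ((rep p (N - n)).card : ℝ) := sum_le_sum hrep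
      _ ≤ ((three p N).card : ℝ) := by exact_mod_cast hlow
  have htl := tt_lower p N hN (by omega) hA
  rw [← ht] at htl
  have hfin := num_three u t l (df p l) Z (three p N).card hu (by positivity) (by
      rw [hu4]; exact_mod_cast hl1) (by
      have h3 : 31 * df p l ≤ 8 ^ j := by omega
      have h4 : (31 : ℝ) * df p l ≤ (8 : ℝ) ^ j := by exact_mod_cast h3
      linarith) (by
      have e1 : u ^ 12 = (N : ℝ) ^ 3 := by rw [← hu4]; ring
      rw [e1]; exact htl) (by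
      have h3 : 2 * Z ≤ 5 + l + 2 * df p l := by omega
      exact_mod_cast h3) hs
  have e5 : u ^ 20 = (N : ℝ) ^ 5 := by rw [← hu4]; ring
  rw [e5] at hfin
  exact_mod_cast hfin

end Pool.Agent.TH10.RP
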