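import Mathlib
import Pool.Agent.TH10.RP.Three

/-!
# Sums of two and three regular indices, for almost all primes
-/

set_option autoImplicit false

namespace Pool.Agent.TH10.RP

open Finset Pool.Agent.H332R2 Pool.Agent.TH350.SumReg

theorem count_bad (j T c : ℕ) (hj : 2 ≤ j) (S : Finset ℕ)
    (hS : ∀ p ∈ S, p.Prime ∧ 2 * 16 ^ j ≤ p ∧ T ≤ c * df p (12 * 4 ^ j)) :
    S.card * T ≤ c * (144 * 16 ^ j) := by
  calc S.card * T = ∑ _p ∈ S, T := by rw [sum_const, smul_eq_mul]
    _ ≤ ∑ p ∈ S, c * df p (12 * 4 ^ j) := sum_le_sum fun p hp => (hS p hp).2.2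
    _ = c * ∑ p ∈ S, df p (12 * 4 ^ j) := by rw [mul_sum]
    _ ≤ c * (144 * 16 ^ j) := Nat.mul_le_mul_left _ (sum_df j hj S fun p hp =>
        ⟨(hS p hp).1, (hS p hp).2.1⟩)

theorem three_good (P : ℕ) (hP1 : ∀ (p K : ℕ) [Fact p.Prime], P ≤ p → 2 * K + 3 ≤ p →
      (1 - Real.log K / (4 * Real.log p) - 1 / 4) * K ≤ (SG p K).card)
    (hP2 : ∀ p : ℕ, P ≤ p → ∀ m ≤ 16 ^ 7, ¬ ((p : ℤ) ∣ (_root_.bernoulli (2 * m)).num))
    (p : ℕ) (hp : p.Prime) (hpP : P ≤ p)
    (N : ℕ) (hN : 2 * N + 3 ≤ p)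
    (hdf : 16 ^ 7 ≤ N → 31 * df p (12 * 4 ^ Nat.log 16 N) ≤ 8 ^ Nat.log 16 N) :
    N ^ 5 ≤ 16 ^ 35 * (three p N).card ^ 4 := by
  classical
  have : Fact p.Prime := ⟨hp⟩
  rcases Nat.lt_or_ge N (16 ^ 7) with h | h
  · have h1 : 1 ≤ (three p N).card := by
      apply card_pos.2
      refine ⟨![N, 0, 0], ?_⟩
      unfold three
      rw [mem_filter]
      refine ⟨?_, ?_⟩
      · rw [Finset.Nat.mem_antidiagonalTuple, Fin.sum_univ_three]
        simp
      · intro k
        fin_cases k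
        · simpa using hP2 p hpP N h.le
        · simpa using hP2 p hpP 0 (by norm_num)
        · simpa using hP2 p hpP 0 (by norm_num)
    calc N ^ 5 ≤ (16 ^ 7) ^ 5 := Nat.pow_le_pow_left h.le 5
      _ = 16 ^ 35 * 1 := by rw [← pow_mul]; norm_num
      _ ≤ 16 ^ 35 * (three p N).card ^ 4 := Nat.mul_le_mul_left _ (Nat.one_le_pow _ _ h1)
  · have h1 : 16 ^ Nat.log 16 N ≤ N := Nat.pow_log_le_self 16 (by omega)
    have h2 : N < 16 ^ (Nat.log 16 N + 1) := Nat.lt_pow_succ_log_self (by norm_num) N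
    have h3 : 7 ≤ Nat.log 16 N := (Nat.le_log_iff_pow_le (by norm_num) (by omega)).2 h
    have h4 : N / 2 ≤ 2 * (SG p (N / 2)).card := by
      have h5 := hP1 p (N / 2) hpP (by omega)
      have hlog : Real.log ((N / 2 : ℕ) : ℝ) / (4 * Real.log p) ≤ 1 / 4 := by
        have hlp : 0 < Real.log p := Real.log_pos (by exact_mod_cast hp.one_lt)
        rw [div_le_iff₀ (by positivity)]
        have h6 : Real.log ((N / 2 : ℕ) : ℝ) ≤ Real.log p := by
          apply Real.log_le_log
          · exact_mod_cast (by omega : 0 < N / 2)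
          · exact_mod_cast (by omega : N / 2 ≤ p)
        linarith
      have h6 : ((N / 2 : ℕ) : ℝ) ≤ 2 * (SG p (N / 2)).card := by
        have h7 : (0 : ℝ) ≤ ((N / 2 : ℕ) : ℝ) := by positivity
        nlinarith
      exact_mod_cast h6
    have h5 := three_big p N _ h3 h1 h2 hN h4 (hdf h)
    refine h5.trans (Nat.mul_le_mul_right _ (by norm_num))

theorem three_almost : ∃ C : ℕ, ∀ (X : ℕ) (S : Finset ℕ),
    (∀ p ∈ S, p.Prime ∧ ∃ N ≤ X, 2 * N + 3 ≤ p ∧ C * (three p N).card ^ 4 < N ^ 5) →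
    S.card ^ 4 ≤ C * X := by
  classical
  obtain ⟨P1, hP1⟩ := SG_asym (1 / 4) (by norm_num)
  obtain ⟨P2, hP2⟩ := small_regular (16 ^ 7)
  set P := P1 + P2 with hP
  refine ⟨16 ^ 35 + (P + 8928) ^ 4, fun X S hS => ?_⟩
  rcases Nat.eq_zero_or_pos X with hX | hX
  · subst hX
    have h1 : S = ∅ := by
      rw [eq_empty_iff_forall_notMem]
      intro p hp
      obtain ⟨-, N, hN, -, h⟩ := hS p hp
      have : N = 0 := by omega
      subst this
      simp at h
    rw [h1]
    simp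
  set J := Nat.log 16 X with hJ
  set T : ℕ → Finset ℕ := fun j => S.filter
    (fun p => 7 ≤ j ∧ 2 * 16 ^ j + 3 ≤ p ∧ 8 ^ j < 31 * df p (12 * 4 ^ j)) with hT
  have hTcard : ∀ j, (T j).card ≤ 4464 * 2 ^ j := by
    intro j
    rcases Nat.lt_or_ge j 7 with h7 | h7
    · have : T j = ∅ := by
        rw [hT]
        simp only
        rw [filter_eq_empty_iff]
        intro p _ h
        omega
      rw [this]
      simp
    · have h1 := count_bad j (8 ^ j) 31 (by omega) (T j) (fun p hp => by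
        rw [hT] at hp
        simp only at hp
        rw [mem_filter] at hp
        exact ⟨(hS p hp.1).1, by omega, by omega⟩)
      have h2 : (16 : ℕ) ^ j = 2 ^ j * 8 ^ j := by rw [← mul_pow]; norm_num
      rw [h2] at h1
      have h3 : 0 < 8 ^ j := by positivity
      have h4 : (T j).card * 8 ^ j ≤ (4464 * 2 ^ j) * 8 ^ j := by
        calc (T j).card * 8 ^ j ≤ 31 * (144 * (2 ^ j * 8 ^ j)) := h1
          _ = (4464 * 2 ^ j) * 8 ^ j := by ring
      exact Nat.le_of_mul_le_mul_right h4 h3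
  have hsub : S ⊆ range P ∪ (range (J + 1)).biUnion T := by
    intro p hp
    obtain ⟨hpp, N, hNX, hN, hlt⟩ := hS p hp
    rw [mem_union, mem_range]
    rcases Nat.lt_or_ge p P with h | h
    · exact Or.inl h
    · right
      by_contra hcon
      have hall : 16 ^ 7 ≤ N → 31 * df p (12 * 4 ^ Nat.log 16 N) ≤ 8 ^ Nat.log 16 N := by
        intro hN7
        by_contra hc
        push Not at hc
        apply hcon
        have h1 : 16 ^ Nat.log 16 N ≤ N := Nat.pow_log_le_self 16 (by omega)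
        rw [mem_biUnion]
        refine ⟨Nat.log 16 N, ?_, ?_⟩
        · rw [mem_range]
          have h2 := (Nat.le_log_iff_pow_le (b := 16) (by norm_num) (by omega)).2 (h1.trans hNX)
          omega
        · rw [hT]
          simp only
          rw [mem_filter]
          exact ⟨hp, (Nat.le_log_iff_pow_le (by norm_num) (by omega)).2 hN7, by omega, hc⟩
      have h3 := three_good P (fun p K _ hpP hK => hP1 p K (by omega) hK)
        (fun p hpP m hm => hP2 p (by omega) m hm) p hpp h N hN hall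
      have h4 : 16 ^ 35 * (three p N).card ^ 4 ≤ (16 ^ 35 + (P + 8928) ^ 4) * (three p N).card ^ 4 :=
        Nat.mul_le_mul_right _ (Nat.le_add_right _ _)
      omega
  have h1 := card_le_card hsub
  have h2 := card_union_le (range P) ((range (J + 1)).biUnion T)
  have h3 : ((range (J + 1)).biUnion T).card ≤ 8928 * 2 ^ J := by
    refine card_biUnion_le.trans ((sum_le_sum fun j _ => hTcard j).trans ?_)
    rw [← mul_sum]
    have h4 := Nat.geomSum_eq (m := 2) le_rfl (J + 1)
    have h5 : ∑ i ∈ range (J + 1), 2 ^ i ≤ 2 ^ (J + 1) := by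
      rw [h4]
      simp
    rw [pow_succ] at h5
    nlinarith
  rw [card_range] at h2
  set E := S.card with hE
  have h4 : 1 ≤ 2 ^ J := Nat.one_le_two_pow
  have h5 : E ≤ (P + 8928) * 2 ^ J := by nlinarith
  have h6 : 16 ^ J ≤ X := Nat.pow_log_le_self 16 (by omega)
  calc E ^ 4 ≤ ((P + 8928) * 2 ^ J) ^ 4 := Nat.pow_le_pow_left h5 4
    _ = (P + 8928) ^ 4 * 16 ^ J := by
        rw [mul_pow, ← pow_mul, mul_comm J 4, pow_mul]
        norm_num
    _ ≤ (P + 8928) ^ 4 * X := Nat.mul_le_mul_left _ h6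
    _ ≤ (16 ^ 35 + (P + 8928) ^ 4) * X := Nat.mul_le_mul_right _ (Nat.le_add_left _ _)

/-- the integers up to `K` which are not sums of two regular indices -/
def nonsum (p K : ℕ) : Finset ℕ :=
  (range (K + 1)).filter (fun n => ∀ i ≤ n, ((p : ℤ) ∣ (_root_.bernoulli (2 * i)).num) ∨
    ((p : ℤ) ∣ (_root_.bernoulli (2 * (n - i))).num))

theorem nonsum_eq (p K : ℕ) [Fact p.Prime] (hK : 2 * K + 3 ≤ p) :
    nonsum p K = range (K + 1) \ SG p K := by
  classical
  ext n
  unfold nonsum SG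
  rw [mem_filter, mem_sdiff, mem_filter, mem_range]
  constructor
  · rintro ⟨h1, h2⟩
    refine ⟨h1, ?_⟩
    rintro ⟨-, i, hi, hw⟩
    have h3 := (ww_iff p n i hi (by omega)).1 hw
    rcases h2 i hi with h4 | h4
    · exact h3.1 h4
    · exact h3.2 h4
  · rintro ⟨h1, h2⟩
    refine ⟨h1, fun i hi => ?_⟩
    by_contra hc
    push Not at hc
    exact h2 ⟨h1, i, hi, (ww_iff p n i hi (by omega)).2 hc⟩

theorem two_good (p : ℕ) (hp : p.Prime) (K : ℕ) (hK : 2 * K + 3 ≤ p)
    (hdf : 256 ≤ K → df p (12 * 4 ^ Nat.log 16 K) ≤ 4 ^ Nat.log 16 K) :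
    (nonsum p K).card ^ 2 ≤ 10 ^ 5 * K := by
  classical
  have : Fact p.Prime := ⟨hp⟩
  rw [nonsum_eq p K hK]
  have hZ := compl_SG p K
  set Z := (range (K + 1) \ SG p K).card with hZd
  rcases Nat.eq_zero_or_pos K with h0 | h0
  · subst h0
    have h1 : 0 ∈ SG p 0 := by
      unfold SG
      rw [mem_filter, mem_range]
      refine ⟨by norm_num, 0, le_rfl, ?_⟩
      unfold ww
      have : cc p 0 = 1 := cc_zero
      simp [this]
    have h2 : 1 ≤ (SG p 0).card := card_pos.2 ⟨0, h1⟩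
    have h3 : Z = 0 := by omega
    rw [h3]
    norm_num
  rcases Nat.lt_or_ge K 256 with h | h
  · have h1 : Z ≤ 256 := by omega
    nlinarith
  · have h1 : 16 ^ Nat.log 16 K ≤ K := Nat.pow_log_le_self 16 (by omega)
    have h2 : K < 16 ^ (Nat.log 16 K + 1) := Nat.lt_pow_succ_log_self (by norm_num) K
    have h3 : 2 ≤ Nat.log 16 K := (Nat.le_log_iff_pow_le (by norm_num) (by omega)).2 (by
      norm_num; exact h)
    set j := Nat.log 16 K with hj
    obtain ⟨l, hl1, hl2⟩ := SG_df p K (by omega) hK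
    have hll : l ≤ 12 * 4 ^ j := by
      have h3 : l ^ 2 ≤ (12 * 4 ^ j) ^ 2 := by
        have h4 : (12 * 4 ^ j) ^ 2 = 144 * 16 ^ j := by
          rw [mul_pow, ← pow_mul, mul_comm j 2, pow_mul]
          norm_num
        rw [h4]
        rw [pow_succ] at h2
        omega
      exact (Nat.pow_le_pow_iff_left (by norm_num)).1 h3
    have hD := df_mono p hll
    have hD2 := hdf h
    have ha : (4 ^ j) ^ 2 ≤ K := by
      have : (4 ^ j) ^ 2 = 16 ^ j := by
        rw [← pow_mul, mul_comm j 2, pow_mul]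
        norm_num
      rw [this]
      exact h1
    set a := 4 ^ j with had
    have h5 : 2 * Z ≤ 5 + l + 2 * a := by omega
    have h6 : (2 * Z) ^ 2 ≤ (5 + l + 2 * a) ^ 2 := Nat.pow_le_pow_left h5 2
    have h7 : ((5 : ℤ) + l + 2 * a) ^ 2 ≤ 3 * (25 + l ^ 2 + 4 * a ^ 2) := by
      nlinarith [sq_nonneg ((5 : ℤ) - l), sq_nonneg ((l : ℤ) - 2 * a), sq_nonneg ((5 : ℤ) - 2 * a)]
    have h8 : (5 + l + 2 * a) ^ 2 ≤ 3 * (25 + l ^ 2 + 4 * a ^ 2) := by exact_mod_cast h7
    nlinarith

theorem two_almost (X : ℕ) (S : Finset ℕ)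
    (hS : ∀ p ∈ S, p.Prime ∧ ∃ K ≤ X, 2 * K + 3 ≤ p ∧ 10 ^ 5 * K < (nonsum p K).card ^ 2) :
    S.card ^ 2 ≤ 10 ^ 5 * X := by
  classical
  rcases Nat.eq_zero_or_pos X with hX | hX
  · subst hX
    have h1 : S = ∅ := by
      rw [eq_empty_iff_forall_notMem]
      intro p hp
      obtain ⟨hpp, K, hK, hKp, h⟩ := hS p hp
      have : K = 0 := by omega
      subst this
      have h2 := two_good p hpp 0 hKp (by norm_num)
      omega
    rw [h1]
    simp
  set J := Nat.log 16 X with hJ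
  set T : ℕ → Finset ℕ := fun j => S.filter
    (fun p => 2 ≤ j ∧ 2 * 16 ^ j + 3 ≤ p ∧ 4 ^ j < df p (12 * 4 ^ j)) with hT
  have hTcard : ∀ j, (T j).card ≤ 144 * 4 ^ j := by
    intro j
    rcases Nat.lt_or_ge j 2 with h7 | h7
    · have : T j = ∅ := by
        rw [hT]
        simp only
        rw [filter_eq_empty_iff]
        intro p _ h
        omega
      rw [this]
      simp
    · have h1 := count_bad j (4 ^ j) 1 (by omega) (T j) (fun p hp => by
        rw [hT] at hp
        simp only at hp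
        rw [mem_filter] at hp
        exact ⟨(hS p hp.1).1, by omega, by omega⟩)
      have h2 : (16 : ℕ) ^ j = 4 ^ j * 4 ^ j := by rw [← mul_pow]; norm_num
      rw [h2] at h1
      have h3 : 0 < 4 ^ j := by positivity
      have h4 : (T j).card * 4 ^ j ≤ (144 * 4 ^ j) * 4 ^ j := by
        calc (T j).card * 4 ^ j ≤ 1 * (144 * (4 ^ j * 4 ^ j)) := h1
          _ = (144 * 4 ^ j) * 4 ^ j := by ring
      exact Nat.le_of_mul_le_mul_right h4 h3
  have hsub : S ⊆ (range (J + 1)).biUnion T := by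
    intro p hp
    obtain ⟨hpp, K, hKX, hK, hlt⟩ := hS p hp
    by_contra hcon
    have hall : 256 ≤ K → df p (12 * 4 ^ Nat.log 16 K) ≤ 4 ^ Nat.log 16 K := by
      intro hK2
      by_contra hc
      push Not at hc
      apply hcon
      have h1 : 16 ^ Nat.log 16 K ≤ K := Nat.pow_log_le_self 16 (by omega)
      rw [mem_biUnion]
      refine ⟨Nat.log 16 K, ?_, ?_⟩
      · rw [mem_range]
        have h2 := (Nat.le_log_iff_pow_le (b := 16) (by norm_num) (by omega)).2 (h1.trans hKX)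
        omega
      · rw [hT]
        simp only
        rw [mem_filter]
        exact ⟨hp, (Nat.le_log_iff_pow_le (by norm_num) (by omega)).2 (by norm_num; exact hK2),
          by omega, hc⟩
    have h3 := two_good p hpp K hK hall
    omega
  have h1 := card_le_card hsub
  have h3 : ((range (J + 1)).biUnion T).card ≤ 192 * 4 ^ J := by
    refine card_biUnion_le.trans ((sum_le_sum fun j _ => hTcard j).trans ?_)
    rw [← mul_sum]
    have h5 : 3 * ∑ i ∈ range (J + 1), 4 ^ i ≤ 4 ^ (J + 1) := by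
      have : ∀ n : ℕ, 3 * ∑ i ∈ range n, 4 ^ i ≤ 4 ^ n := by
        intro n
        induction n with
        | zero => simp
        | succ n ih => rw [sum_range_succ, pow_succ]; omega
      exact this _
    rw [pow_succ] at h5
    omega
  set E := S.card with hE
  have h5 : E ≤ 192 * 4 ^ J := h1.trans h3
  have h6 : 16 ^ J ≤ X := Nat.pow_log_le_self 16 (by omega)
  calc E ^ 2 ≤ (192 * 4 ^ J) ^ 2 := Nat.pow_le_pow_left h5 2
    _ = 36864 * 16 ^ J := by
        rw [mul_pow, ← pow_mul, mul_comm J 2, pow_mul]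
        norm_num
    _ ≤ 36864 * X := Nat.mul_le_mul_left _ h6
    _ ≤ 10 ^ 5 * X := Nat.mul_le_mul_right _ (by norm_num)

end Pool.Agent.TH10.RP
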