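import Mathlib
import Pool.Agent.TH10.RP.Almost

/-!
# Sums of `h ≥ 3` regular indices
-/

set_option autoImplicit false

namespace Pool.Agent.TH10.RP

open Finset

/-- the representations of `N` as an ordered sum of `h` regular indices -/
def tup (p h N : ℕ) : Finset (Fin h → ℕ) :=
  (Finset.Nat.antidiagonalTuple h N).filter
    (fun x => ∀ i, ¬ ((p : ℤ) ∣ (_root_.bernoulli (2 * x i)).num))

/-- the regular indices up to `M`, `0` included -/
def regs (p M : ℕ) : Finset ℕ :=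
  (range (M + 1)).filter (fun m => ¬ ((p : ℤ) ∣ (_root_.bernoulli (2 * m)).num))

theorem tup_succ (p h N M : ℕ) (hM : M ≤ N) :
    ∑ m ∈ regs p M, (tup p h (N - m)).card ≤ (tup p (h + 1) N).card := by
  classical
  rw [← card_sigma]
  refine card_le_card_of_injOn (fun x => Fin.cons x.1 x.2) ?_ ?_
  · rintro ⟨m, x⟩ hx
    rw [mem_coe, mem_sigma] at hx
    obtain ⟨h1, h2⟩ := hx
    simp only at h1 h2
    unfold regs at h1
    unfold tup at h2
    rw [mem_filter, mem_range] at h1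
    rw [mem_filter, Finset.Nat.mem_antidiagonalTuple] at h2
    rw [mem_coe]
    unfold tup
    rw [mem_filter, Finset.Nat.mem_antidiagonalTuple]
    refine ⟨?_, ?_⟩
    · simp only
      rw [Fin.sum_univ_succ]
      simp only [Fin.cons_zero, Fin.cons_succ]
      omega
    · intro i
      refine Fin.cases ?_ (fun j => ?_) i
      · simpa using h1.2
      · simpa using h2.2 j
  · rintro ⟨m, x⟩ _ ⟨m', x'⟩ _ he
    simp only at he
    obtain ⟨e1, e2⟩ := Fin.cons_inj.1 he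
    subst e1
    subst e2
    rfl

theorem regs_pos (p M : ℕ) (hp : p.Prime) : 1 ≤ (regs p M).card := by
  rw [Nat.one_le_iff_ne_zero, Ne, card_eq_zero, ← Ne, ← nonempty_iff_ne_empty]
  refine ⟨0, ?_⟩
  unfold regs
  rw [mem_filter, mem_range]
  refine ⟨by omega, ?_⟩
  simp
  intro h
  have := Int.le_of_dvd (by norm_num) h
  have := hp.two_le
  omega

theorem regs_lower (p K : ℕ) (hp : p.Prime) (hK : 2 * K + 3 ≤ p) :
    K ^ 3 ≤ 10 ^ 6 * (regs p K).card ^ 4 := by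
  refine (count_main p hp K hK).trans ?_
  refine Nat.mul_le_mul_left _ (Nat.pow_le_pow_left (card_le_card ?_) 4)
  intro m hm
  unfold regs
  rw [mem_filter, mem_Icc] at hm
  rw [mem_filter, mem_range]
  exact ⟨by omega, hm.2⟩

theorem step (p h N C : ℕ) (hp : p.Prime) (hN : 2 * N + 3 ≤ p) (hh : 4 ≤ h)
    (hC : ∀ M, M ≤ N → M ^ (3 * h - 4) ≤ C * (tup p h M).card ^ 4) :
    N ^ (3 * (h + 1) - 4) ≤ (27 * 10 ^ 6 * 2 ^ (3 * h - 4) * C) * (tup p (h + 1) N).card ^ 4 := by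
  classical
  set B := regs p (N / 2) with hB
  have hpos : 1 ≤ B.card := regs_pos p _ hp
  have hne : B.Nonempty := card_pos.1 hpos
  obtain ⟨m0, hm0, hmin⟩ := exists_min_image B (fun m => (tup p h (N - m)).card) hne
  set τ := (tup p h (N - m0)).card with hτ
  have h1 : B.card * τ ≤ (tup p (h + 1) N).card := by
    refine le_trans ?_ (tup_succ p h N (N / 2) (by omega))
    rw [← smul_eq_mul, ← sum_const]
    exact sum_le_sum fun m hm => hmin m hm
  have hm0' : m0 ≤ N / 2 := by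
    have : m0 ∈ regs p (N / 2) := hm0
    unfold regs at this
    rw [mem_filter, mem_range] at this
    omega
  have h2 := hC (N - m0) (by omega)
  have h3 : N ^ (3 * h - 4) ≤ 2 ^ (3 * h - 4) * (C * τ ^ 4) := by
    calc N ^ (3 * h - 4) ≤ (2 * (N - m0)) ^ (3 * h - 4) := Nat.pow_le_pow_left (by omega) _
      _ = 2 ^ (3 * h - 4) * (N - m0) ^ (3 * h - 4) := mul_pow _ _ _
      _ ≤ 2 ^ (3 * h - 4) * (C * τ ^ 4) := Nat.mul_le_mul_left _ h2
  have h4 : N ^ 3 ≤ 27 * 10 ^ 6 * B.card ^ 4 := by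
    rcases Nat.eq_zero_or_pos (N / 2) with h0 | h0
    · have h5 : N ≤ 1 := by omega
      calc N ^ 3 ≤ 1 ^ 3 := Nat.pow_le_pow_left h5 3
        _ ≤ 27 * 10 ^ 6 * 1 ^ 4 := by norm_num
        _ ≤ 27 * 10 ^ 6 * B.card ^ 4 := Nat.mul_le_mul_left _ (Nat.pow_le_pow_left hpos 4)
    · have h5 := regs_lower p (N / 2) hp (by omega)
      calc N ^ 3 ≤ (3 * (N / 2)) ^ 3 := Nat.pow_le_pow_left (by omega) 3
        _ = 27 * (N / 2) ^ 3 := by ring
        _ ≤ 27 * (10 ^ 6 * B.card ^ 4) := Nat.mul_le_mul_left _ h5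
        _ = 27 * 10 ^ 6 * B.card ^ 4 := by ring
  have e : 3 * (h + 1) - 4 = 3 + (3 * h - 4) := by omega
  rw [e, pow_add]
  calc N ^ 3 * N ^ (3 * h - 4) ≤ (27 * 10 ^ 6 * B.card ^ 4) * (2 ^ (3 * h - 4) * (C * τ ^ 4)) :=
        Nat.mul_le_mul h4 h3
    _ = (27 * 10 ^ 6 * 2 ^ (3 * h - 4) * C) * (B.card * τ) ^ 4 := by ring
    _ ≤ _ := Nat.mul_le_mul_left _ (Nat.pow_le_pow_left h1 4)

theorem ge_four : ∃ P : ℕ, ∀ h : ℕ, 4 ≤ h → ∃ C : ℕ, ∀ p : ℕ, p.Prime → P ≤ p → ∀ N : ℕ,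
    2 * N + 3 ≤ p → N ^ (3 * h - 4) ≤ C * (tup p h N).card ^ 4 := by
  obtain ⟨P, hP⟩ := four_sums
  refine ⟨P, fun h hh => ?_⟩
  induction h, hh using Nat.le_induction with
  | base =>
    refine ⟨60 ^ 4, fun p hp hpP N hN => ?_⟩
    have h1 := hP p hp hpP N hN
    have e : tup p 4 N = four p N := rfl
    rw [e]
    calc N ^ (3 * 4 - 4) = (N ^ 2) ^ 4 := by norm_num [← pow_mul]
      _ ≤ (60 * (four p N).card) ^ 4 := Nat.pow_le_pow_left h1 4
      _ = 60 ^ 4 * (four p N).card ^ 4 := mul_pow _ _ _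
  | succ h hh ih =>
    obtain ⟨C, hC⟩ := ih
    refine ⟨27 * 10 ^ 6 * 2 ^ (3 * h - 4) * C, fun p hp hpP N hN => ?_⟩
    exact step p h N C hp hN hh fun M hM => hC p hp hpP M (by omega)

/-- The main theorem, for all `h ≥ 3`. -/
theorem general (h : ℕ) (hh : 3 ≤ h) : ∃ C : ℕ, ∀ (X : ℕ) (S : Finset ℕ),
    (∀ p ∈ S, p.Prime ∧ ∃ N ≤ X, 2 * N + 3 ≤ p ∧ C * (tup p h N).card ^ 4 < N ^ (3 * h - 4)) →
    S.card ^ 4 ≤ C * X ^ (4 - h) := by
  classical
  rcases Nat.eq_or_lt_of_le hh with h3 | h3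
  · subst h3
    obtain ⟨C, hC⟩ := three_almost
    refine ⟨C, fun X S hS => ?_⟩
    have := hC X S fun p hp => by
      obtain ⟨h1, N, h2, h3, h4⟩ := hS p hp
      exact ⟨h1, N, h2, h3, h4⟩
    simpa using this
  · obtain ⟨P, hP⟩ := ge_four
    obtain ⟨C, hC⟩ := hP h h3
    refine ⟨C + P ^ 4, fun X S hS => ?_⟩
    have h5 : S ⊆ range P := by
      intro p hp
      obtain ⟨h1, N, h2, h3, h4⟩ := hS p hp
      rw [mem_range]
      by_contra hcon
      have h6 := hC p h1 (by omega) N h3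
      have h7 : C * (tup p h N).card ^ 4 ≤ (C + P ^ 4) * (tup p h N).card ^ 4 :=
        Nat.mul_le_mul_right _ (by omega)
      omega
    have h8 : S.card ≤ P := by
      have := card_le_card h5
      rwa [card_range] at this
    have e : 4 - h = 0 := by omega
    rw [e, pow_zero, mul_one]
    have := Nat.pow_le_pow_left h8 4
    omega

end Pool.Agent.TH10.RP
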