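import Mathlib
import Pool.Agent.TH10.RP.Defect
set_option autoImplicit false
namespace Pool.Agent.TH10.RP
open Finset

private theorem fix_frob {K : Type*} [Field K] (p : ℕ) [Fact p.Prime] [Algebra (ZMod p) K] (x : K)
    (hx : x ^ p = x) : ∃ a : ZMod p, algebraMap (ZMod p) K a = x := by
  classical
  by_contra hcon
  push Not at hcon
  have hp1 : 1 < p := (Fact.out : p.Prime).one_lt
  let P : Polynomial K := Polynomial.X ^ p - Polynomial.X
  have hdeg : P.natDegree = p := FiniteField.X_pow_card_sub_X_natDegree_eq K hp1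
  have hinj : Function.Injective (algebraMap (ZMod p) K) := (algebraMap (ZMod p) K).injective
  let S : Finset K := insert x (univ.image (algebraMap (ZMod p) K))
  have hS : S.card = p + 1 := by
    rw [card_insert_of_notMem, card_image_of_injective _ hinj, card_univ, ZMod.card]
    intro h
    obtain ⟨a, -, ha⟩ := mem_image.1 h
    exact hcon a ha
  have hP : P = 0 := by
    apply Polynomial.eq_zero_of_natDegree_lt_card_of_eval_eq_zero' P S
    · intro y hy
      simp only [P, Polynomial.eval_sub, Polynomial.eval_pow, Polynomial.eval_X]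
      rcases mem_insert.1 hy with rfl | h
      · rw [hx, sub_self]
      · obtain ⟨a, -, rfl⟩ := mem_image.1 h
        rw [← map_pow, ZMod.pow_card, sub_self]
    · rw [hdeg, hS]; omega
  rw [hP] at hdeg
  simp at hdeg
  omega

private theorem descent {K ι X : Type*} [Field K] (p : ℕ) [hp : Fact p.Prime] [Algebra (ZMod p) K]
    (v : ι → X → K) (σ : X → X) (hσ : Function.Surjective σ)
    (hv : ∀ i x, v i (σ x) = (v i x) ^ p) (S : Finset ι)
    (hind : ∀ a : ι → ZMod p, (∀ x, ∑ i ∈ S, algebraMap (ZMod p) K (a i) * v i x = 0) →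
      ∀ i ∈ S, a i = 0) :
    ∀ f : ι → K, (∀ x, ∑ i ∈ S, f i * v i x = 0) → ∀ i ∈ S, f i = 0 := by
  classical
  have : CharP K p := charP_of_injective_algebraMap (algebraMap (ZMod p) K).injective p
  have : ExpChar K p := ExpChar.prime hp.out
  have key : ∀ n : ℕ, ∀ f : ι → K, (S.filter (fun i => f i ≠ 0)).card = n →
      (∀ x, ∑ i ∈ S, f i * v i x = 0) → ∀ i ∈ S, f i = 0 := by
    intro n
    induction n using Nat.strong_induction_on with
    | _ n ih =>
      intro f hn hf i0 hi0
      by_contra h0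
      let g : ι → K := fun i => f i / f i0
      have hg0 : g i0 = 1 := div_self h0
      have hg : ∀ x, ∑ i ∈ S, g i * v i x = 0 := by
        intro x
        have : ∑ i ∈ S, g i * v i x = (f i0)⁻¹ * ∑ i ∈ S, f i * v i x := by
          rw [mul_sum]
          refine sum_congr rfl fun i _ => ?_
          simp only [g]; ring
        rw [this, hf x, mul_zero]
      have hgp : ∀ y, ∑ i ∈ S, (g i) ^ p * v i y = 0 := by
        intro y
        obtain ⟨x, rfl⟩ := hσ y
        have h1 : (∑ i ∈ S, g i * v i x) ^ p = ∑ i ∈ S, (g i * v i x) ^ p := by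
          exact sum_pow_char p S _
        rw [hg x, zero_pow hp.out.ne_zero] at h1
        rw [h1]
        refine sum_congr rfl fun i _ => ?_
        rw [hv, mul_pow]
      have hd : ∀ x, ∑ i ∈ S, ((g i) ^ p - g i) * v i x = 0 := by
        intro x
        have : ∑ i ∈ S, ((g i) ^ p - g i) * v i x = ∑ i ∈ S, (g i) ^ p * v i x - ∑ i ∈ S, g i * v i x := by
          rw [← sum_sub_distrib]
          exact sum_congr rfl fun i _ => by ring
        rw [this, hgp x, hg x, sub_zero]
      have hlt : (S.filter (fun i => (g i) ^ p - g i ≠ 0)).card < n := by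
        rw [← hn]
        apply card_lt_card
        refine ⟨?_, ?_⟩
        · intro i hi
          obtain ⟨h1, h2⟩ := mem_filter.1 hi
          refine mem_filter.2 ⟨h1, fun h3 => h2 ?_⟩
          simp only [g, h3, zero_div]
          rw [zero_pow hp.out.ne_zero, sub_zero]
        · intro hsub
          have h1 := hsub (mem_filter.2 ⟨hi0, h0⟩)
          apply (mem_filter.1 h1).2
          rw [hg0, one_pow, sub_self]
      have hz := ih _ hlt (fun i => (g i) ^ p - g i) rfl hd
      have hex : ∀ i ∈ S, ∃ a : ZMod p, algebraMap (ZMod p) K a = g i := fun i hi =>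
        fix_frob p (g i) (sub_eq_zero.1 (hz i hi))
      choose! a ha using hex
      have h2 := hind a (fun x => by
        rw [← hg x]
        exact sum_congr rfl fun i hi => by rw [ha i hi]) i0 hi0
      have h3 := ha i0 hi0
      rw [h2, map_zero, hg0] at h3
      exact zero_ne_one h3
  intro f hf
  exact key _ f rfl hf

theorem MS_indep_closure (p d : ℕ) [hp : Fact p.Prime] (hpd : ¬ p ∣ d) :
    LinearIndepOn (AlgebraicClosure (ZMod p)) (vc p d) (MS p d : Set ℕ) := by
  have hc : Nat.Coprime p d := (Nat.Prime.coprime_iff_not_dvd hp.out).2 hpd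
  have : CharP (AlgebraicClosure (ZMod p)) p :=
    charP_of_injective_algebraMap (algebraMap (ZMod p) (AlgebraicClosure (ZMod p))).injective p
  have : ExpChar (AlgebraicClosure (ZMod p)) p := ExpChar.prime hp.out
  rw [linearIndepOn_finset_iff]
  intro f hf
  let σ : {ζ : AlgebraicClosure (ZMod p) // IsPrimitiveRoot ζ d} →
      {ζ : AlgebraicClosure (ZMod p) // IsPrimitiveRoot ζ d} :=
    fun ζ => ⟨ζ.1 ^ p, ζ.2.pow_of_coprime p hc⟩
  refine descent p (vc p d) σ ?_ ?_ (MS p d) ?_ f ?_
  · intro y
    obtain ⟨x, hx⟩ := IsAlgClosed.exists_pow_nat_eq y.1 hp.out.pos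
    refine ⟨⟨x, ⟨?_, ?_⟩⟩, Subtype.ext hx⟩
    · have h1 : (x ^ d) ^ p = 1 ^ p := by
        rw [← pow_mul, mul_comm, pow_mul, hx, y.2.pow_eq_one, one_pow]
      exact frobenius_inj _ p h1
    · intro l hl
      apply y.2.dvd_of_pow_eq_one
      rw [← hx, ← pow_mul, mul_comm, pow_mul, hl, one_pow]
  · intro μ ζ
    show ((ζ.1 ^ p) ^ μ + 1) / ((ζ.1 ^ p) ^ μ - 1) = ((ζ.1 ^ μ + 1) / (ζ.1 ^ μ - 1)) ^ p
    rw [div_pow, add_pow_char, sub_pow_char, one_pow, ← pow_mul, ← pow_mul, mul_comm p μ]
  · intro a ha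
    exact MS_indep p d a (fun ζ hζ => ha ⟨ζ, hζ⟩)
  · intro ζ
    have := congrFun hf ζ
    rw [Finset.sum_apply] at this
    simpa [Pi.smul_apply, smul_eq_mul] using this

end Pool.Agent.TH10.RP
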