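import Mathlib
import Pool.Agent.TH10.RP.Defect

set_option autoImplicit false

namespace Pool.Agent.TH10.RP

open Finset

/-- the cotangent -/
private noncomputable def F {K : Type} [Field K] (a : ℕ) (z : K) : K := (z ^ a + 1) / (z ^ a - 1)

private def UU (d : ℕ) : Finset ℕ := (range d).filter (fun μ => μ.Coprime d)

private lemma F_inv {K : Type} [Field K] (a : ℕ) (z : K) (hz : z ≠ 0) : F a z⁻¹ = -F a z := by
  unfold F
  rw [inv_pow]
  have hy : z ^ a ≠ 0 := pow_ne_zero a hz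
  generalize z ^ a = y at hy
  by_cases h1 : y = 1
  · subst h1; simp
  · have h3 : y - 1 ≠ 0 := sub_ne_zero.2 h1
    have h4 : y⁻¹ - 1 ≠ 0 := by
      intro h
      apply h1
      exact inv_eq_one.1 (sub_eq_zero.1 h)
    have h5 : 1 - y ≠ 0 := sub_ne_zero.2 (Ne.symm h1)
    rw [div_eq_iff h4, neg_mul, div_mul_eq_mul_div, ← neg_div, eq_div_iff h3]
    field_simp
    ring

private lemma sum_prim {K : Type} [Field K] {d : ℕ} (hd : 3 ≤ d) {z0 : K}
    (h0 : IsPrimitiveRoot z0 d) (φ : K → K) :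
    ∑ z ∈ primitiveRoots d K, φ z = ∑ ν ∈ UU d, φ (z0 ^ ν) := by
  have : NeZero d := ⟨by omega⟩
  symm
  refine Finset.sum_nbij (fun ν => z0 ^ ν) ?_ ?_ ?_ ?_
  · intro ν hν
    have := mem_filter.1 hν
    exact (mem_primitiveRoots (by omega)).2 (h0.pow_of_coprime ν this.2)
  · intro a ha b hb hab
    have ha' := mem_filter.1 (mem_coe.1 ha)
    have hb' := mem_filter.1 (mem_coe.1 hb)
    exact h0.pow_inj (mem_range.1 ha'.1) (mem_range.1 hb'.1) hab
  · intro z hz
    have hz' := (mem_primitiveRoots (by omega)).1 (mem_coe.1 hz)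
    obtain ⟨i, hi, hic, hzi⟩ := h0.isPrimitiveRoot_iff.1 hz'
    exact ⟨i, mem_coe.2 (mem_filter.2 ⟨mem_range.2 hi, hic⟩), hzi⟩
  · intro ν _
    rfl

private lemma sum_UU {K : Type} [Field K] {d : ℕ} (hd : 3 ≤ d) (ψ : ℕ → K) :
    ∑ ν ∈ UU d, ψ ν = ∑ ν ∈ II d, ψ ν + ∑ ν ∈ II d, ψ (d - ν) := by
  rw [← Finset.sum_filter_add_sum_filter_not (UU d) (fun ν => 2 * ν < d)]
  have h1 : (UU d).filter (fun ν => 2 * ν < d) = II d := by
    unfold UU II
    rw [filter_filter]
  rw [h1]
  congr 1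
  symm
  refine Finset.sum_nbij (fun ν => d - ν) ?_ ?_ ?_ ?_
  · intro ν hν
    unfold II at hν
    obtain ⟨h3, h4, h5⟩ := mem_filter.1 hν
    have h6 : ν ≠ 0 := by
      rintro rfl
      rw [Nat.coprime_zero_left] at h4
      omega
    refine mem_filter.2 ⟨mem_filter.2 ⟨mem_range.2 (by omega), ?_⟩, by omega⟩
    exact (Nat.coprime_self_sub_left (by omega)).2 h4
  · intro a ha b hb hab
    unfold II at ha hb
    have ha' := mem_filter.1 (mem_coe.1 ha)
    have hb' := mem_filter.1 (mem_coe.1 hb)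
    simp only at hab
    omega
  · intro ν hν
    obtain ⟨h3, h4⟩ := mem_filter.1 (mem_coe.1 hν)
    obtain ⟨h5, h6⟩ := mem_filter.1 h3
    have h7 := mem_range.1 h5
    have h8 : 2 * ν ≠ d := by
      intro h
      have h9 : ν ∣ d := ⟨2, by omega⟩
      have h10 := Nat.Coprime.eq_one_of_dvd h6 h9
      omega
    refine ⟨d - ν, mem_coe.2 (mem_filter.2 ⟨mem_range.2 (by omega), ?_, by omega⟩), ?_⟩
    · exact (Nat.coprime_self_sub_left (by omega)).2 h6
    · simp only
      omega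
  · intro ν _
    rfl

private lemma exists_s {K : Type} [Field K] [Infinite K] {d : ℕ} (hd : 3 ≤ d) (L : K → K) (z1 : K)
    (hz1 : IsPrimitiveRoot z1 d) (hL1 : L z1 ≠ 0) :
    ∃ s : K, ∀ z, IsPrimitiveRoot z d → ∑ g ∈ UU d, s ^ g * L (z ^ g) ≠ 0 := by
  classical
  have : NeZero d := ⟨by omega⟩
  let Q : K → Polynomial K := fun z => ∑ g ∈ UU d, Polynomial.monomial g (L (z ^ g))
  have hQ : ∀ z ∈ primitiveRoots d K, Q z ≠ 0 := by
    intro z hz h0
    have hz' := (mem_primitiveRoots (by omega)).1 hz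
    obtain ⟨i, hi, hic, hzi⟩ := hz'.isPrimitiveRoot_iff.1 hz1
    have h1 : (Q z).coeff i = L z1 := by
      simp only [Q, Polynomial.finsetSum_coeff, Polynomial.coeff_monomial]
      rw [Finset.sum_eq_single i]
      · simp [hzi]
      · intro b _ hb; simp [hb]
      · intro hni
        exact absurd (mem_filter.2 ⟨mem_range.2 hi, hic⟩) hni
    rw [h0, Polynomial.coeff_zero] at h1
    exact hL1 h1.symm
  have hP : (∏ z ∈ primitiveRoots d K, Q z) ≠ 0 := Finset.prod_ne_zero_iff.2 hQ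
  obtain ⟨s, hs⟩ : ∃ s, (∏ z ∈ primitiveRoots d K, Q z).eval s ≠ 0 := by
    by_contra hcon
    push Not at hcon
    exact hP (Polynomial.funext fun r => by rw [hcon r, Polynomial.eval_zero])
  refine ⟨s, fun z hz => ?_⟩
  rw [Polynomial.eval_prod] at hs
  have := Finset.prod_ne_zero_iff.1 hs z ((mem_primitiveRoots (by omega)).2 hz)
  simp only [Q, Polynomial.eval_finsetSum, Polynomial.eval_monomial] at this
  intro h0
  apply this
  rw [← h0]
  exact Finset.sum_congr rfl fun g _ => mul_comm _ _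

private lemma shift {K : Type} [Field K] {d : ℕ} (hd : 3 ≤ d) (L : K → K)
    (h : ∀ a b, a ∈ UU d → b ∈ UU d → ∑ z ∈ primitiveRoots d K, F a z * F b z * L z = 0)
    (a b g : ℕ) (ha : a ∈ UU d) (hb : b ∈ UU d) (hg : g ∈ UU d) :
    ∑ z ∈ primitiveRoots d K, F a z * F b z * L (z ^ g) = 0 := by
  have : NeZero d := ⟨by omega⟩
  have ha' := mem_filter.1 ha
  have hb' := mem_filter.1 hb
  have hg' := mem_filter.1 hg
  obtain ⟨g', _, hgg⟩ := Nat.exists_mul_mod_eq_one_of_coprime hg'.2 (by omega : 1 < d)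
  have hg'c : g'.Coprime d := by
    have h1 : (g * g').Coprime d := by
      rw [Nat.coprime_iff_gcd_eq_one, Nat.gcd_comm, Nat.gcd_rec, hgg]
      simp
    exact Nat.Coprime.coprime_mul_left h1
  have hback : ∀ z : K, z ^ d = 1 → (z ^ g) ^ g' = z := by
    intro z hz
    rw [← pow_mul, pow_eq_pow_mod _ hz, hgg, pow_one]
  have hmem : ∀ c, c ∈ UU d → (c * g') % d ∈ UU d := by
    intro c hc
    have hc' := mem_filter.1 hc
    refine mem_filter.2 ⟨mem_range.2 (Nat.mod_lt _ (by omega)), ?_⟩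
    have h1 : (c * g').Coprime d := Nat.Coprime.mul_left hc'.2 hg'c
    rw [Nat.coprime_iff_gcd_eq_one] at h1 ⊢
    rw [← h1, Nat.gcd_comm (c * g') d, Nat.gcd_rec d (c * g')]
  have hF : ∀ c, ∀ z : K, z ^ d = 1 → F c z = F ((c * g') % d) (z ^ g) := by
    intro c z hz
    have h1 : (z ^ g) ^ ((c * g') % d) = z ^ c := by
      have h2 : (z ^ g) ^ d = 1 := by rw [← pow_mul, mul_comm, pow_mul, hz, one_pow]
      rw [← pow_eq_pow_mod _ h2, mul_comm c g', pow_mul, hback z hz]
    unfold F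
    rw [h1]
  have h1 := h ((a * g') % d) ((b * g') % d) (hmem a ha) (hmem b hb)
  rw [← h1]
  refine Finset.sum_nbij (fun z => z ^ g) ?_ ?_ ?_ ?_
  · intro z hz
    have hz' := (mem_primitiveRoots (by omega)).1 hz
    exact (mem_primitiveRoots (by omega)).2 (hz'.pow_of_coprime g hg'.2)
  · intro x hx y hy hxy
    have hx' := (mem_primitiveRoots (by omega)).1 (mem_coe.1 hx)
    have hy' := (mem_primitiveRoots (by omega)).1 (mem_coe.1 hy)
    simp only at hxy
    rw [← hback x hx'.pow_eq_one, ← hback y hy'.pow_eq_one, hxy]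
  · intro y hy
    have hy' := (mem_primitiveRoots (by omega)).1 (mem_coe.1 hy)
    refine ⟨y ^ g', mem_coe.2 ((mem_primitiveRoots (by omega)).2 (hy'.pow_of_coprime g' hg'c)), ?_⟩
    simp only
    rw [← pow_mul, mul_comm g' g, pow_mul, hback y hy'.pow_eq_one]
  · intro z hz
    have hz' := ((mem_primitiveRoots (by omega)).1 hz).pow_eq_one
    rw [hF a z hz', hF b z hz']

private theorem core {K : Type} [Field K] [Infinite K] (h2 : (2 : K) ≠ 0) {d : ℕ} (hd : 3 ≤ d)
    (M : Finset ℕ) (hMs : M ⊆ II d)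
    (hind : LinearIndepOn K (fun (μ : ℕ) (ζ : {ζ : K // IsPrimitiveRoot ζ d}) => F μ (ζ : K))
      (M : Set ℕ))
    (hM : (II d).card < 2 * M.card) (L : K → K) (hL : ∀ z, L z⁻¹ = L z)
    (h : ∀ a b, a ∈ UU d → b ∈ UU d → ∑ z ∈ primitiveRoots d K, F a z * F b z * L z = 0) :
    ∀ z, IsPrimitiveRoot z d → L z = 0 := by
  classical
  have : NeZero d := ⟨by omega⟩
  by_contra hcon
  push Not at hcon
  obtain ⟨z1, hz1, hL1⟩ := hcon
  obtain ⟨s, hs⟩ := exists_s hd L z1 hz1 hL1
  have hz10 : z1 ≠ 0 := hz1.ne_zero (by omega)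
  let w : K → K := fun z => ∑ g ∈ UU d, s ^ g * L (z ^ g)
  have hwi : ∀ z, w z⁻¹ = w z := by
    intro z
    simp only [w, inv_pow, hL]
  have hIU : ∀ μ ∈ II d, μ ∈ UU d := by
    intro μ hμ
    unfold II at hμ
    have := mem_filter.1 hμ
    exact mem_filter.2 ⟨this.1, this.2.1⟩
  have hinv : ∀ ν ∈ II d, z1 ^ (d - ν) = (z1 ^ ν)⁻¹ := by
    intro ν hν
    unfold II at hν
    have := mem_filter.1 hν
    refine eq_inv_of_mul_eq_one_left ?_
    rw [← pow_add]
    have e : d - ν + ν = d := by omega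
    rw [e, hz1.pow_eq_one]
  have hsum : ∀ a ∈ M, ∀ b ∈ M, ∑ ν ∈ II d, F a (z1 ^ ν) * (w (z1 ^ ν) * F b (z1 ^ ν)) = 0 := by
    intro a ha b hb
    have h3 : ∑ z ∈ primitiveRoots d K, F a z * F b z * w z = 0 := by
      simp only [w, Finset.mul_sum]
      rw [Finset.sum_comm]
      refine Finset.sum_eq_zero fun g hg => ?_
      have h4 := shift hd L h a b g (hIU a (hMs ha)) (hIU b (hMs hb)) hg
      have h5 : ∑ z ∈ primitiveRoots d K, F a z * F b z * (s ^ g * L (z ^ g)) =
          s ^ g * ∑ z ∈ primitiveRoots d K, F a z * F b z * L (z ^ g) := by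
        rw [Finset.mul_sum]
        exact Finset.sum_congr rfl fun z _ => by ring
      rw [h5, h4, mul_zero]
    rw [sum_prim hd hz1, sum_UU hd] at h3
    have h6 : ∑ ν ∈ II d, F a (z1 ^ (d - ν)) * F b (z1 ^ (d - ν)) * w (z1 ^ (d - ν)) =
        ∑ ν ∈ II d, F a (z1 ^ ν) * F b (z1 ^ ν) * w (z1 ^ ν) := by
      refine Finset.sum_congr rfl fun ν hν => ?_
      have hne : z1 ^ ν ≠ 0 := pow_ne_zero _ hz10
      rw [hinv ν hν, F_inv a _ hne, F_inv b _ hne, hwi]
      ring
    rw [h6, ← two_mul] at h3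
    have h7 := (mul_eq_zero.1 h3).resolve_left h2
    rw [← h7]
    exact Finset.sum_congr rfl fun ν _ => by ring
  let A : Matrix M (II d) K := Matrix.of fun μ ν => F (μ : ℕ) (z1 ^ (ν : ℕ))
  let D : Matrix (II d) (II d) K := Matrix.diagonal fun ν => w (z1 ^ (ν : ℕ))
  have hAD : A * (D * A.transpose) = 0 := by
    ext μ μ'
    rw [Matrix.mul_apply, Matrix.zero_apply]
    have h3 := hsum μ μ.2 μ' μ'.2
    rw [← Finset.sum_coe_sort] at h3
    rw [← h3]
    refine Finset.sum_congr rfl fun ν _ => ?_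
    simp only [A, D, Matrix.of_apply, Matrix.diagonal_mul, Matrix.transpose_apply]
  have hdet : IsUnit D.det := by
    simp only [D]
    rw [Matrix.det_diagonal, isUnit_iff_ne_zero, Finset.prod_ne_zero_iff]
    intro ν _
    have hν := ν.2
    have hν' : (ν : ℕ).Coprime d := (mem_filter.1 (hIU ν hν)).2
    exact hs _ (hz1.pow_of_coprime _ hν')
  have hrow : LinearIndependent K A.row := by
    rw [Fintype.linearIndependent_iff]
    intro g hg μ0
    rw [linearIndepOn_finset_iff] at hind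
    let g' : ℕ → K := fun i => if hi : i ∈ M then g ⟨i, hi⟩ else 0
    have hg' : ∀ μ : M, g' μ = g μ := by
      intro μ
      simp only [g', μ.2, dif_pos]
    have hval : ∀ ν ∈ II d, ∑ i ∈ M, g' i * F i (z1 ^ ν) = 0 := by
      intro ν hν
      have h3 := congrFun hg ⟨ν, hν⟩
      rw [Finset.sum_apply, Pi.zero_apply] at h3
      rw [← Finset.sum_coe_sort, ← h3]
      refine Finset.sum_congr rfl fun μ _ => ?_
      rw [hg']
      simp [A, Matrix.row, Matrix.of_apply]
    have h4 := hind g' (by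
      funext ζ
      rw [Finset.sum_apply, Pi.zero_apply]
      simp only [Pi.smul_apply, smul_eq_mul]
      obtain ⟨i, hi, hic, hzi⟩ := hz1.isPrimitiveRoot_iff.1 ζ.2
      rw [← hzi]
      by_cases h5 : 2 * i < d
      · exact hval i (by
          unfold II
          exact mem_filter.2 ⟨mem_range.2 hi, hic, h5⟩)
      · have h8 : 2 * i ≠ d := by
          intro h
          have h9 : i ∣ d := ⟨2, by omega⟩
          have h10 := Nat.Coprime.eq_one_of_dvd hic h9
          omega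
        have h9 : d - i ∈ II d := by
          unfold II
          exact mem_filter.2 ⟨mem_range.2 (by omega),
            (Nat.coprime_self_sub_left (by omega)).2 hic, by omega⟩
        have h10 := hval (d - i) h9
        have h11 : z1 ^ i = (z1 ^ (d - i))⁻¹ := by
          have := hinv (d - i) h9
          rwa [show d - (d - i) = i by omega] at this
        rw [h11]
        have hne : z1 ^ (d - i) ≠ 0 := pow_ne_zero _ hz10
        have h12 : ∑ x ∈ M, g' x * F x (z1 ^ (d - i))⁻¹ = -∑ x ∈ M, g' x * F x (z1 ^ (d - i)) := by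
          rw [← Finset.sum_neg_distrib]
          refine Finset.sum_congr rfl fun x _ => ?_
          rw [F_inv x _ hne]
          ring
        rw [h12, h10, neg_zero]) μ0 μ0.2
    rw [hg'] at h4
    exact h4
  have hr : A.rank = M.card := by
    rw [hrow.rank_matrix, Fintype.card_coe]
  have hr2 : (D * A.transpose).rank = M.card := by
    rw [Matrix.rank_mul_eq_right_of_isUnit_det _ _ hdet, Matrix.rank_transpose, hr]
  have hfin := Matrix.rank_add_rank_le_card_of_mul_eq_zero hAD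
  rw [hr, hr2, Fintype.card_coe] at hfin
  omega

theorem even_zero (p d : ℕ) [Fact p.Prime] (hp2 : p ≠ 2) (hd : 3 ≤ d) (hpd : ¬ p ∣ d)
    (hind : LinearIndepOn (AlgebraicClosure (ZMod p)) (vc p d) (MS p d : Set ℕ))
    (hM : (II d).card < 2 * (MS p d).card)
    (L : AlgebraicClosure (ZMod p) → AlgebraicClosure (ZMod p)) (hL : ∀ z, L z⁻¹ = L z)
    (h : ∀ a b : ℕ, 1 ≤ a → a < d → a.Coprime d → 1 ≤ b → b < d → b.Coprime d →
      ∑ z ∈ primitiveRoots d (AlgebraicClosure (ZMod p)),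
        ((z ^ a + 1) / (z ^ a - 1)) * ((z ^ b + 1) / (z ^ b - 1)) * L z = 0) :
    ∀ z, IsPrimitiveRoot z d → L z = 0 := by
  have hp : p.Prime := Fact.out
  have h2 : (2 : AlgebraicClosure (ZMod p)) ≠ 0 := by
    intro h0
    have h1 : ((2 : ℕ) : AlgebraicClosure (ZMod p)) = 0 := by exact_mod_cast h0
    have h3 := (CharP.cast_eq_zero_iff (AlgebraicClosure (ZMod p)) p 2).1 h1
    exact hp2 ((Nat.prime_dvd_prime_iff_eq hp Nat.prime_two).1 h3)
  have hU : ∀ a ∈ UU d, 1 ≤ a ∧ a < d ∧ a.Coprime d := by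
    intro a ha
    have h3 := mem_filter.1 ha
    refine ⟨?_, mem_range.1 h3.1, h3.2⟩
    rcases Nat.eq_zero_or_pos a with h0 | h0
    · rw [h0, Nat.coprime_zero_left] at h3
      omega
    · exact h0
  refine core h2 hd (MS p d) (MS_sub p d) hind hM L hL fun a b ha hb => ?_
  obtain ⟨a1, a2, a3⟩ := hU a ha
  obtain ⟨b1, b2, b3⟩ := hU b hb
  exact h a b a1 a2 a3 b1 b2 b3

end Pool.Agent.TH10.RP
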