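import Mathlib

set_option autoImplicit false

namespace Pool.Agent.TH10.RP

open Finset

private theorem coeff_pow_self {k : Type} [Field k] (U : PowerSeries k)
    (hU : PowerSeries.constantCoeff U = 1) (n : ℕ) :
    PowerSeries.coeff n ((PowerSeries.X * U) ^ n) = 1 := by
  rw [mul_pow, PowerSeries.coeff_X_pow_mul']
  simp [hU]

private theorem coeff_mul_pow_succ {k : Type} [Field k] (U Q : PowerSeries k) (n : ℕ) :
    PowerSeries.coeff n (Q * (PowerSeries.X * U) ^ (n + 1)) = 0 := by
  have : Q * (PowerSeries.X * U) ^ (n + 1) = PowerSeries.X ^ (n + 1) * (Q * U ^ (n + 1)) := by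
    rw [mul_pow]; ring
  rw [this, PowerSeries.coeff_X_pow_mul']
  simp

private theorem geom_id {R : Type*} [CommRing R] (W a s : R) (has : a * s = 1) (n : ℕ) :
    (W + a) * (∑ j ∈ range (n + 1), (-1) ^ j * W ^ j * s ^ (j + 1))
      = 1 + (-1) ^ n * s ^ (n + 1) * W ^ (n + 1) := by
  induction n with
  | zero =>
    simp only [zero_add, sum_range_one, pow_zero, one_mul, pow_one]
    linear_combination has
  | succ m ih =>
    rw [sum_range_succ, mul_add, ih]
    linear_combination ((-1) ^ (m + 1) * W ^ (m + 1) * s ^ (m + 1)) * has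

theorem many_zeros {k : Type} [Field k] (h2 : (2 : k) ≠ 0) (E : PowerSeries k)
    (hE0 : PowerSeries.constantCoeff E = 1)
    (hE1 : PowerSeries.coeff 1 E = 1) (n : ℕ) (hn : 1 ≤ n) (Z : Finset k) (hZ : ∀ z ∈ Z, z ≠ 0 ∧ z ≠ 1)
    (hcard : n < Z.card) (P : k → PowerSeries k)
    (hP : ∀ z ∈ Z, (E - PowerSeries.C z) * P z = E + PowerSeries.C z)
    (h0 : ∀ z ∈ Z, PowerSeries.coeff n (P z) = 0) : False := by
  classical
  -- W = E - 1 = X * U
  obtain ⟨U, hU⟩ : PowerSeries.X ∣ E - 1 := by
    rw [PowerSeries.X_dvd_iff]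
    simp [hE0]
  have hU0 : PowerSeries.constantCoeff U = 1 := by
    have h1 : PowerSeries.coeff 1 (E - 1) = 1 := by
      rw [map_sub, hE1, PowerSeries.coeff_one]
      simp
    rw [hU] at h1
    have h3 : PowerSeries.coeff (0 + 1) (PowerSeries.X * U) = PowerSeries.coeff 0 U :=
      PowerSeries.coeff_succ_X_mul 0 U
    rw [zero_add] at h3
    rw [h3] at h1
    simpa using h1
  set W : PowerSeries k := E - 1 with hW
  -- the polynomial
  let R : Polynomial k := ∑ j ∈ range (n + 1),
    Polynomial.C ((-1) ^ j * PowerSeries.coeff n (W ^ j)) * Polynomial.X ^ j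
  have hRn : R.coeff n = (-1) ^ n := by
    have : R.coeff n = (-1) ^ n * PowerSeries.coeff n (W ^ n) := by
      simp only [R, Polynomial.finset_sum_coeff, Polynomial.coeff_C_mul, Polynomial.coeff_X_pow]
      rw [Finset.sum_eq_single n]
      · simp
      · intro j _ hj
        simp [Ne.symm hj]
      · intro h
        simp at h
    rw [this, hU, coeff_pow_self U hU0 n, mul_one]
  have hR0 : R ≠ 0 := by
    intro h
    rw [h] at hRn
    simp at hRn
    have : ((-1 : k)) ^ n ≠ 0 := pow_ne_zero _ (by simp)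
    exact this hRn.symm
  have hdeg : R.natDegree ≤ n := by
    apply Polynomial.natDegree_sum_le_of_forall_le
    intro j hj
    refine (Polynomial.natDegree_C_mul_X_pow_le _ _).trans ?_
    have := Finset.mem_range.mp hj
    omega
  -- the values
  have hval : ∀ z ∈ Z, R.eval ((1 - z)⁻¹) = 0 := by
    intro z hz
    obtain ⟨hz0, hz1⟩ := hZ z hz
    have ha : (1 - z) ≠ 0 := sub_ne_zero.mpr (Ne.symm hz1)
    set s : k := (1 - z)⁻¹ with hs
    have has : (1 - z) * s = 1 := mul_inv_cancel₀ ha
    have hEz : E - PowerSeries.C z = W + PowerSeries.C (1 - z) := by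
      rw [hW, map_sub, map_one]; ring
    have hasC : (PowerSeries.C (1 - z) : PowerSeries k) * PowerSeries.C s = 1 := by
      rw [← map_mul, has, map_one]
    have hgeo := geom_id W (PowerSeries.C (1 - z)) (PowerSeries.C s) hasC n
    rw [← hEz] at hgeo
    set G : PowerSeries k := ∑ j ∈ range (n + 1), (-1) ^ j * W ^ j * (PowerSeries.C s) ^ (j + 1)
      with hG
    have hPz := hP z hz
    -- P (1 + (-1)^n s^(n+1) W^(n+1)) = (E + z) G = 1 + ... + 2 z G
    have key : P z + ((-1) ^ n * (PowerSeries.C s) ^ (n + 1) * P z) * W ^ (n + 1)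
        = 1 + ((-1) ^ n * (PowerSeries.C s) ^ (n + 1)) * W ^ (n + 1)
          + PowerSeries.C (2 * z) * G := by
      have h2z : (PowerSeries.C (2 * z) : PowerSeries k) = 2 * PowerSeries.C z := by
        rw [map_mul, map_ofNat]
      rw [h2z]
      linear_combination G * hPz + (1 - P z) * hgeo
    have hc := congrArg (PowerSeries.coeff n) key
    rw [map_add, map_add, map_add, hU, coeff_mul_pow_succ, coeff_mul_pow_succ, h0 z hz,
      PowerSeries.coeff_C_mul, PowerSeries.coeff_one] at hc
    have hn0 : n ≠ 0 := by omega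
    rw [if_neg hn0] at hc
    have hGn : PowerSeries.coeff n G = 0 := by
      have h5 : (2 * z) * PowerSeries.coeff n G = 0 := by
        simpa using hc.symm
      rcases mul_eq_zero.mp h5 with h6 | h6
      · exact absurd h6 (mul_ne_zero h2 hz0)
      · exact h6
    have hGs : PowerSeries.coeff n G = s * R.eval s := by
      rw [hG, map_sum]
      simp only [R, Polynomial.eval_finset_sum, Polynomial.eval_mul, Polynomial.eval_C,
        Polynomial.eval_pow, Polynomial.eval_X]
      rw [Finset.mul_sum]
      refine Finset.sum_congr rfl ?_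
      intro j _
      have h7 : ((-1 : PowerSeries k)) ^ j * W ^ j * (PowerSeries.C s) ^ (j + 1)
          = PowerSeries.C ((-1) ^ j * s ^ (j + 1)) * W ^ j := by
        rw [map_mul, map_pow, map_pow, map_neg, map_one]; ring
      rw [h7, PowerSeries.coeff_C_mul]
      ring
    rw [hGs] at hGn
    rcases mul_eq_zero.mp hGn with h8 | h8
    · exact absurd h8 (inv_ne_zero ha)
    · exact h8
  -- count
  have hinj : Set.InjOn (fun z : k => (1 - z)⁻¹) (Z : Set k) := by
    intro x _ y _ hxy
    have h9 : (1 - x)⁻¹ = (1 - y)⁻¹ := hxy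
    have h10 := inv_injective h9
    exact sub_right_injective h10
  have hcardi : (Z.image (fun z : k => (1 - z)⁻¹)).card = Z.card :=
    Finset.card_image_of_injOn hinj
  apply hR0
  apply Polynomial.eq_zero_of_natDegree_lt_card_of_eval_eq_zero' R
    (Z.image (fun z : k => (1 - z)⁻¹))
  · intro i hi
    obtain ⟨z, hz, rfl⟩ := Finset.mem_image.mp hi
    exact hval z hz
  · rw [hcardi]
    omega

end Pool.Agent.TH10.RP
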