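import Mathlib
import Pool.Agent.TH10.RP.Defect
import Pool.Agent.TH10.RP.JG

set_option autoImplicit false

namespace Pool.Agent.TH10.RP

open Finset

theorem rank_large : ∃ P0 : ℕ, ∀ (p : ℕ) [Fact p.Prime], P0 ≤ p → ∀ d : ℕ, 3 ≤ d → d ^ 2 ≤ 16 * p →
    (II d).card < 2 * (MS p d).card := by
  obtain ⟨C, hC1, hC⟩ := two_pow_omega (1 / 8) (by norm_num)
  set K : ℝ := (4 * C ^ 2) ^ 8 * 16 ^ 5 with hK
  refine ⟨⌈K⌉₊ + 17, ?_⟩
  intro p hp hpP d hd hdp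
  by_contra hcon
  rw [not_lt] at hcon
  have hp17 : 17 ≤ p := by omega
  have hpK : K < p := by
    have h1 : K ≤ (⌈K⌉₊ : ℝ) := Nat.le_ceil K
    have h2 : ((⌈K⌉₊ + 17 : ℕ) : ℝ) ≤ (p : ℝ) := by exact_mod_cast hpP
    push_cast at h2
    linarith
  have hdltp : d < p := by
    by_contra h
    rw [not_lt] at h
    have h1 : p ^ 2 ≤ d ^ 2 := Nat.pow_le_pow_left h 2
    nlinarith
  obtain ⟨G, hG0, hG1, hG2⟩ := rank_multi d hd
  have hdvd := hG2 p (fun h => by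
    have := Nat.le_of_dvd (by omega) h
    omega) (MS p d) (MS_sub p d) (MS_span p d)
  have hI : 2 * (II d).card = d.totient := card_II hd
  have hI1 : (II d).card ≠ 0 := by
    intro h
    have h1 := Nat.totient_pos.2 (by omega : 0 < d)
    omega
  have h1 : p ^ (II d).card ≤ (4 ^ (d.primeFactors.card + 1) * d) ^ (II d).card := by
    calc p ^ (II d).card ≤ p ^ (2 * ((II d).card - (MS p d).card)) :=
          Nat.pow_le_pow_right hp.out.pos (by omega)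
      _ ≤ G := Nat.le_of_dvd hG0 hdvd
      _ ≤ _ := hG1
  have h2 : p ≤ 4 ^ (d.primeFactors.card + 1) * d := (Nat.pow_le_pow_iff_left hI1).1 h1
  set y : ℝ := (d : ℝ) ^ (1 / 8 : ℝ) with hy
  have hy0 : 0 ≤ y := by positivity
  have hy8 : y ^ 8 = d := by
    rw [hy, ← Real.rpow_natCast, ← Real.rpow_mul (by positivity)]
    norm_num
  have h3 : (2 : ℝ) ^ d.primeFactors.card ≤ C * y := hC d (by omega)
  have h4 : (p : ℝ) ≤ 4 * C ^ 2 * y ^ 10 := by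
    have h5 : (p : ℝ) ≤ (4 : ℝ) ^ (d.primeFactors.card + 1) * d := by exact_mod_cast h2
    have h6 : (4 : ℝ) ^ (d.primeFactors.card + 1) = 4 * ((2 : ℝ) ^ d.primeFactors.card) ^ 2 := by
      rw [pow_succ, ← pow_mul, mul_comm (d.primeFactors.card) 2, pow_mul]
      norm_num
      ring
    rw [h6, ← hy8] at h5
    have h7 : ((2 : ℝ) ^ d.primeFactors.card) ^ 2 ≤ (C * y) ^ 2 :=
      pow_le_pow_left₀ (by positivity) h3 2
    calc (p : ℝ) ≤ 4 * ((2 : ℝ) ^ d.primeFactors.card) ^ 2 * y ^ 8 := h5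
      _ ≤ 4 * (C * y) ^ 2 * y ^ 8 := by gcongr
      _ = 4 * C ^ 2 * y ^ 10 := by ring
  have h5 : y ^ 16 ≤ 16 * p := by
    have h6 : ((d ^ 2 : ℕ) : ℝ) ≤ ((16 * p : ℕ) : ℝ) := by exact_mod_cast hdp
    push_cast at h6
    calc y ^ 16 = (y ^ 8) ^ 2 := by ring
      _ = (d : ℝ) ^ 2 := by rw [hy8]
      _ ≤ 16 * p := h6
  have hp0 : (0 : ℝ) < p := by exact_mod_cast hp.out.pos
  have h6 : (p : ℝ) ^ 8 ≤ K * (p : ℝ) ^ 5 := by
    calc (p : ℝ) ^ 8 ≤ (4 * C ^ 2 * y ^ 10) ^ 8 := pow_le_pow_left₀ hp0.le h4 8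
      _ = (4 * C ^ 2) ^ 8 * (y ^ 16) ^ 5 := by ring
      _ ≤ (4 * C ^ 2) ^ 8 * (16 * p) ^ 5 := by gcongr
      _ = K * (p : ℝ) ^ 5 := by rw [hK]; ring
  have h7 : (p : ℝ) ^ 3 ≤ K := by
    have h8 : (p : ℝ) ^ 3 * (p : ℝ) ^ 5 ≤ K * (p : ℝ) ^ 5 := by
      calc (p : ℝ) ^ 3 * (p : ℝ) ^ 5 = (p : ℝ) ^ 8 := by ring
        _ ≤ _ := h6
    exact le_of_mul_le_mul_right h8 (by positivity)
  have h8 : (p : ℝ) ≤ (p : ℝ) ^ 3 := by
    have h9 : (1 : ℝ) ≤ p := by exact_mod_cast hp.out.one_le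
    calc (p : ℝ) = (p : ℝ) ^ 1 := by ring
      _ ≤ (p : ℝ) ^ 3 := pow_le_pow_right₀ h9 (by norm_num)
  linarith

theorem tot_large : ∃ P0 : ℕ, ∀ p : ℕ, P0 ≤ p → ∃ l : ℕ, l ^ 2 ≤ 16 * p ∧
    p ≤ ∑ m ∈ Icc 2 l, m.totient := by
  refine ⟨16, fun p hp => ⟨Nat.sqrt (16 * p), Nat.sqrt_le' _, ?_⟩⟩
  set l := Nat.sqrt (16 * p) with hl
  have h1 : l ^ 2 ≤ 16 * p := Nat.sqrt_le' _
  have h2 : 16 * p < (l + 1) ^ 2 := Nat.lt_succ_sqrt' _
  have h3 : l ≤ 2 * p := by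
    by_contra h
    rw [not_le] at h
    nlinarith
  have h4 : 1 ≤ l := by
    by_contra h
    have : l = 0 := by omega
    rw [this] at h2
    omega
  have hs1 : ∑ e ∈ range (l + 1), e.totient = 1 + ∑ e ∈ Icc 2 l, e.totient := by
    have e1 : range (l + 1) = range 2 ∪ Icc 2 l := by
      ext x
      rw [mem_union, mem_range, mem_range, mem_Icc]
      omega
    have e2 : Disjoint (range 2) (Icc 2 l) := by
      rw [disjoint_left]
      intro x h5 h6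
      rw [mem_range] at h5
      rw [mem_Icc] at h6
      omega
    rw [e1, sum_union e2]
    congr 1
  have hs2 := totient_sum l
  rw [hs1] at hs2
  nlinarith

end Pool.Agent.TH10.RP
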