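import Mathlib

set_option autoImplicit false

/-! # Partial fractions of `(x ^ m + 1) / (x ^ m - 1)` (piece TJ-1, helper544) -/

namespace Pool.Agent.TH10.RP

open Finset

theorem sumPhi {k K : Type} [Field k] [Field K] [Algebra k K] (m : ℕ) (hm : (m : k) ≠ 0) (ζ : k)
    (hζ : IsPrimitiveRoot ζ m) (x : K) (hx : x ^ m ≠ 1) :
    ∑ z ∈ Polynomial.nthRootsFinset m (1 : k), (x + algebraMap k K z) / (x - algebraMap k K z) =
      m * ((x ^ m + 1) / (x ^ m - 1)) := by
  classical
  have hm0 : 0 < m := by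
    rcases Nat.eq_zero_or_pos m with h | h
    · exact absurd (by rw [h]; simp) hm
    · exact h
  set s := Polynomial.nthRootsFinset m (1 : k) with hs
  have hpoly : (Polynomial.X ^ m - 1 : Polynomial k) = ∏ z ∈ s, (Polynomial.X - Polynomial.C z) :=
    Polynomial.X_pow_sub_one_eq_prod hm0 hζ
  have h1 : x ^ m - 1 = ∏ z ∈ s, (x - algebraMap k K z) := by
    have := congrArg (Polynomial.aeval x) hpoly
    simpa using this
  have h0 : x ^ m - 1 ≠ 0 := sub_ne_zero.2 hx
  have hz : ∀ z ∈ s, x - algebraMap k K z ≠ 0 := by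
    intro z hz hc
    apply h0
    rw [h1]
    exact Finset.prod_eq_zero hz hc
  have h2 : (m : K) * x ^ (m - 1) = ∑ z ∈ s, ∏ w ∈ s.erase z, (x - algebraMap k K w) := by
    have := congrArg (fun p => Polynomial.aeval x (Polynomial.derivative p)) hpoly
    simp only [Polynomial.derivative_prod_finset, Polynomial.derivative_sub, Polynomial.derivative_X_pow,
      Polynomial.derivative_one, Polynomial.derivative_X, Polynomial.derivative_C, sub_zero,
      mul_one, map_sum, map_prod, map_sub, Polynomial.aeval_X, Polynomial.aeval_C, map_mul,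
      map_pow] at this
    simpa using this
  have h3 : ∀ z ∈ s, ∏ w ∈ s.erase z, (x - algebraMap k K w) =
      (x ^ m - 1) * (x - algebraMap k K z)⁻¹ := by
    intro z hzs
    rw [h1, ← Finset.mul_prod_erase s _ hzs]
    field_simp [hz z hzs]
  have h4 : (m : K) * x ^ (m - 1) = (x ^ m - 1) * ∑ z ∈ s, (x - algebraMap k K z)⁻¹ := by
    rw [h2, Finset.mul_sum]
    exact Finset.sum_congr rfl h3
  have hcard : s.card = m := hζ.card_nthRootsFinset
  have h5 : ∀ z ∈ s, (x + algebraMap k K z) / (x - algebraMap k K z) =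
      2 * x * (x - algebraMap k K z)⁻¹ - 1 := by
    intro z hzs
    have := hz z hzs
    field_simp
    ring
  rw [Finset.sum_congr rfl h5, Finset.sum_sub_distrib, ← Finset.mul_sum]
  have h6 : ∑ z ∈ s, (x - algebraMap k K z)⁻¹ = (m : K) * x ^ (m - 1) / (x ^ m - 1) := by
    rw [h4]
    field_simp
  have hxm : x * x ^ (m - 1) = x ^ m := by
    rw [← pow_succ']
    congr 1
    omega
  rw [h6, Finset.sum_const, hcard]
  simp only [nsmul_eq_mul, mul_one]
  field_simp
  rw [← hxm]
  ring

end Pool.Agent.TH10.RP
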