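import Mathlib
import Pool.Agent.TH10.RP.TJ1

/-!
# The functional that kills all triple products
-/

set_option autoImplicit false

namespace Pool.Agent.TH10.RP

open Finset

/-- `(x^a + 1) / (x^a - 1)` -/
noncomputable def FF {K : Type} [Field K] (x : K) (a : ℕ) : K := (x ^ a + 1) / (x ^ a - 1)

/-- `(x + z) / (x - z)` -/
noncomputable def PH {k K : Type} [Field k] [Field K] [Algebra k K] (x : K) (z : k) : K :=
  (x + algebraMap k K z) / (x - algebraMap k K z)

/-- `(z + y) / (z - y)` -/
noncomputable def ga {k : Type} [Field k] (z y : k) : k := (z + y) / (z - y)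

/-- the `m`-th roots of unity -/
noncomputable def mu (k : Type) [Field k] (m : ℕ) : Finset k := Polynomial.nthRootsFinset m (1 : k)

lemma mem_mu {k : Type} [Field k] {m : ℕ} (hm : 1 ≤ m) {z : k} : z ∈ mu k m ↔ z ^ m = 1 := by
  unfold mu
  rw [Polynomial.mem_nthRootsFinset hm]

section Abs

variable {k K : Type} [Field k] [Field K] [Algebra k K]

lemma PH_mul (x : K) (hx : ∀ z : k, x ≠ algebraMap k K z) (z y : k) (h : z ≠ y) :
    PH x z * PH x y = algebraMap k K (ga z y) * (PH x z - PH x y) + 1 := by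
  have h1 : x - algebraMap k K z ≠ 0 := sub_ne_zero.2 (hx z)
  have h2 : x - algebraMap k K y ≠ 0 := sub_ne_zero.2 (hx y)
  have h3 : algebraMap k K z - algebraMap k K y ≠ 0 := by
    rw [sub_ne_zero]
    intro h4
    exact h ((algebraMap k K).injective h4)
  unfold PH ga
  rw [map_div₀, map_add, map_sub]
  field_simp
  ring

lemma PH_one (x : K) : PH (k := k) x 1 = FF x 1 := by
  unfold PH FF
  rw [map_one, pow_one]

lemma sumPH (m : ℕ) (hm : (m : k) ≠ 0) (hζ : ∃ ζ : k, IsPrimitiveRoot ζ m) (x : K) (hx : x ^ m ≠ 1) :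
    ∑ z ∈ mu k m, PH x z = (m : K) * FF x m := by
  obtain ⟨ζ, hζ⟩ := hζ
  exact sumPhi m hm ζ hζ x hx

lemma sum_ga (m : ℕ) (hm : (m : k) ≠ 0) (hζ : ∃ ζ : k, IsPrimitiveRoot ζ m) (y : k) (hy : y ^ m ≠ 1) :
    ∑ z ∈ mu k m, ga y z = (m : k) * FF y m := by
  obtain ⟨ζ, hζ⟩ := hζ
  exact sumPhi (K := k) m hm ζ hζ y hy

lemma ga_anti (z y : k) : ga z y = - ga y z := by
  unfold ga
  rw [← neg_sub y z, div_neg, add_comm]

variable (l : ℕ) (hchar : ∀ m : ℕ, 1 ≤ m → m ≤ l → (m : k) ≠ 0)
  (hroot : ∀ m : ℕ, 1 ≤ m → m ≤ l → ∃ ζ : k, IsPrimitiveRoot ζ m)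
  (x : K) (hx : ∀ z : k, x ≠ algebraMap k K z) (hxm : ∀ m : ℕ, 1 ≤ m → m ≤ l → x ^ m ≠ 1)

include hchar hroot hx hxm

lemma exp1 (a : ℕ) (ha : 1 ≤ a) (hal : a ≤ l) (z : k) (hz : z ^ a ≠ 1) :
    PH x z * FF x a = FF z a • PH x z + 1 - (a : k)⁻¹ • ∑ y ∈ mu k a, ga z y • PH x y := by
  have ha0 := hchar a ha hal
  have haK : (a : K) ≠ 0 := by
    have := (map_ne_zero (algebraMap k K)).2 ha0
    rwa [map_natCast] at this
  have h1 := sumPH a ha0 (hroot a ha hal) x (hxm a ha hal)
  have h2 := sum_ga a ha0 (hroot a ha hal) z hz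
  have h3 : (a : K) * (PH x z * FF x a) =
      ∑ y ∈ mu k a, (algebraMap k K (ga z y) * (PH x z - PH x y) + 1) := by
    rw [← sum_congr rfl (fun y hy => PH_mul x hx z y (fun h => by
      subst h
      exact hz ((mem_mu ha).1 hy))), ← mul_sum, h1]
    ring
  have h4 : ∑ y ∈ mu k a, (algebraMap k K (ga z y) * (PH x z - PH x y) + 1) =
      algebraMap k K ((a : k) * FF z a) * PH x z - ∑ y ∈ mu k a, ga z y • PH x y + (mu k a).card := by
    rw [← h2, map_sum, sum_mul, ← sum_sub_distrib, sum_add_distrib, sum_const, nsmul_eq_mul, mul_one]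
    congr 1
    refine sum_congr rfl fun y _ => ?_
    rw [Algebra.smul_def]
    ring
  have h5 : (mu k a).card = a := by
    obtain ⟨ζ, hζ⟩ := hroot a ha hal
    exact hζ.card_nthRootsFinset
  rw [h4, h5] at h3
  have h6 : PH x z * FF x a = (a : K)⁻¹ * ((a : K) * (PH x z * FF x a)) := by
    field_simp
  rw [h6, h3, Algebra.smul_def, Algebra.smul_def, map_inv₀, map_natCast, map_mul, map_natCast]
  field_simp
  ring

variable (Λ : K →ₗ[k] k) (h1 : Λ 1 = 0)


include h1 in
lemma P1 (a : ℕ) (ha : 1 ≤ a) (hal : a ≤ l) (z : k) (hz : z ^ a ≠ 1) :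
    Λ (PH x z * FF x a) = FF z a * Λ (PH x z) - (a : k)⁻¹ * ∑ y ∈ mu k a, ga z y * Λ (PH x y) := by
  rw [exp1 l hchar hroot x hx hxm a ha hal z hz, map_sub, map_add, h1, add_zero, map_smul, map_smul,
    map_sum, smul_eq_mul, smul_eq_mul]
  congr 2
  refine sum_congr rfl fun y _ => ?_
  rw [map_smul, smul_eq_mul]

include h1 in
lemma P2 (a : ℕ) (ha : 1 ≤ a) (hal : a ≤ l) (z : k) (hz : z ∈ mu k a)
    (h0 : ∀ y ∈ mu k a, Λ (PH x y) = 0) :
    (a : k) * Λ (PH x z * FF x a) = Λ (PH x z * PH x z) := by
  classical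
  have h3 := sumPH a (hchar a ha hal) (hroot a ha hal) x (hxm a ha hal)
  have h4 : (a : k) * Λ (PH x z * FF x a) = Λ (∑ y ∈ mu k a, PH x z * PH x y) := by
    rw [← smul_eq_mul, ← map_smul, ← mul_sum, h3, Algebra.smul_def, map_natCast]
    congr 1
    ring
  rw [h4, ← add_sum_erase _ _ hz, map_add, map_sum]
  rw [sum_eq_zero, add_zero]
  intro y hy
  rw [mem_erase] at hy
  rw [PH_mul x hx z y (Ne.symm hy.1), map_add, h1, add_zero, ← Algebra.smul_def, map_smul, map_sub,
    h0 z hz, h0 y hy.2]
  simp

lemma P3 (a b : ℕ) (ha : 1 ≤ a) (hal : a ≤ l) (z : k) (hz : z ^ a ≠ 1) (hb : Λ (FF x b) = 0) :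
    Λ (PH x z * FF x a * FF x b) = FF z a * Λ (PH x z * FF x b) -
      (a : k)⁻¹ * ∑ y ∈ mu k a, ga z y * Λ (PH x y * FF x b) := by
  rw [exp1 l hchar hroot x hx hxm a ha hal z hz, sub_mul, add_mul, one_mul, map_sub, map_add, hb,
    add_zero, smul_mul_assoc, smul_mul_assoc, map_smul, map_smul, sum_mul, map_sum, smul_eq_mul,
    smul_eq_mul]
  congr 2
  refine sum_congr rfl fun y _ => ?_
  rw [smul_mul_assoc, map_smul, smul_eq_mul]

lemma P4 [DecidableEq k] (a b : ℕ) (m : ℕ) (hm : 1 ≤ m) (hml : m ≤ l)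
    (hF : Λ (FF x m * FF x a * FF x b) = 0) (hF1 : Λ (FF x 1 * FF x a * FF x b) = 0) :
    ∑ z ∈ (mu k m).erase 1, Λ (PH x z * FF x a * FF x b) = 0 := by
  classical
  have h3 := sumPH m (hchar m hm hml) (hroot m hm hml) x (hxm m hm hml)
  have h4 : (1 : k) ∈ mu k m := (mem_mu hm).2 (one_pow _)
  have h5 : ∑ z ∈ mu k m, Λ (PH x z * FF x a * FF x b) = 0 := by
    rw [← map_sum, ← sum_mul, ← sum_mul, h3]
    have : (m : K) * FF x m * FF x a * FF x b = (m : k) • (FF x m * FF x a * FF x b) := by
      rw [Algebra.smul_def, map_natCast]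
      ring
    rw [this, map_smul, hF, smul_zero]
  rw [← add_sum_erase _ _ h4, PH_one, hF1, zero_add] at h5
  exact h5

include h1 in
/-- The main induction. -/
theorem main_ind [DecidableEq k]
    (hF : ∀ a, 1 ≤ a → a ≤ l → Λ (FF x a) = 0)
    (hFF : ∀ b, 1 ≤ b → b ≤ l → Λ (FF x 1 * FF x b) = 0)
    (hFFF : ∀ a b c, 1 ≤ a → a ≤ l → 1 ≤ b → b ≤ l → 1 ≤ c → c ≤ l →
      Λ (FF x a * FF x b * FF x c) = 0)
    (hA : ∀ m, 3 ≤ m → m ≤ l →
      (∀ a b : ℕ, 1 ≤ a → a < m → a.Coprime m → 1 ≤ b → b < m → b.Coprime m →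
        ∑ z ∈ primitiveRoots m k, FF z a * FF z b * Λ (PH x z) = 0) →
      ∀ z : k, IsPrimitiveRoot z m → Λ (PH x z) = 0) :
    ∀ m, 1 ≤ m → m ≤ l → (∀ z ∈ mu k m, Λ (PH x z) = 0) ∧
      ∀ c : ℕ, c.Coprime m → ∑ z ∈ (mu k m).erase 1, FF z c * Λ (PH x z * PH x z) = 0 := by
  intro m
  induction m using Nat.strong_induction_on with
  | _ m ih =>
  intro hm hml
  have hone : Λ (PH x (1 : k)) = 0 := by
    rw [PH_one]
    exact hF 1 le_rfl (by omega)
  have hcop : ∀ (a : ℕ) (z : k), a.Coprime m → z ∈ mu k m → z ≠ 1 → z ^ a ≠ 1 := by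
    intro a z hc hz hz1 hza
    apply hz1
    have h2 : orderOf z ∣ m := orderOf_dvd_of_pow_eq_one ((mem_mu hm).1 hz)
    have h3 : orderOf z ∣ a := orderOf_dvd_of_pow_eq_one hza
    have h4 : orderOf z = 1 := Nat.eq_one_of_dvd_coprimes hc h3 h2
    exact orderOf_eq_one_iff.1 h4
  have hcop' : ∀ (a : ℕ) (y : k), 1 ≤ a → a.Coprime m → y ∈ mu k a → y ≠ 1 → y ^ m ≠ 1 := by
    intro a y ha hc hy hy1 hym
    exact hcop a y hc ((mem_mu hm).2 hym) hy1 ((mem_mu ha).1 hy)
  -- the first claim
  have hH : ∀ z ∈ mu k m, Λ (PH x z) = 0 := by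
    rcases Nat.lt_or_ge m 3 with hm3 | hm3
    · -- m = 1 or 2
      intro z hz
      rw [mem_mu hm] at hz
      by_cases hz1 : z = 1
      · rw [hz1]; exact hone
      · have hm2 : m = 2 := by
          rcases Nat.lt_or_ge m 2 with h | h
          · exfalso
            have : m = 1 := by omega
            rw [this, pow_one] at hz
            exact hz1 hz
          · omega
        subst hm2
        have h3 := sumPH 2 (hchar 2 hm hml) (hroot 2 hm hml) x (hxm 2 hm hml)
        have h4 : ∑ y ∈ mu k 2, Λ (PH x y) = 0 := by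
          rw [← map_sum, h3]
          have : (((2 : ℕ) : K)) * FF x 2 = ((2 : ℕ) : k) • (FF x 2) := by
            rw [Algebra.smul_def, map_natCast]
          rw [this, map_smul, hF 2 (by norm_num) hml, smul_zero]
        rw [← add_sum_erase _ _ ((mem_mu hm).2 hz)] at h4
        rw [sum_eq_zero, add_zero] at h4
        · exact h4
        · intro y hy
          rw [mem_erase, mem_mu hm] at hy
          have h5 : (y - z) * (y + z) = 0 := by
            have := hy.2
            linear_combination this - hz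
          have h6 : (z - 1) * (z + 1) = 0 := by linear_combination hz
          have h7 : z = -1 := by
            rcases mul_eq_zero.1 h6 with h | h
            · exact absurd (sub_eq_zero.1 h) hz1
            · exact eq_neg_of_add_eq_zero_left h
          have h8 : y = 1 := by
            rcases mul_eq_zero.1 h5 with h | h
            · exact absurd (sub_eq_zero.1 h) hy.1
            · rw [h7] at h
              linear_combination h
          rw [h8]; exact hone
    · -- m ≥ 3
      have key : ∀ a b : ℕ, 1 ≤ a → a < m → a.Coprime m → 1 ≤ b → b < m → b.Coprime m →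
          ∑ z ∈ (mu k m).erase 1, FF z a * FF z b * Λ (PH x z) = 0 := by
        intro a b ha ham hac hb hbm hbc
        have hLa := (ih a ham ha (by omega)).1
        have hLb := (ih b hbm hb (by omega)).1
        have h4 := P4 l hchar hroot x hx hxm Λ a b m hm hml
          (hFFF m a b hm hml ha (by omega) hb (by omega))
          (hFFF 1 a b le_rfl (by omega) ha (by omega) hb (by omega))
        have hR : ∀ y ∈ mu k a, Λ (PH x y * FF x b) =
            if y ≠ 1 ∧ y ^ b = 1 then (b : k)⁻¹ * Λ (PH x y * PH x y) else 0 := by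
          intro y hy
          by_cases hy1 : y = 1
          · rw [if_neg (by tauto), hy1, PH_one]
            exact hFF b hb (by omega)
          · by_cases hyb : y ^ b = 1
            · rw [if_pos ⟨hy1, hyb⟩]
              have h5 := P2 l hchar hroot x hx hxm Λ h1 b hb (by omega) y ((mem_mu hb).2 hyb) hLb
              rw [← h5, ← mul_assoc, inv_mul_cancel₀ (hchar b hb (by omega)), one_mul]
            · rw [if_neg (by tauto), P1 l hchar hroot x hx hxm Λ h1 b hb (by omega) y hyb,
                hLa y hy, sum_eq_zero]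
              · simp
              · intro w hw
                rw [hLb w hw, mul_zero]
        have h5 : ∀ z ∈ (mu k m).erase 1, Λ (PH x z * FF x a * FF x b) =
            FF z a * FF z b * Λ (PH x z) - (a : k)⁻¹ * ∑ y ∈ mu k a, ga z y *
              (if y ≠ 1 ∧ y ^ b = 1 then (b : k)⁻¹ * Λ (PH x y * PH x y) else 0) := by
          intro z hz
          rw [mem_erase] at hz
          rw [P3 l hchar hroot x hx hxm Λ a b ha (by omega) z (hcop a z hac hz.2 hz.1)
            (hF b hb (by omega)),
            P1 l hchar hroot x hx hxm Λ h1 b hb (by omega) z (hcop b z hbc hz.2 hz.1)]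
          have h6 : ∑ y ∈ mu k b, ga z y * Λ (PH x y) = 0 :=
            sum_eq_zero fun w hw => by rw [hLb w hw, mul_zero]
          rw [h6, mul_zero, sub_zero, ← mul_assoc]
          congr 2
          exact sum_congr rfl fun y hy => by rw [hR y hy]
        rw [sum_congr rfl h5, sum_sub_distrib, ← mul_sum, sum_comm] at h4
        have h7 : ∑ y ∈ mu k a, ∑ z ∈ (mu k m).erase 1, ga z y *
              (if y ≠ 1 ∧ y ^ b = 1 then (b : k)⁻¹ * Λ (PH x y * PH x y) else 0) = 0 := by
          have h8 : ∀ y ∈ mu k a, ∑ z ∈ (mu k m).erase 1, ga z y *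
              (if y ≠ 1 ∧ y ^ b = 1 then (b : k)⁻¹ * Λ (PH x y * PH x y) else 0) =
              if y ≠ 1 ∧ y ^ b = 1 then (b : k)⁻¹ * (FF y 1 * Λ (PH x y * PH x y) -
                m * (FF y m * Λ (PH x y * PH x y))) else 0 := by
            intro y hy
            by_cases hyy : y ≠ 1 ∧ y ^ b = 1
            · simp only [if_pos hyy]
              rw [← sum_mul]
              have h9 : ∑ z ∈ (mu k m).erase 1, ga z y = FF y 1 - m * FF y m := by
                have h10 := sum_ga m (hchar m hm hml) (hroot m hm hml) y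
                  (hcop' a y ha hac hy hyy.1)
                rw [← add_sum_erase _ _ ((mem_mu hm).2 (one_pow _))] at h10
                have h11 : ∑ z ∈ (mu k m).erase 1, ga z y = - ∑ z ∈ (mu k m).erase 1, ga y z := by
                  rw [← sum_neg_distrib]
                  exact sum_congr rfl fun z _ => ga_anti z y
                have h12 : ga y 1 = FF y 1 := by
                  unfold ga FF
                  rw [pow_one]
                rw [h12] at h10
                rw [h11]
                linear_combination -h10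
              rw [h9]
              ring
            · simp only [if_neg hyy, mul_zero, sum_const_zero]
          rw [sum_congr rfl h8, ← sum_filter]
          have h13 : (mu k a).filter (fun y => y ≠ 1 ∧ y ^ b = 1) = (mu k (a.gcd b)).erase 1 := by
            have hg : 1 ≤ a.gcd b := Nat.gcd_pos_of_pos_left _ ha
            ext y
            rw [mem_filter, mem_erase, mem_mu ha, mem_mu hg]
            constructor
            · rintro ⟨h14, h15, h16⟩
              exact ⟨h15, by
                have h17 := Nat.dvd_gcd (orderOf_dvd_of_pow_eq_one h14) (orderOf_dvd_of_pow_eq_one h16)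
                exact orderOf_dvd_iff_pow_eq_one.1 h17⟩
            · rintro ⟨h14, h15⟩
              refine ⟨?_, h14, ?_⟩
              · obtain ⟨c, hc⟩ := Nat.gcd_dvd_left a b
                rw [hc, pow_mul, h15, one_pow]
              · obtain ⟨c, hc⟩ := Nat.gcd_dvd_right a b
                rw [hc, pow_mul, h15, one_pow]
          have hgm : a.gcd b < m := lt_of_le_of_lt (Nat.gcd_le_left _ ha) ham
          have hg : 1 ≤ a.gcd b := Nat.gcd_pos_of_pos_left _ ha
          have hD := (ih (a.gcd b) hgm hg (by omega)).2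
          have hcm : m.Coprime (a.gcd b) :=
            (Nat.Coprime.coprime_dvd_left (Nat.gcd_dvd_left a b) hac).symm
          rw [h13, ← mul_sum, sum_sub_distrib, ← mul_sum, hD 1 (Nat.coprime_one_left _), hD m hcm]
          simp
        rw [h7, mul_zero, sub_zero] at h4
        exact h4
      have hprim : ∀ z : k, IsPrimitiveRoot z m → Λ (PH x z) = 0 := by
        refine hA m hm3 hml fun a b ha ham hac hb hbm hbc => ?_
        rw [← key a b ha ham hac hb hbm hbc]
        refine sum_subset ?_ ?_
        · intro z hz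
          have hz' := isPrimitiveRoot_of_mem_primitiveRoots hz
          rw [mem_erase, mem_mu hm]
          refine ⟨?_, hz'.pow_eq_one⟩
          intro h
          rw [h] at hz'
          have := hz'.unique IsPrimitiveRoot.one
          omega
        · intro z hz hz'
          rw [mem_erase, mem_mu hm] at hz
          have h2 : orderOf z ∣ m := orderOf_dvd_of_pow_eq_one hz.2
          have h3 : orderOf z ≠ m := by
            intro h
            apply hz'
            rw [mem_primitiveRoots (by omega)]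
            rw [← h]
            exact IsPrimitiveRoot.orderOf z
          have h4 : orderOf z < m := lt_of_le_of_ne (Nat.le_of_dvd (by omega) h2) h3
          have h5 : 1 ≤ orderOf z := Nat.pos_of_dvd_of_pos h2 (by omega)
          rw [(ih (orderOf z) h4 h5 (by omega)).1 z ((mem_mu h5).2 (pow_orderOf_eq_one z)), mul_zero]
      intro z hz
      have h2 : orderOf z ∣ m := orderOf_dvd_of_pow_eq_one ((mem_mu hm).1 hz)
      by_cases h3 : orderOf z = m
      · apply hprim
        rw [← h3]
        exact IsPrimitiveRoot.orderOf z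
      · have h4 : orderOf z < m := lt_of_le_of_ne (Nat.le_of_dvd (by omega) h2) h3
        have h5 : 1 ≤ orderOf z := Nat.pos_of_dvd_of_pos h2 (by omega)
        exact (ih (orderOf z) h4 h5 (by omega)).1 z ((mem_mu h5).2 (pow_orderOf_eq_one z))
  refine ⟨hH, ?_⟩
  intro c hc
  rcases Nat.lt_or_ge m 2 with hm2 | hm2
  · -- m = 1
    have : m = 1 := by omega
    subst this
    refine sum_eq_zero fun z hz => ?_
    rw [mem_erase, mem_mu le_rfl, pow_one] at hz
    exact absurd hz.2 hz.1
  · set a := c % m with hadef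
    have ham : a < m := Nat.mod_lt _ (by omega)
    have hac : a.Coprime m := by
      rw [hadef, Nat.Coprime, ← Nat.gcd_rec, Nat.gcd_comm]
      exact hc
    have ha : 1 ≤ a := by
      rcases Nat.eq_zero_or_pos a with h | h
      · rw [h, Nat.coprime_zero_left] at hac
        omega
      · exact h
    have hFz : ∀ z ∈ mu k m, FF z c = FF z a := by
      intro z hz
      have h2 : z ^ c = z ^ a := by
        rw [hadef, ← pow_mod_orderOf z c]
        have h3 : orderOf z ∣ m := orderOf_dvd_of_pow_eq_one ((mem_mu hm).1 hz)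
        rw [← pow_mod_orderOf z (c % m), Nat.mod_mod_of_dvd _ h3]
      unfold FF
      rw [h2]
    have hLa := (ih a ham ha (by omega)).1
    have h4 := P4 l hchar hroot x hx hxm Λ a m m hm hml
      (hFFF m a m hm hml ha (by omega) hm hml)
      (hFFF 1 a m le_rfl (by omega) ha (by omega) hm hml)
    have h5 : ∀ z ∈ (mu k m).erase 1, Λ (PH x z * FF x a * FF x m) =
        (m : k)⁻¹ * (FF z c * Λ (PH x z * PH x z)) := by
      intro z hz
      rw [mem_erase] at hz
      rw [P3 l hchar hroot x hx hxm Λ a m ha (by omega) z (hcop a z hac hz.2 hz.1) (hF m hm hml)]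
      have h6 : ∑ y ∈ mu k a, ga z y * Λ (PH x y * FF x m) = 0 := by
        refine sum_eq_zero fun y hy => ?_
        by_cases hy1 : y = 1
        · rw [hy1, PH_one, hFF m hm hml, mul_zero]
        · rw [P1 l hchar hroot x hx hxm Λ h1 m hm hml y (hcop' a y ha hac hy hy1), hLa y hy,
            sum_eq_zero fun w hw => by rw [hH w hw, mul_zero]]
          simp
      have h7 := P2 l hchar hroot x hx hxm Λ h1 m hm hml z hz.2 hH
      rw [h6, mul_zero, sub_zero, ← h7, hFz z hz.2]
      field_simp [hchar m hm hml]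
    rw [sum_congr rfl h5, ← mul_sum] at h4
    rcases mul_eq_zero.1 h4 with h | h
    · exact absurd (inv_eq_zero.1 h) (hchar m hm hml)
    · exact h

end Abs

end Pool.Agent.TH10.RP
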