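import Mathlib
import Pool.Agent.TH10.RP.TP2
import Pool.Agent.TH10.RP.Defect

/-!
# The power series side
-/

set_option autoImplicit false

namespace Pool.Agent.TH10.RP

open Finset PowerSeries Pool.Agent.H582R5.RP Pool.Agent.H332R2

section Ser

variable (p : ℕ) [Fact p.Prime]

/-- the algebraic closure -/
abbrev kk : Type := AlgebraicClosure (ZMod p)

instance : CharP (kk p) p := charP_of_injective_algebraMap
  (algebraMap (ZMod p) (AlgebraicClosure (ZMod p))).injective p

/-- the series `(a t / 2) coth (a t / 2)` modulo `p` -/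
noncomputable def YK (a : kk p) : PowerSeries (kk p) :=
  rescale a (bb p) + C (a / 2) * X

lemma two_ne (h2 : p ≠ 2) : (2 : kk p) ≠ 0 := by
  intro h0
  have h3 : ((2 : ℕ) : kk p) = 0 := by exact_mod_cast h0
  rw [CharP.cast_eq_zero_iff (kk p) p] at h3
  exact h2 ((Nat.prime_dvd_prime_iff_eq (Fact.out : p.Prime) Nat.prime_two).1 h3)

lemma YK_rel (N : ℕ) (hN : N ≤ p) (h2 : p ≠ 2) (a : kk p) :
    (qm (kk p) N (ee a) - 1) * qm (kk p) N (YK p a) =
      qm (kk p) N (C (a / 2) * X) * (qm (kk p) N (ee a) + 1) := by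
  have h := bb_rec' (K := kk p) p N hN a
  have h20 := two_ne p h2
  have : NeZero (2 : kk p) := ⟨h20⟩
  have e : (C a * X : PowerSeries (kk p)) = C (a / 2) * X + C (a / 2) * X := by
    rw [← add_mul, ← map_add, add_halves]
  rw [YK, map_add, mul_add, h, e, map_add]
  ring

lemma qm_ee_natK (N : ℕ) (hN : N ≤ p) (e : ℕ) :
    qm (kk p) N (ee (e : kk p)) = (qm (kk p) N (ee 1)) ^ e := by
  induction e with
  | zero => rw [Nat.cast_zero, ee_zero, map_one, pow_zero]
  | succ e ih => rw [Nat.cast_succ, qm_ee_add p N hN, ih, pow_succ]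

/-- coefficients vanish where they should -/
def Good (G : PowerSeries (kk p)) : Prop :=
  ∀ n, n + 1 < p → (Odd n → coeff n G = 0) ∧ (cc p n = 0 → coeff n G = 0)

lemma YK_good (h3 : 3 ≤ p) (a : kk p) : Good p (YK p a) := by
  intro n hn
  have h20 := two_ne p (by omega)
  have hc : coeff n (YK p a) = a ^ n * algebraMap (ZMod p) (kk p) (cc p n) +
      (a / 2) * (if n = 1 then 1 else 0) := by
    rw [YK, map_add, coeff_rescale, bb, coeff_mk, coeff_C_mul, coeff_X]
  constructor
  · rintro ⟨m, rfl⟩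
    rw [hc]
    rcases Nat.eq_zero_or_pos m with rfl | hm
    · rw [Nat.mul_zero, Nat.zero_add, if_pos rfl, cc_one p h3]
      rw [map_neg, map_inv₀, map_ofNat]
      field_simp
      ring
    · rw [if_neg (by omega)]
      have hb : _root_.bernoulli (2 * m + 1) = 0 := bernoulli_eq_zero_of_odd ⟨m, rfl⟩ (by omega)
      unfold Pool.Agent.H332R2.cc
      rw [hb]
      simp
  · intro h
    rw [hc, h, map_zero, mul_zero, zero_add]
    by_cases h1 : n = 1
    · subst h1
      exfalso
      rw [cc_one p h3] at h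
      rw [neg_eq_zero, _root_.inv_eq_zero] at h
      have h4 : ((2 : ℕ) : ZMod p) = 0 := by exact_mod_cast h
      rw [ZMod.natCast_eq_zero_iff] at h4
      have := Nat.le_of_dvd (by norm_num) h4
      omega
    · rw [if_neg h1, mul_zero]

/-- the series `e^t` -/
noncomputable abbrev EE : PowerSeries (kk p) := ee 1

lemma EE_const : constantCoeff (EE p) = 1 := by
  rw [← coeff_zero_eq_constantCoeff_apply]
  unfold EE ee
  rw [coeff_mk]
  simp

lemma EE_one : coeff 1 (EE p) = 1 := by
  unfold EE ee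
  rw [coeff_mk]
  simp

lemma exists_U (a : ℕ) (ha : (a : kk p) ≠ 0) : ∃ U V : PowerSeries (kk p),
    EE p ^ a - 1 = X * U ∧ U * V = 1 := by
  have h1 : X ∣ EE p ^ a - 1 := by
    rw [X_dvd_iff, map_sub, map_pow, EE_const, one_pow, map_one, sub_self]
  obtain ⟨U, hU⟩ := h1
  have h2 : constantCoeff U ≠ 0 := by
    have h3 : coeff 1 (EE p ^ a - 1) = constantCoeff U := by
      rw [hU]
      rw [show (1 : ℕ) = 0 + 1 from rfl, coeff_succ_X_mul, coeff_zero_eq_constantCoeff_apply]
    rw [← h3, map_sub, coeff_one, if_neg (by norm_num), sub_zero]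
    have h4 : coeff 1 (EE p ^ a) = a := by
      clear hU h3 ha
      induction a with
      | zero => simp [coeff_one]
      | succ a ih =>
        rw [pow_succ, coeff_mul, Finset.Nat.sum_antidiagonal_eq_sum_range_succ_mk, sum_range_succ,
          sum_range_one]
        simp only [Nat.sub_zero, Nat.sub_self]
        rw [ih, EE_one, coeff_zero_eq_constantCoeff_apply, coeff_zero_eq_constantCoeff_apply, map_pow,
          EE_const]
        push_cast
        ring
    rw [h4]
    exact ha
  exact ⟨U, U⁻¹, hU, PowerSeries.mul_inv_cancel U h2⟩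

lemma exists_G (h3 : 3 ≤ p) (a : ℕ) (ha : (a : kk p) ≠ 0) : ∃ G : PowerSeries (kk p),
    (EE p ^ a - 1) * G = X * (EE p ^ a + 1) ∧ Good p G := by
  obtain ⟨U, V, hU, hUV⟩ := exists_U p a ha
  have h20 := two_ne p (by omega)
  refine ⟨(EE p ^ a + 1) * V, ?_, ?_⟩
  · rw [hU]
    linear_combination X * (EE p ^ a + 1) * hUV
  · have h5 := YK_rel p p le_rfl (by omega) (a : kk p)
    rw [qm_ee_natK p p le_rfl a, ← map_pow, ← map_one (qm (kk p) p), ← map_sub, ← map_add, ← map_mul,
      ← map_mul, qm_eq_iff] at h5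
    have h6 : (X : PowerSeries (kk p)) ^ p ∣ (EE p ^ a - 1) * YK p a -
        C ((a : kk p) / 2) * X * (EE p ^ a + 1) := by
      rw [X_pow_dvd_iff]
      intro m hm
      rw [map_sub, h5 m hm, sub_self]
    obtain ⟨R, hR⟩ := h6
    have h7 : YK p a - C ((a : kk p) / 2) * ((EE p ^ a + 1) * V) = X ^ (p - 1) * (R * V) := by
      have h8 : (X : PowerSeries (kk p)) * (YK p a - C ((a : kk p) / 2) * ((EE p ^ a + 1) * V)) =
          X * (X ^ (p - 1) * (R * V)) := by
        have h9 : (X : PowerSeries (kk p)) ^ p = X * X ^ (p - 1) := by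
          rw [← pow_succ']
          congr 1
          omega
        rw [hU, h9] at hR
        linear_combination V * hR - X * (YK p a) * hUV
      exact mul_left_cancel₀ X_ne_zero h8
    intro n hn
    have h10 : coeff n (YK p a) = (a : kk p) / 2 * coeff n ((EE p ^ a + 1) * V) := by
      have := congrArg (coeff n) h7
      rw [map_sub, coeff_C_mul, coeff_X_pow_mul', if_neg (by omega)] at this
      exact sub_eq_zero.1 this
    have h11 := YK_good p h3 a n hn
    have h12 : (a : kk p) / 2 ≠ 0 := div_ne_zero ha h20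
    constructor
    · intro ho
      have := h11.1 ho
      rw [h10] at this
      exact (mul_eq_zero.1 this).resolve_left h12
    · intro ho
      have := h11.2 ho
      rw [h10] at this
      exact (mul_eq_zero.1 this).resolve_left h12

lemma triple_zero (N : ℕ) (hN : 2 * N + 3 ≤ p)
    (h : ∀ i j, i + j ≤ N → cc p (2 * i) = 0 ∨ cc p (2 * j) = 0 ∨ cc p (2 * (N - i - j)) = 0)
    (G1 G2 G3 : PowerSeries (kk p)) (h1 : Good p G1) (h2 : Good p G2) (h3 : Good p G3) :
    coeff (2 * N) (G1 * G2 * G3) = 0 := by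
  rw [coeff_mul]
  refine sum_eq_zero fun x hx => ?_
  rw [HasAntidiagonal.mem_antidiagonal] at hx
  rw [coeff_mul, sum_mul]
  refine sum_eq_zero fun y hy => ?_
  rw [HasAntidiagonal.mem_antidiagonal] at hy
  have g1 := h1 y.1 (by omega)
  have g2 := h2 y.2 (by omega)
  have g3 := h3 x.2 (by omega)
  rcases Nat.even_or_odd' y.1 with ⟨i, hi | hi⟩
  · rcases Nat.even_or_odd' y.2 with ⟨j, hj | hj⟩
    · rcases h i j (by omega) with h4 | h4 | h4
      · rw [← hi] at h4
        rw [g1.2 h4, zero_mul, zero_mul]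
      · rw [← hj] at h4
        rw [g2.2 h4, mul_zero, zero_mul]
      · have e : 2 * (N - i - j) = x.2 := by omega
        rw [e] at h4
        rw [g3.2 h4, mul_zero]
    · rw [g2.1 ⟨j, hj⟩, mul_zero, zero_mul]
  · rw [g1.1 ⟨i, hi⟩, zero_mul, zero_mul]

lemma double_zero (n : ℕ) (hn : n + 1 < p) (ho : Odd n)
    (G1 G2 : PowerSeries (kk p)) (h1 : Good p G1) (h2 : Good p G2) :
    coeff n (G1 * G2) = 0 := by
  rw [coeff_mul]
  refine sum_eq_zero fun y hy => ?_
  rw [HasAntidiagonal.mem_antidiagonal] at hy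
  have g1 := h1 y.1 (by omega)
  have g2 := h2 y.2 (by omega)
  rcases Nat.even_or_odd y.1 with hi | hi
  · rcases Nat.even_or_odd y.2 with hj | hj
    · exfalso
      have := hi.add hj
      rw [hy] at this
      exact (Nat.not_even_iff_odd.2 ho) this
    · rw [g2.1 hj, mul_zero]
  · rw [g1.1 hi, zero_mul]

/-- the Laurent series -/
abbrev KK : Type := LaurentSeries (kk p)

/-- power series as Laurent series -/
noncomputable abbrev ph : PowerSeries (kk p) →+* KK p := HahnSeries.ofPowerSeries ℤ (kk p)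

lemma ph_inj : Function.Injective (ph p) := HahnSeries.ofPowerSeries_injective

noncomputable instance (priority := 5000) algKK : Algebra (kk p) (KK p) := HahnSeries.instAlgebra

lemma ph_C (z : kk p) : ph p (C z) = algebraMap (kk p) (KK p) z := by
  have h : ph p (C z) = HahnSeries.C z := HahnSeries.ofPowerSeries_C z
  rw [h]
  rfl

/-- the functional -/
noncomputable def LA (N : ℕ) : KK p →ₗ[kk p] kk p where
  toFun G := (ph p X ^ 3 * G).coeff ((2 * N : ℕ) : ℤ)
  map_add' G H := by rw [mul_add, HahnSeries.coeff_add]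
  map_smul' c G := by
    have h0 : c • G = ph p (C c) * G := by
      rw [ph_C]
      exact Algebra.smul_def c G
    have h : ph p (C c) = HahnSeries.C c := HahnSeries.ofPowerSeries_C c
    rw [h0, mul_left_comm, h, HahnSeries.C_mul_eq_smul, HahnSeries.coeff_smul, RingHom.id_apply,
      smul_eq_mul]

lemma LA_apply (N : ℕ) (G : KK p) (P : PowerSeries (kk p)) (h : ph p X ^ 3 * G = ph p P) :
    LA p N G = coeff (2 * N) P := by
  change (ph p X ^ 3 * G).coeff ((2 * N : ℕ) : ℤ) = _
  rw [h]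
  exact HahnSeries.ofPowerSeries_apply_coeff P (2 * N)

/-- the point `e^t` -/
noncomputable abbrev xx : KK p := ph p (EE p)

lemma xx_ne (z : kk p) : xx p ≠ algebraMap (kk p) (KK p) z := by
  rw [← ph_C]
  intro h
  have h1 := ph_inj p h
  have h2 := congrArg (coeff 1) h1
  rw [EE_one, coeff_C, if_neg (by norm_num)] at h2
  exact one_ne_zero h2

lemma xx_pow_sub_ne (m : ℕ) (hm : (m : kk p) ≠ 0) : xx p ^ m - 1 ≠ 0 := by
  obtain ⟨U, V, hU, hUV⟩ := exists_U p m hm
  have h1 : xx p ^ m - 1 = ph p (X * U) := by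
    rw [← hU, map_sub, map_pow, map_one]
  rw [h1, map_ne_zero_iff _ (ph_inj p)]
  refine mul_ne_zero X_ne_zero ?_
  rintro rfl
  rw [zero_mul] at hUV
  exact zero_ne_one hUV

lemma FF_eq (m : ℕ) (hm : (m : kk p) ≠ 0) (G : PowerSeries (kk p))
    (hG : (EE p ^ m - 1) * G = X * (EE p ^ m + 1)) : ph p X * FF (xx p) m = ph p G := by
  have h1 := xx_pow_sub_ne p m hm
  have h2 := congrArg (ph p) hG
  rw [map_mul, map_mul, map_sub, map_add, map_pow, map_one] at h2
  unfold FF
  rw [mul_div_assoc', div_eq_iff h1, ← h2]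
  ring

variable (N : ℕ) (hN : 2 * N + 3 ≤ p) (hN2 : 2 ≤ N)
  (hno : ∀ i j, i + j ≤ N → cc p (2 * i) = 0 ∨ cc p (2 * j) = 0 ∨ cc p (2 * (N - i - j)) = 0)

include hN hno in
lemma LA_triple (a b c : ℕ) (ha : (a : kk p) ≠ 0) (hb : (b : kk p) ≠ 0) (hc : (c : kk p) ≠ 0) :
    LA p N (FF (xx p) a * FF (xx p) b * FF (xx p) c) = 0 := by
  obtain ⟨A, hA1, hA2⟩ := exists_G p (by omega) a ha
  obtain ⟨B, hB1, hB2⟩ := exists_G p (by omega) b hb
  obtain ⟨D, hD1, hD2⟩ := exists_G p (by omega) c hc
  rw [LA_apply p N _ (A * B * D)]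
  · exact triple_zero p N hN hno A B D hA2 hB2 hD2
  · rw [map_mul, map_mul, ← FF_eq p a ha A hA1, ← FF_eq p b hb B hB1, ← FF_eq p c hc D hD1]
    ring

include hN hN2 in
lemma LA_double (b : ℕ) (hb : (b : kk p) ≠ 0) :
    LA p N (FF (xx p) 1 * FF (xx p) b) = 0 := by
  obtain ⟨A, hA1, hA2⟩ := exists_G p (by omega) 1 (by simp)
  obtain ⟨B, hB1, hB2⟩ := exists_G p (by omega) b hb
  rw [LA_apply p N _ (X * (A * B))]
  · rw [show 2 * N = (2 * N - 1) + 1 by omega, coeff_succ_X_mul]
    exact double_zero p (2 * N - 1) (by omega) ⟨N - 1, by omega⟩ A B hA2 hB2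
  · rw [map_mul, map_mul, ← FF_eq p 1 (by simp) A hA1, ← FF_eq p b hb B hB1]
    ring

include hN hN2 hno in
lemma LA_single (a : ℕ) (ha : (a : kk p) ≠ 0) : LA p N (FF (xx p) a) = 0 := by
  obtain ⟨A, hA1, hA2⟩ := exists_G p (by omega) a ha
  rw [LA_apply p N _ (X * (X * A))]
  · rw [show 2 * N = (2 * N - 2) + 1 + 1 by omega, coeff_succ_X_mul, coeff_succ_X_mul]
    have h0 : cc p (2 * 0) ≠ 0 := by
      rw [Ne, cc_eq_zero_iff (by omega) (by omega)]
      rw [Nat.mul_zero, _root_.bernoulli_zero]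
      intro h
      have := Int.le_of_dvd (by norm_num) h
      simp at this
      omega
    have h1 : cc p (2 * 1) ≠ 0 := by
      rw [Ne, cc_eq_zero_iff (by omega) (by omega), num_two]
      intro h
      have := Int.le_of_dvd (by norm_num) h
      omega
    have h2 : cc p (2 * N - 2) = 0 := by
      rcases hno 0 1 (by omega) with h | h | h
      · exact absurd h h0
      · exact absurd h h1
      · rwa [show 2 * (N - 0 - 1) = 2 * N - 2 by omega] at h
    exact (hA2 (2 * N - 2) (by omega)).2 h2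
  · rw [map_mul, map_mul, ← FF_eq p a ha A hA1]
    ring

include hN2 in
lemma LA_one : LA p N 1 = 0 := by
  rw [LA_apply p N 1 (X ^ 3)]
  · rw [coeff_X_pow, if_neg (by omega)]
  · rw [mul_one, map_pow]

/-- `(E + z) / (E - z)` as a power series -/
noncomputable def PZ (z : kk p) : PowerSeries (kk p) := (EE p + C z) * (EE p - C z)⁻¹

lemma PZ_mul (z : kk p) (hz : z ≠ 1) : (EE p - C z) * PZ p z = EE p + C z := by
  unfold PZ
  have h1 : constantCoeff (EE p - C z) ≠ 0 := by
    rw [map_sub, EE_const, constantCoeff_C, sub_ne_zero]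
    exact hz.symm
  rw [mul_comm (EE p + C z), ← mul_assoc, PowerSeries.mul_inv_cancel _ h1, one_mul]

include hN2 in
lemma LA_PH (z : kk p) (hz : z ≠ 1) : LA p N (PH (xx p) z) = coeff (2 * N - 3) (PZ p z) := by
  rw [LA_apply p N _ (X ^ 3 * PZ p z)]
  · rw [coeff_X_pow_mul', if_pos (by omega)]
  · rw [map_mul, map_pow]
    congr 1
    unfold PH
    rw [div_eq_iff (sub_ne_zero.2 (xx_ne p z)), ← ph_C, ← map_sub, ← map_add, ← map_mul,
      ← PZ_mul p z hz, mul_comm]

lemma resc_EE : rescale (-1 : kk p) (EE p) = ee (-1) := by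
  unfold EE ee
  ext n
  rw [coeff_rescale, coeff_mk, coeff_mk]
  simp

include hN hN2 in
lemma PZ_symm (z : kk p) (hz : z ≠ 1) (hz0 : z ≠ 0) :
    coeff (2 * N - 3) (PZ p z⁻¹) = coeff (2 * N - 3) (PZ p z) := by
  have hz' : z⁻¹ ≠ 1 := by
    intro h
    exact hz (inv_eq_one.1 h)
  have h1 := congrArg (rescale (-1 : kk p)) (PZ_mul p z hz)
  rw [map_mul, map_sub, map_add, resc_EE] at h1
  have hC : rescale (-1 : kk p) (C z) = C z := by
    ext n
    rw [coeff_rescale, coeff_C]
    split_ifs with h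
    · rw [h]; simp
    · simp
  rw [hC] at h1
  have h2 := PZ_mul p z⁻¹ hz'
  have h3 : (X : PowerSeries (kk p)) ^ p ∣ EE p * ee (-1) - 1 := by
    rw [X_pow_dvd_iff]
    have := qm_ee_add (K := kk p) p p le_rfl (1 : kk p) (-1)
    rw [add_neg_cancel, ee_zero, ← map_mul, qm_eq_iff] at this
    intro m hm
    rw [map_sub, ← this m hm, sub_self]
  obtain ⟨R, hR⟩ := h3
  set S := rescale (-1 : kk p) (PZ p z) with hS
  set T := PZ p z⁻¹ with hT
  have hCC : C z * C z⁻¹ = (1 : PowerSeries (kk p)) := by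
    rw [← map_mul, mul_inv_cancel₀ hz0, map_one]
  have h4 : (1 - C z * EE p) * (S + T) = X ^ p * (R * (1 - S)) := by
    have h5 : (1 - C z * EE p) * S + X ^ p * R * S = 1 + C z * EE p + X ^ p * R := by
      linear_combination (EE p) * h1 + (1 - S) * hR
    have h6 : (C z * EE p - 1) * T = C z * EE p + 1 := by
      linear_combination (C z) * h2 + (T + 1) * hCC
    linear_combination h5 - h6
  have h7 : constantCoeff (1 - C z * EE p) ≠ 0 := by
    rw [map_sub, map_mul, EE_const, constantCoeff_C, map_one, mul_one, sub_ne_zero]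
    exact hz.symm
  have h8 : S + T = X ^ p * (R * (1 - S) * (1 - C z * EE p)⁻¹) := by
    have h9 := PowerSeries.mul_inv_cancel _ h7
    linear_combination (1 - C z * EE p)⁻¹ * h4 - (S + T) * h9
  have h10 := congrArg (coeff (2 * N - 3)) h8
  rw [map_add, coeff_X_pow_mul', if_neg (by omega), hS, coeff_rescale,
    Odd.neg_one_pow ⟨N - 2, by omega⟩] at h10
  linear_combination h10

end Ser

end Pool.Agent.TH10.RP
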