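import Mathlib
import Pool.Agent.TH10.RP.TP4
import Pool.Agent.TH10.RP.TJ2
import Pool.Agent.TH10.RP.TJ3
import Pool.Agent.TH10.RP.TJ4
import Pool.Agent.TH10.RP.TJ5
import Pool.Agent.TH10.RP.General

/-!
# Every number is a sum of three regular indices
-/

set_option autoImplicit false

namespace Pool.Agent.TH10.RP

open Finset Pool.Agent.H582R5.RP Pool.Agent.H332R2

theorem three_exists : ∃ P0 : ℕ, ∀ (p : ℕ) [Fact p.Prime], P0 ≤ p → ∀ N : ℕ, 2 * N + 3 ≤ p →
    ∃ i j, i + j ≤ N ∧ cc p (2 * i) ≠ 0 ∧ cc p (2 * j) ≠ 0 ∧ cc p (2 * (N - i - j)) ≠ 0 := by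
  classical
  obtain ⟨P1, hP1⟩ := rank_large
  obtain ⟨P2, hP2⟩ := tot_large
  refine ⟨P1 + P2 + 17, fun p _ hp N hN => ?_⟩
  by_contra hcon
  push Not at hcon
  have hno : ∀ i j, i + j ≤ N → cc p (2 * i) = 0 ∨ cc p (2 * j) = 0 ∨
      cc p (2 * (N - i - j)) = 0 := by
    intro i j hij
    by_contra h
    push Not at h
    exact h.2.2 (hcon i j hij h.1 h.2.1)
  have h0 : cc p (2 * 0) ≠ 0 := by
    rw [Ne, cc_eq_zero_iff (by omega) (by omega)]
    rw [Nat.mul_zero, _root_.bernoulli_zero]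
    intro h
    have := Int.le_of_dvd (by norm_num) h
    simp at this
    omega
  have h1 : cc p (2 * 1) ≠ 0 := by
    rw [Ne, cc_eq_zero_iff (by omega) (by omega), num_two]
    intro h
    have := Int.le_of_dvd (by norm_num) h
    omega
  have hN2 : 2 ≤ N := by
    by_contra h
    have h2 : N = 0 ∨ N = 1 := by omega
    rcases h2 with rfl | rfl
    · rcases hno 0 0 le_rfl with h | h | h
      · exact h0 h
      · exact h0 h
      · exact h0 h
    · rcases hno 0 0 (by omega) with h | h | h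
      · exact h0 h
      · exact h0 h
      · exact h1 h
  obtain ⟨l, hl1, hl2⟩ := hP2 p (by omega)
  have hlp : l < p := by
    by_contra h
    push Not at h
    have : p * p ≤ l ^ 2 := by
      rw [pow_two]
      exact Nat.mul_le_mul h h
    have h3 : p * p ≤ 16 * p := this.trans hl1
    have := Nat.le_of_mul_le_mul_right h3 (by omega)
    omega
  have hchar : ∀ m : ℕ, 1 ≤ m → m ≤ l → (m : kk p) ≠ 0 := by
    intro m hm hml h
    rw [CharP.cast_eq_zero_iff (kk p) p] at h
    have := Nat.le_of_dvd hm h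
    omega
  have hnd : ∀ m : ℕ, 1 ≤ m → m ≤ l → ¬ p ∣ m := by
    intro m hm hml h
    have := Nat.le_of_dvd hm h
    omega
  have hroot : ∀ m : ℕ, 1 ≤ m → m ≤ l → ∃ ζ : kk p, IsPrimitiveRoot ζ m := by
    intro m hm hml
    have : NeZero (m : kk p) := ⟨hchar m hm hml⟩
    exact HasEnoughRootsOfUnity.exists_primitiveRoot (kk p) m
  have hsymm : ∀ z : kk p, LA p N (PH (xx p) z⁻¹) = LA p N (PH (xx p) z) := by
    intro z
    by_cases hz0 : z = 0
    · rw [hz0, inv_zero]
    · by_cases hz1 : z = 1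
      · rw [hz1, inv_one]
      · rw [LA_PH p N hN2 z hz1, LA_PH p N hN2 z⁻¹ (fun h => hz1 (inv_eq_one.1 h)),
          PZ_symm p N hN hN2 z hz1 hz0]
  have hmain := main_ind l hchar hroot (xx p) (xx_ne p)
    (fun m hm hml h => xx_pow_sub_ne p m (hchar m hm hml) (sub_eq_zero.2 h)) (LA p N)
    (LA_one p N hN2)
    (fun a ha hal => LA_single p N hN hN2 hno a (hchar a ha hal))
    (fun b hb hbl => LA_double p N hN hN2 b (hchar b hb hbl))
    (fun a b c ha hal hb hbl hc hcl => LA_triple p N hN hno a b c (hchar a ha hal) (hchar b hb hbl)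
      (hchar c hc hcl))
    (fun m hm3 hml hab => by
      have hpm := hnd m (by omega) hml
      refine even_zero p m (by omega) hm3 hpm (MS_indep_closure p m hpm)
        (hP1 p (by omega) m hm3 (le_trans (Nat.pow_le_pow_left hml 2) hl1))
        (fun z => LA p N (PH (xx p) z)) hsymm ?_
      intro a b ha ham hac hb hbm hbc
      exact hab a b ha ham hac hb hbm hbc)
  set Z : Finset (kk p) := (Icc 2 l).biUnion (fun m => primitiveRoots m (kk p)) with hZ
  have hcard : p ≤ Z.card := by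
    rw [hZ, card_biUnion]
    · refine hl2.trans (le_of_eq (sum_congr rfl fun m hm => ?_))
      rw [mem_Icc] at hm
      obtain ⟨ζ, hζ⟩ := hroot m (by omega) hm.2
      exact hζ.card_primitiveRoots.symm
    · intro m _ m' _ hmm
      exact IsPrimitiveRoot.disjoint hmm
  have hZm : ∀ z ∈ Z, ∃ m, 2 ≤ m ∧ m ≤ l ∧ IsPrimitiveRoot z m := by
    intro z hz
    rw [hZ, mem_biUnion] at hz
    obtain ⟨m, hm, hz⟩ := hz
    rw [mem_Icc] at hm
    exact ⟨m, hm.1, hm.2, isPrimitiveRoot_of_mem_primitiveRoots hz⟩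
  have hZ01 : ∀ z ∈ Z, z ≠ 0 ∧ z ≠ 1 := by
    intro z hz
    obtain ⟨m, hm1, hm2, hzm⟩ := hZm z hz
    constructor
    · exact hzm.ne_zero (by omega)
    · exact hzm.ne_one (by omega)
  refine many_zeros (two_ne p (by omega)) (EE p) (EE_const p) (EE_one p) (2 * N - 3) (by omega) Z
    hZ01 (by omega) (PZ p) (fun z hz => PZ_mul p z (hZ01 z hz).2) ?_
  intro z hz
  obtain ⟨m, hm1, hm2, hzm⟩ := hZm z hz
  rw [← LA_PH p N hN2 z (hZ01 z hz).2]
  exact (hmain m (by omega) hm2).1 z ((mem_mu (by omega)).2 hzm.pow_eq_one)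

end Pool.Agent.TH10.RP
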