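import Mathlib
import Pool.Agent.TH10.RP.TP5

/-!
# Counting the representations
-/

set_option autoImplicit false

namespace Pool.Agent.TH10.RP

open Finset Pool.Agent.H332R2 Pool.Agent.TH350.SumReg

lemma three_aux (p : ℕ) [Fact p.Prime] (N : ℕ) (hN : 2 * N + 3 ≤ p) (m i : ℕ) (hm : 3 * m ≤ N)
    (hi : i ≤ N - m) (h1 : cc p (2 * m) ≠ 0) (h2 : cc p (2 * i) ≠ 0)
    (h3 : cc p (2 * (N - m - i)) ≠ 0) : N ≤ 16 * (three p N).card := by
  classical
  have h5 := rep_bound p (N - m) (by omega) ⟨i, hi, by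
    unfold ww
    exact mul_ne_zero h2 h3⟩
  have h6 : (rep p (N - m)).card =
    ((range (N - m + 1)).filter (fun i => ww p (N - m) i ≠ 0)).card := rfl
  rw [← h6] at h5
  set I := rep p (N - m) with hI
  have hImem : ∀ j, j ∈ I ↔ j ≤ N - m ∧ cc p (2 * j) ≠ 0 ∧ cc p (2 * (N - m - j)) ≠ 0 := by
    intro j
    rw [hI]
    unfold rep ww
    rw [mem_filter, mem_range, mul_ne_zero_iff]
    constructor
    · rintro ⟨h7, h8, h9⟩
      exact ⟨by omega, h8, h9⟩
    · rintro ⟨h7, h8, h9⟩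
      exact ⟨by omega, h8, h9⟩
  set B := I.filter (fun j => 2 * j ≤ N - m) with hB
  have hBI : I.card ≤ 2 * B.card := by
    have h7 : I ⊆ B ∪ B.image (fun j => N - m - j) := by
      intro j hj
      have hj' := (hImem j).1 hj
      rw [mem_union]
      by_cases h8 : 2 * j ≤ N - m
      · left
        rw [hB, mem_filter]
        exact ⟨hj, h8⟩
      · right
        rw [mem_image]
        refine ⟨N - m - j, ?_, by omega⟩
        rw [hB, mem_filter, hImem]
        refine ⟨⟨by omega, hj'.2.2, ?_⟩, by omega⟩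
        rw [show N - m - (N - m - j) = j by omega]
        exact hj'.2.1
    have h8 := card_le_card h7
    have h9 := card_union_le B (B.image (fun j => N - m - j))
    have h10 : (B.image (fun j => N - m - j)).card ≤ B.card := card_image_le
    omega
  have h4 := three_lower p N hN B (fun n hn => by
    rw [hB, mem_filter, hImem] at hn
    exact ⟨by omega, hn.1.2.1⟩)
  rcases Nat.eq_zero_or_pos N with h0 | h0
  · omega
  have hBpos : 0 < B.card := by
    by_contra h
    have : I.card = 0 := by omega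
    rw [this] at h5
    omega
  obtain ⟨n0, hn0, hmin⟩ := exists_min_image B (fun n => (rep p (N - n)).card) (card_pos.1 hBpos)
  set ρ := (rep p (N - n0)).card with hρ
  have h11 : B.card * ρ ≤ (three p N).card := by
    refine le_trans ?_ h4
    rw [← smul_eq_mul, ← sum_const]
    exact sum_le_sum fun n hn => hmin n hn
  have hn0' : n0 ≤ N - m ∧ 2 * n0 ≤ N - m ∧ cc p (2 * (N - m - n0)) ≠ 0 := by
    rw [hB, mem_filter, hImem] at hn0
    exact ⟨hn0.1.1, hn0.2, hn0.1.2.2⟩
  have h12 := rep_bound p (N - n0) (by omega) ⟨m, by omega, by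
    unfold ww
    refine mul_ne_zero h1 ?_
    rw [show N - n0 - m = N - m - n0 by omega]
    exact hn0'.2.2⟩
  have h13 : (rep p (N - n0)).card =
    ((range (N - n0 + 1)).filter (fun i => ww p (N - n0) i ≠ 0)).card := rfl
  rw [← h13, ← hρ] at h12
  have h14 : N ≤ 9 * ρ ^ 2 := by omega
  have h15 : I.card ^ 2 ≤ (2 * B.card) ^ 2 := Nat.pow_le_pow_left hBI 2
  have h16 : N ≤ 27 * B.card ^ 2 := by
    have : (2 * B.card) ^ 2 = 4 * B.card ^ 2 := by ring
    omega
  have h17 : N * N ≤ (27 * B.card ^ 2) * (9 * ρ ^ 2) := Nat.mul_le_mul h16 h14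
  have h18 : (27 * B.card ^ 2) * (9 * ρ ^ 2) ≤ (16 * (three p N).card) ^ 2 := by
    calc (27 * B.card ^ 2) * (9 * ρ ^ 2) = 243 * (B.card * ρ) ^ 2 := by ring
      _ ≤ 256 * (three p N).card ^ 2 := Nat.mul_le_mul (by norm_num) (Nat.pow_le_pow_left h11 2)
      _ = (16 * (three p N).card) ^ 2 := by ring
  have h19 : N ^ 2 ≤ (16 * (three p N).card) ^ 2 := by
    rw [pow_two N]
    exact h17.trans h18
  exact (Nat.pow_le_pow_iff_left (by norm_num)).1 h19

theorem three_all : ∃ P : ℕ, ∀ p : ℕ, p.Prime → P ≤ p → ∀ N : ℕ, 2 * N + 3 ≤ p →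
    N ≤ 16 * (three p N).card := by
  obtain ⟨P, hP⟩ := three_exists
  refine ⟨P, fun p hp hpP N hN => ?_⟩
  have : Fact p.Prime := ⟨hp⟩
  obtain ⟨i, j, hij, h1, h2, h3⟩ := hP p hpP N hN
  rcases Nat.lt_or_ge N (3 * i) with hi | hi
  · rcases Nat.lt_or_ge N (3 * j) with hj | hj
    · refine three_aux p N hN (N - i - j) i (by omega) (by omega) h3 h1 ?_
      rwa [show N - (N - i - j) - i = j by omega]
    · refine three_aux p N hN j i (by omega) (by omega) h2 h1 ?_
      rwa [show N - j - i = N - i - j by omega]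
  · exact three_aux p N hN i j hi (by omega) h1 h2 h3

theorem all_large (h : ℕ) (hh : 3 ≤ h) : ∃ C : ℕ, ∀ p : ℕ, p.Prime → C ≤ p → ∀ N : ℕ,
    2 * N + 3 ≤ p → N ^ (if h = 3 then 4 else 3 * h - 4) ≤ C * (tup p h N).card ^ 4 := by
  rcases Nat.eq_or_lt_of_le hh with h3 | h3
  · subst h3
    obtain ⟨P, hP⟩ := three_all
    refine ⟨P + 16 ^ 4, fun p hp hpP N hN => ?_⟩
    have h1 := hP p hp (by omega) N hN
    have e : tup p 3 N = three p N := rfl
    rw [e, if_pos rfl]
    calc N ^ 4 ≤ (16 * (three p N).card) ^ 4 := Nat.pow_le_pow_left h1 4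
      _ = 16 ^ 4 * (three p N).card ^ 4 := mul_pow _ _ _
      _ ≤ (P + 16 ^ 4) * (three p N).card ^ 4 := Nat.mul_le_mul_right _ (by omega)
  · obtain ⟨P, hP⟩ := ge_four
    obtain ⟨C, hC⟩ := hP h h3
    refine ⟨P + C, fun p hp hpP N hN => ?_⟩
    rw [if_neg (by omega)]
    exact (hC p hp (by omega) N hN).trans (Nat.mul_le_mul_right _ (by omega))

end Pool.Agent.TH10.RP
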