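import Mathlib
import Pool.Agent.TH10.RP.Defect

set_option autoImplicit false

namespace Pool.Agent.TH10.RP

open Finset

/-- the cotangent -/
private noncomputable def F {K : Type} [Field K] (a : ℕ) (z : K) : K := (z ^ a + 1) / (z ^ a - 1)

private def UU (d : ℕ) : Finset ℕ := (range d).filter (fun μ => μ.Coprime d)

private lemma F_inv {K : Type} [Field K] (a : ℕ) (z : K) (hz : z ≠ 0) : F a z⁻¹ = -F a z := by
  unfold F
  rw [inv_pow]
  have hy : z ^ a ≠ 0 := pow_ne_zero a hz
  generalize z ^ a = y at hy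
  by_cases h1 : y = 1
  · subst h1; simp
  · have h3 : y - 1 ≠ 0 := sub_ne_zero.2 h1
    have h4 : y⁻¹ - 1 ≠ 0 := by
      intro h
      apply h1
      exact inv_eq_one.1 (sub_eq_zero.1 h)
    have h5 : 1 - y ≠ 0 := sub_ne_zero.2 (Ne.symm h1)
    rw [div_eq_iff h4, neg_mul, div_mul_eq_mul_div, ← neg_div, eq_div_iff h3]
    field_simp
    ring

private lemma sum_prim {K : Type} [Field K] {d : ℕ} (hd : 3 ≤ d) {z0 : K}
    (h0 : IsPrimitiveRoot z0 d) (φ : K → K) :
    ∑ z ∈ primitiveRoots d K, φ z = ∑ ν ∈ UU d, φ (z0 ^ ν) := by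
  have : NeZero d := ⟨by omega⟩
  symm
  refine Finset.sum_nbij (fun ν => z0 ^ ν) ?_ ?_ ?_ ?_
  · intro ν hν
    have := mem_filter.1 hν
    exact (mem_primitiveRoots (by omega)).2 (h0.pow_of_coprime ν this.2)
  · intro a ha b hb hab
    have ha' := mem_filter.1 (mem_coe.1 ha)
    have hb' := mem_filter.1 (mem_coe.1 hb)
    exact h0.pow_inj (mem_range.1 ha'.1) (mem_range.1 hb'.1) hab
  · intro z hz
    have hz' := (mem_primitiveRoots (by omega)).1 (mem_coe.1 hz)
    obtain ⟨i, hi, hic, hzi⟩ := h0.isPrimitiveRoot_iff.1 hz'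
    exact ⟨i, mem_coe.2 (mem_filter.2 ⟨mem_range.2 hi, hic⟩), hzi⟩
  · intro ν _
    rfl

private lemma sum_UU {K : Type} [Field K] {d : ℕ} (hd : 3 ≤ d) (ψ : ℕ → K) :
    ∑ ν ∈ UU d, ψ ν = ∑ ν ∈ II d, ψ ν + ∑ ν ∈ II d, ψ (d - ν) := by
  rw [← Finset.sum_filter_add_sum_filter_not (UU d) (fun ν => 2 * ν < d)]
  have h1 : (UU d).filter (fun ν => 2 * ν < d) = II d := by
    unfold UU II
    rw [filter_filter]
  rw [h1]
  congr 1
  symm
  refine Finset.sum_nbij (fun ν => d - ν) ?_ ?_ ?_ ?_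
  · intro ν hν
    unfold II at hν
    obtain ⟨h3, h4, h5⟩ := mem_filter.1 hν
    have h6 : ν ≠ 0 := by
      rintro rfl
      rw [Nat.coprime_zero_left] at h4
      omega
    refine mem_filter.2 ⟨mem_filter.2 ⟨mem_range.2 (by omega), ?_⟩, by omega⟩
    exact (Nat.coprime_self_sub_left (by omega)).2 h4
  · intro a ha b hb hab
    unfold II at ha hb
    have ha' := mem_filter.1 (mem_coe.1 ha)
    have hb' := mem_filter.1 (mem_coe.1 hb)
    simp only at hab
    omega
  · intro ν hν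
    obtain ⟨h3, h4⟩ := mem_filter.1 (mem_coe.1 hν)
    obtain ⟨h5, h6⟩ := mem_filter.1 h3
    have h7 := mem_range.1 h5
    have h8 : 2 * ν ≠ d := by
      intro h
      have h9 : ν ∣ d := ⟨2, by omega⟩
      have h10 := Nat.Coprime.eq_one_of_dvd h6 h9
      omega
    refine ⟨d - ν, mem_coe.2 (mem_filter.2 ⟨mem_range.2 (by omega), ?_, by omega⟩), ?_⟩
    · exact (Nat.coprime_self_sub_left (by omega)).2 h6
    · simp only
      omega
  · intro ν _
    rfl

private theorem core_odd {K : Type} [Field K] (h2 : (2 : K) ≠ 0) {d : ℕ} (hd : 3 ≤ d)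
    (hind : LinearIndepOn K (fun (μ : ℕ) (ζ : {ζ : K // IsPrimitiveRoot ζ d}) => F μ (ζ : K))
      (II d : Set ℕ))
    (L : K → K) (hL : ∀ z, L z⁻¹ = -L z)
    (h : ∀ a : ℕ, a.Coprime d → ∑ z ∈ primitiveRoots d K, F a z * L z = 0) :
    ∀ z, IsPrimitiveRoot z d → L z = 0 := by
  classical
  have : NeZero d := ⟨by omega⟩
  intro z1 hz1
  have hz10 : z1 ≠ 0 := hz1.ne_zero (by omega)
  have hinv : ∀ ν ∈ II d, z1 ^ (d - ν) = (z1 ^ ν)⁻¹ := by
    intro ν hν
    unfold II at hν
    have := mem_filter.1 hν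
    refine eq_inv_of_mul_eq_one_left ?_
    rw [← pow_add]
    have e : d - ν + ν = d := by omega
    rw [e, hz1.pow_eq_one]
  have hsum : ∀ a ∈ II d, ∑ ν ∈ II d, F a (z1 ^ ν) * L (z1 ^ ν) = 0 := by
    intro a ha
    have hac : a.Coprime d := by
      unfold II at ha
      exact (mem_filter.1 ha).2.1
    have h3 := h a hac
    rw [sum_prim hd hz1, sum_UU hd] at h3
    have h6 : ∑ ν ∈ II d, F a (z1 ^ (d - ν)) * L (z1 ^ (d - ν)) =
        ∑ ν ∈ II d, F a (z1 ^ ν) * L (z1 ^ ν) := by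
      refine Finset.sum_congr rfl fun ν hν => ?_
      have hne : z1 ^ ν ≠ 0 := pow_ne_zero _ hz10
      rw [hinv ν hν, F_inv a _ hne, hL]
      ring
    rw [h6, ← two_mul] at h3
    exact (mul_eq_zero.1 h3).resolve_left h2
  let A : Matrix (II d) (II d) K := Matrix.of fun μ ν => F (μ : ℕ) (z1 ^ (ν : ℕ))
  have hrow : LinearIndependent K A.row := by
    rw [Fintype.linearIndependent_iff]
    intro g hg μ0
    rw [linearIndepOn_finset_iff] at hind
    let g' : ℕ → K := fun i => if hi : i ∈ II d then g ⟨i, hi⟩ else 0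
    have hg' : ∀ μ : II d, g' μ = g μ := by
      intro μ
      simp only [g', μ.2, dif_pos]
    have hval : ∀ ν ∈ II d, ∑ i ∈ II d, g' i * F i (z1 ^ ν) = 0 := by
      intro ν hν
      have h3 := congrFun hg ⟨ν, hν⟩
      rw [Finset.sum_apply, Pi.zero_apply] at h3
      rw [← Finset.sum_coe_sort, ← h3]
      refine Finset.sum_congr rfl fun μ _ => ?_
      rw [hg']
      simp [A, Matrix.row, Matrix.of_apply]
    have h4 := hind g' (by
      funext ζ
      rw [Finset.sum_apply, Pi.zero_apply]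
      simp only [Pi.smul_apply, smul_eq_mul]
      obtain ⟨i, hi, hic, hzi⟩ := hz1.isPrimitiveRoot_iff.1 ζ.2
      rw [← hzi]
      by_cases h5 : 2 * i < d
      · exact hval i (by
          unfold II
          exact mem_filter.2 ⟨mem_range.2 hi, hic, h5⟩)
      · have h8 : 2 * i ≠ d := by
          intro h
          have h9 : i ∣ d := ⟨2, by omega⟩
          have h10 := Nat.Coprime.eq_one_of_dvd hic h9
          omega
        have h9 : d - i ∈ II d := by
          unfold II
          exact mem_filter.2 ⟨mem_range.2 (by omega),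
            (Nat.coprime_self_sub_left (by omega)).2 hic, by omega⟩
        have h10 := hval (d - i) h9
        have h11 : z1 ^ i = (z1 ^ (d - i))⁻¹ := by
          have := hinv (d - i) h9
          rwa [show d - (d - i) = i by omega] at this
        rw [h11]
        have hne : z1 ^ (d - i) ≠ 0 := pow_ne_zero _ hz10
        have h12 : ∑ x ∈ II d, g' x * F x (z1 ^ (d - i))⁻¹ =
            -∑ x ∈ II d, g' x * F x (z1 ^ (d - i)) := by
          rw [← Finset.sum_neg_distrib]
          refine Finset.sum_congr rfl fun x _ => ?_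
          rw [F_inv x _ hne]
          ring
        rw [h12, h10, neg_zero]) μ0 μ0.2
    rw [hg'] at h4
    exact h4
  have hunit : IsUnit A := Matrix.linearIndependent_rows_iff_isUnit.1 hrow
  have hinj : Function.Injective A.mulVec := Matrix.mulVec_injective_iff_isUnit.2 hunit
  have hv : A.mulVec (fun ν : II d => L (z1 ^ (ν : ℕ))) = 0 := by
    funext μ
    rw [Pi.zero_apply, ← hsum μ μ.2, ← Finset.sum_coe_sort (II d)]
    rfl
  have hz : (fun ν : II d => L (z1 ^ (ν : ℕ))) = 0 := hinj (by rw [hv, Matrix.mulVec_zero])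
  have h1 : 1 ∈ II d := by
    unfold II
    exact mem_filter.2 ⟨mem_range.2 (by omega), Nat.coprime_one_left d, by omega⟩
  have h3 := congrFun hz ⟨1, h1⟩
  simpa using h3

theorem odd_zero (p d : ℕ) [Fact p.Prime] (hp2 : p ≠ 2) (hd : 3 ≤ d) (hpd : ¬ p ∣ d)
    (hind : LinearIndepOn (AlgebraicClosure (ZMod p)) (vc p d) (MS p d : Set ℕ))
    (hM : dn p d = 0)
    (L : AlgebraicClosure (ZMod p) → AlgebraicClosure (ZMod p)) (hL : ∀ z, L z⁻¹ = - L z)
    (h : ∀ c : ℕ, c.Coprime d →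
      ∑ z ∈ primitiveRoots d (AlgebraicClosure (ZMod p)), ((z ^ c + 1) / (z ^ c - 1)) * L z = 0) :
    ∀ z, IsPrimitiveRoot z d → L z = 0 := by
  have hp : p.Prime := Fact.out
  have h2 : (2 : AlgebraicClosure (ZMod p)) ≠ 0 := by
    intro h0
    have h1 : ((2 : ℕ) : AlgebraicClosure (ZMod p)) = 0 := by exact_mod_cast h0
    have h3 := (CharP.cast_eq_zero_iff (AlgebraicClosure (ZMod p)) p 2).1 h1
    exact hp2 ((Nat.prime_dvd_prime_iff_eq hp Nat.prime_two).1 h3)
  have hMS : MS p d = II d := by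
    rw [dn_eq] at hM
    exact Finset.eq_of_subset_of_card_le (MS_sub p d) (by omega)
  rw [hMS] at hind
  exact core_odd h2 hd hind L hL h

end Pool.Agent.TH10.RP
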