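import Mathlib
import Pool.Agent.TH10.RP.Defect

set_option autoImplicit false

namespace Pool.Agent.TH10.RP

open Finset

private lemma tot_ge (l : ℕ) (hl : 3 ≤ l) : l ^ 2 ≤ 4 * (∑ m ∈ Icc 3 l, m.totient + 2) := by
  have h := totient_sum l
  have e1 : range (l + 1) = range 3 ∪ Icc 3 l := by
    ext x
    rw [mem_union, mem_range, mem_range, mem_Icc]
    omega
  have e2 : Disjoint (range 3) (Icc 3 l) := by
    rw [disjoint_left]
    intro x h5 h6
    rw [mem_range] at h5
    rw [mem_Icc] at h6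
    omega
  rw [e1, sum_union e2] at h
  have h3 : ∑ e ∈ range 3, e.totient = 2 := by decide
  rw [h3] at h
  omega

private lemma count_gen (l B T : ℕ) (hB : 2 ≤ B) (hR : 4 * l ^ 3 ≤ B ^ 4) (S : Finset ℕ)
    (hS : ∀ p ∈ S, p.Prime ∧ l < p ∧ B ≤ p ∧ T ≤ ∑ m ∈ Icc 3 l, m.totient * dn p m) :
    S.card * T ≤ l ^ 3 := by
  calc S.card * T = ∑ _p ∈ S, T := by rw [sum_const, smul_eq_mul]
    _ ≤ ∑ p ∈ S, ∑ m ∈ Icc 3 l, m.totient * dn p m :=
        sum_le_sum fun p hp => (hS p hp).2.2.2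
    _ = ∑ m ∈ Icc 3 l, m.totient * ∑ p ∈ S, dn p m := by
        rw [sum_comm]
        exact sum_congr rfl fun m _ => by rw [mul_sum]
    _ ≤ ∑ m ∈ Icc 3 l, l * l := by
        refine sum_le_sum fun m hm => ?_
        rw [mem_Icc] at hm
        have h1 := sum_dn m B hm.1 hB
          (le_trans (Nat.mul_le_mul_left _ (Nat.pow_le_pow_left hm.2 3)) hR) S
          (fun p hp => ⟨(hS p hp).1, lt_of_le_of_lt hm.2 (hS p hp).2.1, (hS p hp).2.2.1⟩)
        have h2 := card_II hm.1
        have h3 := Nat.totient_le m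
        exact Nat.mul_le_mul (h3.trans hm.2) (by omega)
    _ ≤ l ^ 3 := by
        rw [sum_const, Nat.card_Icc, smul_eq_mul]
        have h4 : l + 1 - 3 ≤ l := by omega
        calc (l + 1 - 3) * (l * l) ≤ l * (l * l) := Nat.mul_le_mul_right _ h4
          _ = l ^ 3 := by ring

private lemma weight (p l N : ℕ) (hl : 3 ≤ l)
    (h : ∑ m ∈ (Icc 3 l).filter (fun m => dn p m = 0), m.totient ≤ 2 * N) :
    l ^ 2 ≤ 4 * (2 * N + 2 + ∑ m ∈ Icc 3 l, m.totient * dn p m) := by
  have h1 := tot_ge l hl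
  have h2 := Finset.sum_filter_add_sum_filter_not (Icc 3 l) (fun m => dn p m = 0)
    (fun m => m.totient)
  have h3 : ∑ m ∈ (Icc 3 l).filter (fun m => ¬ dn p m = 0), m.totient ≤
      ∑ m ∈ Icc 3 l, m.totient * dn p m := by
    refine le_trans (sum_le_sum (g := fun m => m.totient * dn p m) fun m hm => ?_)
      (sum_le_sum_of_subset (filter_subset _ _))
    have h4 : dn p m ≠ 0 := (mem_filter.1 hm).2
    exact Nat.le_mul_of_pos_right _ (Nat.pos_of_ne_zero h4)
  omega

theorem two_count : ∃ C : ℕ, ∀ (X : ℕ) (S : Finset ℕ),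
    (∀ p ∈ S, p.Prime ∧ ∃ N ≤ X, 2 ≤ N ∧ 2 * N + 3 ≤ p ∧
      ∀ l : ℕ, l < p → ∑ m ∈ (Icc 3 l).filter (fun m => dn p m = 0), m.totient ≤ 2 * N) →
    S.card ^ 2 ≤ C * X := by
  classical
  refine ⟨300000 ^ 2, fun X S hS => ?_⟩
  rcases S.eq_empty_or_nonempty with hSe | hSne
  · subst hSe; simp
  have hX : 1 ≤ X := by
    obtain ⟨p, hp⟩ := hSne
    obtain ⟨-, N, hN, hN2, -⟩ := hS p hp
    omega
  set J := Nat.log 16 X with hJ
  set T : ℕ → Finset ℕ := fun j => S.filter (fun p => 2 ≤ j ∧ 2 * 16 ^ j + 3 ≤ p ∧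
      31 * 16 ^ j ≤ ∑ m ∈ Icc 3 (16 * 4 ^ j), m.totient * dn p m) with hT
  set T0 : Finset ℕ := S.filter (fun p => 65 ≤ p ∧
      1 ≤ ∑ m ∈ Icc 3 64, m.totient * dn p m) with hT0
  have hT0card : T0.card ≤ 64 ^ 3 := by
    have h := count_gen 64 65 1 (by norm_num) (by norm_num) T0 (fun p hp => by
      rw [hT0, mem_filter] at hp
      exact ⟨(hS p hp.1).1, by omega, hp.2.1, hp.2.2⟩)
    omega
  have hTcard : ∀ j, (T j).card ≤ 133 * 4 ^ j := by
    intro j
    rcases Nat.lt_or_ge j 2 with h7 | h7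
    · have h8 : T j = ∅ := by
        rw [hT]
        simp only
        rw [filter_eq_empty_iff]
        intro p _ h
        omega
      rw [h8]
      simp
    · have h16 : (16 : ℕ) ^ j = 4 ^ j * 4 ^ j := by rw [← mul_pow]; norm_num
      have ha16 : 16 ≤ 4 ^ j := by
        calc 16 = 4 ^ 2 := by norm_num
          _ ≤ 4 ^ j := Nat.pow_le_pow_right (by norm_num) h7
      have hTj : ∀ p ∈ T j, p ∈ S ∧ 2 * (4 ^ j * 4 ^ j) + 3 ≤ p ∧
          31 * (4 ^ j * 4 ^ j) ≤ ∑ m ∈ Icc 3 (16 * 4 ^ j), m.totient * dn p m := by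
        intro p hp
        rw [hT] at hp
        simp only at hp
        rw [mem_filter, h16] at hp
        exact ⟨hp.1, hp.2.2.1, hp.2.2.2⟩
      set a := 4 ^ j with ha
      have h := count_gen (16 * a) (2 * (a * a)) (31 * (a * a)) (by nlinarith) (by
          have h5 : 16 ^ 5 * a ^ 3 ≤ a ^ 5 * a ^ 3 :=
            Nat.mul_le_mul_right _ (Nat.pow_le_pow_left ha16 5)
          calc 4 * (16 * a) ^ 3 = 16384 * a ^ 3 := by ring
            _ ≤ 16 * (16 ^ 5 * a ^ 3) := by nlinarith [Nat.zero_le (a ^ 3)]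
            _ ≤ 16 * (a ^ 5 * a ^ 3) := Nat.mul_le_mul_left _ h5
            _ = (2 * (a * a)) ^ 4 := by ring) (T j) (fun p hp => by
          obtain ⟨q1, q2, q3⟩ := hTj p hp
          refine ⟨(hS p q1).1, ?_, by omega, q3⟩
          nlinarith)
      have h2 : (T j).card * 31 * (a * a) ≤ (4096 * a) * (a * a) := by
        calc (T j).card * 31 * (a * a) = (T j).card * (31 * (a * a)) := by ring
          _ ≤ (16 * a) ^ 3 := h
          _ = (4096 * a) * (a * a) := by ring
      have h3 : 0 < a * a := by positivity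
      have h4 := Nat.le_of_mul_le_mul_right h2 h3
      omega
  have hsub : S ⊆ (range 65 ∪ T0) ∪ (range (J + 1)).biUnion T := by
    intro p hp
    obtain ⟨hpp, N, hNX, hN2, hN, hall⟩ := hS p hp
    rw [mem_union, mem_union, mem_range]
    rcases Nat.lt_or_ge p 65 with h | h
    · exact Or.inl (Or.inl h)
    rcases Nat.lt_or_ge N 256 with h' | h'
    · left
      right
      rw [hT0, mem_filter]
      have h1 := weight p 64 N (by norm_num) (hall 64 (by omega))
      exact ⟨hp, h, by omega⟩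
    · right
      have h1 : 16 ^ Nat.log 16 N ≤ N := Nat.pow_log_le_self 16 (by omega)
      have h2 : N < 16 ^ (Nat.log 16 N + 1) := Nat.lt_pow_succ_log_self (by norm_num) N
      have h3 : 2 ≤ Nat.log 16 N := (Nat.le_log_iff_pow_le (by norm_num) (by omega)).2 (by
        norm_num; exact h')
      rw [mem_biUnion]
      refine ⟨Nat.log 16 N, ?_, ?_⟩
      · rw [mem_range]
        have h2 := (Nat.le_log_iff_pow_le (b := 16) (by norm_num) (by omega)).2 (h1.trans hNX)
        omega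
      · rw [hT]
        simp only
        rw [mem_filter]
        generalize Nat.log 16 N = j at h1 h2 h3
        have h16 : (16 : ℕ) ^ j = 4 ^ j * 4 ^ j := by rw [← mul_pow]; norm_num
        have ha16 : 16 ≤ 4 ^ j := by
          calc 16 = 4 ^ 2 := by norm_num
            _ ≤ 4 ^ j := Nat.pow_le_pow_right (by norm_num) h3
        have hlp : 16 * 4 ^ j < p := by
          have h8 : 2 * (4 ^ j * 4 ^ j) + 3 ≤ p := by rw [← h16]; omega
          nlinarith
        refine ⟨hp, h3, by omega, ?_⟩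
        have h5 := weight p (16 * 4 ^ j) N (by omega) (hall _ hlp)
        have h6 : (16 * 4 ^ j) ^ 2 = 256 * 16 ^ j := by
          rw [mul_pow, ← pow_mul, mul_comm j 2, pow_mul]
          norm_num
        rw [h6] at h5
        rw [pow_succ] at h2
        omega
  have h1 := card_le_card hsub
  have h2 := card_union_le (range 65 ∪ T0) ((range (J + 1)).biUnion T)
  have h2' := card_union_le (range 65) T0
  rw [card_range] at h2'
  have h3 : ((range (J + 1)).biUnion T).card ≤ 178 * 4 ^ J := by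
    refine card_biUnion_le.trans ((sum_le_sum fun j _ => hTcard j).trans ?_)
    rw [← mul_sum]
    have h5 : 3 * ∑ i ∈ range (J + 1), 4 ^ i ≤ 4 ^ (J + 1) := by
      have h6 : ∀ n : ℕ, 3 * ∑ i ∈ range n, 4 ^ i ≤ 4 ^ n := by
        intro n
        induction n with
        | zero => simp
        | succ n ih => rw [sum_range_succ, pow_succ]; omega
      exact h6 _
    rw [pow_succ] at h5
    omega
  have h4 : 1 ≤ 4 ^ J := Nat.one_le_pow _ _ (by norm_num)
  have h5 : S.card ≤ 300000 * 4 ^ J := by omega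
  have h6 : 16 ^ J ≤ X := Nat.pow_log_le_self 16 (by omega)
  calc S.card ^ 2 ≤ (300000 * 4 ^ J) ^ 2 := Nat.pow_le_pow_left h5 2
    _ = 300000 ^ 2 * 16 ^ J := by
        rw [mul_pow, ← pow_mul, mul_comm J 2, pow_mul]
        norm_num
    _ ≤ 300000 ^ 2 * X := Nat.mul_le_mul_left _ h6

end Pool.Agent.TH10.RP
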