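import Mathlib
import Pool.Agent.TH10.RP.TP6

/-!
# The functional that kills all double products
-/

set_option autoImplicit false

namespace Pool.Agent.TH10.RP

open Finset

section Abs2

variable {k K : Type} [Field k] [Field K] [Algebra k K]

variable (l : ℕ) (hchar : ∀ m : ℕ, 1 ≤ m → m ≤ l → (m : k) ≠ 0)
  (hroot : ∀ m : ℕ, 1 ≤ m → m ≤ l → ∃ ζ : k, IsPrimitiveRoot ζ m)
  (x : K) (hx : ∀ z : k, x ≠ algebraMap k K z) (hxm : ∀ m : ℕ, 1 ≤ m → m ≤ l → x ^ m ≠ 1)
  (Λ : K →ₗ[k] k) (h1 : Λ 1 = 0)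

include hchar hroot hx hxm h1

theorem main_two [DecidableEq k]
    (hF : Λ (FF x 1) = 0)
    (hFF : ∀ a b, 1 ≤ a → a ≤ l → 1 ≤ b → b ≤ l → Λ (FF x a * FF x b) = 0) :
    ∀ m, 1 ≤ m → m ≤ l →
      ∀ c : ℕ, c.Coprime m → ∑ z ∈ (mu k m).erase 1, FF z c * Λ (PH x z) = 0 := by
  intro m
  induction m using Nat.strong_induction_on with
  | _ m ih =>
  intro hm hml
  have hone : Λ (PH x (1 : k)) = 0 := by
    rw [PH_one]
    exact hF
  have hcop : ∀ (a : ℕ) (z : k), a.Coprime m → z ∈ mu k m → z ≠ 1 → z ^ a ≠ 1 := by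
    intro a z hc hz hz1 hza
    apply hz1
    have h2 : orderOf z ∣ m := orderOf_dvd_of_pow_eq_one ((mem_mu hm).1 hz)
    have h3 : orderOf z ∣ a := orderOf_dvd_of_pow_eq_one hza
    have h4 : orderOf z = 1 := Nat.eq_one_of_dvd_coprimes hc h3 h2
    exact orderOf_eq_one_iff.1 h4
  have hcop' : ∀ (a : ℕ) (y : k), 1 ≤ a → a.Coprime m → y ∈ mu k a → y ≠ 1 → y ^ m ≠ 1 := by
    intro a y ha hc hy hy1 hym
    exact hcop a y hc ((mem_mu hm).2 hym) hy1 ((mem_mu ha).1 hy)
  intro c hc
  rcases Nat.lt_or_ge m 2 with hm2 | hm2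
  · have : m = 1 := by omega
    subst this
    refine sum_eq_zero fun z hz => ?_
    rw [mem_erase, mem_mu le_rfl, pow_one] at hz
    exact absurd hz.2 hz.1
  · set a := c % m with hadef
    have ham : a < m := Nat.mod_lt _ (by omega)
    have hac : a.Coprime m := by
      rw [hadef, Nat.Coprime, ← Nat.gcd_rec, Nat.gcd_comm]
      exact hc
    have ha : 1 ≤ a := by
      rcases Nat.eq_zero_or_pos a with h | h
      · rw [h, Nat.coprime_zero_left] at hac
        omega
      · exact h
    have hFz : ∀ z ∈ mu k m, FF z c = FF z a := by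
      intro z hz
      have h2 : z ^ c = z ^ a := by
        rw [hadef, ← pow_mod_orderOf z c]
        have h3 : orderOf z ∣ m := orderOf_dvd_of_pow_eq_one ((mem_mu hm).1 hz)
        rw [← pow_mod_orderOf z (c % m), Nat.mod_mod_of_dvd _ h3]
      unfold FF
      rw [h2]
    have hD := ih a ham ha (by omega)
    -- the sum over all roots
    have h3 := sumPH m (hchar m hm hml) (hroot m hm hml) x (hxm m hm hml)
    have h4 : ∑ z ∈ (mu k m).erase 1, Λ (PH x z * FF x a) = 0 := by
      have h5 : ∑ z ∈ mu k m, Λ (PH x z * FF x a) = 0 := by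
        rw [← map_sum, ← sum_mul, h3]
        have : (m : K) * FF x m * FF x a = (m : k) • (FF x m * FF x a) := by
          rw [Algebra.smul_def, map_natCast]
          ring
        rw [this, map_smul, hFF m a hm hml ha (by omega), smul_zero]
      rw [← add_sum_erase _ _ ((mem_mu hm).2 (one_pow _)), PH_one,
        hFF 1 a le_rfl (by omega) ha (by omega), zero_add] at h5
      exact h5
    have h5 : ∀ z ∈ (mu k m).erase 1, Λ (PH x z * FF x a) =
        FF z c * Λ (PH x z) - (a : k)⁻¹ * ∑ y ∈ mu k a, ga z y * Λ (PH x y) := by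
      intro z hz
      rw [mem_erase] at hz
      rw [P1 l hchar hroot x hx hxm Λ h1 a ha (by omega) z (hcop a z hac hz.2 hz.1), hFz z hz.2]
    rw [sum_congr rfl h5, sum_sub_distrib, ← mul_sum, sum_comm] at h4
    have h6 : ∑ y ∈ mu k a, ∑ z ∈ (mu k m).erase 1, ga z y * Λ (PH x y) = 0 := by
      rw [← add_sum_erase _ _ ((mem_mu ha).2 (one_pow _))]
      have h7 : ∑ z ∈ (mu k m).erase 1, ga z 1 * Λ (PH x (1 : k)) = 0 := by
        rw [hone]; simp
      rw [h7, zero_add]
      have h8 : ∀ y ∈ (mu k a).erase 1, ∑ z ∈ (mu k m).erase 1, ga z y * Λ (PH x y) =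
          FF y 1 * Λ (PH x y) - m * (FF y m * Λ (PH x y)) := by
        intro y hy
        rw [mem_erase] at hy
        rw [← sum_mul]
        have h9 : ∑ z ∈ (mu k m).erase 1, ga z y = FF y 1 - m * FF y m := by
          have h10 := sum_ga m (hchar m hm hml) (hroot m hm hml) y
            (hcop' a y ha hac hy.2 hy.1)
          rw [← add_sum_erase _ _ ((mem_mu hm).2 (one_pow _))] at h10
          have h11 : ∑ z ∈ (mu k m).erase 1, ga z y = - ∑ z ∈ (mu k m).erase 1, ga y z := by
            rw [← sum_neg_distrib]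
            exact sum_congr rfl fun z _ => ga_anti z y
          have h12 : ga y 1 = FF y 1 := by
            unfold ga FF
            rw [pow_one]
          rw [h12] at h10
          rw [h11]
          linear_combination -h10
        rw [h9]
        ring
      rw [sum_congr rfl h8, sum_sub_distrib, ← mul_sum, hD 1 (Nat.coprime_one_left _),
        hD m hac.symm]
      simp
    rw [h6, mul_zero, sub_zero] at h4
    exact h4

theorem main_two_prim [DecidableEq k]
    (hF : Λ (FF x 1) = 0)
    (hFF : ∀ a b, 1 ≤ a → a ≤ l → 1 ≤ b → b ≤ l → Λ (FF x a * FF x b) = 0) :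
    ∀ m, 2 ≤ m → m ≤ l →
      ∀ c : ℕ, c.Coprime m → ∑ z ∈ primitiveRoots m k, FF z c * Λ (PH x z) = 0 := by
  intro m
  induction m using Nat.strong_induction_on with
  | _ m ih =>
  intro hm hml c hc
  have h2 := main_two l hchar hroot x hx hxm Λ h1 hF hFF m (by omega) hml c hc
  have h3 : (mu k m).erase 1 = (m.divisors.erase 1).biUnion (fun e => primitiveRoots e k) := by
    ext z
    rw [mem_erase, mem_mu (by omega), mem_biUnion]
    constructor
    · rintro ⟨h4, h5⟩
      refine ⟨orderOf z, ?_, ?_⟩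
      · rw [mem_erase, Nat.mem_divisors]
        exact ⟨fun h => h4 (orderOf_eq_one_iff.1 h), orderOf_dvd_of_pow_eq_one h5, by omega⟩
      · rw [mem_primitiveRoots (Nat.pos_of_dvd_of_pos (orderOf_dvd_of_pow_eq_one h5) (by omega))]
        exact IsPrimitiveRoot.orderOf z
    · rintro ⟨e, he, hz⟩
      rw [mem_erase, Nat.mem_divisors] at he
      have hz' := isPrimitiveRoot_of_mem_primitiveRoots hz
      refine ⟨?_, ?_⟩
      · intro h
        rw [h] at hz'
        exact he.1 (hz'.unique IsPrimitiveRoot.one)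
      · obtain ⟨d, hd⟩ := he.2.1
        rw [hd, pow_mul, hz'.pow_eq_one, one_pow]
  rw [h3, sum_biUnion (fun e _ e' _ hee => IsPrimitiveRoot.disjoint hee)] at h2
  rw [← add_sum_erase _ _ (show m ∈ m.divisors.erase 1 by
    rw [mem_erase, Nat.mem_divisors]; exact ⟨by omega, dvd_rfl, by omega⟩)] at h2
  have h9 : ∑ e ∈ (m.divisors.erase 1).erase m,
      ∑ z ∈ primitiveRoots e k, FF z c * Λ (PH x z) = 0 := by
    refine sum_eq_zero fun e he => ?_
    rw [mem_erase, mem_erase, Nat.mem_divisors] at he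
    have h5 : e ≤ m := Nat.le_of_dvd (by omega) he.2.2.1
    have h6 : 0 < e := Nat.pos_of_dvd_of_pos he.2.2.1 (by omega)
    have h7 : e ≠ 1 := he.2.1
    have h8 : e ≠ m := he.1
    exact ih e (by omega) (by omega) (by omega) c (Nat.Coprime.coprime_dvd_right he.2.2.1 hc)
  rw [h9, add_zero] at h2
  exact h2

end Abs2

end Pool.Agent.TH10.RP
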