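import Mathlib
import Pool.Agent.TH10.RP.TK3

/-!
# The power series side for two summands
-/

set_option autoImplicit false

namespace Pool.Agent.TH10.RP

open Finset PowerSeries Pool.Agent.H582R5.RP Pool.Agent.H332R2

section Ser2

variable (p : ℕ) [Fact p.Prime]

lemma PZ_sum (n : ℕ) (hn : n < p) (z : kk p) (hz : z ≠ 1) (hz0 : z ≠ 0) :
    (-1) ^ n * coeff n (PZ p z) + coeff n (PZ p z⁻¹) = 0 := by
  have hz' : z⁻¹ ≠ 1 := by
    intro h
    exact hz (inv_eq_one.1 h)
  have h1 := congrArg (rescale (-1 : kk p)) (PZ_mul p z hz)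
  rw [map_mul, map_sub, map_add, resc_EE] at h1
  have hC : rescale (-1 : kk p) (C z) = C z := by
    ext n
    rw [coeff_rescale, coeff_C]
    split_ifs with h
    · rw [h]; simp
    · simp
  rw [hC] at h1
  have h2 := PZ_mul p z⁻¹ hz'
  have h3 : (X : PowerSeries (kk p)) ^ p ∣ EE p * ee (-1) - 1 := by
    rw [X_pow_dvd_iff]
    have := qm_ee_add (K := kk p) p p le_rfl (1 : kk p) (-1)
    rw [add_neg_cancel, ee_zero, ← map_mul, qm_eq_iff] at this
    intro m hm
    rw [map_sub, ← this m hm, sub_self]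
  obtain ⟨R, hR⟩ := h3
  set S := rescale (-1 : kk p) (PZ p z) with hS
  set T := PZ p z⁻¹ with hT
  have hCC : C z * C z⁻¹ = (1 : PowerSeries (kk p)) := by
    rw [← map_mul, mul_inv_cancel₀ hz0, map_one]
  have h4 : (1 - C z * EE p) * (S + T) = X ^ p * (R * (1 - S)) := by
    have h5 : (1 - C z * EE p) * S + X ^ p * R * S = 1 + C z * EE p + X ^ p * R := by
      linear_combination (EE p) * h1 + (1 - S) * hR
    have h6 : (C z * EE p - 1) * T = C z * EE p + 1 := by
      linear_combination (C z) * h2 + (T + 1) * hCC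
    linear_combination h5 - h6
  have h7 : constantCoeff (1 - C z * EE p) ≠ 0 := by
    rw [map_sub, map_mul, EE_const, constantCoeff_C, map_one, mul_one, sub_ne_zero]
    exact hz.symm
  have h8 : S + T = X ^ p * (R * (1 - S) * (1 - C z * EE p)⁻¹) := by
    have h9 := PowerSeries.mul_inv_cancel _ h7
    linear_combination (1 - C z * EE p)⁻¹ * h4 - (S + T) * h9
  have h10 := congrArg (coeff n) h8
  rw [map_add, coeff_X_pow_mul', if_neg (by omega), hS, coeff_rescale] at h10
  exact h10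

/-- the functional -/
noncomputable def LB (N : ℕ) : KK p →ₗ[kk p] kk p where
  toFun G := (ph p X ^ 2 * G).coeff ((2 * N : ℕ) : ℤ)
  map_add' G H := by rw [mul_add, HahnSeries.coeff_add]
  map_smul' c G := by
    have h0 : c • G = ph p (C c) * G := by
      rw [ph_C]
      exact Algebra.smul_def c G
    have h : ph p (C c) = HahnSeries.C c := HahnSeries.ofPowerSeries_C c
    rw [h0, mul_left_comm, h, HahnSeries.C_mul_eq_smul, HahnSeries.coeff_smul, RingHom.id_apply,
      smul_eq_mul]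

lemma LB_apply (N : ℕ) (G : KK p) (P : PowerSeries (kk p)) (h : ph p X ^ 2 * G = ph p P) :
    LB p N G = coeff (2 * N) P := by
  change (ph p X ^ 2 * G).coeff ((2 * N : ℕ) : ℤ) = _
  rw [h]
  exact HahnSeries.ofPowerSeries_apply_coeff P (2 * N)

variable (N : ℕ) (hN : 2 * N + 3 ≤ p) (hN2 : 2 ≤ N)
  (hno : ∀ i, i ≤ N → cc p (2 * i) = 0 ∨ cc p (2 * (N - i)) = 0)

include hN hno in
lemma LB_double (a b : ℕ) (ha : (a : kk p) ≠ 0) (hb : (b : kk p) ≠ 0) :
    LB p N (FF (xx p) a * FF (xx p) b) = 0 := by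
  obtain ⟨A, hA1, hA2⟩ := exists_G p (by omega) a ha
  obtain ⟨B, hB1, hB2⟩ := exists_G p (by omega) b hb
  rw [LB_apply p N _ (A * B)]
  · rw [coeff_mul]
    refine sum_eq_zero fun y hy => ?_
    rw [HasAntidiagonal.mem_antidiagonal] at hy
    have g1 := hA2 y.1 (by omega)
    have g2 := hB2 y.2 (by omega)
    rcases Nat.even_or_odd' y.1 with ⟨i, hi | hi⟩
    · rcases hno i (by omega) with h | h
      · rw [← hi] at h
        rw [g1.2 h, zero_mul]
      · rw [show 2 * (N - i) = y.2 by omega] at h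
        rw [g2.2 h, mul_zero]
    · rw [g1.1 ⟨i, hi⟩, zero_mul]
  · rw [map_mul, ← FF_eq p a ha A hA1, ← FF_eq p b hb B hB1]
    ring

include hN hN2 in
lemma LB_single : LB p N (FF (xx p) 1) = 0 := by
  obtain ⟨A, hA1, hA2⟩ := exists_G p (by omega) 1 (by simp)
  rw [LB_apply p N _ (X * A)]
  · rw [show 2 * N = (2 * N - 1) + 1 by omega, coeff_succ_X_mul]
    exact (hA2 (2 * N - 1) (by omega)).1 ⟨N - 1, by omega⟩
  · rw [map_mul, ← FF_eq p 1 (by simp) A hA1]
    ring

include hN2 in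
lemma LB_one : LB p N 1 = 0 := by
  rw [LB_apply p N 1 (X ^ 2)]
  · rw [coeff_X_pow, if_neg (by omega)]
  · rw [mul_one, map_pow]

include hN2 in
lemma LB_PH (z : kk p) (hz : z ≠ 1) : LB p N (PH (xx p) z) = coeff (2 * N - 2) (PZ p z) := by
  rw [LB_apply p N _ (X ^ 2 * PZ p z)]
  · rw [coeff_X_pow_mul', if_pos (by omega)]
  · rw [map_mul, map_pow]
    congr 1
    unfold PH
    rw [div_eq_iff (sub_ne_zero.2 (xx_ne p z)), ← ph_C, ← map_sub, ← map_add, ← map_mul,
      ← PZ_mul p z hz, mul_comm]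

include hN hN2 in
lemma LB_odd (z : kk p) : LB p N (PH (xx p) z⁻¹) = - LB p N (PH (xx p) z) := by
  have h0 : LB p N (PH (xx p) (0 : kk p)) = 0 := by
    have : PH (xx p) (0 : kk p) = 1 := by
      unfold PH
      rw [map_zero, add_zero, sub_zero]
      refine div_self ?_
      have := xx_ne p 0
      rwa [map_zero] at this
    rw [this, LB_one p N hN2]
  by_cases hz0 : z = 0
  · rw [hz0, inv_zero, h0, neg_zero]
  · by_cases hz1 : z = 1
    · rw [hz1, inv_one, PH_one, LB_single p N hN hN2, neg_zero]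
    · rw [LB_PH p N hN2 z hz1, LB_PH p N hN2 z⁻¹ (fun h => hz1 (inv_eq_one.1 h))]
      have h1 := PZ_sum p (2 * N - 2) (by omega) z hz1 hz0
      rw [Even.neg_one_pow ⟨N - 1, by omega⟩, one_mul] at h1
      linear_combination h1

end Ser2

end Pool.Agent.TH10.RP
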