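import Mathlib
import Pool.Agent.TH10.RP.TK1
import Pool.Agent.TH10.RP.TK2
import Pool.Agent.TH10.RP.TK4

/-!
# Sums of two regular indices, for almost all primes
-/

set_option autoImplicit false

namespace Pool.Agent.TH10.RP

open Finset Pool.Agent.H582R5.RP Pool.Agent.H332R2 Pool.Agent.TH350.SumReg

theorem two_exists (p : ℕ) [Fact p.Prime] (N : ℕ) (hN : 2 * N + 3 ≤ p) (hN2 : 2 ≤ N)
    (hno : ∀ i, i ≤ N → cc p (2 * i) = 0 ∨ cc p (2 * (N - i)) = 0) (l : ℕ) (hlp : l < p) :
    ∑ m ∈ (Icc 3 l).filter (fun m => dn p m = 0), m.totient ≤ 2 * N := by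
  classical
  by_contra hcon
  push Not at hcon
  have hchar : ∀ m : ℕ, 1 ≤ m → m ≤ l → (m : kk p) ≠ 0 := by
    intro m hm hml h
    rw [CharP.cast_eq_zero_iff (kk p) p] at h
    have := Nat.le_of_dvd hm h
    omega
  have hnd : ∀ m : ℕ, 1 ≤ m → m ≤ l → ¬ p ∣ m := by
    intro m hm hml h
    have := Nat.le_of_dvd hm h
    omega
  have hroot : ∀ m : ℕ, 1 ≤ m → m ≤ l → ∃ ζ : kk p, IsPrimitiveRoot ζ m := by
    intro m hm hml
    have : NeZero (m : kk p) := ⟨hchar m hm hml⟩
    exact HasEnoughRootsOfUnity.exists_primitiveRoot (kk p) m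
  have hmain := main_two_prim l hchar hroot (xx p) (xx_ne p)
    (fun m hm hml h => xx_pow_sub_ne p m (hchar m hm hml) (sub_eq_zero.2 h)) (LB p N)
    (LB_one p N hN2) (LB_single p N hN hN2)
    (fun a b ha hal hb hbl => LB_double p N hN hno a b (hchar a ha hal) (hchar b hb hbl))
  set Z : Finset (kk p) := ((Icc 3 l).filter (fun m => dn p m = 0)).biUnion
    (fun m => primitiveRoots m (kk p)) with hZ
  have hcard : 2 * N < Z.card := by
    rw [hZ, card_biUnion (fun m _ m' _ hmm => IsPrimitiveRoot.disjoint hmm)]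
    refine hcon.trans_le (le_of_eq (sum_congr rfl fun m hm => ?_))
    rw [mem_filter, mem_Icc] at hm
    obtain ⟨ζ, hζ⟩ := hroot m (by omega) hm.1.2
    exact hζ.card_primitiveRoots.symm
  have hZm : ∀ z ∈ Z, ∃ m, 3 ≤ m ∧ m ≤ l ∧ dn p m = 0 ∧ IsPrimitiveRoot z m := by
    intro z hz
    rw [hZ, mem_biUnion] at hz
    obtain ⟨m, hm, hz⟩ := hz
    rw [mem_filter, mem_Icc] at hm
    exact ⟨m, hm.1.1, hm.1.2, hm.2, isPrimitiveRoot_of_mem_primitiveRoots hz⟩
  have hZ01 : ∀ z ∈ Z, z ≠ 0 ∧ z ≠ 1 := by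
    intro z hz
    obtain ⟨m, hm1, hm2, -, hzm⟩ := hZm z hz
    constructor
    · exact hzm.ne_zero (by omega)
    · exact hzm.ne_one (by omega)
  refine many_zeros (two_ne p (by omega)) (EE p) (EE_const p) (EE_one p) (2 * N - 2) (by omega) Z
    hZ01 (by omega) (PZ p) (fun z hz => PZ_mul p z (hZ01 z hz).2) ?_
  intro z hz
  obtain ⟨m, hm1, hm2, hm3, hzm⟩ := hZm z hz
  rw [← LB_PH p N hN2 z (hZ01 z hz).2]
  have hpm := hnd m (by omega) hm2
  exact odd_zero p m (by omega) hm1 hpm (MS_indep_closure p m hpm) hm3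
    (fun z => LB p N (PH (xx p) z)) (LB_odd p N hN hN2) (fun c hc => hmain m (by omega) hm2 c hc) z hzm

lemma rep_le_tup (p : ℕ) [Fact p.Prime] (N : ℕ) (hN : 2 * N + 3 ≤ p) :
    (rep p N).card ≤ (tup p 2 N).card := by
  classical
  refine card_le_card_of_injOn (fun i => ![i, N - i]) ?_ ?_
  · intro i hi
    rw [mem_coe] at hi
    unfold rep at hi
    rw [mem_filter, mem_range] at hi
    have hw := (ww_iff p N i (by omega) hN).1 hi.2
    rw [mem_coe]
    unfold tup
    rw [mem_filter, Finset.Nat.mem_antidiagonalTuple, Fin.sum_univ_two]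
    refine ⟨?_, ?_⟩
    · simp
      omega
    · intro k
      fin_cases k
      · simpa using hw.1
      · simpa using hw.2
  · intro i _ j _ he
    have := congrFun he 0
    simpa using this

theorem two_almost_all : ∃ C : ℕ, ∀ (X : ℕ) (S : Finset ℕ),
    (∀ p ∈ S, p.Prime ∧ ∃ N ≤ X, 2 * N + 3 ≤ p ∧ C * (tup p 2 N).card ^ 4 < N ^ 2) →
    S.card ^ 2 ≤ C * X := by
  obtain ⟨C, hC⟩ := two_count
  refine ⟨C + 21, fun X S hS => ?_⟩
  refine (hC X S fun p hp => ?_).trans (Nat.mul_le_mul_right _ (by omega))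
  obtain ⟨hpp, N, hNX, hN, hlt⟩ := hS p hp
  have : Fact p.Prime := ⟨hpp⟩
  have hno : ∀ i, i ≤ N → cc p (2 * i) = 0 ∨ cc p (2 * (N - i)) = 0 := by
    intro i hi
    by_contra h
    push Not at h
    have h1 := rep_bound p N hN ⟨i, hi, by
      unfold ww
      exact mul_ne_zero h.1 h.2⟩
    have h2 : (rep p N).card = ((range (N + 1)).filter (fun i => ww p N i ≠ 0)).card := rfl
    rw [← h2] at h1
    have h3 := Nat.pow_le_pow_left (rep_le_tup p N hN) 2
    set t := (tup p 2 N).card with ht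
    have h4 : 2 * N ≤ 9 * t ^ 2 := by omega
    have h5 : (2 * N) ^ 2 ≤ (9 * t ^ 2) ^ 2 := Nat.pow_le_pow_left h4 2
    have h6 : (2 * N) ^ 2 = 4 * N ^ 2 := by ring
    have h7 : (9 * t ^ 2) ^ 2 = 81 * t ^ 4 := by ring
    have h8 : 21 * t ^ 4 ≤ (C + 21) * t ^ 4 := Nat.mul_le_mul_right _ (by omega)
    omega
  have h0 : cc p (2 * 0) ≠ 0 := by
    rw [Ne, cc_eq_zero_iff (by omega) (by omega)]
    rw [Nat.mul_zero, _root_.bernoulli_zero]
    intro h
    have := Int.le_of_dvd (by norm_num) h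
    simp at this
    omega
  have h1 : cc p (2 * 1) ≠ 0 := by
    by_cases h5 : 5 ≤ p
    · rw [Ne, cc_eq_zero_iff (by omega) (by omega), num_two]
      intro h
      have := Int.le_of_dvd (by norm_num) h
      omega
    · exfalso
      have : N = 0 := by omega
      subst this
      simp at hlt
  have hN2 : 2 ≤ N := by
    by_contra h
    have h2 : N = 0 ∨ N = 1 := by omega
    rcases h2 with rfl | rfl
    · rcases hno 0 le_rfl with h | h
      · exact h0 h
      · exact h0 h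
    · rcases hno 0 (by omega) with h | h
      · exact h0 h
      · exact h1 h
  exact ⟨hpp, N, hNX, hN2, hN, fun l hl => two_exists p N hN hN2 hno l hl⟩

/-- The final statement, for all `h ≥ 2`. -/
theorem final (h : ℕ) (hh : 2 ≤ h) : ∃ C : ℕ, ∀ (X : ℕ) (S : Finset ℕ),
    (∀ p ∈ S, p.Prime ∧ ∃ N ≤ X, 2 * N + 3 ≤ p ∧
      C * (tup p h N).card ^ 4 < N ^ (if h = 3 then 4 else 3 * h - 4)) →
    S.card ^ 2 ≤ C * X ^ (3 - h) := by
  classical
  rcases Nat.eq_or_lt_of_le hh with h3 | h3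
  · subst h3
    obtain ⟨C, hC⟩ := two_almost_all
    refine ⟨C, fun X S hS => ?_⟩
    have := hC X S fun p hp => by
      obtain ⟨h1, N, h2, h3, h4⟩ := hS p hp
      rw [if_neg (by norm_num)] at h4
      exact ⟨h1, N, h2, h3, h4⟩
    simpa using this
  · obtain ⟨C, hC⟩ := all_large h h3
    refine ⟨C + C ^ 2, fun X S hS => ?_⟩
    have h5 : S ⊆ range C := by
      intro p hp
      obtain ⟨h1, N, h2, h3, h4⟩ := hS p hp
      rw [mem_range]
      by_contra hcon
      have h6 := hC p h1 (by omega) N h3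
      have h7 : C * (tup p h N).card ^ 4 ≤ (C + C ^ 2) * (tup p h N).card ^ 4 :=
        Nat.mul_le_mul_right _ (by omega)
      omega
    have h8 : S.card ≤ C := by
      have := card_le_card h5
      rwa [card_range] at this
    have e : 3 - h = 0 := by omega
    rw [e, pow_zero, mul_one]
    have := Nat.pow_le_pow_left h8 2
    omega

end Pool.Agent.TH10.RP
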